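import Pool.Agent.Lib.MP_258d0c_pr.Core

open MeasureTheory ProbabilityTheory
open scoped ENNReal Classical InnerProductSpace

namespace Pool.Agent.Lib.MP_258d0c_pr

/-- the unnormalised one-block measure -/
noncomputable def blk_raw (k : ℕ) (b : ℝ) : Measure (EuclideanSpace ℝ (Fin k)) :=
  (volume.restrict (Metric.closedBall 0 1)).withDensity
    fun x : EuclideanSpace ℝ (Fin k) => ENNReal.ofReal ((1 - ‖x‖ ^ 2) ^ b)

theorem blk_oneBlock_def (k : ℕ) (b : ℝ) :
    oneBlock k b = (blk_raw k b Set.univ)⁻¹ • blk_raw k b := rfl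

theorem blk_meas (k : ℕ) (b : ℝ) :
    Measurable fun x : EuclideanSpace ℝ (Fin k) => ENNReal.ofReal ((1 - ‖x‖ ^ 2) ^ b) :=
  ENNReal.measurable_ofReal.comp ((measurable_const.sub (measurable_norm.pow_const 2)).pow_const b)

theorem blk_raw_ne_top (k : ℕ) {b : ℝ} (hb : 0 ≤ b) : blk_raw k b Set.univ ≠ ⊤ := by
  rw [blk_raw, withDensity_apply _ MeasurableSet.univ, Measure.restrict_univ]
  have h : ∫⁻ x in Metric.closedBall (0 : EuclideanSpace ℝ (Fin k)) 1,
      ENNReal.ofReal ((1 - ‖x‖ ^ 2) ^ b) ≤ ∫⁻ _ in Metric.closedBall (0 : EuclideanSpace ℝ (Fin k)) 1,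
        1 := by
    refine setLIntegral_mono' measurableSet_closedBall fun x hx => ?_
    rw [mem_closedBall_zero_iff] at hx
    have h0 := norm_nonneg x
    exact ENNReal.ofReal_le_one.mpr (Real.rpow_le_one (by nlinarith) (by nlinarith) hb)
  rw [setLIntegral_one] at h
  exact ne_top_of_le_ne_top measure_closedBall_lt_top.ne h

theorem blk_raw_lower (k : ℕ) {b : ℝ} (hb : 0 ≤ b) {A : Set (EuclideanSpace ℝ (Fin k))}
    (hA : MeasurableSet A) {t : ℝ} (ht : 0 ≤ t) (h : ∀ x ∈ A, t ≤ 1 - ‖x‖ ^ 2) :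
    ENNReal.ofReal (t ^ b) * volume A ≤ blk_raw k b A := by
  have hsub : A ⊆ Metric.closedBall 0 1 := by
    intro x hx
    rw [mem_closedBall_zero_iff]
    have h1 := h x hx
    have h0 := norm_nonneg x
    nlinarith
  rw [blk_raw, withDensity_apply _ hA, ← Measure.restrict_eq_self volume hsub, ← setLIntegral_const]
  exact setLIntegral_mono' hA fun x hx =>
    ENNReal.ofReal_le_ofReal (Real.rpow_le_rpow ht (h x hx) hb)

theorem blk_raw_ne_zero (k : ℕ) {b : ℝ} (hb : 0 ≤ b) : blk_raw k b Set.univ ≠ 0 := by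
  have h := blk_raw_lower k hb (A := Metric.ball 0 (1 / 2)) measurableSet_ball
    (t := 1 / 2) (by norm_num) (fun x hx => by
      rw [mem_ball_zero_iff] at hx
      have h0 := norm_nonneg x
      nlinarith)
  have hpos : 0 < ENNReal.ofReal ((1 / 2 : ℝ) ^ b) *
      volume (Metric.ball (0 : EuclideanSpace ℝ (Fin k)) (1 / 2)) :=
    ENNReal.mul_pos (ENNReal.ofReal_pos.mpr (Real.rpow_pos_of_pos (by norm_num) b)).ne'
      (Metric.measure_ball_pos volume _ (by norm_num)).ne'
  exact (hpos.trans_le (h.trans (measure_mono (Set.subset_univ _)))).ne'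

theorem oneBlock_prob (k : ℕ) {b : ℝ} (hb : 0 ≤ b) : IsProbabilityMeasure (oneBlock k b) := by
  constructor
  rw [blk_oneBlock_def, Measure.smul_apply, smul_eq_mul,
    ENNReal.inv_mul_cancel (blk_raw_ne_zero k hb) (blk_raw_ne_top k hb)]

/-- `oneBlock` is a finite positive multiple of the weighted Lebesgue measure -/
theorem oneBlock_eq (k : ℕ) {b : ℝ} (hb : 0 ≤ b) : ∃ c : ℝ, 0 < c ∧ oneBlock k b =
    ENNReal.ofReal c • (volume.restrict (Metric.closedBall 0 1)).withDensity
      fun x : EuclideanSpace ℝ (Fin k) => ENNReal.ofReal ((1 - ‖x‖ ^ 2) ^ b) := by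
  have h1 : (blk_raw k b Set.univ)⁻¹ ≠ ⊤ := ENNReal.inv_ne_top.mpr (blk_raw_ne_zero k hb)
  have h2 : (blk_raw k b Set.univ)⁻¹ ≠ 0 := ENNReal.inv_ne_zero.mpr (blk_raw_ne_top k hb)
  refine ⟨((blk_raw k b Set.univ)⁻¹).toReal, ENNReal.toReal_pos h2 h1, ?_⟩
  rw [ENNReal.ofReal_toReal h1]
  rfl

theorem oneBlock_ball {k : ℕ} (hk : 1 ≤ k) (b : ℝ) : oneBlock k b (Metric.ball 0 1)ᶜ = 0 := by
  have _ := hk
  have h : (volume.restrict (Metric.closedBall (0 : EuclideanSpace ℝ (Fin k)) 1))
      (Metric.ball 0 1)ᶜ = 0 := by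
    rw [Measure.restrict_apply measurableSet_ball.compl]
    refine measure_mono_null ?_ (Measure.addHaar_sphere_of_ne_zero volume 0 one_ne_zero)
    rintro x ⟨h1, h2⟩
    rw [Set.mem_compl_iff, mem_ball_zero_iff, not_lt] at h1
    rw [mem_closedBall_zero_iff] at h2
    rw [mem_sphere_zero_iff_norm]
    exact le_antisymm h2 h1
  rw [blk_oneBlock_def, Measure.smul_apply, blk_raw, withDensity_absolutelyContinuous _ _ h,
    smul_zero]

set_option backward.isDefEq.respectTransparency false in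
theorem blk_lintegral_pi {n : ℕ} {E : Fin n → Type} {mE : ∀ i, MeasurableSpace (E i)}
    {μ : ∀ i, Measure (E i)} [∀ i, SigmaFinite (μ i)] (f : ∀ i, E i → ℝ≥0∞)
    (hf : ∀ i, Measurable (f i)) :
    ∫⁻ x, ∏ i, f i (x i) ∂(Measure.pi μ) = ∏ i, ∫⁻ x, f i x ∂(μ i) := by
  induction n with
  | zero => simp
  | succ n ih =>
    calc
      _ = ∫⁻ x : E 0 × ((i : Fin n) → E (Fin.succ i)),
          f 0 x.1 * ∏ i : Fin n, f (Fin.succ i) (x.2 i)
          ∂((μ 0).prod (Measure.pi (fun i => μ i.succ))) := by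
        rw [← ((measurePreserving_piFinSuccAbove μ 0).symm).lintegral_comp_emb
          (MeasurableEquiv.measurableEmbedding _)]
        simp_rw [MeasurableEquiv.piFinSuccAbove_symm_apply, Fin.insertNthEquiv,
          Fin.prod_univ_succ, Fin.insertNth_zero, Equiv.coe_fn_mk, Fin.cons_succ,
          Fin.zero_succAbove, cast_eq, Fin.cons_zero]
      _ = (∫⁻ x, f 0 x ∂μ 0) *
          ∏ i : Fin n, ∫⁻ x : E (Fin.succ i), f (Fin.succ i) x ∂(μ i.succ) := by
        rw [← ih _ fun i => hf i.succ, ← lintegral_prod_mul (hf 0).aemeasurable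
          (Finset.measurable_prod _ fun i _ =>
            (hf i.succ).comp (measurable_pi_apply i)).aemeasurable]
      _ = ∏ i, ∫⁻ x, f i x ∂(μ i) := by rw [Fin.prod_univ_succ]

variable {m : ℕ} {d : Fin m → ℕ} {β : Fin m → ℝ}

theorem blk_body_eq (d : Fin m → ℕ) :
    body d = Set.univ.pi fun i => Metric.closedBall (0 : EuclideanSpace ℝ (Fin (d i))) 1 := by
  ext x
  simp [body]

theorem blk_obody_eq (d : Fin m → ℕ) :
    obody d = Set.univ.pi fun i => Metric.ball (0 : EuclideanSpace ℝ (Fin (d i))) 1 := by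
  ext x
  simp [obody]

theorem blk_rawMeasure_pi (d : Fin m → ℕ) (β : Fin m → ℝ)
    (s : ∀ i, Set (EuclideanSpace ℝ (Fin (d i)))) (hs : ∀ i, MeasurableSet (s i)) :
    rawMeasure d β (Set.univ.pi s) = ∏ i, blk_raw (d i) (β i) (s i) := by
  have hb : MeasurableSet (body d) := by
    rw [blk_body_eq]
    exact MeasurableSet.univ_pi fun _ => measurableSet_closedBall
  have h1 : rawMeasure d β = (volume.restrict (body d)).withDensity
      fun x => ∏ i, ENNReal.ofReal ((1 - ‖x i‖ ^ 2) ^ β i) := by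
    refine withDensity_congr_ae ?_
    filter_upwards [ae_restrict_mem hb] with x hx
    refine ENNReal.ofReal_prod_of_nonneg fun i _ => Real.rpow_nonneg ?_ _
    have h1 := hx i
    have h0 := norm_nonneg (x i)
    nlinarith
  rw [h1, withDensity_apply _ (MeasurableSet.univ_pi hs), blk_body_eq, volume_pi,
    Measure.restrict_pi_pi, Measure.restrict_pi_pi,
    blk_lintegral_pi _ fun i => blk_meas (d i) (β i)]
  exact Finset.prod_congr rfl fun i _ => (withDensity_apply _ (hs i)).symm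

theorem blockBeta_eq_pi (d : Fin m → ℕ) (hβ : ∀ i, 0 ≤ β i) :
    blockBeta d β = Measure.pi fun i => oneBlock (d i) (β i) := by
  have := fun i => oneBlock_prob (d i) (hβ i)
  refine (Measure.pi_eq fun s hs => ?_).symm
  have h1 : rawMeasure d β Set.univ = ∏ i, blk_raw (d i) (β i) Set.univ := by
    rw [← Set.pi_univ Set.univ]
    exact blk_rawMeasure_pi d β _ fun _ => MeasurableSet.univ
  rw [blockBeta, Measure.smul_apply, smul_eq_mul, h1, blk_rawMeasure_pi d β s hs,
    ENNReal.prod_inv_distrib fun i _ j _ _ => Or.inl (blk_raw_ne_zero (d i) (hβ i)),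
    ← Finset.prod_mul_distrib]
  rfl

theorem blockBeta_prob (d : Fin m → ℕ) (hβ : ∀ i, 0 ≤ β i) :
    IsProbabilityMeasure (blockBeta d β) := by
  have := fun i => oneBlock_prob (d i) (hβ i)
  rw [blockBeta_eq_pi d hβ]
  infer_instance

theorem measurableSet_body (d : Fin m → ℕ) : MeasurableSet (body d) := by
  rw [blk_body_eq]
  exact MeasurableSet.univ_pi fun _ => measurableSet_closedBall

theorem measurableSet_obody (d : Fin m → ℕ) : MeasurableSet (obody d) := by
  rw [blk_obody_eq]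
  exact MeasurableSet.univ_pi fun _ => measurableSet_ball

theorem blockBeta_obody (hd : ∀ i, 1 ≤ d i) (hβ : ∀ i, 0 ≤ β i) :
    blockBeta d β (obody d)ᶜ = 0 := by
  have := fun i => oneBlock_prob (d i) (hβ i)
  have := blockBeta_prob d hβ
  rw [prob_compl_eq_zero_iff (measurableSet_obody d), blockBeta_eq_pi d hβ, blk_obody_eq,
    Measure.pi_pi]
  exact Finset.prod_eq_one fun i _ =>
    (prob_compl_eq_zero_iff measurableSet_ball).mp (oneBlock_ball (hd i) (β i))

theorem blockBeta_affine (d : Fin m → ℕ) (β : Fin m → ℝ) (s : AffineSubspace ℝ (Amb d))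
    (hs : s ≠ ⊤) : blockBeta d β s = 0 := by
  have h : (volume.restrict (body d)) s = 0 :=
    Measure.absolutelyContinuous_of_le Measure.restrict_le_self
      (Measure.addHaar_affineSubspace volume s hs)
  rw [blockBeta, Measure.smul_apply, rawMeasure, withDensity_absolutelyContinuous _ _ h, smul_zero]

theorem finrank_amb (d : Fin m → ℕ) : Module.finrank ℝ (Amb d) = ∑ i, d i := by
  rw [Module.finrank_pi_fintype]
  simp

end Pool.Agent.Lib.MP_258d0c_pr
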