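import Pool.Agent.Lib.MP_258d0c_pr.Block

open MeasureTheory ProbabilityTheory
open scoped ENNReal Classical InnerProductSpace

namespace Pool.Agent.Lib.MP_258d0c_pr

theorem blo_linear {k : ℕ} (i0 : Fin k) (e : EuclideanSpace ℝ (Fin k)) (he : ‖e‖ = 1) {s : ℝ}
    (hs : 0 < s) : ∃ L : EuclideanSpace ℝ (Fin k) ≃L[ℝ] EuclideanSpace ℝ (Fin k),
      (∀ u, ⟪e, L u⟫_ℝ = -(s * u i0)) ∧
      (∀ u, ‖L u‖ ^ 2 = s ^ 2 * u i0 ^ 2 + s * (‖u‖ ^ 2 - u i0 ^ 2)) ∧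
      |LinearMap.det (L : EuclideanSpace ℝ (Fin k) →ₗ[ℝ] EuclideanSpace ℝ (Fin k))| =
        s ^ (((k : ℝ) + 1) / 2) := by
  let a : Fin k → ℝ := fun i => √s * (if i = i0 then -√s else 1)
  let D : EuclideanSpace ℝ (Fin k) →ₗ[ℝ] EuclideanSpace ℝ (Fin k) :=
    Matrix.toLpLin 2 2 (Matrix.diagonal a)
  have hD : ∀ u i, D u i = a i * u i := by
    intro u i
    exact Matrix.mulVec_diagonal a u.ofLp i
  have hsq : √s * √s = s := Real.mul_self_sqrt hs.le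
  have hDdet : LinearMap.det D = √s ^ k * -√s := by
    rw [LinearMap.det_toLpLin, Matrix.det_diagonal, Finset.prod_mul_distrib, Finset.prod_const,
      Finset.card_univ, Fintype.card_fin, Finset.prod_ite_eq', if_pos (Finset.mem_univ _)]
  let e0 : EuclideanSpace ℝ (Fin k) := EuclideanSpace.single i0 (1 : ℝ)
  have he0 : ‖e0‖ = ‖e‖ := by
    rw [he]
    simp [e0]
  let O := Submodule.reflection (ℝ ∙ (e0 - e))ᗮ
  have hO : O e0 = e := Submodule.reflection_sub he0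
  let f : EuclideanSpace ℝ (Fin k) →ₗ[ℝ] EuclideanSpace ℝ (Fin k) := O.toLinearMap ∘ₗ D
  have habs : |LinearMap.det f| = s ^ (((k : ℝ) + 1) / 2) := by
    rw [LinearMap.det_comp, Submodule.det_reflection, hDdet, abs_mul, abs_pow, abs_neg, abs_one,
      one_pow, one_mul, abs_mul, abs_neg, abs_pow, abs_of_nonneg (Real.sqrt_nonneg s), ← pow_succ,
      Real.sqrt_eq_rpow, ← Real.rpow_natCast, ← Real.rpow_mul hs.le]
    congr 1
    push_cast
    ring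
  have hdet : LinearMap.det f ≠ 0 := by
    rw [← abs_ne_zero, habs]
    exact (Real.rpow_pos_of_pos hs _).ne'
  refine ⟨(f.equivOfDetNeZero hdet).toContinuousLinearEquiv, fun u => ?_, fun u => ?_, ?_⟩
  · change ⟪e, O (D u)⟫_ℝ = _
    rw [← hO, O.inner_map_map, EuclideanSpace.inner_single_left, hD]
    simp only [a, if_pos, map_one, one_mul]
    linear_combination (-u i0) * hsq
  · change ‖O (D u)‖ ^ 2 = _
    rw [O.norm_map, EuclideanSpace.real_norm_sq_eq, EuclideanSpace.real_norm_sq_eq]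
    have h1 : ∀ i, D u i ^ 2 = s * u i ^ 2 + if i = i0 then (s ^ 2 - s) * u i ^ 2 else 0 := by
      intro i
      rw [hD]
      by_cases hi : i = i0
      · simp only [a, if_pos hi]
        linear_combination (u i ^ 2 * (√s * √s + s)) * hsq
      · simp only [a, if_neg hi]
        linear_combination (u i ^ 2) * hsq
    simp only [h1]
    rw [Finset.sum_add_distrib, ← Finset.mul_sum, Finset.sum_ite_eq', if_pos (Finset.mem_univ _)]
    ring
  · rw [← habs]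
    congr 2

theorem blo_height {k : ℕ} {i0 : Fin k} {e u v : EuclideanSpace ℝ (Fin k)} (he : ‖e‖ = 1) {s : ℝ}
    (hs : 0 < s) (hs1 : s ≤ 1) (h1 : ⟪e, v⟫_ℝ = -(s * u i0))
    (h2 : ‖v‖ ^ 2 = s ^ 2 * u i0 ^ 2 + s * (‖u‖ ^ 2 - u i0 ^ 2))
    (hu : u ∈ Metric.ball (EuclideanSpace.single i0 (1 : ℝ)) (1 / 10)) :
    s / 2 ≤ 1 - ‖e + v‖ ^ 2 ∧ u i0 ≤ 2 := by
  rw [mem_ball_iff_norm] at hu
  have h3 : ‖u - EuclideanSpace.single i0 (1 : ℝ)‖ ^ 2 = ‖u‖ ^ 2 - 2 * u i0 + 1 := by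
    rw [norm_sub_sq_real, EuclideanSpace.inner_single_right]
    simp
  have h4 : ‖u - EuclideanSpace.single i0 (1 : ℝ)‖ ^ 2 ≤ 1 / 100 := by
    have := norm_nonneg (u - EuclideanSpace.single i0 (1 : ℝ))
    nlinarith
  have h5 : u i0 ^ 2 ≤ ‖u‖ ^ 2 := by
    rw [EuclideanSpace.real_norm_sq_eq]
    exact Finset.single_le_sum (f := fun i => u i ^ 2) (fun i _ => sq_nonneg _) (Finset.mem_univ _)
  constructor
  · rw [norm_add_sq_real, he, h1, h2]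
    have h6 : 0 ≤ s * ((1 - s) * u i0 ^ 2) := by
      have := sub_nonneg.mpr hs1
      positivity
    have h7 : 0 ≤ s * (2 * u i0 - ‖u‖ ^ 2 - 1 / 2) := mul_nonneg hs.le (by linarith)
    nlinarith
  · nlinarith

theorem chart {k : ℕ} (hk : 0 < k) {b : ℝ} (hb : 0 ≤ b) {δ : ℝ} (hδ : 0 < δ) :
    ∃ c : ℝ, 0 < c ∧ ∀ e : EuclideanSpace ℝ (Fin k), ‖e‖ = 1 → ∀ s : ℝ, 0 < s → s ≤ 1 →
      ∃ L : EuclideanSpace ℝ (Fin k) ≃L[ℝ] EuclideanSpace ℝ (Fin k),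
        (∀ u, ⟪e, L u⟫_ℝ = -(s * u ⟨0, hk⟩)) ∧
        (∀ u, ‖L u‖ ^ 2 = s ^ 2 * u ⟨0, hk⟩ ^ 2 + s * (‖u‖ ^ 2 - u ⟨0, hk⟩ ^ 2)) ∧
        ∀ p, Metric.ball p δ ⊆ Metric.ball (EuclideanSpace.single ⟨0, hk⟩ (1 : ℝ)) (1 / 10) →
          ENNReal.ofReal (c * s ^ (((k : ℝ) + 1) / 2 + b)) ≤
            oneBlock k b ((fun u => e + L u) '' Metric.ball p δ) := by
  obtain ⟨c0, hc0, hone⟩ := oneBlock_eq k hb
  have hv0 : volume (Metric.ball (0 : EuclideanSpace ℝ (Fin k)) δ) ≠ 0 :=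
    (Metric.measure_ball_pos volume _ hδ).ne'
  have hv1 : volume (Metric.ball (0 : EuclideanSpace ℝ (Fin k)) δ) ≠ ⊤ := measure_ball_lt_top.ne
  have hv := ENNReal.toReal_pos hv0 hv1
  have hhalf : (0 : ℝ) < (1 / 2 : ℝ) ^ b := Real.rpow_pos_of_pos (by norm_num) b
  refine ⟨c0 * (1 / 2 : ℝ) ^ b * (volume (Metric.ball (0 : EuclideanSpace ℝ (Fin k)) δ)).toReal,
    by positivity, fun e he s hs hs1 => ?_⟩
  obtain ⟨L, h1, h2, h3⟩ := blo_linear ⟨0, hk⟩ e he hs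
  refine ⟨L, h1, h2, fun p hp => ?_⟩
  have himg : (fun u => e + L u) '' Metric.ball p δ =
      (fun x => -e + x) ⁻¹' (L '' Metric.ball p δ) := by
    rw [← Set.image_add_left, Set.image_image]
  have hmeas : MeasurableSet ((fun u => e + L u) '' Metric.ball p δ) := by
    rw [himg]
    exact (L.toHomeomorph.isOpenMap _ Metric.isOpen_ball).measurableSet.preimage
      (measurable_const_add _)
  have hvol : volume ((fun u => e + L u) '' Metric.ball p δ) =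
      ENNReal.ofReal (s ^ (((k : ℝ) + 1) / 2)) *
        volume (Metric.ball (0 : EuclideanSpace ℝ (Fin k)) δ) := by
    rw [himg, measure_preimage_add, Measure.addHaar_image_continuousLinearEquiv, h3,
      Measure.addHaar_ball_center]
  have hlow := blk_raw_lower k hb hmeas (t := s / 2) (by positivity) (by
    rintro _ ⟨u, hu, rfl⟩
    exact (blo_height he hs hs1 (h1 u) (h2 u) (hp hu)).1)
  rw [hone, Measure.smul_apply, smul_eq_mul]
  refine le_trans (le_of_eq ?_) (mul_le_mul_right hlow _)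
  rw [hvol, ← ENNReal.ofReal_toReal hv1, ENNReal.toReal_ofReal hv.le,
    ← ENNReal.ofReal_mul (by positivity), ← ENNReal.ofReal_mul (by positivity),
    ← ENNReal.ofReal_mul hc0.le, Real.rpow_add hs, div_eq_mul_one_div s 2,
    Real.mul_rpow hs.le (by norm_num)]
  congr 1
  ring

theorem cap_lower {k : ℕ} (hk : 0 < k) {b : ℝ} (hb : 0 ≤ b) :
    ∃ c : ℝ, 0 < c ∧ ∀ e : EuclideanSpace ℝ (Fin k), ‖e‖ = 1 → ∀ s : ℝ, 0 < s → s ≤ 1 →
      ENNReal.ofReal (c * s ^ (((k : ℝ) + 1) / 2 + b)) ≤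
        oneBlock k b {y | ‖y‖ ≤ 1 ∧ 1 - ⟪e, y⟫_ℝ ≤ s} := by
  obtain ⟨c, hc, h⟩ := chart hk hb (δ := 1 / 10) (by norm_num)
  have hhalf : (0 : ℝ) < (1 / 2 : ℝ) ^ (((k : ℝ) + 1) / 2 + b) :=
    Real.rpow_pos_of_pos (by norm_num) _
  refine ⟨c * (1 / 2 : ℝ) ^ (((k : ℝ) + 1) / 2 + b), by positivity, fun e he s hs hs1 => ?_⟩
  have hs2 : 0 < s / 2 := by positivity
  have hs3 : s / 2 ≤ 1 := by linarith
  obtain ⟨L, h1, h2, h3⟩ := h e he (s / 2) hs2 hs3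
  refine le_trans (le_of_eq ?_) ((h3 _ subset_rfl).trans (measure_mono ?_))
  · rw [div_eq_mul_one_div s 2, Real.mul_rpow hs.le (by norm_num)]
    congr 1
    ring
  · rintro _ ⟨u, hu, rfl⟩
    obtain ⟨h4, h5⟩ := blo_height he hs2 hs3 (h1 u) (h2 u) hu
    have h0 := norm_nonneg (e + L u)
    refine ⟨by nlinarith, ?_⟩
    rw [inner_add_right, real_inner_self_eq_norm_sq, he, h1]
    nlinarith

variable {m : ℕ} {d : Fin m → ℕ} {β : Fin m → ℝ}

theorem box_lower (hd : ∀ i, 1 ≤ d i) (hβ : ∀ i, 0 ≤ β i) :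
    ∃ c : ℝ, 0 < c ∧ ∀ e : Amb d, (∀ i, ‖e i‖ = 1) → ∀ σ : Fin m → ℝ, (∀ i, 0 < σ i) →
      (∀ i, σ i ≤ 1) → ENNReal.ofReal (c * ∏ i, σ i ^ gam d β i) ≤
        blockBeta d β {y | y ∈ body d ∧ ∀ i, rho e y i ≤ σ i} := by
  choose c hc h using fun i => cap_lower (hd i) (hβ i)
  refine ⟨∏ i, c i, Finset.prod_pos fun i _ => hc i, fun e he σ hσ hσ1 => ?_⟩
  have := fun i => oneBlock_prob (d i) (hβ i)
  have hset : {y | y ∈ body d ∧ ∀ i, rho e y i ≤ σ i} =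
      Set.univ.pi fun i => {y | ‖y‖ ≤ 1 ∧ 1 - ⟪e i, y⟫_ℝ ≤ σ i} := by
    ext y
    simp only [body, rho, Set.mem_ofPred_eq, Set.mem_pi, Set.mem_univ, forall_true_left,
      forall_and]
  rw [hset, blockBeta_eq_pi d hβ, Measure.pi_pi, ← Finset.prod_mul_distrib,
    ENNReal.ofReal_prod_of_nonneg fun i _ =>
      mul_nonneg (hc i).le (Real.rpow_nonneg (hσ i).le _)]
  exact Finset.prod_le_prod' fun i _ => h i (e i) (he i) (σ i) (hσ i) (hσ1 i)

end Pool.Agent.Lib.MP_258d0c_pr
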