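import Pool.Agent.Lib.MP_258d0c_pr.Block

open MeasureTheory ProbabilityTheory
open scoped ENNReal Classical InnerProductSpace Pointwise

namespace Pool.Agent.Lib.MP_258d0c_pr

/-- dyadic summation of `h ^ p` against a measure with a linear bound on the sublevel sets -/
theorem up_dyadic {X : Type} [MeasurableSpace X] (μ : Measure X) {p : ℝ} (hp : -1 < p)
    (h : X → ℝ) (hm : Measurable h) (A : Set X) (hA : MeasurableSet A) {V : ℝ} (hV : 0 ≤ V)
    (hvol : ∀ u : ℝ, 0 < u → μ (A ∩ {y | h y ≤ u}) ≤ ENNReal.ofReal (V * u)) {s : ℝ}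
    (hs : 0 < s) :
    ∫⁻ y in A ∩ {y | 0 < h y ∧ h y ≤ s}, ENNReal.ofReal (h y ^ p) ∂μ ≤
      ENNReal.ofReal (2 / (1 - (1 / 2 : ℝ) ^ (1 + p)) * V * s ^ (1 + p)) := by
  set r : ℝ := (1 / 2 : ℝ) ^ (1 + p) with hr
  have hr0 : 0 ≤ r := Real.rpow_nonneg (by norm_num) _
  have hr1 : r < 1 := Real.rpow_lt_one (by norm_num) (by norm_num) (by linarith)
  let T : ℕ → Set X := fun l =>
    A ∩ {y | s * (1 / 2 : ℝ) ^ l / 2 < h y ∧ h y ≤ s * (1 / 2 : ℝ) ^ l}
  have hT : ∀ l, MeasurableSet (T l) := fun l =>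
    hA.inter ((measurableSet_lt measurable_const hm).inter (measurableSet_le hm measurable_const))
  have hcov : A ∩ {y | 0 < h y ∧ h y ≤ s} ⊆ ⋃ l, T l := by
    rintro y ⟨hy, h0, h1⟩
    obtain ⟨n, hn1, hn2⟩ := exists_nat_pow_near_of_lt_one (x := h y / s) (y := (1 / 2 : ℝ))
      (div_pos h0 hs) ((div_le_one hs).mpr h1) (by norm_num) (by norm_num)
    refine Set.mem_iUnion.mpr ⟨n, hy, ?_, ?_⟩
    · rw [lt_div_iff₀ hs, pow_succ] at hn1
      linarith
    · rw [div_le_iff₀ hs] at hn2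
      linarith
  have hterm : ∀ l, ∫⁻ y in T l, ENNReal.ofReal (h y ^ p) ∂μ ≤
      ENNReal.ofReal (2 * V * s ^ (1 + p) * r ^ l) := by
    intro l
    set u : ℝ := s * (1 / 2 : ℝ) ^ l with hu
    have hu0 : 0 < u := by positivity
    have h1 : ∫⁻ y in T l, ENNReal.ofReal (h y ^ p) ∂μ ≤
        ∫⁻ _ in T l, ENNReal.ofReal (2 * u ^ p) ∂μ := by
      refine setLIntegral_mono' (hT l) fun y hy => ENNReal.ofReal_le_ofReal ?_
      obtain ⟨-, h2, h3⟩ := hy
      have h2 : u / 2 < h y := h2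
      have h3 : h y ≤ u := h3
      have hup : 0 < u ^ p := Real.rpow_pos_of_pos hu0 p
      rcases le_or_gt 0 p with hp0 | hp0
      · have := Real.rpow_le_rpow (by linarith) h3 hp0
        linarith
      · have h4 : h y ^ p ≤ (u / 2) ^ p :=
          Real.rpow_le_rpow_of_nonpos (by linarith) h2.le hp0.le
        have h5 : (u / 2) ^ p = u ^ p * 2 ^ (-p) := by
          rw [Real.div_rpow hu0.le (by norm_num), Real.rpow_neg (by norm_num), div_eq_mul_inv]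
        have h6 : (2 : ℝ) ^ (-p) ≤ 2 ^ (1 : ℝ) :=
          Real.rpow_le_rpow_of_exponent_le (by norm_num) (by linarith)
        rw [Real.rpow_one] at h6
        nlinarith
    rw [setLIntegral_const] at h1
    have h2 : μ (T l) ≤ ENNReal.ofReal (V * u) :=
      (measure_mono (show T l ⊆ A ∩ {y | h y ≤ u} from fun y hy => ⟨hy.1, hy.2.2⟩)).trans
        (hvol u hu0)
    refine h1.trans ((mul_le_mul_right h2 _).trans (le_of_eq ?_))
    rw [← ENNReal.ofReal_mul (by positivity)]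
    congr 1
    have h3 : u ^ (1 + p) = s ^ (1 + p) * r ^ l := by
      rw [hu, Real.mul_rpow hs.le (by positivity), hr, ← Real.rpow_natCast,
        ← Real.rpow_natCast, ← Real.rpow_mul (by norm_num), ← Real.rpow_mul (by norm_num),
        mul_comm (l : ℝ)]
    rw [Real.rpow_add hu0, Real.rpow_one] at h3
    calc 2 * u ^ p * (V * u) = 2 * V * (u * u ^ p) := by ring
      _ = _ := by rw [h3]; ring
  calc _ ≤ ∫⁻ y in ⋃ l, T l, ENNReal.ofReal (h y ^ p) ∂μ := lintegral_mono_set hcov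
    _ ≤ ∑' l, ∫⁻ y in T l, ENNReal.ofReal (h y ^ p) ∂μ := lintegral_iUnion_le _ _
    _ ≤ ∑' l, ENNReal.ofReal (2 * V * s ^ (1 + p) * r ^ l) := ENNReal.tsum_le_tsum hterm
    _ = _ := by
      rw [← ENNReal.ofReal_tsum_of_nonneg (fun l => by positivity)
        ((summable_geometric_of_lt_one hr0 hr1).mul_left _), tsum_mul_left,
        tsum_geometric_of_lt_one hr0 hr1]
      congr 1
      ring

/-- volume of a boundary shell inside a cone -/
theorem up_shell_vol {k : ℕ} (hk : 0 < k) (Γ : Set (EuclideanSpace ℝ (Fin k)))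
    (hΓ : MeasurableSet Γ) (hc : ∀ t : ℝ, 0 < t → ∀ y ∈ Γ, t • y ∈ Γ) {V : ℝ} (hV : 0 ≤ V)
    (hvol : volume (Γ ∩ Metric.closedBall 0 1) ≤ ENNReal.ofReal V) (u : ℝ) (hu : 0 < u) :
    volume ((Γ ∩ Metric.closedBall 0 1) ∩ {y | 1 - ‖y‖ ^ 2 ≤ u}) ≤
      ENNReal.ofReal (k * V * u) := by
  have hk1 : (1 : ℝ) ≤ k := by exact_mod_cast hk
  rcases le_or_gt 1 u with hu1 | hu1
  · refine (measure_mono Set.inter_subset_left).trans (hvol.trans (ENNReal.ofReal_le_ofReal ?_))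
    have : 1 ≤ (k : ℝ) * u := by nlinarith
    nlinarith
  set C := Γ ∩ Metric.closedBall (0 : EuclideanSpace ℝ (Fin k)) 1 with hC
  have hCm : MeasurableSet C := hΓ.inter measurableSet_closedBall
  have hr : 0 < 1 - u := by linarith
  have hsub : (1 - u) • C ⊆ C := by
    rintro _ ⟨y, ⟨hy1, hy2⟩, rfl⟩
    refine ⟨hc _ hr y hy1, ?_⟩
    rw [mem_closedBall_zero_iff] at hy2 ⊢
    rw [norm_smul, Real.norm_of_nonneg hr.le]
    nlinarith [norm_nonneg y]
  have hdiff : C ∩ {y | 1 - ‖y‖ ^ 2 ≤ u} ⊆ C \ ((1 - u) • C) := by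
    rintro y ⟨hy, hy2⟩
    refine ⟨hy, ?_⟩
    rintro ⟨w, ⟨-, hw⟩, rfl⟩
    rw [mem_closedBall_zero_iff] at hw
    simp only [Set.mem_setOf_eq] at hy2
    rw [norm_smul, Real.norm_of_nonneg hr.le] at hy2
    have h0 := norm_nonneg w
    have h1 : ((1 - u) * ‖w‖) ^ 2 ≤ (1 - u) ^ 2 := by
      rw [mul_pow]
      exact mul_le_of_le_one_right (by positivity) (by nlinarith)
    nlinarith
  have hfin : volume C ≠ ⊤ := ne_top_of_le_ne_top ENNReal.ofReal_ne_top hvol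
  refine (measure_mono hdiff).trans ?_
  rw [measure_diff hsub (hCm.const_smul₀ _).nullMeasurableSet
    (ne_top_of_le_ne_top hfin (measure_mono hsub)), Measure.addHaar_smul_of_nonneg _ hr.le,
    finrank_euclideanSpace_fin, tsub_le_iff_right]
  have hb : 1 ≤ k * u + (1 - u) ^ k := by
    have := one_add_mul_le_pow (a := -u) (by linarith) k
    rw [← sub_eq_add_neg] at this
    linarith
  calc volume C = 1 * volume C := (one_mul _).symm
    _ ≤ ENNReal.ofReal (k * u + (1 - u) ^ k) * volume C := by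
      gcongr
      exact ENNReal.one_le_ofReal.mpr hb
    _ = ENNReal.ofReal (k * u) * volume C + ENNReal.ofReal ((1 - u) ^ k) * volume C := by
      rw [ENNReal.ofReal_add (by positivity) (by positivity), add_mul]
    _ ≤ _ := by
      gcongr
      calc ENNReal.ofReal (k * u) * volume C ≤ ENNReal.ofReal (k * u) * ENNReal.ofReal V := by
            gcongr
        _ = _ := by
          rw [← ENNReal.ofReal_mul (by positivity)]
          congr 1
          ring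

/-- weighted integral over the part of a cone near the sphere -/
theorem up_cone {k : ℕ} (hk : 0 < k) {b a : ℝ} (hb : 0 ≤ b) (ha : a < 1 + b) :
    ∃ C : ℝ, 0 < C ∧ ∀ Γ : Set (EuclideanSpace ℝ (Fin k)), MeasurableSet Γ →
      (∀ t : ℝ, 0 < t → ∀ y ∈ Γ, t • y ∈ Γ) → ∀ V : ℝ, 0 ≤ V →
      volume (Γ ∩ Metric.closedBall 0 1) ≤ ENNReal.ofReal V → ∀ s : ℝ, 0 < s →
      ∀ S : Set (EuclideanSpace ℝ (Fin k)), MeasurableSet S →
      (∀ y ∈ S, ‖y‖ ≤ 1 → y ∈ Γ ∧ 1 - ‖y‖ ^ 2 ≤ s) →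
      ∫⁻ y in S, ENNReal.ofReal ((1 - ‖y‖ ^ 2) ^ (-a)) ∂(oneBlock k b) ≤
        ENNReal.ofReal (C * V * s ^ (1 + b - a)) := by
  obtain ⟨c, hc0, hc⟩ := oneBlock_eq k hb
  have hp : -1 < b - a := by linarith
  have hr1 : (1 / 2 : ℝ) ^ (1 + (b - a)) < 1 :=
    Real.rpow_lt_one (by norm_num) (by norm_num) (by linarith)
  have hk0 : (0 : ℝ) < k := by exact_mod_cast hk
  have hD : 0 < 2 / (1 - (1 / 2 : ℝ) ^ (1 + (b - a))) := div_pos two_pos (by linarith)
  refine ⟨c * (2 / (1 - (1 / 2 : ℝ) ^ (1 + (b - a)))) * k, by positivity, ?_⟩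
  intro Γ hΓ hcone V hV hvol s hs S hS hin
  have hm : Measurable fun y : EuclideanSpace ℝ (Fin k) => 1 - ‖y‖ ^ 2 := by fun_prop
  have hmp : ∀ q : ℝ, Measurable fun y : EuclideanSpace ℝ (Fin k) =>
      ENNReal.ofReal ((1 - ‖y‖ ^ 2) ^ q) := fun q =>
    ENNReal.measurable_ofReal.comp (hm.pow_const q)
  have hdy := up_dyadic volume hp _ hm (Γ ∩ Metric.closedBall 0 1)
    (hΓ.inter measurableSet_closedBall) (V := k * V) (by positivity)
    (up_shell_vol hk Γ hΓ hcone hV hvol) hs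
  have hball : (Metric.closedBall (0 : EuclideanSpace ℝ (Fin k)) 1 : Set _) =ᵐ[volume]
      Metric.ball 0 1 := by
    rw [← Metric.ball_union_sphere]
    exact union_ae_eq_left_of_ae_eq_empty
      (ae_eq_empty.mpr (Measure.addHaar_sphere_of_ne_zero volume 0 one_ne_zero))
  rw [hc, Measure.restrict_smul, lintegral_smul_measure, restrict_withDensity hS,
    lintegral_withDensity_eq_lintegral_mul _ (hmp b) (hmp (-a)), Measure.restrict_congr_set hball,
    Measure.restrict_restrict hS]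
  simp only [Pi.mul_apply]
  have h1 : ∫⁻ y in S ∩ Metric.ball 0 1,
      ENNReal.ofReal ((1 - ‖y‖ ^ 2) ^ b) * ENNReal.ofReal ((1 - ‖y‖ ^ 2) ^ (-a)) =
      ∫⁻ y in S ∩ Metric.ball 0 1, ENNReal.ofReal ((1 - ‖y‖ ^ 2) ^ (b - a)) := by
    refine setLIntegral_congr_fun (hS.inter measurableSet_ball) fun y hy => ?_
    have h2 := mem_ball_zero_iff.mp hy.2
    have h3 : 0 < 1 - ‖y‖ ^ 2 := by nlinarith [norm_nonneg y]
    beta_reduce
    rw [← ENNReal.ofReal_mul (Real.rpow_nonneg h3.le _), ← Real.rpow_add h3, sub_eq_add_neg b]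
  have h2 : S ∩ Metric.ball 0 1 ⊆ (Γ ∩ Metric.closedBall 0 1) ∩
      {y | 0 < 1 - ‖y‖ ^ 2 ∧ 1 - ‖y‖ ^ 2 ≤ s} := by
    rintro y ⟨hy1, hy2⟩
    have h2 := mem_ball_zero_iff.mp hy2
    have h3 : 0 < 1 - ‖y‖ ^ 2 := by nlinarith [norm_nonneg y]
    exact ⟨⟨(hin y hy1 h2.le).1, mem_closedBall_zero_iff.mpr h2.le⟩, h3, (hin y hy1 h2.le).2⟩
  rw [h1, smul_eq_mul]
  refine (mul_le_mul_right ((lintegral_mono_set h2).trans hdy) _).trans (le_of_eq ?_)
  rw [← ENNReal.ofReal_mul hc0.le, add_sub_assoc]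
  congr 1
  ring

theorem up_basis {k : ℕ} (i0 : Fin k) (z : EuclideanSpace ℝ (Fin k)) :
    ∃ e : OrthonormalBasis (Fin k) ℝ (EuclideanSpace ℝ (Fin k)),
      ∀ i, i ≠ i0 → ⟪e i, z⟫_ℝ = 0 := by
  by_cases hz : z = 0
  · exact ⟨EuclideanSpace.basisFun _ _, fun i _ => by simp [hz]⟩
  have hz' : ‖z‖ ≠ 0 := norm_ne_zero_iff.mpr hz
  have ho : Orthonormal ℝ (({i0} : Set (Fin k)).restrict fun _ => ‖z‖⁻¹ • z) := by
    refine ⟨fun i => ?_, fun i j hij => (hij (Subsingleton.elim _ _)).elim⟩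
    change ‖‖z‖⁻¹ • z‖ = 1
    rw [norm_smul, norm_inv, norm_norm, inv_mul_cancel₀ hz']
  obtain ⟨e, he⟩ := ho.exists_orthonormalBasis_extension_of_card_eq
    (by simp : Module.finrank ℝ (EuclideanSpace ℝ (Fin k)) = Fintype.card (Fin k))
  refine ⟨e, fun i hi => ?_⟩
  have h1 : z = ‖z‖ • e i0 := by
    rw [he i0 rfl, smul_smul, mul_inv_cancel₀ hz', one_smul]
  rw [h1, inner_smul_right, e.orthonormal.2 hi, mul_zero]

theorem up_box {k : ℕ} (i0 : Fin k) (e : OrthonormalBasis (Fin k) ℝ (EuclideanSpace ℝ (Fin k)))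
    {t : ℝ} (ht : 0 ≤ t) :
    volume ({y | ∀ i, i ≠ i0 → |⟪e i, y⟫_ℝ| ≤ t * ‖y‖} ∩ Metric.closedBall 0 1) ≤
      ENNReal.ofReal (2 * (2 * t) ^ (k - 1)) := by
  let w : Fin k → ℝ := fun i => if i = i0 then 1 else t
  have hmp : MeasurePreserving (fun y : EuclideanSpace ℝ (Fin k) => (e.repr y).ofLp)
      volume volume :=
    (PiLp.volume_preserving_ofLp (Fin k)).comp e.measurePreserving_repr
  have hsub : {y | ∀ i, i ≠ i0 → |⟪e i, y⟫_ℝ| ≤ t * ‖y‖} ∩ Metric.closedBall 0 1 ⊆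
      (fun y : EuclideanSpace ℝ (Fin k) => (e.repr y).ofLp) ⁻¹'
        Set.univ.pi fun i => Set.Icc (-w i) (w i) := by
    rintro y ⟨hy1, hy2⟩ i -
    rw [mem_closedBall_zero_iff] at hy2
    rw [Set.mem_Icc, ← abs_le]
    change |e.repr y i| ≤ w i
    rw [e.repr_apply_apply]
    by_cases hi : i = i0
    · have := abs_real_inner_le_norm (e i) y
      rw [e.orthonormal.1 i, one_mul] at this
      simp only [w, if_pos hi]
      linarith
    · have := hy1 i hi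
      simp only [w, if_neg hi]
      nlinarith
  refine (measure_mono hsub).trans (le_of_eq ?_)
  rw [hmp.measure_preimage (MeasurableSet.univ_pi fun i => measurableSet_Icc).nullMeasurableSet,
    volume_pi_pi, ← Finset.mul_prod_erase Finset.univ _ (Finset.mem_univ i0),
    Finset.prod_congr rfl (g := fun _ => ENNReal.ofReal (2 * t)) fun i hi => by
      rw [Real.volume_Icc]
      simp only [w, if_neg (Finset.ne_of_mem_erase hi)]
      congr 1
      ring]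
  rw [Finset.prod_const, Finset.card_erase_of_mem (Finset.mem_univ _), Finset.card_univ,
    Fintype.card_fin, Real.volume_Icc, ← ENNReal.ofReal_pow (by positivity),
    ENNReal.ofReal_mul (by norm_num)]
  simp only [w, if_pos rfl]
  norm_num

theorem cap_upper {k : ℕ} (hk : 0 < k) {b a : ℝ} (hb : 0 ≤ b) (ha0 : 0 ≤ a) (ha : a < 1 + b) :
    ∃ C : ℝ, 0 < C ∧ ∀ z : EuclideanSpace ℝ (Fin k), ‖z‖ ≤ 1 → ∀ s : ℝ, 0 < s →
      ∫⁻ y in {y | 1 - ⟪z, y⟫_ℝ ≤ s}, ENNReal.ofReal ((1 - ‖y‖ ^ 2) ^ (-a)) ∂(oneBlock k b) ≤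
        ENNReal.ofReal (C * s ^ (((k : ℝ) + 1) / 2 + b - a)) := by
  have _ := ha0
  obtain ⟨C, hC0, hC⟩ := up_cone hk hb ha
  refine ⟨C * (2 * 6 ^ (k - 1)) * 2 ^ (1 + b - a), by positivity, fun z hz s hs => ?_⟩
  obtain ⟨e, he⟩ := up_basis ⟨0, hk⟩ z
  have ht : 0 ≤ 3 * √s := by positivity
  have hΓ : MeasurableSet {y : EuclideanSpace ℝ (Fin k) |
      ∀ i, i ≠ ⟨0, hk⟩ → |⟪e i, y⟫_ℝ| ≤ 3 * √s * ‖y‖} := by
    refine IsClosed.measurableSet ?_
    simp only [Set.setOf_forall]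
    exact isClosed_iInter fun i => isClosed_iInter fun _ =>
      isClosed_le (by fun_prop) (by fun_prop)
  have hS : MeasurableSet {y : EuclideanSpace ℝ (Fin k) | 1 - ⟪z, y⟫_ℝ ≤ s} :=
    (isClosed_le (by fun_prop) (by fun_prop)).measurableSet
  refine (hC _ hΓ ?_ _ (by positivity) (up_box _ e ht) (2 * s) (by positivity) _ hS ?_).trans
    (le_of_eq ?_)
  · intro t ht0 y hy i hi
    have := hy i hi
    rw [inner_smul_right, abs_mul, norm_smul, Real.norm_of_nonneg ht0.le, abs_of_pos ht0]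
    nlinarith
  · intro y hy hy1
    have hy : 1 - ⟪z, y⟫_ℝ ≤ s := hy
    have hid := norm_sub_sq_real z y
    have hz0 := norm_nonneg z
    have hy0 := norm_nonneg y
    have hzz : ‖z‖ ^ 2 ≤ 1 := by nlinarith
    have hyy : ‖y‖ ^ 2 ≤ 1 := by nlinarith
    have hn := sq_nonneg ‖z - y‖
    refine ⟨fun i hi => ?_, by linarith⟩
    refine abs_le_of_sq_le_sq' ?_ (by positivity) |> abs_le.mpr
    rw [mul_pow, mul_pow, Real.sq_sqrt hs.le]
    rcases le_or_gt (1 / 8) s with h8 | h8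
    · have h1 := abs_real_inner_le_norm (e i) y
      rw [e.orthonormal.1 i, one_mul] at h1
      have h2 : ⟪e i, y⟫_ℝ ^ 2 ≤ ‖y‖ ^ 2 := by
        rw [← sq_abs]
        exact pow_le_pow_left₀ (abs_nonneg _) h1 2
      nlinarith
    · have h1 := abs_real_inner_le_norm (e i) (z - y)
      rw [e.orthonormal.1 i, one_mul, inner_sub_right, he i hi, zero_sub, abs_neg] at h1
      have h2 : ⟪e i, y⟫_ℝ ^ 2 ≤ ‖z - y‖ ^ 2 := by
        rw [← sq_abs]
        exact pow_le_pow_left₀ (abs_nonneg _) h1 2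
      have h3 : 3 / 4 ≤ ‖y‖ ^ 2 := by linarith
      nlinarith
  · congr 1
    have h1 : ((k : ℝ) + 1) / 2 + b - a = (1 / 2) * ((k - 1 : ℕ) : ℝ) + (1 + b - a) := by
      rw [Nat.cast_sub hk]
      push_cast
      ring
    rw [h1, Real.rpow_add hs (1 / 2 * _), Real.rpow_mul hs.le, Real.rpow_natCast,
      ← Real.sqrt_eq_rpow, Real.mul_rpow (by norm_num) hs.le,
      show 2 * (3 * √s) = 6 * √s by ring, mul_pow]
    ring

theorem shell_upper {k : ℕ} (hk : 0 < k) {b a : ℝ} (hb : 0 ≤ b) (ha0 : 0 ≤ a) (ha : a < 1 + b) :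
    ∃ C : ℝ, 0 < C ∧ ∀ s : ℝ, 0 < s →
      ∫⁻ y in {y : EuclideanSpace ℝ (Fin k) | 1 - ‖y‖ ^ 2 ≤ s},
          ENNReal.ofReal ((1 - ‖y‖ ^ 2) ^ (-a)) ∂(oneBlock k b) ≤
        ENNReal.ofReal (C * s ^ (1 + b - a)) := by
  have _ := ha0
  obtain ⟨C, hC0, hC⟩ := up_cone hk hb ha
  set V : ℝ := (volume (Metric.closedBall (0 : EuclideanSpace ℝ (Fin k)) 1)).toReal + 1 with hV
  have hV0 : 0 < V := by positivity
  refine ⟨C * V, by positivity, fun s hs => ?_⟩
  refine hC Set.univ MeasurableSet.univ (fun _ _ _ _ => Set.mem_univ _) V hV0.le ?_ s hs _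
    (isClosed_le (by fun_prop) (by fun_prop)).measurableSet fun y hy _ => ⟨Set.mem_univ _, hy⟩
  rw [Set.univ_inter, hV, ENNReal.ofReal_add ENNReal.toReal_nonneg zero_le_one,
    ENNReal.ofReal_toReal measure_closedBall_lt_top.ne]
  exact le_self_add

variable {m : ℕ} {d : Fin m → ℕ} {β : Fin m → ℝ}

theorem up_prod (hβ : ∀ i, 0 ≤ β i) (a : Fin m → ℝ)
    (S : ∀ i, Set (EuclideanSpace ℝ (Fin (d i)))) (hS : ∀ i, MeasurableSet (S i)) :
    ∫⁻ y in {y : Amb d | ∀ i, y i ∈ S i}, ∏ i, ENNReal.ofReal (hh y i ^ (-a i))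
        ∂(blockBeta d β) =
      ∏ i, ∫⁻ y in S i, ENNReal.ofReal ((1 - ‖y‖ ^ 2) ^ (-a i)) ∂(oneBlock (d i) (β i)) := by
  have := fun i => oneBlock_prob (d i) (hβ i)
  have hm : ∀ i, Measurable fun y : EuclideanSpace ℝ (Fin (d i)) =>
      ENNReal.ofReal ((1 - ‖y‖ ^ 2) ^ (-a i)) := fun i =>
    ENNReal.measurable_ofReal.comp
      ((measurable_const.sub (measurable_norm.pow_const 2)).pow_const _)
  have hP : MeasurableSet {y : Amb d | ∀ i, y i ∈ S i} := by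
    simp only [Set.setOf_forall]
    exact MeasurableSet.iInter fun i => measurable_pi_apply i (hS i)
  simp only [← lintegral_indicator (hS _)]
  rw [← lintegral_indicator hP, blockBeta_eq_pi d hβ,
    ← lintegral_pi_prod _ _ fun i => (hm i).indicator (hS i)]
  refine lintegral_congr fun y => ?_
  by_cases hy : ∀ i, y i ∈ S i
  · rw [Set.indicator_of_mem (show y ∈ {y : Amb d | ∀ i, y i ∈ S i} from hy)]
    exact Finset.prod_congr rfl fun i _ => by rw [Set.indicator_of_mem (hy i)]; rfl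
  · rw [Set.indicator_of_notMem (show y ∉ {y : Amb d | ∀ i, y i ∈ S i} from hy)]
    obtain ⟨i, hi⟩ := not_forall.mp hy
    exact (Finset.prod_eq_zero (Finset.mem_univ i) (Set.indicator_of_notMem hi _)).symm

theorem near_upper (hd : ∀ i, 1 ≤ d i) (hβ : ∀ i, 0 ≤ β i) (a : Fin m → ℝ) (ha0 : ∀ i, 0 ≤ a i)
    (ha : ∀ i, a i < alp β i) :
    ∃ C : ℝ, 0 < C ∧ ∀ z ∈ body d, ∀ σ : Fin m → ℝ, (∀ i, 0 < σ i) →
      ∫⁻ y in {y | ∀ i, rho z y i ≤ σ i}, ∏ i, ENNReal.ofReal (hh y i ^ (-a i))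
          ∂(blockBeta d β) ≤ ENNReal.ofReal (C * ∏ i, σ i ^ (gam d β i - a i)) := by
  choose C hC0 hC using fun i => cap_upper (k := d i) (hd i) (hβ i) (ha0 i) (ha i)
  refine ⟨∏ i, C i, Finset.prod_pos fun i _ => hC0 i, fun z hz σ hσ => ?_⟩
  have h := up_prod (d := d) hβ a (fun i => {y | 1 - ⟪z i, y⟫_ℝ ≤ σ i}) fun i =>
    (isClosed_le (by fun_prop) (by fun_prop)).measurableSet
  refine h.le.trans ?_
  rw [← Finset.prod_mul_distrib, ENNReal.ofReal_prod_of_nonneg fun i _ =>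
    mul_nonneg (hC0 i).le (Real.rpow_nonneg (hσ i).le _)]
  exact Finset.prod_le_prod' fun i _ => hC i (z i) (hz i) (σ i) (hσ i)

theorem adm_upper (hd : ∀ i, 1 ≤ d i) (hβ : ∀ i, 0 ≤ β i) (a : Fin m → ℝ) (ha0 : ∀ i, 0 ≤ a i)
    (ha : ∀ i, a i < alp β i) :
    ∃ C : ℝ, 0 < C ∧ ∀ σ : Fin m → ℝ, (∀ i, 0 < σ i) →
      ∫⁻ y in {y : Amb d | ∀ i, hh y i ≤ σ i}, ∏ i, ENNReal.ofReal (hh y i ^ (-a i))
          ∂(blockBeta d β) ≤ ENNReal.ofReal (C * ∏ i, σ i ^ (alp β i - a i)) := by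
  choose C hC0 hC using fun i => shell_upper (k := d i) (hd i) (hβ i) (ha0 i) (ha i)
  refine ⟨∏ i, C i, Finset.prod_pos fun i _ => hC0 i, fun σ hσ => ?_⟩
  have h := up_prod (d := d) hβ a (fun i => {y | 1 - ‖y‖ ^ 2 ≤ σ i}) fun i =>
    (isClosed_le (by fun_prop) (by fun_prop)).measurableSet
  refine h.le.trans ?_
  rw [← Finset.prod_mul_distrib, ENNReal.ofReal_prod_of_nonneg fun i _ =>
    mul_nonneg (hC0 i).le (Real.rpow_nonneg (hσ i).le _)]
  exact Finset.prod_le_prod' fun i _ => hC i (σ i) (hσ i)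

end Pool.Agent.Lib.MP_258d0c_pr
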