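import Pool.Agent.Lib.MP_258d0c_pr.Core

open MeasureTheory ProbabilityTheory
open scoped ENNReal Classical InnerProductSpace

namespace Pool.Agent.Lib.MP_258d0c_pr

variable {m : ℕ} {d : Fin m → ℕ} {β : Fin m → ℝ}

theorem rho_comm (x y : Amb d) (i : Fin m) : rho x y i = rho y x i := by
  simp only [rho, real_inner_comm]

theorem rho_nonneg {x y : Amb d} (hx : x ∈ body d) (hy : y ∈ body d) (i : Fin m) :
    0 ≤ rho x y i := by
  have h1 := real_inner_le_norm (x i) (y i)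
  have h2 := mul_le_one₀ (hx i) (norm_nonneg (y i)) (hy i)
  simp only [rho]
  linarith

theorem rho_le_two {x y : Amb d} (hx : x ∈ body d) (hy : y ∈ body d) (i : Fin m) :
    rho x y i ≤ 2 := by
  have h1 := abs_real_inner_le_norm (x i) (y i)
  have h2 := mul_le_one₀ (hx i) (norm_nonneg (y i)) (hy i)
  have h3 := neg_abs_le ⟪x i, y i⟫_ℝ
  simp only [rho]
  linarith

theorem rho_triangle {x y w : Amb d} (hx : x ∈ body d) (hy : y ∈ body d) (hw : w ∈ body d)
    (i : Fin m) : rho x y i ≤ 2 * rho x w i + 2 * rho w y i := by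
  have h1 : ‖x i‖ ^ 2 ≤ 1 := pow_le_one₀ (norm_nonneg _) (hx i)
  have h2 : ‖y i‖ ^ 2 ≤ 1 := pow_le_one₀ (norm_nonneg _) (hy i)
  have h3 : ‖w i‖ ^ 2 ≤ 1 := pow_le_one₀ (norm_nonneg _) (hw i)
  have h4 : 0 ≤ ‖(x i - w i) - (w i - y i)‖ ^ 2 := sq_nonneg _
  rw [norm_sub_sq_real, norm_sub_sq_real, norm_sub_sq_real, inner_sub_left, inner_sub_right,
    inner_sub_right, real_inner_self_eq_norm_sq] at h4
  simp only [rho]
  linarith

theorem hh_le_rho (x : Amb d) {y : Amb d} (hy : y ∈ body d) (i : Fin m) :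
    hh x i ≤ 2 * rho x y i := by
  have h2 : ‖y i‖ ^ 2 ≤ 1 := pow_le_one₀ (norm_nonneg _) (hy i)
  have h4 : 0 ≤ ‖x i - y i‖ ^ 2 := sq_nonneg _
  rw [norm_sub_sq_real] at h4
  simp only [rho, hh]
  linarith

theorem norm_sub_sq_le {x y : Amb d} (hx : x ∈ body d) (hy : y ∈ body d) (i : Fin m) :
    ‖x i - y i‖ ^ 2 ≤ 2 * rho x y i := by
  have h1 : ‖x i‖ ^ 2 ≤ 1 := pow_le_one₀ (norm_nonneg _) (hx i)
  have h2 : ‖y i‖ ^ 2 ≤ 1 := pow_le_one₀ (norm_nonneg _) (hy i)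
  rw [norm_sub_sq_real]
  simp only [rho]
  linarith

theorem hh_pos {x : Amb d} (hx : x ∈ obody d) (i : Fin m) : 0 < hh x i := by
  have h1 : ‖x i‖ ^ 2 < 1 := pow_lt_one₀ (norm_nonneg _) (hx i) two_ne_zero
  simp only [hh]
  linarith

theorem obody_subset : obody d ⊆ body d := by
  intro x hx i
  exact (hx i).le

theorem sc_pos (j : Fin m → ℕ) (i : Fin m) : 0 < sc j i := by
  unfold sc
  positivity

theorem sc_le_one (j : Fin m → ℕ) (i : Fin m) : sc j i ≤ 1 := by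
  unfold sc
  exact pow_le_one₀ (by norm_num) (by norm_num)

theorem tt_pos (γ : Fin m → ℝ) (j : Fin m → ℕ) : 0 < tt γ j := by
  unfold tt
  exact Finset.prod_pos fun i _ => Real.rpow_pos_of_pos (sc_pos j i) _

theorem Near.adm {x y : Amb d} {j : Fin m → ℕ} (h : Near x y j) (hy : y ∈ body d) :
    Adm x j := by
  intro i
  have h1 := hh_le_rho x hy i
  have h2 := h i
  linarith

private theorem cap_riesz (l : Amb d →L[ℝ] ℝ) :
    ∃ u : Amb d, ∀ w : Amb d, l w = ∑ i, ⟪u i, w i⟫_ℝ := by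
  refine ⟨fun i => (InnerProductSpace.toDual ℝ _).symm
    (l.comp (ContinuousLinearMap.single ℝ (fun i => EuclideanSpace ℝ (Fin (d i))) i)), fun w => ?_⟩
  simp only [InnerProductSpace.toDual_symm_apply, ContinuousLinearMap.comp_apply,
    ContinuousLinearMap.single_apply]
  rw [← map_sum, Finset.univ_sum_single]

private theorem cap_unit {k : ℕ} (hk : 1 ≤ k) (u : EuclideanSpace ℝ (Fin k)) :
    ∃ e : EuclideanSpace ℝ (Fin k), ‖e‖ = 1 ∧ u = ‖u‖ • e := by
  by_cases hu : u = 0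
  · exact ⟨EuclideanSpace.single ⟨0, hk⟩ 1, by simp, by simp [hu]⟩
  · have h : ‖u‖ ≠ 0 := norm_ne_zero_iff.2 hu
    refine ⟨‖u‖⁻¹ • u, ?_, ?_⟩
    · rw [norm_smul, norm_inv, norm_norm, inv_mul_cancel₀ h]
    · rw [smul_smul, mul_inv_cancel₀ h, one_smul]

private theorem cap_scale {a H r r' : ℝ} (hH : 0 < H) (hr : r ≤ 2) (hr' : r' ≤ 2)
    (h1 : a * r ≤ H) (h2 : a * r' ≤ H) :
    ∃ j : ℕ, a * (1 / 2 : ℝ) ^ j ≤ H ∧ r ≤ 2 * (1 / 2 : ℝ) ^ j ∧ r' ≤ 2 * (1 / 2 : ℝ) ^ j := by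
  by_cases h : a ≤ H
  · exact ⟨0, by simpa using h, by simpa using hr, by simpa using hr'⟩
  · have ha' : 0 < a := by linarith
    have h3 : H / a / 2 ≤ 1 := by
      have : H / a ≤ 1 := (div_le_one ha').2 (by linarith)
      linarith
    obtain ⟨j, hj1, hj2⟩ := exists_nat_pow_near_of_lt_one (x := H / a / 2) (y := (1 / 2 : ℝ))
      (by positivity) h3 (by norm_num) (by norm_num)
    have h4 : r ≤ H / a := by rw [le_div_iff₀ ha']; linarith
    have h5 : r' ≤ H / a := by rw [le_div_iff₀ ha']; linarith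
    refine ⟨j, ?_, by linarith, by linarith⟩
    have h6 : (1 / 2 : ℝ) ^ j ≤ H / a := by rw [pow_succ] at hj1; linarith
    rw [le_div_iff₀ ha'] at h6
    linarith

theorem vis_cap (hd : ∀ i, 1 ≤ d i) {ι : Type} {U : ι → Amb d} {S : Finset ι} {x y : Amb d}
    (hx : x ∈ obody d) (hy : y ∈ body d) (h : Vis U S x y) :
    ∃ j, Near x y j ∧ Emp U S x j := by
  obtain ⟨l, hl, hU⟩ := h
  obtain ⟨u, hu⟩ := cap_riesz l
  have hxb := obody_subset hx
  have hex : ∀ i, ∃ e : EuclideanSpace ℝ (Fin (d i)), ‖e‖ = 1 ∧ u i = ‖u i‖ • e :=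
    fun i => cap_unit (hd i) (u i)
  choose e he1 he2 using hex
  have heb : (e : Amb d) ∈ body d := fun i => (he1 i).le
  have key : ∀ w : Amb d, ∑ i, ‖u i‖ - l w = ∑ i, ‖u i‖ * rho e w i := by
    intro w
    rw [hu w, ← Finset.sum_sub_distrib]
    refine Finset.sum_congr rfl fun i _ => ?_
    have : ⟪u i, w i⟫_ℝ = ‖u i‖ * ⟪e i, w i⟫_ℝ := by
      conv_lhs => rw [he2 i, real_inner_smul_left]
    rw [this, rho]
    ring
  obtain ⟨i0, hi0⟩ : ∃ i, u i ≠ 0 := by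
    by_contra hcon
    push Not at hcon
    apply hl
    ext1 w
    simp [hu w, hcon]
  set H : ℝ := ∑ i, ‖u i‖ - min (l x) (l y) with hH
  have hterm : ∀ w ∈ body d, ∀ i, ‖u i‖ * rho e w i ≤ ∑ i, ‖u i‖ - l w := by
    intro w hw i
    rw [key w]
    exact Finset.single_le_sum (f := fun i => ‖u i‖ * rho e w i)
      (fun i _ => mul_nonneg (norm_nonneg _) (rho_nonneg heb hw i)) (Finset.mem_univ i)
  have hHx : ∀ i, ‖u i‖ * rho e x i ≤ H := fun i =>
    (hterm x hxb i).trans (by have := min_le_left (l x) (l y); linarith)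
  have hHy : ∀ i, ‖u i‖ * rho e y i ≤ H := fun i =>
    (hterm y hy i).trans (by have := min_le_right (l x) (l y); linarith)
  have hHpos : 0 < H := by
    refine lt_of_lt_of_le (mul_pos (norm_pos_iff.2 hi0) ?_) (hHx i0)
    have h1 := hh_le_rho x heb i0
    have h2 := hh_pos hx i0
    rw [rho_comm] at h1
    linarith
  have hj : ∀ i, ∃ j : ℕ, ‖u i‖ * (1 / 2 : ℝ) ^ j ≤ H ∧ rho e x i ≤ 2 * (1 / 2 : ℝ) ^ j ∧
      rho e y i ≤ 2 * (1 / 2 : ℝ) ^ j := fun i =>
    cap_scale hHpos (rho_le_two heb hxb i) (rho_le_two heb hy i) (hHx i) (hHy i)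
  choose j hj1 hj2 hj3 using hj
  refine ⟨j, fun i => ?_, e, he1, hj2, fun k hk hkb => ?_⟩
  · have h1 := rho_triangle hxb hy heb i
    rw [rho_comm x e] at h1
    have h2 := hj2 i
    have h3 := hj3 i
    simp only [sc]
    linarith
  · by_contra hcon
    push Not at hcon
    have hm : (0 : ℝ) < m := by exact_mod_cast Fin.pos i0
    have h1 : ∑ i, ‖u i‖ * rho e (U k) i ≤ ∑ _i : Fin m, H / (2 * m) := by
      refine Finset.sum_le_sum fun i _ => ?_
      calc ‖u i‖ * rho e (U k) i ≤ ‖u i‖ * (sc j i / (2 * m)) :=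
            mul_le_mul_of_nonneg_left (hcon i) (norm_nonneg _)
        _ = ‖u i‖ * (1 / 2 : ℝ) ^ j i / (2 * m) := by rw [sc]; ring
        _ ≤ H / (2 * m) := div_le_div_of_nonneg_right (hj1 i) (by positivity)
    have h2 : ∑ _i : Fin m, H / (2 * m) = H / 2 := by
      rw [Finset.sum_const, Finset.card_univ, Fintype.card_fin, nsmul_eq_mul]
      field_simp
    have h3 : l (U k) ≤ min (l x) (l y) := le_min (hU k hk).1 (hU k hk).2
    have h4 := key (U k)
    linarith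

theorem one_le_gam (hd : ∀ i, 1 ≤ d i) (hβ : ∀ i, 0 ≤ β i) (i : Fin m) : 1 ≤ gam d β i := by
  have h1 : (1 : ℝ) ≤ d i := by exact_mod_cast hd i
  have h2 := hβ i
  unfold gam
  linarith

private theorem cap_kAdj_le (d : Fin m → ℕ) (β : Fin m → ℝ) (i : Fin m) :
    kAdj d β i ≤ kMax d β :=
  le_ciSup (Finite.bddAbove_range (kAdj d β)) i

private theorem cap_one_le_kAdj (hd : ∀ i, 1 ≤ d i) (hβ : ∀ i, 0 ≤ β i) (i : Fin m) :
    1 ≤ kAdj d β i := by
  have h1 : (1 : ℝ) ≤ d i := by exact_mod_cast hd i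
  have h2 := hβ i
  rw [kAdj, le_div_iff₀ (by linarith)]
  linarith

theorem one_le_kMax (hm : 1 ≤ m) (hd : ∀ i, 1 ≤ d i) (hβ : ∀ i, 0 ≤ β i) : 1 ≤ kMax d β := by
  refine le_trans ?_ (cap_kAdj_le d β ⟨0, hm⟩)
  exact cap_one_le_kAdj hd hβ _

theorem kap_pos (hm : 1 ≤ m) (hd : ∀ i, 1 ≤ d i) (hβ : ∀ i, 0 ≤ β i) : 0 < kap d β := by
  have := one_le_kMax hm hd hβ
  unfold kap
  positivity

private theorem cap_kap_mul (hm : 1 ≤ m) (hd : ∀ i, 1 ≤ d i) (hβ : ∀ i, 0 ≤ β i) (i : Fin m) :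
    kap d β * gam d β i = alp β i * (kAdj d β i + 1) / (kMax d β + 1) := by
  have h1 := one_le_kMax hm hd hβ
  have h2 := hβ i
  have h3 : 1 + β i ≠ 0 := by linarith
  have h4 : kMax d β + 1 ≠ 0 := by linarith
  unfold kap gam alp kAdj
  field_simp
  ring

theorem kap_mul_le (hm : 1 ≤ m) (hd : ∀ i, 1 ≤ d i) (hβ : ∀ i, 0 ≤ β i) (i : Fin m) :
    kap d β * gam d β i ≤ alp β i := by
  have h1 := one_le_kMax hm hd hβ
  have h2 := cap_kAdj_le d β i
  have h3 : 0 < alp β i := by have := hβ i; unfold alp; linarith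
  rw [cap_kap_mul hm hd hβ, div_le_iff₀ (by linarith)]
  nlinarith

theorem kap_mul_eq_iff (hm : 1 ≤ m) (hd : ∀ i, 1 ≤ d i) (hβ : ∀ i, 0 ≤ β i) (i : Fin m) :
    kap d β * gam d β i = alp β i ↔ kAdj d β i = kMax d β := by
  have h1 := one_le_kMax hm hd hβ
  have h3 : 0 < alp β i := by have := hβ i; unfold alp; linarith
  rw [cap_kap_mul hm hd hβ, div_eq_iff (by linarith), mul_right_inj' h3.ne', add_left_inj]

theorem kMult_eq (hm : 1 ≤ m) (hd : ∀ i, 1 ≤ d i) (hβ : ∀ i, 0 ≤ β i) :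
    kMult d β = (Finset.univ.filter fun i => kap d β * gam d β i = alp β i).card := by
  rw [kMult, ← Set.ncard_coe_finset]
  congr 1
  ext i
  simp [kap_mul_eq_iff hm hd hβ]

theorem exists_kap_eq (hm : 1 ≤ m) (hd : ∀ i, 1 ≤ d i) (hβ : ∀ i, 0 ≤ β i) :
    ∃ i, kap d β * gam d β i = alp β i := by
  have : Nonempty (Fin m) := ⟨⟨0, hm⟩⟩
  obtain ⟨i, hi⟩ := exists_eq_ciSup_of_finite (f := kAdj d β)
  exact ⟨i, (kap_mul_eq_iff hm hd hβ i).2 hi⟩

theorem order_eq (hm : 1 ≤ m) (hd : ∀ i, 1 ≤ d i) (hβ : ∀ i, 0 ≤ β i) (n : ℕ) :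
    order d β n = (n : ℝ) ^ (1 - kap d β) * Real.log n ^ (kMult d β - 1) := by
  have h1 := one_le_kMax hm hd hβ
  have h2 : (kMax d β - 1) / (kMax d β + 1) = 1 - kap d β := by
    unfold kap
    field_simp
    ring
  rw [order, h2]

theorem order_pos (d : Fin m → ℕ) (β : Fin m → ℝ) {n : ℕ} (hn : 2 ≤ n) : 0 < order d β n := by
  have h1 : (1 : ℝ) < n := by exact_mod_cast hn
  exact mul_pos (Real.rpow_pos_of_pos (by linarith) _) (pow_pos (Real.log_pos h1) _)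

theorem order_tendsto (hm : 1 ≤ m) (hd : ∀ i, 1 ≤ d i) (hβ : ∀ i, 0 ≤ β i)
    (h2 : 2 ≤ ∑ i, d i) : Filter.Tendsto (order d β) Filter.atTop Filter.atTop := by
  have hlog : Filter.Tendsto (fun n : ℕ => Real.log n) Filter.atTop Filter.atTop :=
    Real.tendsto_log_atTop.comp tendsto_natCast_atTop_atTop
  rcases (one_le_kMax hm hd hβ).eq_or_lt with h1 | h1
  · have hk : ∀ i, kAdj d β i = kMax d β := fun i =>
      le_antisymm (cap_kAdj_le d β i) (h1 ▸ cap_one_le_kAdj hd hβ i)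
    have hd1 : ∀ i, d i = 1 := by
      intro i
      have h3 := hk i
      have h4 := hβ i
      rw [← h1, kAdj, div_eq_one_iff_eq (by linarith), add_left_inj] at h3
      exact_mod_cast h3
    have hm2 : 2 ≤ m := by simpa [hd1] using h2
    have hr : kMult d β = m := by
      rw [kMult]
      simp [hk, Set.ncard_univ]
    have : order d β = fun n : ℕ => Real.log n ^ (m - 1) := by
      funext n
      rw [order, hr, ← h1]
      simp
    rw [this]
    exact (Filter.tendsto_pow_atTop (by omega)).comp hlog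
  · have hp : 0 < (kMax d β - 1) / (kMax d β + 1) := div_pos (by linarith) (by linarith)
    have h3 := (tendsto_rpow_atTop hp).comp tendsto_natCast_atTop_atTop
    refine Filter.tendsto_atTop_mono' _ ?_ h3
    filter_upwards [hlog.eventually_ge_atTop 1] with n hn
    exact le_mul_of_one_le_right (Real.rpow_nonneg (Nat.cast_nonneg n) _) (one_le_pow₀ hn)

end Pool.Agent.Lib.MP_258d0c_pr
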