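import Pool.Agent.Lib.MP_258d0c_pr.Core

open MeasureTheory ProbabilityTheory
open scoped ENNReal Classical InnerProductSpace

namespace Pool.Agent.Lib.MP_258d0c_pr

variable {E : Type} [NormedAddCommGroup E] [NormedSpace ℝ E] {ι : Type}

theorem Vis.symm {U : ι → E} {S : Finset ι} {x y : E} (h : Vis U S x y) : Vis U S y x := by
  obtain ⟨l, h0, h1⟩ := h
  exact ⟨l, h0, fun j hj => (h1 j hj).symm⟩

theorem Vis.anti {U : ι → E} {S S' : Finset ι} {x y : E} (hS : S ⊆ S') (h : Vis U S' x y) :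
    Vis U S x y := by
  obtain ⟨l, h0, h1⟩ := h
  exact ⟨l, h0, fun j hj => h1 j (hS hj)⟩

theorem Vis.self_left {U : ι → E} {S : Finset ι} {x y : E} (h : Vis U S x y) : Vis U S x x := by
  obtain ⟨l, h0, h1⟩ := h
  exact ⟨l, h0, fun j hj => ⟨(h1 j hj).1, (h1 j hj).1⟩⟩

theorem Vis_congr {U U' : ι → E} {S : Finset ι} (h : ∀ j ∈ S, U j = U' j) (x y : E) :
    Vis U S x y ↔ Vis U' S x y :=
  exists_congr fun _ => and_congr_right fun _ => forall₂_congr fun j hj => by rw [h j hj]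

theorem vis_congr {U U' : ι → E} {S : Finset ι} (h : ∀ j ∈ S, U j = U' j) (x : E) :
    vis U S x = vis U' S x := by
  unfold vis
  exact congrArg _ (Finset.filter_congr fun j hj => by rw [Vis_congr h, h j hj])

theorem comb_fac_congr {U U' : ι → E} {S I : Finset ι} (h : ∀ j ∈ S, U j = U' j) (hI : I ⊆ S) :
    Fac U S I ↔ Fac U' S I :=
  exists₂_congr fun _ _ => and_congr (forall₂_congr fun i hi => by rw [h i (hI hi)])
    (forall₂_congr fun j hj => by rw [h j hj])

theorem cnt_congr (D : ℕ) {U U' : ι → E} {S : Finset ι} (h : ∀ j ∈ S, U j = U' j) :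
    cnt D U S = cnt D U' S := by
  unfold cnt
  exact congrArg _ (Finset.filter_congr fun I hI =>
    comb_fac_congr h (Finset.mem_powersetCard.1 hI).1)

theorem cnt_map {ι' : Type} (D : ℕ) (U : ι → E) (e : ι' ↪ ι) (S : Finset ι') :
    cnt D (U ∘ e) S = cnt D U (S.map e) := by
  unfold cnt
  rw [Finset.powersetCard_map, Finset.filter_map, Finset.card_map]
  refine congrArg _ (Finset.filter_congr fun I _ => ?_)
  change Fac (U ∘ e) S I ↔ Fac U (S.map e) (I.map e)
  simp only [Fac, Finset.forall_mem_map, Finset.mem_map', Function.comp_apply]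

theorem cnt_le (D : ℕ) (U : ι → E) (S : Finset ι) : cnt D U S ≤ 2 ^ S.card := by
  rw [← Finset.card_powerset]
  exact Finset.card_le_card fun I hI =>
    Finset.mem_powerset.2 (Finset.mem_powersetCard.1 (Finset.mem_filter.1 hI).1).1

theorem vis_le_add [DecidableEq ι] (U : ι → E) {S S' : Finset ι} (hS : S ⊆ S') (x : E) :
    vis U S' x ≤ vis U S x + (S' \ S).card := by
  refine le_trans (Finset.card_le_card fun j hj => ?_) (Finset.card_union_le _ _)
  rw [Finset.mem_filter] at hj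
  rw [Finset.mem_union, Finset.mem_filter, Finset.mem_sdiff]
  by_cases h : j ∈ S
  · exact Or.inl ⟨h, hj.2.anti hS⟩
  · exact Or.inr ⟨hj.1, h⟩

theorem comb_mono {U : ι → E} {S S' I : Finset ι} (hS : S ⊆ S') (h : Fac U S' I) : Fac U S I := by
  obtain ⟨l, c, h1, h2⟩ := h
  exact ⟨l, c, h1, fun j hj => h2 j (hS hj)⟩

theorem comb_ne {D : ℕ} (hD : 1 ≤ D) {U : ι → E} {S I : Finset ι} (hS : D < S.card)
    (hI : I.card = D) {l : E →L[ℝ] ℝ} {c : ℝ} (h1 : ∀ i ∈ I, l (U i) = c)
    (h2 : ∀ j ∈ S, j ∉ I → l (U j) < c) : l ≠ 0 := by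
  rintro rfl
  obtain ⟨j, hj, hj'⟩ := Finset.exists_mem_notMem_of_card_lt_card (s := I) (t := S) (by omega)
  obtain ⟨i, hi⟩ := Finset.card_pos.1 (show 0 < I.card by omega)
  exact (h2 j hj hj').ne (h1 i hi)

theorem comb_le {U : ι → E} {S I : Finset ι} {l : E →L[ℝ] ℝ} {c : ℝ} (h1 : ∀ i ∈ I, l (U i) = c)
    (h2 : ∀ j ∈ S, j ∉ I → l (U j) < c) {j : ι} (hj : j ∈ S) : l (U j) ≤ c := by
  by_cases h : j ∈ I
  exacts [(h1 j h).le, (h2 j hj h).le]

theorem comb_vis {D : ℕ} (hD : 1 ≤ D) {U : ι → E} {S I : Finset ι} (hS : D < S.card)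
    (hI : I.card = D) {l : E →L[ℝ] ℝ} {c : ℝ} (h1 : ∀ i ∈ I, l (U i) = c)
    (h2 : ∀ j ∈ S, j ∉ I → l (U j) < c) {x y : E} (hx : c ≤ l x) (hy : c ≤ l y) : Vis U S x y :=
  ⟨l, comb_ne hD hS hI h1 h2, fun _ hj => ⟨(comb_le h1 h2 hj).trans hx, (comb_le h1 h2 hj).trans hy⟩⟩

theorem comb_ins [DecidableEq ι] {U : ι → E} {S I : Finset ι} {l : E →L[ℝ] ℝ} {c : ℝ}
    (h2 : ∀ j ∈ S, j ∉ I → l (U j) < c) {p : ι} (hp : l (U p) < c) :
    ∀ j ∈ insert p S, j ∉ I → l (U j) < c := fun j hj hI => by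
  rcases Finset.mem_insert.1 hj with rfl | hj
  exacts [hp, h2 j hj hI]

/-- a facet that is lost or new after the insertion of `p` -/
theorem comb_change [DecidableEq ι] {D : ℕ} {U : ι → E} {S I : Finset ι} {p : ι}
    (h : ¬ (I ∈ (S.powersetCard D).filter (Fac U S) ↔
      I ∈ ((insert p S).powersetCard D).filter (Fac U (insert p S)))) :
    I ⊆ insert p S ∧ I.card = D ∧ ∃ (l : E →L[ℝ] ℝ) (c : ℝ), (∀ i ∈ I, l (U i) = c) ∧
      (∀ j ∈ S, j ∉ I → l (U j) < c) ∧ c ≤ l (U p) := by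
  simp only [Finset.mem_filter, Finset.mem_powersetCard] at h
  by_cases a : (I ⊆ S ∧ I.card = D) ∧ Fac U S I
  · have s := a.1.1.trans (Finset.subset_insert p S)
    obtain ⟨l, c, h1, h2⟩ := a.2
    exact ⟨s, a.1.2, l, c, h1, h2, not_lt.1 fun k =>
      h (iff_of_true a ⟨⟨s, a.1.2⟩, l, c, h1, comb_ins h2 k⟩)⟩
  · have b : (I ⊆ insert p S ∧ I.card = D) ∧ Fac U (insert p S) I := by
      by_contra b
      exact h (iff_of_false a b)
    have hp : p ∈ I := by
      by_contra hp
      exact a ⟨⟨(Finset.subset_insert_iff_of_notMem hp).1 b.1.1, b.1.2⟩,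
        comb_mono (Finset.subset_insert p S) b.2⟩
    obtain ⟨l, c, h1, h2⟩ := b.2
    exact ⟨b.1.1, b.1.2, l, c, h1, fun j hj => h2 j (Finset.mem_insert_of_mem hj), (h1 p hp).ge⟩

theorem first_diff [DecidableEq ι] {D : ℕ} (hD : 1 ≤ D) (U : ι → E) {S : Finset ι}
    (hS : D < S.card) {p : ι} (hp : p ∉ S) :
    |(cnt D U (insert p S) : ℝ) - cnt D U S| ≤ ((vis U S (U p) : ℝ) + 1) ^ D := by
  set A := (S.powersetCard D).filter (Fac U S)
  set B := ((insert p S).powersetCard D).filter (Fac U (insert p S))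
  set W := (insert p (S.filter fun j => Vis U S (U p) (U j))).powersetCard D
  have key : ∀ I, ¬ (I ∈ A ↔ I ∈ B) → I ∈ W := by
    intro I h
    obtain ⟨s, hI, l, c, h1, h2, h3⟩ := comb_change h
    refine Finset.mem_powersetCard.2 ⟨fun i hi => ?_, hI⟩
    rcases Finset.mem_insert.1 (s hi) with rfl | k
    · exact Finset.mem_insert_self _ _
    · exact Finset.mem_insert_of_mem
        (Finset.mem_filter.2 ⟨k, comb_vis hD hS hI h1 h2 h3 (h1 i hi).ge⟩)
  have hW : W.card ≤ (vis U S (U p) + 1) ^ D := by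
    rw [Finset.card_powersetCard,
      Finset.card_insert_of_notMem fun h => hp (Finset.mem_filter.1 h).1]
    exact Nat.choose_le_pow _ _
  have e1 : A.card ≤ B.card + W.card :=
    le_trans (Finset.card_le_card fun I hI => Finset.mem_union.2
      (or_iff_not_imp_left.2 fun k => key I fun h => k (h.1 hI))) (Finset.card_union_le _ _)
  have e2 : B.card ≤ A.card + W.card :=
    le_trans (Finset.card_le_card fun I hI => Finset.mem_union.2
      (or_iff_not_imp_left.2 fun k => key I fun h => k (h.2 hI))) (Finset.card_union_le _ _)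
  have f0 : (W.card : ℝ) ≤ ((vis U S (U p) : ℝ) + 1) ^ D := by exact_mod_cast hW
  have f1 : (A.card : ℝ) ≤ B.card + W.card := by exact_mod_cast e1
  have f2 : (B.card : ℝ) ≤ A.card + W.card := by exact_mod_cast e2
  change |(B.card : ℝ) - A.card| ≤ _
  rw [abs_le]
  constructor <;> linarith

theorem first_diff_zero [DecidableEq ι] {D : ℕ} (hD : 1 ≤ D) (U : ι → E) {S : Finset ι}
    (hS : D < S.card) {p : ι} (hp : p ∉ S) (h : ¬ Vis U S (U p) (U p)) :
    cnt D U (insert p S) = cnt D U S := by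
  have _ := hp
  unfold cnt
  refine congrArg _ (Finset.ext fun I => Iff.symm ?_)
  by_contra k
  obtain ⟨-, hI, l, c, h1, h2, h3⟩ := comb_change k
  exact h (comb_vis hD hS hI h1 h2 h3 h3)

theorem comb_sum (D : ℕ) (U : ι → E) {T W : Finset ι} (h : T ⊆ W) :
    (cnt D U T : ℝ) = ∑ I ∈ W.powersetCard D, if I ⊆ T ∧ Fac U T I then (1 : ℝ) else 0 := by
  rw [Finset.sum_boole, cnt]
  congr 2
  ext I
  simp only [Finset.mem_filter, Finset.mem_powersetCard]
  exact ⟨fun k => ⟨⟨k.1.1.trans h, k.1.2⟩, k.1.1, k.2⟩, fun k => ⟨⟨k.2.1, k.1.2⟩, k.2.2⟩⟩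

/-- a facet through `p` survives the insertion of `q` -/
theorem comb_one [DecidableEq ι] {D : ℕ} (hD : 1 ≤ D) {U : ι → E} {S I : Finset ι}
    (hS : D < S.card) (hI : I.card = D) {p q : ι} (h : ¬ Vis U S (U p) (U q)) (hp : p ∈ I)
    (b : Fac U (insert p S) I) : Fac U (insert q (insert p S)) I := by
  obtain ⟨l, c, h1, h2⟩ := b
  exact ⟨l, c, h1, comb_ins h2 (not_le.1 fun k => h (comb_vis hD hS hI h1
    (fun j hj => h2 j (Finset.mem_insert_of_mem hj)) (h1 p hp).ge k))⟩

theorem comb_or [DecidableEq ι] {D : ℕ} (hD : 1 ≤ D) {U : ι → E} {S I : Finset ι}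
    (hS : D < S.card) (hI : I.card = D) {p q : ι} (h : ¬ Vis U S (U p) (U q)) (a : Fac U S I) :
    Fac U (insert p S) I ∨ Fac U (insert q S) I := by
  obtain ⟨l, c, h1, h2⟩ := a
  by_cases k : l (U p) < c
  · exact Or.inl ⟨l, c, h1, comb_ins h2 k⟩
  · exact Or.inr ⟨l, c, h1, comb_ins h2
      (not_le.1 fun k' => h (comb_vis hD hS hI h1 h2 (not_lt.1 k) k'))⟩

theorem comb_and [DecidableEq ι] {D : ℕ} (hD : 1 ≤ D) {U : ι → E} {S I : Finset ι}
    (hS : D < S.card) (hI : I.card = D) {p q : ι} (h : ¬ Vis U S (U p) (U q)) (hp : p ∉ I)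
    (hq : q ∉ I) (b : Fac U (insert p S) I) (c : Fac U (insert q S) I) :
    Fac U (insert p (insert q S)) I := by
  obtain ⟨l₁, c₁, h1, h2⟩ := b
  obtain ⟨l₂, c₂, k1, k2⟩ := c
  by_cases e1 : l₁ (U q) < c₁
  · rw [Finset.insert_comm]
    exact ⟨l₁, c₁, h1, comb_ins h2 e1⟩
  by_cases e2 : l₂ (U p) < c₂
  · exact ⟨l₂, c₂, k1, comb_ins k2 e2⟩
  have a0 := h2 p (Finset.mem_insert_self _ _) hp
  have b1 := k2 q (Finset.mem_insert_self _ _) hq
  have hs : 0 < l₂ (U p) - l₂ (U q) := by linarith [not_lt.1 e2]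
  have ht : 0 < l₁ (U q) - l₁ (U p) := by linarith [not_lt.1 e1]
  set s := l₂ (U p) - l₂ (U q) with es
  set t := l₁ (U q) - l₁ (U p) with et
  have ap : ∀ x, (s • l₁ + t • l₂) x = s * l₁ x + t * l₂ x := fun x => rfl
  have m1 : ∀ i ∈ I, (s • l₁ + t • l₂) (U i) = s * c₁ + t * c₂ := fun i hi => by
    rw [ap, h1 i hi, k1 i hi]
  have m2 : ∀ j ∈ S, j ∉ I → (s • l₁ + t • l₂) (U j) < s * c₁ + t * c₂ := fun j hj hI => by
    rw [ap]
    exact add_lt_add (mul_lt_mul_of_pos_left (h2 j (Finset.mem_insert_of_mem hj) hI) hs)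
      (mul_lt_mul_of_pos_left (k2 j (Finset.mem_insert_of_mem hj) hI) ht)
  have m3 : (s • l₁ + t • l₂) (U q) = (s • l₁ + t • l₂) (U p) := by
    rw [ap, ap, es, et]; ring
  have m4 : (s • l₁ + t • l₂) (U p) < s * c₁ + t * c₂ :=
    not_le.1 fun k => h (comb_vis hD hS hI m1 m2 k (m3 ▸ k))
  exact ⟨_, _, m1, comb_ins (comb_ins m2 (m3 ▸ m4)) m4⟩

theorem second_diff [DecidableEq ι] {D : ℕ} (hD : 1 ≤ D) (U : ι → E) {S : Finset ι}
    (hS : D < S.card) {p q : ι} (hp : p ∉ S) (hq : q ∉ S) (hpq : p ≠ q)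
    (h : ¬ Vis U S (U p) (U q)) :
    (cnt D U (insert p (insert q S)) : ℝ) - cnt D U (insert q S) =
      cnt D U (insert p S) - cnt D U S := by
  have s1 : insert q S ⊆ insert p (insert q S) := Finset.subset_insert _ _
  have s2 : insert p S ⊆ insert p (insert q S) :=
    Finset.insert_subset_insert _ (Finset.subset_insert _ _)
  have s3 : S ⊆ insert q S := Finset.subset_insert _ _
  have s4 : S ⊆ insert p S := Finset.subset_insert _ _
  rw [comb_sum D U Finset.Subset.rfl, comb_sum D U s1, comb_sum D U s2, comb_sum D U (s3.trans s1),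
    ← Finset.sum_sub_distrib, ← Finset.sum_sub_distrib]
  refine Finset.sum_congr rfl fun I hI => ?_
  obtain ⟨s, hI⟩ := Finset.mem_powersetCard.1 hI
  have np : p ∉ insert q S := by simp [hp, hpq]
  have nq : q ∉ insert p S := by simp [hq, hpq.symm]
  by_cases ip : p ∈ I <;> by_cases iq : q ∈ I
  · rw [if_neg, if_neg fun k => np (k.1 ip), if_neg fun k => nq (k.1 iq),
      if_neg fun k => hp (k.1 ip)]
    rintro ⟨-, l, c, h1, h2⟩
    exact h (comb_vis hD hS hI h1 (fun j hj => h2 j (s1 (s3 hj))) (h1 p ip).ge (h1 q iq).ge)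
  · rw [if_neg fun k : I ⊆ insert q S ∧ _ => np (k.1 ip), if_neg fun k : I ⊆ S ∧ _ => hp (k.1 ip)]
    have s' : I ⊆ insert p S := by
      rw [Finset.insert_comm] at s
      exact (Finset.subset_insert_iff_of_notMem iq).1 s
    have e : (I ⊆ insert p (insert q S) ∧ Fac U (insert p (insert q S)) I) ↔
        (I ⊆ insert p S ∧ Fac U (insert p S) I) :=
      ⟨fun k => ⟨s', comb_mono s2 k.2⟩, fun k => ⟨s, by
        rw [Finset.insert_comm]; exact comb_one hD hS hI h ip k.2⟩⟩
    by_cases k : I ⊆ insert p S ∧ Fac U (insert p S) I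
    · rw [if_pos (e.2 k), if_pos k]
    · rw [if_neg (mt e.1 k), if_neg k]
  · rw [if_neg fun k : I ⊆ insert p S ∧ _ => nq (k.1 iq), if_neg fun k : I ⊆ S ∧ _ => hq (k.1 iq)]
    have s' : I ⊆ insert q S := (Finset.subset_insert_iff_of_notMem ip).1 s
    have e : (I ⊆ insert p (insert q S) ∧ Fac U (insert p (insert q S)) I) ↔
        (I ⊆ insert q S ∧ Fac U (insert q S) I) :=
      ⟨fun k => ⟨s', comb_mono s1 k.2⟩, fun k => ⟨s, comb_one hD hS hI (mt Vis.symm h) iq k.2⟩⟩
    by_cases k : I ⊆ insert q S ∧ Fac U (insert q S) I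
    · rw [if_pos (e.2 k), if_pos k]; ring
    · rw [if_neg (mt e.1 k), if_neg k]
  · have s0 : I ⊆ S := (Finset.subset_insert_iff_of_notMem iq).1
      ((Finset.subset_insert_iff_of_notMem ip).1 s)
    have r1 := comb_mono (U := U) (I := I) s1
    have r2 := comb_mono (U := U) (I := I) s2
    have r3 := comb_mono (U := U) (I := I) s3
    have r4 := comb_mono (U := U) (I := I) s4
    have r5 := comb_or hD hS hI h
    have r6 := comb_and hD hS hI h ip iq
    simp only [s, s0, s0.trans s3, s0.trans s4, true_and]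
    by_cases b : Fac U (insert p S) I <;> by_cases c : Fac U (insert q S) I
    · rw [if_pos (r6 b c), if_pos b, if_pos c, if_pos (r4 b)]
    · rw [if_neg (mt r1 c), if_pos b, if_neg c, if_pos (r4 b)]; ring
    · rw [if_neg (mt r2 b), if_neg b, if_pos c, if_pos (r3 c)]
    · rw [if_neg (mt r2 b), if_neg b, if_neg c, if_neg fun a => (r5 a).elim b c]

theorem gain [DecidableEq ι] {D : ℕ} (hD : 2 ≤ D) (X : ι → E) {S : Finset ι} {i : ι} (hi : i ∉ S)
    (σ : Fin (D + 1) ↪ ι) (hσ : ∀ k, σ k ∈ S) {F : Set E} {x0 x1 : E}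
    (hG : Good (fun k => X (σ k)) x0 x1 F) (hF : ∀ j ∈ S, (∀ k, j ≠ σ k) → X j ∈ F) :
    cnt D (Function.update X i x0) (insert i S) + 1 ≤
      cnt D (Function.update X i x1) (insert i S) := by
  have hS : D < S.card := by
    have := Finset.card_le_card (s := Finset.univ.map σ) (t := S) fun j hj => by
      obtain ⟨k, -, rfl⟩ := Finset.mem_map.1 hj
      exact hσ k
    rwa [Finset.card_map, Finset.card_univ, Fintype.card_fin] at this
  have up : ∀ x, ∀ j ∈ S, Function.update X i x j = X j := fun x j hj =>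
    Function.update_of_ne (fun e : j = i => hi (e ▸ hj)) _ _
  set A := (S.powersetCard D).filter (Fac X S)
  set B := ((insert i S).powersetCard D).filter (Fac (Function.update X i x1) (insert i S))
  have e0 : cnt D (Function.update X i x0) (insert i S) ≤ A.card := by
    refine Finset.card_le_card fun I hI => ?_
    simp only [A, Finset.mem_filter, Finset.mem_powersetCard] at hI ⊢
    obtain ⟨⟨s, hI⟩, hf⟩ := hI
    have ni : i ∉ I := fun k => by
      obtain ⟨l, c, h1, h2⟩ := hf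
      have := hG.inside l c (comb_ne (by omega) hS hI h1 fun j hj =>
        h2 j (Finset.mem_insert_of_mem hj)) fun k => by
          rw [← up x0 _ (hσ k)]
          exact comb_le h1 h2 (Finset.mem_insert_of_mem (hσ k))
      have e := h1 i k
      rw [Function.update_self] at e
      exact this.ne e
    have s' := (Finset.subset_insert_iff_of_notMem ni).1 s
    exact ⟨⟨s', hI⟩, (comb_fac_congr (up x0) s').1 (comb_mono (Finset.subset_insert _ _) hf)⟩
  have e1 : A.erase ((Finset.univ.erase 0).map σ) ⊆ B := by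
    intro I hI
    simp only [A, B, Finset.mem_erase, Finset.mem_filter, Finset.mem_powersetCard] at hI ⊢
    obtain ⟨ne, ⟨s, hI⟩, l, c, h1, h2⟩ := hI
    refine ⟨⟨s.trans (Finset.subset_insert _ _), hI⟩, l, c,
      fun j hj => by rw [up x1 j (s hj), h1 j hj],
      comb_ins (fun j hj hI => by rw [up x1 j hj]; exact h2 j hj hI) ?_⟩
    rw [Function.update_self]
    by_contra k
    have kill := hG.kill l c (comb_ne (by omega) hS hI h1 h2)
      (fun k _ => comb_le h1 h2 (hσ k)) (not_lt.1 k)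
    refine ne (Finset.eq_of_subset_of_card_le (fun j hj => ?_) ?_)
    · by_contra n
      refine (kill (X j) ?_).ne (h1 j hj)
      by_cases z : j = σ 0
      · exact Or.inr (by rw [z])
      · refine Or.inl (hF j (s hj) fun k e => n (Finset.mem_map.2 ⟨k, ?_, e.symm⟩))
        exact Finset.mem_erase.2 ⟨fun e' => z (e' ▸ e), Finset.mem_univ _⟩
    · rw [Finset.card_map, Finset.card_erase_of_mem (Finset.mem_univ _), Finset.card_univ,
        Fintype.card_fin, hI]
      omega
  let N : Fin (D + 1) → Finset ι := fun k => insert i (((Finset.univ.erase 0).erase k).map σ)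
  have mN : ∀ k k', σ k' ∈ N k ↔ k' ≠ k ∧ k' ≠ 0 := fun k k' => by
    have : σ k' ≠ i := fun e => hi (e ▸ hσ k')
    simp [N, this]
  have e2 : ∀ k, k ≠ 0 → N k ∈ B := by
    intro k hk
    obtain ⟨l, c, b1, b2, b3, b4⟩ := hG.born k hk
    simp only [B, Finset.mem_filter, Finset.mem_powersetCard]
    refine ⟨⟨Finset.insert_subset_insert _ fun j hj => ?_, ?_⟩, l, c, fun j hj => ?_,
      fun j hj n => ?_⟩
    · obtain ⟨k', -, rfl⟩ := Finset.mem_map.1 hj
      exact hσ k'
    · rw [Finset.card_insert_of_notMem, Finset.card_map, Finset.card_erase_of_mem (by simp [hk]),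
        Finset.card_erase_of_mem (Finset.mem_univ _), Finset.card_univ, Fintype.card_fin]
      · omega
      · intro h
        obtain ⟨k', -, e⟩ := Finset.mem_map.1 h
        exact hi (e ▸ hσ k')
    · rcases Finset.mem_insert.1 hj with rfl | hj'
      · rwa [Function.update_self]
      · obtain ⟨k', -, rfl⟩ := Finset.mem_map.1 hj'
        rw [up x1 _ (hσ k')]
        exact b2 k' ((mN k k').1 hj).2 ((mN k k').1 hj).1
    · have js : j ∈ S := (Finset.mem_insert.1 hj).resolve_left fun e =>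
        n (e ▸ Finset.mem_insert_self _ _)
      rw [up x1 j js]
      by_cases z : ∃ k', j = σ k'
      · obtain ⟨k', rfl⟩ := z
        by_cases z1 : k' = k
        · rwa [z1]
        · have : k' = 0 := by
            by_contra z2
            exact n ((mN k k').2 ⟨z1, z2⟩)
          exact b4 _ (Or.inr (by rw [this]))
      · exact b4 _ (Or.inl (hF j js fun k' e => z ⟨k', e⟩))
  let k1 : Fin (D + 1) := ⟨1, by omega⟩
  let k2 : Fin (D + 1) := ⟨2, by omega⟩
  have n1 : k1 ≠ 0 := by simp [k1, Fin.ext_iff]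
  have n2 : k2 ≠ 0 := by simp [k2, Fin.ext_iff]
  have n3 : k2 ≠ k1 := by simp [k1, k2, Fin.ext_iff]
  have nN : N k1 ≠ N k2 := fun e => ((mN k2 k2).1 (e ▸ (mN k1 k2).2 ⟨n3, n2⟩)).1 rfl
  have nA : ∀ k, N k ∉ A.erase ((Finset.univ.erase 0).map σ) := fun k h =>
    hi ((Finset.mem_powersetCard.1 (Finset.mem_filter.1 (Finset.mem_of_mem_erase h)).1).1
      (Finset.mem_insert_self _ _))
  have e3 := Finset.card_le_card (Finset.insert_subset (e2 k1 n1) (Finset.insert_subset (e2 k2 n2) e1))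
  rw [Finset.card_insert_of_notMem (by simp only [Finset.mem_insert, nN, nA, or_self, not_false_iff]),
    Finset.card_insert_of_notMem (nA k2)] at e3
  have e4 := Finset.pred_card_le_card_erase (s := A) (a := (Finset.univ.erase 0).map σ)
  change _ ≤ B.card
  omega

end Pool.Agent.Lib.MP_258d0c_pr
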