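import Pool.Agent.Lib.MP_258d0c_pr.Defs

/-!
Internal definitions (not used in the final statements) and two basic tools for product measures.
-/

open MeasureTheory
open scoped ENNReal Classical

namespace Pool.Agent.Lib.MP_258d0c_pr

section Comb

variable {E : Type} [NormedAddCommGroup E] [NormedSpace ℝ E] {ι : Type}

/-- `I` is the set of maximisers of a linear functional on the subfamily `S` of `U`. -/
def Fac (U : ι → E) (S I : Finset ι) : Prop :=
  ∃ (l : E →L[ℝ] ℝ) (c : ℝ), (∀ i ∈ I, l (U i) = c) ∧ ∀ j ∈ S, j ∉ I → l (U j) < c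

/-- combinatorial facet count of the subfamily `S` -/
noncomputable def cnt (D : ℕ) (U : ι → E) (S : Finset ι) : ℕ :=
  ((S.powersetCard D).filter (Fac U S)).card

/-- `x` and `y` lie in a closed half-space whose interior misses the subfamily `S` -/
def Vis (U : ι → E) (S : Finset ι) (x y : E) : Prop :=
  ∃ l : E →L[ℝ] ℝ, l ≠ 0 ∧ ∀ j ∈ S, l (U j) ≤ l x ∧ l (U j) ≤ l y

/-- number of points of the subfamily `S` that are seen from `x` -/
noncomputable def vis (U : ι → E) (S : Finset ι) (x : E) : ℕ :=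
  (S.filter fun j => Vis U S x (U j)).card

/-- The local configuration used for the variance lower bound: `y 0, ..., y D` are the guards,
`x0` lies inside their simplex, `x1` sees only the facet `y 1, ..., y D`; `F` is the set of the
allowed positions of all other points. -/
structure Good {D : ℕ} (y : Fin (D + 1) → E) (x0 x1 : E) (F : Set E) : Prop where
  inside : ∀ (l : E →L[ℝ] ℝ) (c : ℝ), l ≠ 0 → (∀ k, l (y k) ≤ c) → l x0 < c
  kill : ∀ (l : E →L[ℝ] ℝ) (c : ℝ), l ≠ 0 → (∀ k, k ≠ 0 → l (y k) ≤ c) → c ≤ l x1 →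
    ∀ v, v ∈ F ∨ v = y 0 → l v < c
  born : ∀ k, k ≠ 0 → ∃ (l : E →L[ℝ] ℝ) (c : ℝ), l x1 = c ∧
    (∀ k', k' ≠ 0 → k' ≠ k → l (y k') = c) ∧ l (y k) < c ∧ ∀ v, v ∈ F ∨ v = y 0 → l v < c

end Comb

section Prob

variable {E : Type} [MeasurableSpace E]

/-- the i.i.d. product measure -/
noncomputable abbrev iid (ι : Type) [Fintype ι] (μ : Measure E) : Measure (ι → E) :=
  Measure.pi fun _ => μ

omit [MeasurableSpace E] in
/-- recombination of two samples: coordinates in `A` come from the second sample -/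
def mix {n : ℕ} (A : Finset (Fin n)) (U : Fin n ⊕ Fin n → E) : Fin n → E :=
  fun i => if i ∈ A then U (Sum.inr i) else U (Sum.inl i)

omit [MeasurableSpace E] in
/-- resampling difference of the first sample -/
def dA {n : ℕ} (g : (Fin n → E) → ℝ) (j : Fin n) (U : Fin n ⊕ Fin n → E) : ℝ :=
  g (mix ∅ U) - g (mix {j} U)

omit [MeasurableSpace E] in
/-- telescoping difference -/
def dB {n : ℕ} (g : (Fin n → E) → ℝ) (j : Fin n) (U : Fin n ⊕ Fin n → E) : ℝ :=
  g (mix (Finset.Iio j) U) - g (mix (Finset.Iic j) U)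

omit [MeasurableSpace E] in
/-- `sumT ψ g = ∑ j, ψ (dA j) (dB j)` -/
def sumT {n : ℕ} (ψ : ℝ → ℝ → ℝ) (g : (Fin n → E) → ℝ) (U : Fin n ⊕ Fin n → E) : ℝ :=
  ∑ j, ψ (dA g j U) (dB g j U)

/-- Resampling one coordinate preserves the product measure. -/
theorem measurePreserving_update {ι : Type} [Fintype ι] [DecidableEq ι] (μ : Measure E)
    [IsProbabilityMeasure μ] (p : ι) :
    MeasurePreserving (fun q : (ι → E) × E => Function.update q.1 p q.2)
      ((iid ι μ).prod μ) (iid ι μ) := by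
  have hm : Measurable (fun q : (ι → E) × E => Function.update q.1 p q.2) := by fun_prop
  refine ⟨hm, ?_⟩
  refine (Measure.pi_eq fun s hs => ?_).symm
  rw [Measure.map_apply hm (MeasurableSet.univ_pi hs)]
  have h1 : (fun q : (ι → E) × E => Function.update q.1 p q.2) ⁻¹' Set.univ.pi s =
      (Set.univ.pi (Function.update s p Set.univ)) ×ˢ s p := by
    ext ⟨U, x⟩
    simp only [Set.mem_preimage, Set.mem_pi, Set.mem_univ, forall_true_left, Set.mem_prod]
    constructor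
    · intro h
      refine ⟨fun i => ?_, by simpa using h p⟩
      by_cases hi : i = p
      · subst hi; simp
      · have := h i
        simpa [Function.update_of_ne hi] using this
    · rintro ⟨h1, h2⟩ i
      by_cases hi : i = p
      · subst hi; simpa using h2
      · have := h1 i
        simpa [Function.update_of_ne hi] using this
  rw [h1, Measure.prod_prod, Measure.pi_pi]
  rw [← Finset.mul_prod_erase Finset.univ _ (Finset.mem_univ p),
    ← Finset.mul_prod_erase Finset.univ (fun i => μ (s i)) (Finset.mem_univ p)]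
  simp only [Function.update_self, measure_univ, one_mul]
  rw [mul_comm]
  congr 1
  refine Finset.prod_congr rfl fun i hi => ?_
  rw [Function.update_of_ne (Finset.ne_of_mem_erase hi)]

/-- Conditioning on one coordinate. -/
theorem lintegral_condition {ι : Type} [Fintype ι] [DecidableEq ι] (μ : Measure E)
    [IsProbabilityMeasure μ] (p : ι) (Φ : (ι → E) → E → ℝ≥0∞)
    (hΦ : Measurable (Function.uncurry Φ))
    (hp : ∀ U x y, Φ (Function.update U p y) x = Φ U x) :
    ∫⁻ U, Φ U (U p) ∂(iid ι μ) = ∫⁻ x, ∫⁻ U, Φ U x ∂(iid ι μ) ∂μ := by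
  have hm : Measurable fun U : ι → E => Φ U (U p) :=
    hΦ.comp (measurable_id.prodMk (measurable_pi_apply p))
  rw [← (measurePreserving_update μ p).lintegral_comp hm]
  simp only [Function.update_self, hp]
  exact lintegral_prod_symm (fun q : (ι → E) × E => Φ q.1 q.2) hΦ.aemeasurable

/-- Lebesgue integral of a product of functions of the single coordinates. -/
theorem lintegral_pi_prod {ι : Type} [Fintype ι] {X : ι → Type} [∀ i, MeasurableSpace (X i)]
    (ν : ∀ i, Measure (X i)) [∀ i, IsProbabilityMeasure (ν i)] (f : ∀ i, X i → ℝ≥0∞)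
    (hf : ∀ i, Measurable (f i)) :
    ∫⁻ x, ∏ i, f i (x i) ∂(Measure.pi ν) = ∏ i, ∫⁻ y, f i y ∂(ν i) := by
  have hind : ProbabilityTheory.iIndepFun (fun i (x : ∀ i, X i) => f i (x i)) (Measure.pi ν) :=
    ProbabilityTheory.iIndepFun_pi fun i => (hf i).aemeasurable
  rw [ProbabilityTheory.lintegral_prod_eq_prod_lintegral_of_indepFun Finset.univ _ hind
    fun i => (hf i).comp (measurable_pi_apply i)]
  refine Finset.prod_congr rfl fun i _ => ?_
  exact (measurePreserving_eval ν i).lintegral_comp (hf i)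

/-- The data of the abstract variance lower bound. -/
structure LowerData (μ : Measure E) (n : ℕ) (a b : ℝ) {J : Type} {q : ℕ} (D0 D1 R : J → Set E)
    (G : J → Fin q → Set E) (g : (Fin n → E) → ℝ) (M : ℝ) : Prop where
  meas0 : ∀ j, MeasurableSet (D0 j)
  meas1 : ∀ j, MeasurableSet (D1 j)
  measR : ∀ j, MeasurableSet (R j)
  measG : ∀ j k, MeasurableSet (G j k)
  big0 : ∀ j, ENNReal.ofReal (a / n) ≤ μ (D0 j)
  big1 : ∀ j, ENNReal.ofReal (a / n) ≤ μ (D1 j)
  bigG : ∀ j k, ENNReal.ofReal (a / n) ≤ μ (G j k)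
  smallR : ∀ j, μ (R j) ≤ ENNReal.ofReal (b / n)
  sub0 : ∀ j, D0 j ⊆ R j
  sub1 : ∀ j, D1 j ⊆ R j
  subG : ∀ j k, G j k ⊆ R j
  disjG : ∀ j k k', k ≠ k' → Disjoint (G j k) (G j k')
  disj01 : ∀ j, Disjoint (D0 j) (D1 j)
  disj0G : ∀ j k, Disjoint (D0 j) (G j k)
  disj1G : ∀ j k, Disjoint (D1 j) (G j k)
  far0 : ∀ j j', j ≠ j' → Disjoint (D0 j') (R j)
  far1 : ∀ j j', j ≠ j' → Disjoint (D1 j') (R j)
  measg : Measurable g
  bddg : ∀ X, |g X| ≤ M
  gain : ∀ (j : J) (i : Fin n) (σ : Fin q ↪ Fin n) (X : Fin n → E), (∀ k, σ k ≠ i) →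
    (∀ k, X (σ k) ∈ G j k) → (∀ i', i' ≠ i → (∀ k, i' ≠ σ k) → X i' ∉ R j) →
    ∀ x0 ∈ D0 j, ∀ x1 ∈ D1 j, g (Function.update X i x0) + 1 ≤ g (Function.update X i x1)

end Prob

section Bounds

variable {E : Type} [NormedAddCommGroup E] [NormedSpace ℝ E] [MeasurableSpace E]

/-- The local estimates from which the variance bounds follow. -/
structure Bounds (μ : Measure E) (D n : ℕ) (Z : Set E) (K : E → E → ℝ≥0∞) (w : E → ℝ≥0∞)
    (A B : ℝ) : Prop where
  measZ : MeasurableSet Z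
  fullZ : μ Zᶜ = 0
  measK : Measurable (Function.uncurry K)
  measw : Measurable w
  one_le_w : ∀ x, 1 ≤ w x
  one_le_A : 1 ≤ A
  nonneg_B : 0 ≤ B
  tail : ∀ (ι : Type) [Fintype ι] (S : Finset ι), n ≤ 2 * S.card → ∀ x ∈ Z, ∀ y ∈ Z,
    iid ι μ {U | Vis U S x y} ≤ K x y ^ 4
  mom : ∀ (ι : Type) [Fintype ι] (S : Finset ι), n ≤ 2 * S.card → ∀ x ∈ Z,
    ∫⁻ U, ((vis U S x : ℝ≥0∞) + 3) ^ (8 * D) ∂(iid ι μ) ≤ w x
  int0 : ∫⁻ x, w x ∂μ ≤ ENNReal.ofReal A
  int1 : (n : ℝ≥0∞) * ∫⁻ z, K z z * w z ∂μ ≤ ENNReal.ofReal B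
  int2 : (n : ℝ≥0∞) ^ 2 * ∫⁻ z, ∫⁻ x, K z x * w x ∂μ ∂μ ≤ ENNReal.ofReal B
  int3 : (n : ℝ≥0∞) ^ 3 * ∫⁻ z, (∫⁻ x, K z x * w x ∂μ) ^ 2 ∂μ ≤ ENNReal.ofReal B

end Bounds

section Geo

open scoped InnerProductSpace

/-- the normalised one-block beta distribution on the unit ball of `R^k` -/
noncomputable def oneBlock (k : ℕ) (b : ℝ) : Measure (EuclideanSpace ℝ (Fin k)) :=
  (((volume.restrict (Metric.closedBall 0 1)).withDensity
      fun x : EuclideanSpace ℝ (Fin k) => ENNReal.ofReal ((1 - ‖x‖ ^ 2) ^ b)) Set.univ)⁻¹ •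
    (volume.restrict (Metric.closedBall 0 1)).withDensity
      fun x : EuclideanSpace ℝ (Fin k) => ENNReal.ofReal ((1 - ‖x‖ ^ 2) ^ b)

variable {m : ℕ} {d : Fin m → ℕ}

/-- the open product of balls -/
def obody (d : Fin m → ℕ) : Set (Amb d) := {x | ∀ i, ‖x i‖ < 1}

/-- cap exponent -/
noncomputable def gam (d : Fin m → ℕ) (β : Fin m → ℝ) (i : Fin m) : ℝ := (d i + 1) / 2 + β i

/-- shell exponent -/
def alp (β : Fin m → ℝ) (i : Fin m) : ℝ := 1 + β i

/-- `kap = min alp / gam` -/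
noncomputable def kap (d : Fin m → ℕ) (β : Fin m → ℝ) : ℝ := 2 / (kMax d β + 1)

/-- dyadic scale -/
noncomputable def sc (j : Fin m → ℕ) (i : Fin m) : ℝ := (1 / 2 : ℝ) ^ j i

/-- order of the measure of a cap with scales `j` -/
noncomputable def tt (γ : Fin m → ℝ) (j : Fin m → ℕ) : ℝ := ∏ i, sc j i ^ γ i

/-- height of block `i` -/
noncomputable def hh (x : Amb d) (i : Fin m) : ℝ := 1 - ‖x i‖ ^ 2

/-- the quasi-distance `1 - <x, y>` in block `i` -/
noncomputable def rho (x y : Amb d) (i : Fin m) : ℝ := 1 - ⟪x i, y i⟫_ℝ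

/-- depth of a point -/
noncomputable def tau (γ : Fin m → ℝ) (x : Amb d) : ℝ := ∏ i, hh x i ^ γ i

/-- `y` is close to `x` at scale `j` -/
def Near (x y : Amb d) (j : Fin m → ℕ) : Prop := ∀ i, rho x y i ≤ 8 * sc j i

/-- scale `j` is admissible for `x` -/
def Adm (x : Amb d) (j : Fin m → ℕ) : Prop := ∀ i, hh x i ≤ 16 * sc j i

/-- some box cap of scale `j` near `x` is empty -/
def Emp {ι : Type} (U : ι → Amb d) (S : Finset ι) (x : Amb d) (j : Fin m → ℕ) : Prop :=
  ∃ e : Amb d, (∀ i, ‖e i‖ = 1) ∧ (∀ i, rho e x i ≤ 2 * sc j i) ∧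
    ∀ k ∈ S, U k ∈ body d → ∃ i, sc j i / (2 * m) < rho e (U k) i

/-- number of sample points near `x` at scale `j` -/
noncomputable def nearNum {ι : Type} (U : ι → Amb d) (S : Finset ι) (x : Amb d)
    (j : Fin m → ℕ) : ℕ :=
  (S.filter fun k => U k ∈ body d ∧ Near x (U k) j).card

/-- the two-point kernel -/
noncomputable def Kfun (γ : Fin m → ℝ) (c C : ℝ) (n : ℕ) (x y : Amb d) : ℝ≥0∞ :=
  ENNReal.ofReal C *
    ∑' j : Fin m → ℕ, if Near x y j then ENNReal.ofReal (Real.exp (-(c * n * tt γ j))) else 0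

/-- the one-point weight -/
noncomputable def wfun (γ : Fin m → ℝ) (lam C : ℝ) (n : ℕ) (x : Amb d) : ℝ≥0∞ :=
  ENNReal.ofReal C * (1 + ENNReal.ofReal ((n * tau γ x) ^ (-lam)))

end Geo

end Pool.Agent.Lib.MP_258d0c_pr
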