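import Pool.Agent.Lib.MP_258d0c_pr.Core

open MeasureTheory ProbabilityTheory
open scoped ENNReal Classical InnerProductSpace

namespace Pool.Agent.Lib.MP_258d0c_pr

variable {E : Type} [MeasurableSpace E]

/-- bounded and measurable -/
def CovBM {Ω : Type} [MeasurableSpace Ω] (F : Ω → ℝ) : Prop :=
  Measurable F ∧ ∃ C : ℝ, ∀ x, |F x| ≤ C

section BM

variable {Ω Ω' : Type} [MeasurableSpace Ω] [MeasurableSpace Ω'] {F G : Ω → ℝ}

theorem CovBM.integrable (h : CovBM F) (P : Measure Ω) [IsFiniteMeasure P] : Integrable F P := by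
  obtain ⟨hm, C, hC⟩ := h
  exact Integrable.of_bound hm.aestronglyMeasurable C (ae_of_all _ hC)

theorem CovBM.memLp (h : CovBM F) (P : Measure Ω) [IsFiniteMeasure P] : MemLp F 2 P := by
  obtain ⟨hm, C, hC⟩ := h
  exact MemLp.of_bound hm.aestronglyMeasurable C (ae_of_all _ hC)

theorem CovBM.const (c : ℝ) : CovBM (fun _ : Ω => c) := ⟨measurable_const, |c|, fun _ => le_rfl⟩

theorem CovBM.add (h : CovBM F) (h' : CovBM G) : CovBM (fun x => F x + G x) := by
  obtain ⟨hm, C, hC⟩ := h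
  obtain ⟨hm', C', hC'⟩ := h'
  exact ⟨hm.add hm', C + C', fun x => (abs_add_le _ _).trans (add_le_add (hC x) (hC' x))⟩

theorem CovBM.sub (h : CovBM F) (h' : CovBM G) : CovBM (fun x => F x - G x) := by
  obtain ⟨hm, C, hC⟩ := h
  obtain ⟨hm', C', hC'⟩ := h'
  exact ⟨hm.sub hm', C + C', fun x => (abs_sub _ _).trans (add_le_add (hC x) (hC' x))⟩

theorem CovBM.mul (h : CovBM F) (h' : CovBM G) : CovBM (fun x => F x * G x) := by
  obtain ⟨hm, C, hC⟩ := h
  obtain ⟨hm', C', hC'⟩ := h'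
  refine ⟨hm.mul hm', C * C', fun x => ?_⟩
  rw [abs_mul]
  exact mul_le_mul (hC x) (hC' x) (abs_nonneg _) ((abs_nonneg _).trans (hC x))

theorem CovBM.abs (h : CovBM F) : CovBM (fun x => |F x|) := by
  obtain ⟨hm, C, hC⟩ := h
  exact ⟨hm.abs, C, fun x => by rw [abs_abs]; exact hC x⟩

theorem CovBM.sq (h : CovBM F) : CovBM (fun x => F x ^ 2) := by
  simpa only [pow_two] using h.mul h

theorem CovBM.div (h : CovBM F) (c : ℝ) : CovBM (fun x => F x / c) := by
  simpa only [div_eq_mul_inv] using h.mul (CovBM.const c⁻¹)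

theorem CovBM.comp (h : CovBM F) {T : Ω' → Ω} (hT : Measurable T) : CovBM (fun x => F (T x)) := by
  obtain ⟨hm, C, hC⟩ := h
  exact ⟨hm.comp hT, C, fun x => hC _⟩

theorem CovBM.sum {ι : Type} (s : Finset ι) {H : ι → Ω → ℝ} (h : ∀ i, CovBM (H i)) :
    CovBM (fun x => ∑ i ∈ s, H i x) := by
  induction s using Finset.induction_on with
  | empty => simpa using CovBM.const (Ω := Ω) 0
  | insert a s ha ih => simpa only [Finset.sum_insert ha] using (h a).add ih

theorem cov_integral_comp {P : Measure Ω'} {Q : Measure Ω} {T : Ω' → Ω}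
    (hT : MeasurePreserving T P Q) (hF : Measurable F) :
    ∫ x, F (T x) ∂P = ∫ y, F y ∂Q := by
  rw [← hT.map_eq, integral_map hT.measurable.aemeasurable hF.aestronglyMeasurable]

end BM

theorem cov_reindex (μ : Measure E) [IsProbabilityMeasure μ] {ι κ : Type} [Fintype ι] [Fintype κ]
    (σ : κ → ι) (hσ : Function.Injective σ) :
    MeasurePreserving (fun (U : ι → E) (k : κ) => U (σ k)) (iid ι μ) (iid κ μ) := by
  refine ⟨measurable_pi_lambda _ fun k => measurable_pi_apply _, ?_⟩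
  have h1 : iIndepFun (fun (i : ι) (U : ι → E) => U i) (iid ι μ) :=
    iIndepFun_pi (X := fun _ => id) fun _ => aemeasurable_id
  have h2 := h1.precomp hσ
  rw [h2.map_fun_eq_pi_map fun k => (measurable_pi_apply _).aemeasurable]
  congr 1
  funext k
  exact (measurePreserving_eval (fun _ : ι => μ) (σ k)).map_eq

theorem measurePreserving_mix (μ : Measure E) [IsProbabilityMeasure μ] {n : ℕ}
    (A : Finset (Fin n)) :
    MeasurePreserving (mix A : (Fin n ⊕ Fin n → E) → Fin n → E) (iid (Fin n ⊕ Fin n) μ)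
      (iid (Fin n) μ) := by
  have h := cov_reindex μ (fun i : Fin n => (if i ∈ A then Sum.inr i else Sum.inl i : Fin n ⊕ Fin n))
    (by
      intro a b hab
      by_cases ha : a ∈ A <;> by_cases hb : b ∈ A <;> simp_all)
  convert h using 1
  funext U i
  by_cases hi : i ∈ A <;> simp [mix, hi]

theorem cov_meas_mix {n : ℕ} (A : Finset (Fin n)) :
    Measurable (mix A : (Fin n ⊕ Fin n → E) → Fin n → E) := by
  refine measurable_pi_lambda _ fun i => ?_
  by_cases hi : i ∈ A
  · simpa only [mix, hi, if_true] using measurable_pi_apply (Sum.inr i)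
  · simpa only [mix, hi, if_false] using measurable_pi_apply (Sum.inl i)

/-- precomposition with a permutation of the index set -/
def covPerm {ι : Type} (e : ι ≃ ι) : (ι → E) ≃ᵐ (ι → E) where
  toFun U := fun k => U (e k)
  invFun U := fun k => U (e.symm k)
  left_inv U := by funext k; simp
  right_inv U := by funext k; simp
  measurable_toFun := measurable_pi_lambda _ fun k => measurable_pi_apply _
  measurable_invFun := measurable_pi_lambda _ fun k => measurable_pi_apply _

omit [MeasurableSpace E] in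
theorem cov_mix_swap {n : ℕ} (j : Fin n) (A B : Finset (Fin n)) (hj : j ∈ A ↔ j ∉ B)
    (hAB : ∀ i, i ≠ j → (i ∈ A ↔ i ∈ B)) (U : Fin n ⊕ Fin n → E) :
    mix A (fun k => U (Equiv.swap (Sum.inl j) (Sum.inr j) k)) = mix B U := by
  funext i
  by_cases hi : i = j
  · subst hi
    by_cases hA : i ∈ A
    · have hB : i ∉ B := hj.1 hA
      simp [mix, hA, hB]
    · have hB : i ∈ B := by
        by_contra hB
        exact hA (hj.2 hB)
      simp [mix, hA, hB]
  · have h1 : Equiv.swap (Sum.inl j : Fin n ⊕ Fin n) (Sum.inr j) (Sum.inl i) = Sum.inl i :=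
      Equiv.swap_apply_of_ne_of_ne (by simpa using hi) (by simp)
    have h2 : Equiv.swap (Sum.inl j : Fin n ⊕ Fin n) (Sum.inr j) (Sum.inr i) = Sum.inr i :=
      Equiv.swap_apply_of_ne_of_ne (by simp) (by simpa using hi)
    by_cases hA : i ∈ A
    · have hB : i ∈ B := (hAB i hi).1 hA
      simp [mix, hA, hB, h2]
    · have hB : i ∉ B := fun hB => hA ((hAB i hi).2 hB)
      simp [mix, hA, hB, h1]

/-- swapping the two copies of coordinate `j` -/
theorem integral_swap (μ : Measure E) [IsProbabilityMeasure μ] {n : ℕ} (j : Fin n)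
    (H : (Fin n → E) → (Fin n → E) → (Fin n → E) → (Fin n → E) → ℝ) :
    ∫ U, H (mix ∅ U) (mix {j} U) (mix (Finset.Iio j) U) (mix (Finset.Iic j) U)
        ∂(iid (Fin n ⊕ Fin n) μ) =
      ∫ U, H (mix {j} U) (mix ∅ U) (mix (Finset.Iic j) U) (mix (Finset.Iio j) U)
        ∂(iid (Fin n ⊕ Fin n) μ) := by
  have hT : MeasurePreserving
      (covPerm (E := E) (Equiv.swap (Sum.inl j : Fin n ⊕ Fin n) (Sum.inr j)))
      (iid (Fin n ⊕ Fin n) μ) (iid (Fin n ⊕ Fin n) μ) :=
    cov_reindex μ _ (Equiv.swap (Sum.inl j : Fin n ⊕ Fin n) (Sum.inr j)).injective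
  rw [← hT.integral_comp']
  refine integral_congr_ae (ae_of_all _ fun U => ?_)
  have e1 := cov_mix_swap j ∅ {j} (by simp) (fun i hi => by simp [hi]) U
  have e2 := cov_mix_swap j {j} ∅ (by simp) (fun i hi => by simp [hi]) U
  have e3 := cov_mix_swap j (Finset.Iio j) (Finset.Iic j) (by simp)
    (fun i hi => by simp [lt_iff_le_and_ne, hi]) U
  have e4 := cov_mix_swap j (Finset.Iic j) (Finset.Iio j) (by simp)
    (fun i hi => by simp [lt_iff_le_and_ne, hi]) U
  change H (mix ∅ fun k => U _) (mix {j} fun k => U _) (mix (Finset.Iio j) fun k => U _)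
    (mix (Finset.Iic j) fun k => U _) = _
  rw [e1, e2, e3, e4]

omit [MeasurableSpace E] in
theorem cov_telescope {n : ℕ} (g : (Fin n → E) → ℝ) (U : Fin n ⊕ Fin n → E) :
    ∑ j, dB g j U = g (mix ∅ U) - g (mix Finset.univ U) := by
  let b : ℕ → ℝ := fun k => g (mix (Finset.univ.filter fun i : Fin n => (i : ℕ) < k) U)
  have h1 : ∀ j : Fin n, dB g j U = b j - b (j + 1) := by
    intro j
    have a1 : (Finset.univ.filter fun i : Fin n => (i : ℕ) < j) = Finset.Iio j := by
      ext i; simp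
    have a2 : (Finset.univ.filter fun i : Fin n => (i : ℕ) < j + 1) = Finset.Iic j := by
      ext i; simp
    simp only [dB, b, a1, a2]
  rw [Finset.sum_congr rfl fun j _ => h1 j,
    Fin.sum_univ_eq_sum_range (fun k => b k - b (k + 1)) n, Finset.sum_range_sub']
  have a1 : (Finset.univ.filter fun i : Fin n => (i : ℕ) < 0) = ∅ := by
    ext i; simp
  have a2 : (Finset.univ.filter fun i : Fin n => (i : ℕ) < n) = Finset.univ := by
    ext i; simp
  simp only [b, a1, a2]

theorem cov_indep (μ : Measure E) [IsProbabilityMeasure μ] {n : ℕ} (f g : (Fin n → E) → ℝ) :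
    ∫ U, f (mix ∅ U) * g (mix Finset.univ U) ∂(iid (Fin n ⊕ Fin n) μ) =
      (∫ X, f X ∂(iid (Fin n) μ)) * ∫ X, g X ∂(iid (Fin n) μ) := by
  have hT := measurePreserving_sumPiEquivProdPi (fun _ : Fin n ⊕ Fin n => μ)
  rw [← integral_prod_mul, ← hT.integral_comp']
  refine integral_congr_ae (ae_of_all _ fun U => ?_)
  have e1 : mix ∅ U = fun i => U (Sum.inl i) := by
    funext i; simp [mix]
  have e2 : mix Finset.univ U = fun i => U (Sum.inr i) := by
    funext i; simp [mix]
  simp only [e1, e2]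
  rfl

theorem CovBM.mix {n : ℕ} {g : (Fin n → E) → ℝ} (hg : CovBM g) (A : Finset (Fin n)) :
    CovBM (fun U : Fin n ⊕ Fin n → E => g (mix A U)) := hg.comp (cov_meas_mix A)

theorem CovBM.dA {n : ℕ} {g : (Fin n → E) → ℝ} (hg : CovBM g) (j : Fin n) : CovBM (dA g j) :=
  (hg.mix ∅).sub (hg.mix {j})

theorem CovBM.dB {n : ℕ} {g : (Fin n → E) → ℝ} (hg : CovBM g) (j : Fin n) : CovBM (dB g j) :=
  (hg.mix _).sub (hg.mix _)

theorem cov_identity' (μ : Measure E) [IsProbabilityMeasure μ] {n : ℕ} {f g : (Fin n → E) → ℝ}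
    (hf : CovBM f) (hg : CovBM g) :
    ∫ X, f X * g X ∂(iid (Fin n) μ) -
        (∫ X, f X ∂(iid (Fin n) μ)) * ∫ X, g X ∂(iid (Fin n) μ) =
      (1 / 2) * ∑ j, ∫ U, dA f j U * dB g j U ∂(iid (Fin n ⊕ Fin n) μ) := by
  have h1 : ∫ X, f X * g X ∂(iid (Fin n) μ) =
      ∫ U, f (mix ∅ U) * g (mix ∅ U) ∂(iid (Fin n ⊕ Fin n) μ) :=
    (cov_integral_comp (measurePreserving_mix μ ∅) (hf.mul hg).1).symm
  have h2 : ∀ j : Fin n, ∫ U, dA f j U * dB g j U ∂(iid (Fin n ⊕ Fin n) μ) =
      2 * ∫ U, f (mix ∅ U) * dB g j U ∂(iid (Fin n ⊕ Fin n) μ) := by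
    intro j
    have s := integral_swap μ j fun a _ c d => f a * (g c - g d)
    have s2 : ∫ U, f (mix {j} U) * dB g j U ∂(iid (Fin n ⊕ Fin n) μ) =
        -∫ U, f (mix ∅ U) * dB g j U ∂(iid (Fin n ⊕ Fin n) μ) := by
      simp only [dB]
      rw [s, ← integral_neg]
      refine integral_congr_ae (ae_of_all _ fun U => ?_)
      ring
    have s3 : ∫ U, dA f j U * dB g j U ∂(iid (Fin n ⊕ Fin n) μ) =
        ∫ U, f (mix ∅ U) * dB g j U ∂(iid (Fin n ⊕ Fin n) μ) -
          ∫ U, f (mix {j} U) * dB g j U ∂(iid (Fin n ⊕ Fin n) μ) := by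
      rw [← integral_sub (((hf.mix ∅).mul (hg.dB j)).integrable _)
        (((hf.mix {j}).mul (hg.dB j)).integrable _)]
      refine integral_congr_ae (ae_of_all _ fun U => ?_)
      simp only [dA]
      ring
    rw [s3, s2]
    ring
  rw [h1, ← cov_indep, Finset.sum_congr rfl fun j _ => h2 j, ← Finset.mul_sum,
    ← integral_finsetSum _ fun j _ => ((hf.mix ∅).mul (hg.dB j)).integrable _,
    ← integral_sub (((hf.mix ∅).mul (hg.mix ∅)).integrable _)
      (((hf.mix ∅).mul (hg.mix Finset.univ)).integrable _), ← mul_assoc]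
  norm_num
  refine integral_congr_ae (ae_of_all _ fun U => ?_)
  simp only
  rw [← Finset.mul_sum, cov_telescope]
  ring

/-- the covariance identity -/
theorem cov_identity (μ : Measure E) [IsProbabilityMeasure μ] {n : ℕ} (f g : (Fin n → E) → ℝ)
    (hf : Measurable f) (hg : Measurable g) (M : ℝ) (hfb : ∀ X, |f X| ≤ M)
    (hgb : ∀ X, |g X| ≤ M) :
    ∫ X, f X * g X ∂(iid (Fin n) μ) -
        (∫ X, f X ∂(iid (Fin n) μ)) * ∫ X, g X ∂(iid (Fin n) μ) =
      (1 / 2) * ∑ j, ∫ U, dA f j U * dB g j U ∂(iid (Fin n ⊕ Fin n) μ) :=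
  cov_identity' μ ⟨hf, M, hfb⟩ ⟨hg, M, hgb⟩

theorem cov_var_eq (μ : Measure E) [IsProbabilityMeasure μ] {n : ℕ} {g : (Fin n → E) → ℝ}
    (hg : CovBM g) :
    Var[g; iid (Fin n) μ] =
      (1 / 2) * ∑ j, ∫ U, dA g j U * dB g j U ∂(iid (Fin n ⊕ Fin n) μ) := by
  rw [← cov_identity' μ hg hg, variance_eq_sub (hg.memLp _), pow_two, pow_two]
  rfl

omit [MeasurableSpace E] in
theorem cov_mix_insert {n : ℕ} (j : Fin n) (A B : Finset (Fin n)) (hj : j ∈ B)
    (hAB : ∀ i, i ≠ j → (i ∈ A ↔ i ∈ B)) (U : Fin n ⊕ Fin n → E) :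
    mix B U = Function.update (mix A U) j (U (Sum.inr j)) := by
  funext i
  by_cases hi : i = j
  · subst hi
    simp [mix, hj]
  · rw [Function.update_of_ne hi]
    by_cases hA : i ∈ A
    · simp [mix, hA, (hAB i hi).1 hA]
    · have hB : i ∉ B := fun hB => hA ((hAB i hi).2 hB)
      simp [mix, hA, hB]

theorem cov_efron_fin (μ : Measure E) [IsProbabilityMeasure μ] {n : ℕ}
    {F : (Fin n → E) → ℝ} {Fi : Fin n → (Fin n → E) → ℝ} (hF : CovBM F) (hFi : ∀ i, CovBM (Fi i))
    (hind : ∀ i U x, Fi i (Function.update U i x) = Fi i U) :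
    Var[F; iid (Fin n) μ] ≤ 2 * ∑ i, ∫ U, (F U - Fi i U) ^ 2 ∂(iid (Fin n) μ) := by
  rw [cov_var_eq μ hF, Finset.mul_sum, Finset.mul_sum]
  refine Finset.sum_le_sum fun j _ => ?_
  have hq : CovBM fun U => (F U - Fi j U) ^ 2 := (hF.sub (hFi j)).sq
  have hv : ∀ A : Finset (Fin n), ∫ U, (F (mix A U) - Fi j (mix A U)) ^ 2 ∂(iid (Fin n ⊕ Fin n) μ) =
      ∫ U, (F U - Fi j U) ^ 2 ∂(iid (Fin n) μ) := fun A =>
    cov_integral_comp (measurePreserving_mix μ A) hq.1
  have hle : ∫ U, dA F j U * dB F j U ∂(iid (Fin n ⊕ Fin n) μ) ≤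
      ∫ U, ((F (mix ∅ U) - Fi j (mix ∅ U)) ^ 2 + (F (mix {j} U) - Fi j (mix {j} U)) ^ 2) +
        ((F (mix (Finset.Iio j) U) - Fi j (mix (Finset.Iio j) U)) ^ 2 +
          (F (mix (Finset.Iic j) U) - Fi j (mix (Finset.Iic j) U)) ^ 2)
        ∂(iid (Fin n ⊕ Fin n) μ) := by
    refine integral_mono (((hF.dA j).mul (hF.dB j)).integrable _)
      ((((hq.mix _).add (hq.mix _)).add ((hq.mix _).add (hq.mix _))).integrable _) fun U => ?_
    have e1 : Fi j (mix {j} U) = Fi j (mix ∅ U) := by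
      rw [cov_mix_insert j ∅ {j} (by simp) (fun i hi => by simp [hi]) U, hind]
    have e2 : Fi j (mix (Finset.Iic j) U) = Fi j (mix (Finset.Iio j) U) := by
      rw [cov_mix_insert j (Finset.Iio j) (Finset.Iic j) (by simp)
        (fun i hi => by simp [lt_iff_le_and_ne, hi]) U, hind]
    simp only [dA, dB, e1, e2]
    generalize F (mix ∅ U) = a
    generalize F (mix {j} U) = b
    generalize F (mix (Finset.Iio j) U) = c
    generalize F (mix (Finset.Iic j) U) = d
    generalize Fi j (mix ∅ U) = p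
    generalize Fi j (mix (Finset.Iio j) U) = q
    nlinarith [sq_nonneg ((a - b) - (c - d)), sq_nonneg ((a - p) + (b - p)),
      sq_nonneg ((c - q) + (d - q))]
  rw [integral_add (((hq.mix _).add (hq.mix _)).integrable _)
      (((hq.mix _).add (hq.mix _)).integrable _),
    integral_add ((hq.mix _).integrable _) ((hq.mix _).integrable _),
    integral_add ((hq.mix _).integrable _) ((hq.mix _).integrable _), hv, hv, hv, hv] at hle
  linarith

/-- Efron-Stein inequality (with constant 2) -/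
theorem efron_stein (μ : Measure E) [IsProbabilityMeasure μ] {ι : Type} [Fintype ι]
    [DecidableEq ι] (F : (ι → E) → ℝ) (Fi : ι → (ι → E) → ℝ) (hF : Measurable F)
    (hFi : ∀ i, Measurable (Fi i)) (M : ℝ) (hb : ∀ U, |F U| ≤ M) (hbi : ∀ i U, |Fi i U| ≤ M)
    (hind : ∀ i U x, Fi i (Function.update U i x) = Fi i U) :
    Var[F; iid ι μ] ≤ 2 * ∑ i, ∫ U, (F U - Fi i U) ^ 2 ∂(iid ι μ) := by
  let e := Fintype.equivFin ι
  have hT := cov_reindex μ e e.injective
  have hF' : CovBM F := ⟨hF, M, hb⟩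
  have hFi' : ∀ i, CovBM (Fi i) := fun i => ⟨hFi i, M, hbi i⟩
  have h := cov_efron_fin μ (F := fun X => F fun k => X (e k))
    (Fi := fun j X => Fi (e.symm j) fun k => X (e k)) (hF'.comp hT.measurable)
    (fun j => (hFi' _).comp hT.measurable) (by
      intro j X x
      have : (fun k => Function.update X j x (e k)) =
          Function.update (fun k => X (e k)) (e.symm j) x := by
        funext k
        by_cases hk : k = e.symm j
        · subst hk; simp
        · have hk' : e k ≠ j := fun h => hk (by rw [← h]; simp)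
          rw [Function.update_of_ne hk, Function.update_of_ne hk']
      simp only [this, hind])
  rw [hT.variance_fun_comp hF.aemeasurable] at h
  refine h.trans (le_of_eq ?_)
  congr 1
  rw [← Equiv.sum_comp e.symm]
  refine Finset.sum_congr rfl fun j _ => ?_
  exact cov_integral_comp hT (hF'.sub (hFi' _)).sq.1

end Pool.Agent.Lib.MP_258d0c_pr
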