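import Mathlib

/-!
Definitions used in the statements about block-beta random polytopes.
-/

open MeasureTheory

namespace Pool.Agent.Lib.MP_258d0c_pr

/-- The space `R^(d 1) × ... × R^(d m)`, each factor Euclidean; `volume` is Lebesgue measure. -/
abbrev Amb {m : ℕ} (d : Fin m → ℕ) : Type := (i : Fin m) → EuclideanSpace ℝ (Fin (d i))

/-- The product of the closed Euclidean unit balls. -/
def body {m : ℕ} (d : Fin m → ℕ) : Set (Amb d) := {x | ∀ i, ‖x i‖ ≤ 1}

/-- The unnormalised block-beta density. -/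
noncomputable def dens {m : ℕ} (d : Fin m → ℕ) (β : Fin m → ℝ) (x : Amb d) : ℝ :=
  ∏ i, (1 - ‖x i‖ ^ 2) ^ β i

/-- Lebesgue measure on the product of balls with the unnormalised density. -/
noncomputable def rawMeasure {m : ℕ} (d : Fin m → ℕ) (β : Fin m → ℝ) : Measure (Amb d) :=
  (volume.restrict (body d)).withDensity fun x => ENNReal.ofReal (dens d β x)

/-- The block-beta distribution: the normalisation of `rawMeasure`. -/
noncomputable def blockBeta {m : ℕ} (d : Fin m → ℕ) (β : Fin m → ℝ) : Measure (Amb d) :=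
  (rawMeasure d β Set.univ)⁻¹ • rawMeasure d β

/-- The law of `n` independent block-beta points. -/
noncomputable def sample {m : ℕ} (d : Fin m → ℕ) (β : Fin m → ℝ) (n : ℕ) :
    Measure (Fin n → Amb d) :=
  Measure.pi fun _ => blockBeta d β

/-- The number of facets of `P`: nonempty exposed faces of dimension `dim E - 1`. -/
noncomputable def facetNum {E : Type} [NormedAddCommGroup E] [NormedSpace ℝ E] (P : Set E) : ℕ :=
  {F : Set E | IsExposed ℝ P F ∧ F.Nonempty ∧
    Module.finrank ℝ (vectorSpan ℝ F) + 1 = Module.finrank ℝ E}.ncard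

/-- The number of facets of the convex hull of the points `X 0, ..., X (n-1)`. -/
noncomputable def facets {E : Type} [NormedAddCommGroup E] [NormedSpace ℝ E] {n : ℕ}
    (X : Fin n → E) : ℝ :=
  facetNum (convexHull ℝ (Set.range X))

/-- The beta-adjusted dimension of block `i`. -/
noncomputable def kAdj {m : ℕ} (d : Fin m → ℕ) (β : Fin m → ℝ) (i : Fin m) : ℝ :=
  (d i + β i) / (1 + β i)

/-- The largest beta-adjusted dimension. -/
noncomputable def kMax {m : ℕ} (d : Fin m → ℕ) (β : Fin m → ℝ) : ℝ := ⨆ i, kAdj d β i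

/-- The number of blocks with the largest beta-adjusted dimension. -/
noncomputable def kMult {m : ℕ} (d : Fin m → ℕ) (β : Fin m → ℝ) : ℕ :=
  {i | kAdj d β i = kMax d β}.ncard

/-- The order `n^((k-1)/(k+1)) (ln n)^(r-1)` with `k = kMax`, `r = kMult`. -/
noncomputable def order {m : ℕ} (d : Fin m → ℕ) (β : Fin m → ℝ) (n : ℕ) : ℝ :=
  (n : ℝ) ^ ((kMax d β - 1) / (kMax d β + 1)) * Real.log n ^ (kMult d β - 1)

end Pool.Agent.Lib.MP_258d0c_pr
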