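import Pool.Agent.Lib.MP_258d0c_pr.BlockLow
import Pool.Agent.Lib.MP_258d0c_pr.BlockUp
import Pool.Agent.Lib.MP_258d0c_pr.Cap

open MeasureTheory ProbabilityTheory
open scoped ENNReal Classical InnerProductSpace

namespace Pool.Agent.Lib.MP_258d0c_pr

theorem emp_one {E : Type} [MeasurableSpace E] (μ : Measure E) [IsProbabilityMeasure μ]
    {A B : Set E} (hA : MeasurableSet A) (hB : MeasurableSet B) {a b θ : ℝ} (ha : 0 < a)
    (hθ0 : 0 ≤ θ) (hb0 : 0 ≤ b) (hb : μ B ≤ ENNReal.ofReal b) (hθ : (Real.exp θ - 1) * b ≤ a / 2)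
    (hA' : ENNReal.ofReal a ≤ μ A) :
    ∫⁻ y, (if y ∈ A then 0 else if y ∈ B then ENNReal.ofReal (Real.exp θ) else 1) ∂μ ≤
      ENNReal.ofReal (Real.exp (-(a / 2))) := by
  have h1 : 0 ≤ Real.exp θ - 1 := sub_nonneg.2 (Real.one_le_exp hθ0)
  have ha1 : a ≤ 1 := by
    have := hA'.trans (prob_le_one (μ := μ) (s := A))
    exact ENNReal.ofReal_le_one.1 this
  calc _ ≤ ∫⁻ y, Aᶜ.indicator 1 y + B.indicator (fun _ => ENNReal.ofReal (Real.exp θ - 1)) y ∂μ := by
        refine lintegral_mono fun y => ?_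
        by_cases h2 : y ∈ A
        · simp [h2]
        · by_cases h3 : y ∈ B
          · simp only [h2, h3, if_false, if_true, Set.indicator_of_mem, Set.mem_compl_iff,
              not_false_eq_true, Pi.one_apply]
            rw [← ENNReal.ofReal_one, ← ENNReal.ofReal_add zero_le_one h1]
            simp
          · simp [h2, h3]
    _ = μ Aᶜ + ENNReal.ofReal (Real.exp θ - 1) * μ B := by
        rw [lintegral_add_left (measurable_one.indicator hA.compl), lintegral_indicator_one hA.compl,
          lintegral_indicator_const hB]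
    _ ≤ ENNReal.ofReal (1 - a) + ENNReal.ofReal (a / 2) := by
        gcongr
        · rw [prob_compl_eq_one_sub hA, ENNReal.ofReal_sub _ ha.le, ENNReal.ofReal_one]
          exact tsub_le_tsub_left hA' _
        · calc _ ≤ ENNReal.ofReal (Real.exp θ - 1) * ENNReal.ofReal b := by gcongr
            _ ≤ _ := by rw [← ENNReal.ofReal_mul h1]; exact ENNReal.ofReal_le_ofReal hθ
    _ ≤ _ := by
        rw [← ENNReal.ofReal_add (by linarith) (by linarith)]
        refine ENNReal.ofReal_le_ofReal ?_
        have := Real.add_one_le_exp (-(a / 2))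
        linarith

theorem emp_abs {E : Type} [MeasurableSpace E] (μ : Measure E) [IsProbabilityMeasure μ]
    {ι : Type} [Fintype ι] (S : Finset ι) {A : Set (E × E)} (hA : MeasurableSet A) {B : Set E}
    (hB : MeasurableSet B) {a b θ : ℝ} (ha : 0 < a) (hθ0 : 0 ≤ θ) (hb0 : 0 ≤ b)
    (hb : μ B ≤ ENNReal.ofReal b) (hθ : (Real.exp θ - 1) * b ≤ a / 2) :
    ∃ EE : Set (ι → E), MeasurableSet EE ∧
      (∀ U, ENNReal.ofReal a ≤ μ {w | w ∈ B ∧ ENNReal.ofReal a ≤ μ (Prod.mk w ⁻¹' A) ∧
        ∀ k ∈ S, (w, U k) ∉ A} → U ∈ EE) ∧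
      ∫⁻ U in EE, ENNReal.ofReal (Real.exp (θ * (S.filter fun k => U k ∈ B).card)) ∂(iid ι μ) ≤
        ENNReal.ofReal (b / a * Real.exp (-(a / 2 * S.card))) := by
  set W : Set ((ι → E) × E) := {q | q.2 ∈ B ∧ ENNReal.ofReal a ≤ μ (Prod.mk q.2 ⁻¹' A) ∧
    ∀ k ∈ S, (q.2, q.1 k) ∉ A} with hWdef
  have hW : MeasurableSet W := by
    refine (measurable_snd hB).inter ((measurableSet_le measurable_const
      ((measurable_measure_prodMk_left hA).comp measurable_snd)).inter ?_)
    have : {q : (ι → E) × E | ∀ k ∈ S, (q.2, q.1 k) ∉ A} =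
        ⋂ k ∈ S, (fun q : (ι → E) × E => (q.2, q.1 k)) ⁻¹' Aᶜ := by ext; simp
    change MeasurableSet {q : (ι → E) × E | ∀ k ∈ S, (q.2, q.1 k) ∉ A}
    rw [this]
    exact Finset.measurableSet_biInter _ fun k _ => hA.compl.preimage (by fun_prop)
  have hm := measurable_measure_prodMk_left (ν := μ) hW
  have hEE := measurableSet_le (measurable_const (a := ENNReal.ofReal a)) hm
  refine ⟨_, hEE, fun U h => h, ?_⟩
  set g : (ι → E) → ℝ≥0∞ := fun U =>
    ∏ k ∈ S, if U k ∈ B then ENNReal.ofReal (Real.exp θ) else 1 with hgdef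
  have hg : Measurable g := Finset.measurable_prod _ fun k _ =>
    Measurable.ite (measurable_pi_apply k hB) measurable_const measurable_const
  have hg' : ∀ U : ι → E,
      ENNReal.ofReal (Real.exp (θ * (S.filter fun k => U k ∈ B).card)) = g U := fun U => by
    simp only [hgdef]
    rw [← Finset.prod_filter, Finset.prod_const, mul_comm, Real.exp_nat_mul,
      ENNReal.ofReal_pow (Real.exp_pos θ).le]
  have ha0 : ENNReal.ofReal a ≠ 0 := by simpa using ha
  simp only [hg']
  have key : ∀ w, ∫⁻ U, W.indicator (fun q => g q.1) (U, w) ∂(iid ι μ) ≤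
      B.indicator (fun _ => ENNReal.ofReal (Real.exp (-(a / 2 * S.card)))) w := fun w => by
    by_cases h1 : w ∈ B ∧ ENNReal.ofReal a ≤ μ (Prod.mk w ⁻¹' A)
    swap
    · have : ∀ U, W.indicator (fun q => g q.1) (U, w) = 0 := fun U =>
        Set.indicator_of_notMem (fun h => h1 ⟨h.1, h.2.1⟩) _
      simp [this]
    rw [Set.indicator_of_mem h1.1]
    have hAw : MeasurableSet (Prod.mk w ⁻¹' A) := measurable_prodMk_left hA
    set f : ι → E → ℝ≥0∞ := fun k y => if k ∈ S then
      (if y ∈ Prod.mk w ⁻¹' A then 0 else if y ∈ B then ENNReal.ofReal (Real.exp θ) else 1)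
      else 1 with hfdef
    have hf : ∀ k, Measurable (f k) := fun k => by
      by_cases hk : k ∈ S
      · simp only [hfdef, hk, if_true]
        exact Measurable.ite hAw measurable_const
          (Measurable.ite hB measurable_const measurable_const)
      · simp only [hfdef, hk, if_false]; exact measurable_const
    calc _ ≤ ∫⁻ U, ∏ k, f k (U k) ∂(iid ι μ) := by
          refine lintegral_mono fun U => ?_
          by_cases h2 : (U, w) ∈ W
          · rw [Set.indicator_of_mem h2]
            simp only [hfdef, hgdef]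
            rw [Finset.prod_ite_mem, Finset.univ_inter]
            refine (Finset.prod_congr rfl fun k hk => ?_).le
            rw [if_neg (show U k ∉ Prod.mk w ⁻¹' A from h2.2.2 k hk)]
          · rw [Set.indicator_of_notMem h2]; exact zero_le
      _ = ∏ k, ∫⁻ y, f k y ∂μ := lintegral_pi_prod (fun _ => μ) f hf
      _ ≤ ∏ k, if k ∈ S then ENNReal.ofReal (Real.exp (-(a / 2))) else 1 := by
          refine Finset.prod_le_prod' fun k _ => ?_
          by_cases hk : k ∈ S
          · simp only [hfdef, hk, if_true]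
            exact emp_one μ hAw hB ha hθ0 hb0 hb hθ h1.2
          · simp [hfdef, hk]
      _ = _ := by
          rw [← Finset.prod_filter, Finset.filter_mem_eq_inter, Finset.univ_inter,
            Finset.prod_const, ← ENNReal.ofReal_pow (Real.exp_pos _).le, ← Real.exp_nat_mul]
          congr 2; ring
  have hI : Measurable (W.indicator fun q : (ι → E) × E => g q.1) :=
    (hg.comp measurable_fst).indicator hW
  calc _ ≤ ∫⁻ U, (ENNReal.ofReal a)⁻¹ * ∫⁻ w, W.indicator (fun q => g q.1) (U, w) ∂μ
        ∂(iid ι μ) := by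
        rw [← lintegral_indicator hEE]
        refine lintegral_mono fun U => ?_
        by_cases h : U ∈ {U | ENNReal.ofReal a ≤ μ (Prod.mk U ⁻¹' W)}
        · rw [Set.indicator_of_mem h]
          have h2 : ∫⁻ w, W.indicator (fun q => g q.1) (U, w) ∂μ = g U * μ (Prod.mk U ⁻¹' W) := by
            rw [← lintegral_indicator_const (measurable_prodMk_left hW)]
            rfl
          rw [h2]
          calc g U = (ENNReal.ofReal a)⁻¹ * (g U * ENNReal.ofReal a) := by
                rw [mul_comm (g U), ← mul_assoc,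
                  ENNReal.inv_mul_cancel ha0 ENNReal.ofReal_ne_top, one_mul]
            _ ≤ _ := by gcongr; exact h
        · rw [Set.indicator_of_notMem h]; exact zero_le
    _ = (ENNReal.ofReal a)⁻¹ * ∫⁻ w, ∫⁻ U, W.indicator (fun q => g q.1) (U, w) ∂(iid ι μ) ∂μ := by
        rw [lintegral_const_mul' _ _ (ENNReal.inv_ne_top.2 ha0),
          lintegral_lintegral_swap (f := fun U w => W.indicator (fun q => g q.1) (U, w))
            hI.aemeasurable]
    _ ≤ (ENNReal.ofReal a)⁻¹ *
        (ENNReal.ofReal (Real.exp (-(a / 2 * S.card))) * ENNReal.ofReal b) := by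
        gcongr
        refine (lintegral_mono key).trans ?_
        rw [lintegral_indicator_const hB]
        gcongr
    _ = _ := by
        rw [← ENNReal.ofReal_inv_of_pos ha, ← ENNReal.ofReal_mul (Real.exp_pos _).le,
          ← ENNReal.ofReal_mul (inv_pos.2 ha).le]
        congr 1; field_simp

variable {m : ℕ} {d : Fin m → ℕ} {β : Fin m → ℝ}

theorem emp_meas_near (x : Amb d) (j : Fin m → ℕ) :
    MeasurableSet {y : Amb d | y ∈ body d ∧ Near x y j} := by
  refine (measurableSet_body d).inter ?_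
  have : {y : Amb d | Near x y j} = ⋂ i, {y | rho x y i ≤ 8 * sc j i} := by ext; simp [Near]
  change MeasurableSet {y : Amb d | Near x y j}
  rw [this]
  exact MeasurableSet.iInter fun i => measurableSet_le (by unfold rho; fun_prop) measurable_const

theorem measurable_nearNum {ι : Type} [Fintype ι] (S : Finset ι) (x : Amb d) (j : Fin m → ℕ) :
    Measurable fun U : ι → Amb d => nearNum U S x j := by
  simp only [nearNum, Finset.card_filter]
  exact Finset.measurable_sum _ fun k _ =>
    Measurable.ite ((emp_meas_near x j).preimage (measurable_pi_apply (X := fun _ : ι => Amb d) k))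
      measurable_const measurable_const

theorem emp_tail (hm : 1 ≤ m) (hd : ∀ i, 1 ≤ d i) (hβ : ∀ i, 0 ≤ β i) :
    ∃ c C θ : ℝ, 0 < c ∧ 0 < C ∧ 0 < θ ∧ ∀ (ι : Type) [Fintype ι] (S : Finset ι),
      ∀ x ∈ body d, ∀ j : Fin m → ℕ, ∃ EE : Set (ι → Amb d), MeasurableSet EE ∧
        (∀ U, Emp U S x j → U ∈ EE) ∧
        ∫⁻ U in EE, ENNReal.ofReal (Real.exp (θ * nearNum U S x j)) ∂(iid ι (blockBeta d β)) ≤
          ENNReal.ofReal (C * Real.exp (-(c * S.card * tt (gam d β) j))) := by
  have := blockBeta_prob d hβ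
  obtain ⟨c0, hc0, hlow⟩ := box_lower hd hβ
  obtain ⟨C0, hC0, hup⟩ := near_upper hd hβ (fun _ => 0) (fun _ => le_rfl)
    (fun i => by have := hβ i; unfold alp; linarith)
  have hm' : (1 : ℝ) ≤ m := by exact_mod_cast hm
  obtain ⟨δ, hδ⟩ : ∃ δ : ℝ, δ = 1 / (2 * m) := ⟨_, rfl⟩
  have hδ0 : 0 < δ := by rw [hδ]; positivity
  have hδ1 : δ ≤ 1 := by rw [hδ, div_le_one (by positivity)]; linarith
  obtain ⟨c1, hc1⟩ : ∃ c1 : ℝ, c1 = c0 * ∏ i, (δ / 16) ^ gam d β i := ⟨_, rfl⟩
  obtain ⟨C1, hC1⟩ : ∃ C1 : ℝ, C1 = C0 * ∏ i, (8 : ℝ) ^ gam d β i := ⟨_, rfl⟩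
  have hc1' : 0 < c1 := by rw [hc1]; positivity
  have hC1' : 0 < C1 := by rw [hC1]; positivity
  have hθ : 0 < Real.log (1 + c1 / 2 / C1) := Real.log_pos (by
    have : 0 < c1 / 2 / C1 := by positivity
    linarith)
  refine ⟨c1 / 2, C1 / c1, _, by positivity, by positivity, hθ, fun ι _ S x hx j => ?_⟩
  have ht := tt_pos (gam d β) j
  have hA : MeasurableSet {q : Amb d × Amb d | q.2 ∈ body d ∧
      ∀ i, rho q.1 q.2 i ≤ δ * sc j i / 4} := by
    refine (measurable_snd (measurableSet_body d)).inter ?_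
    have : {q : Amb d × Amb d | ∀ i, rho q.1 q.2 i ≤ δ * sc j i / 4} =
        ⋂ i, {q | rho q.1 q.2 i ≤ δ * sc j i / 4} := by ext; simp
    change MeasurableSet {q : Amb d × Amb d | ∀ i, rho q.1 q.2 i ≤ δ * sc j i / 4}
    rw [this]
    exact MeasurableSet.iInter fun i => measurableSet_le (by unfold rho; fun_prop) measurable_const
  have hb : blockBeta d β {y : Amb d | y ∈ body d ∧ Near x y j} ≤
      ENNReal.ofReal (C1 * tt (gam d β) j) := by
    have h := hup x hx (fun i => 8 * sc j i) (fun i => by have := sc_pos j i; positivity)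
    simp only [neg_zero, Real.rpow_zero, ENNReal.ofReal_one, Finset.prod_const_one,
      lintegral_const, one_mul, sub_zero, MeasurableSet.univ, Measure.restrict_apply,
      Set.univ_inter] at h
    refine (measure_mono fun y hy => hy.2).trans (h.trans (le_of_eq ?_))
    rw [hC1, tt, mul_assoc, ← Finset.prod_mul_distrib]
    congr 2
    exact Finset.prod_congr rfl fun i _ => Real.mul_rpow (by norm_num) (sc_pos j i).le
  obtain ⟨EE, h1, h2, h3⟩ := emp_abs (blockBeta d β) S hA (emp_meas_near x j)
    (a := c1 * tt (gam d β) j) (by positivity) hθ.le (by positivity) hb (le_of_eq (by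
      rw [Real.exp_log (by positivity)]; field_simp; ring))
  refine ⟨EE, h1, fun U ⟨e, he, hex, hU⟩ => h2 U ?_, le_trans (le_of_eq ?_)
    (h3.trans (le_of_eq ?_))⟩
  · have he' : e ∈ body d := fun i => (he i).le
    have hQ : ENNReal.ofReal (c1 * tt (gam d β) j) ≤
        blockBeta d β {y | y ∈ body d ∧ ∀ i, rho e y i ≤ δ / 16 * sc j i} := by
      refine le_trans (le_of_eq ?_) (hlow e he (fun i => δ / 16 * sc j i)
        (fun i => by have := sc_pos j i; positivity) (fun i => by
          have := sc_pos j i; have := sc_le_one j i; nlinarith))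
      rw [hc1, tt, mul_assoc, ← Finset.prod_mul_distrib]
      congr 2
      exact Finset.prod_congr rfl fun i _ => (Real.mul_rpow (by positivity) (sc_pos j i).le).symm
    refine hQ.trans (measure_mono fun w hw => ⟨⟨hw.1, fun i => ?_⟩,
      hQ.trans (measure_mono fun y hy => ⟨hy.1, fun i => ?_⟩), fun k hk h => ?_⟩)
    · have h4 := rho_triangle hx hw.1 he' i
      have h5 := hex i
      have h6 := hw.2 i
      have h7 := sc_pos j i
      rw [rho_comm x e] at h4
      nlinarith
    · have h4 := rho_triangle hw.1 hy.1 he' i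
      have h5 := hw.2 i
      have h6 := hy.2 i
      rw [rho_comm w e] at h4
      change rho w y i ≤ _
      linarith
    · obtain ⟨i, hi⟩ := hU k hk h.1
      have h4 := rho_triangle he' h.1 hw.1 i
      have h5 := hw.2 i
      have h6 : rho w (U k) i ≤ δ * sc j i / 4 := h.2 i
      have h7 := sc_pos j i
      have h8 : sc j i / (2 * m) = δ * sc j i := by rw [hδ]; ring
      have h9 : 0 < δ * sc j i := by positivity
      change rho e (U k) i ≤ 2 * rho e w i + 2 * rho w (U k) i at h4
      linarith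
  · refine lintegral_congr fun U => ?_
    unfold nearNum
    congr
  · congr 2
    · field_simp
    · congr 1; ring

end Pool.Agent.Lib.MP_258d0c_pr
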