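import Pool.Agent.Lib.MP_258d0c_pr.Core

open MeasureTheory ProbabilityTheory
open scoped ENNReal Classical InnerProductSpace

namespace Pool.Agent.Lib.MP_258d0c_pr

section
variable {E : Type} [NormedAddCommGroup E] [NormedSpace ℝ E] {n : ℕ}

theorem gp_face {X : Fin n → E} {I : Finset (Fin n)} (hI : I.Nonempty) {l : E →L[ℝ] ℝ} {c : ℝ}
    (h1 : ∀ i ∈ I, l (X i) = c) (h2 : ∀ j, j ∉ I → l (X j) < c) :
    convexHull ℝ (Set.range fun i : I => X i) =
      {x ∈ convexHull ℝ (Set.range X) | ∀ y ∈ convexHull ℝ (Set.range X), l y ≤ l x} := by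
  have hc : convexHull ℝ (Set.range fun i : I => X i) ⊆ {x | l x = c} :=
    convexHull_min (by rintro _ ⟨i, rfl⟩; exact h1 i i.2) (convex_hyperplane l.isLinear c)
  have hP : convexHull ℝ (Set.range X) ⊆
      {x | l x < c ∨ x ∈ convexHull ℝ (Set.range fun i : I => X i)} := by
    refine convexHull_min ?_ ?_
    · rintro _ ⟨j, rfl⟩
      by_cases hj : j ∈ I
      · exact Or.inr (subset_convexHull ℝ _ ⟨⟨j, hj⟩, rfl⟩)
      · exact Or.inl (h2 j hj)
    · rintro x hx y hy a b ha hb hab
      rcases ha.eq_or_lt with rfl | ha'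
      · rw [zero_add] at hab
        simpa [hab] using hy
      rcases hb.eq_or_lt with rfl | hb'
      · rw [add_zero] at hab
        simpa [hab] using hx
      have h3 : c = a * c + b * c := by rw [← add_mul, hab, one_mul]
      simp only [Set.mem_ofPred_eq, map_add, map_smul, smul_eq_mul]
      rcases hx with hx | hx <;> rcases hy with hy | hy
      · left; nlinarith
      · left; rw [hc hy]; nlinarith
      · left; rw [hc hx]; nlinarith
      · exact Or.inr (convex_convexHull ℝ _ hx hy ha hb hab)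
  refine Set.Subset.antisymm (fun x hx => ⟨convexHull_mono (by rintro _ ⟨i, rfl⟩; exact ⟨i, rfl⟩) hx,
    fun y hy => ?_⟩) fun x hx => ?_
  · rw [hc hx]
    exact (hP hy).elim le_of_lt fun h => (hc h).le
  · obtain ⟨i, hi⟩ := hI
    exact (hP hx.1).resolve_left
      (not_lt.2 (h1 i hi ▸ hx.2 _ (subset_convexHull ℝ _ ⟨i, rfl⟩)))

theorem gp_span (s : Set E) : vectorSpan ℝ (convexHull ℝ s) = vectorSpan ℝ s := by
  rw [← direction_affineSpan, affineSpan_convexHull, direction_affineSpan]

theorem gp_facets [FiniteDimensional ℝ E] (h1 : 1 ≤ Module.finrank ℝ E) {X : Fin n → E}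
    (hX : ∀ I : Finset (Fin n), I.card ≤ Module.finrank ℝ E + 1 →
      AffineIndependent ℝ fun i : I => X i) :
    facetNum (convexHull ℝ (Set.range X)) = cnt (Module.finrank ℝ E) X Finset.univ := by
  have hr : ∀ (I : Finset (Fin n)) (k : ℕ), I.card = k + 1 → k ≤ Module.finrank ℝ E →
      Module.finrank ℝ (vectorSpan ℝ (Set.range fun i : I => X i)) = k := fun I k h hk =>
    (hX I (by omega)).finrank_vectorSpan (by rwa [Fintype.card_coe])
  rw [facetNum, cnt, ← Set.ncard_coe_finset,
    ← Set.InjOn.ncard_image (f := fun I : Finset (Fin n) => convexHull ℝ (Set.range fun i : I => X i))]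
  · congr 1
    ext F
    simp only [Set.mem_ofPred_eq, Set.mem_image, Finset.mem_coe, Finset.mem_filter,
      Finset.mem_powersetCard, Finset.subset_univ, true_and]
    constructor
    · rintro ⟨hF, hne, hd⟩
      obtain ⟨l, rfl⟩ := hF hne
      obtain ⟨_, ⟨j0, -⟩⟩ := convexHull_nonempty_iff.1 (hne.mono (Set.sep_subset _ _))
      obtain ⟨i0, -, hi0⟩ := Finset.univ.exists_max_image (fun i => l (X i)) ⟨j0, Finset.mem_univ _⟩
      set I := Finset.univ.filter fun i => l (X i) = l (X i0) with hI
      have a1 : ∀ i ∈ I, l (X i) = l (X i0) := fun i hi => (Finset.mem_filter.1 hi).2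
      have a2 : ∀ j, j ∉ I → l (X j) < l (X i0) := fun j hj =>
        lt_of_le_of_ne (hi0 j (Finset.mem_univ _)) fun h => hj (by simp [hI, h])
      have a3 : I.Nonempty := ⟨i0, by simp [hI]⟩
      have e := gp_face a3 a1 a2
      refine ⟨I, ⟨?_, l, _, a1, fun j _ => a2 j⟩, e⟩
      rw [← e, gp_span] at hd
      rcases le_total I.card (Module.finrank ℝ E + 1) with h | h
      · have := a3.card_pos
        have := hr I (I.card - 1) (by omega) (by omega)
        omega
      · obtain ⟨J, hJ, hc⟩ := Finset.exists_subset_card_eq h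
        have h2 := hr J _ hc le_rfl
        have h3 := Submodule.finrank_mono (vectorSpan_mono ℝ
          (show (Set.range fun i : J => X i) ⊆ Set.range fun i : I => X i by
            rintro _ ⟨i, rfl⟩; exact ⟨⟨i, hJ i.2⟩, rfl⟩))
        omega
    · rintro ⟨I, ⟨hc, l, c, a1, a2⟩, rfl⟩
      obtain ⟨i, hi⟩ : I.Nonempty := Finset.card_pos.1 (by omega)
      refine ⟨fun _ => ⟨l, gp_face ⟨i, hi⟩ a1 fun j => a2 j (Finset.mem_univ _)⟩,
        ⟨_, subset_convexHull ℝ _ ⟨⟨i, hi⟩, rfl⟩⟩, ?_⟩
      rw [gp_span, hr I (Module.finrank ℝ E - 1) (by omega) (by omega)]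
      omega
  · have key : ∀ I J : Finset (Fin n), Fac X Finset.univ J →
        convexHull ℝ (Set.range fun i : I => X i) = convexHull ℝ (Set.range fun i : J => X i) →
        I ⊆ J := by
      rintro I J ⟨l, c, a1, a2⟩ e i hi
      have hc : convexHull ℝ (Set.range fun i : J => X i) ⊆ {x | l x = c} :=
        convexHull_min (by rintro _ ⟨i, rfl⟩; exact a1 i i.2) (convex_hyperplane l.isLinear c)
      by_contra h
      exact (a2 i (Finset.mem_univ _) h).ne (hc (e ▸ subset_convexHull ℝ _ ⟨⟨i, hi⟩, rfl⟩))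
    intro I hI J hJ e
    exact (key I J (Finset.mem_filter.1 hJ).2 e).antisymm
      (key J I (Finset.mem_filter.1 hI).2 e.symm)

theorem gp_two (h1 : Module.finrank ℝ E = 1) (hn : 2 ≤ n) {X : Fin n → E}
    (hX : Function.Injective X) : cnt 1 X Finset.univ = 2 := by
  obtain ⟨v, hv, h⟩ := finrank_eq_one_iff'.1 h1
  choose t ht using fun i => h (X i)
  have hi : Function.Injective t := fun i j e => hX (by rw [← ht, ← ht, e])
  obtain ⟨f, hf⟩ := SeparatingDual.exists_eq_one (R := ℝ) hv
  have hne : (Finset.univ : Finset (Fin n)).Nonempty := ⟨⟨0, by omega⟩, Finset.mem_univ _⟩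
  obtain ⟨i1, -, a1⟩ := Finset.univ.exists_max_image t hne
  obtain ⟨i0, -, a0⟩ := Finset.univ.exists_min_image t hne
  have h01 : i0 ≠ i1 := by
    rintro rfl
    have e : ∀ j, j = i0 := fun j =>
      hi (le_antisymm (a1 j (Finset.mem_univ _)) (a0 j (Finset.mem_univ _)))
    have := (e ⟨0, by omega⟩).trans (e ⟨1, by omega⟩).symm
    simp at this
  have hl : ∀ (l : E →L[ℝ] ℝ) i, l (X i) = t i * l v := fun l i => by
    rw [← ht, map_smul, smul_eq_mul]
  rw [cnt, ← Finset.card_pair (a := ({i0} : Finset (Fin n))) (b := {i1})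
    (Finset.singleton_injective.ne h01)]
  congr 1
  ext I
  simp only [Finset.mem_filter, Finset.mem_powersetCard, Finset.subset_univ, true_and,
    Finset.mem_insert, Finset.mem_singleton, Finset.card_eq_one]
  constructor
  · rintro ⟨⟨i, rfl⟩, l, c, b1, b2⟩
    by_contra hc
    rw [not_or] at hc
    have c0 := b2 i0 (Finset.mem_univ _) fun h => hc.1 (by rw [Finset.mem_singleton.1 h])
    have c1 := b2 i1 (Finset.mem_univ _) fun h => hc.2 (by rw [Finset.mem_singleton.1 h])
    rw [← b1 i (Finset.mem_singleton_self i), hl, hl] at c0 c1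
    have d0 := a0 i (Finset.mem_univ _)
    have d1 := a1 i (Finset.mem_univ _)
    rcases le_total 0 (l v) with h | h <;> nlinarith
  · rintro (rfl | rfl)
    · refine ⟨⟨_, rfl⟩, -f, -t i0, fun i hi => ?_, fun j hj h => ?_⟩
      · rw [Finset.mem_singleton.1 hi, hl]
        simp [hf]
      · have := lt_of_le_of_ne (a0 j hj) fun e => h (by rw [hi e]; simp)
        rw [hl]
        simpa [hf] using this
    · refine ⟨⟨_, rfl⟩, f, t i1, fun i hi => ?_, fun j hj h => ?_⟩
      · rw [Finset.mem_singleton.1 hi, hl, hf, mul_one]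
      · rw [hl, hf, mul_one]
        exact lt_of_le_of_ne (a1 j hj) fun e => h (by rw [hi e]; simp)

end

variable {E : Type} [NormedAddCommGroup E] [NormedSpace ℝ E] [FiniteDimensional ℝ E]
  [MeasurableSpace E] [BorelSpace E]

theorem gp_ae (μ : Measure E) [IsProbabilityMeasure μ]
    (hμ : ∀ s : AffineSubspace ℝ E, s ≠ ⊤ → μ s = 0) (n : ℕ) :
    ∀ᵐ X ∂(iid (Fin n) μ), ∀ I : Finset (Fin n), I.card ≤ Module.finrank ℝ E + 1 →
      AffineIndependent ℝ fun i : I => X i := by
  have := FiniteDimensional.proper_real E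
  rw [ae_all_iff]
  intro I
  rw [Filter.eventually_imp_distrib_left]
  induction I using Finset.induction_on with
  | empty => exact fun _ => Filter.Eventually.of_forall fun X => affineIndependent_of_subsingleton _ _
  | insert p s hp ih =>
    intro hc
    rw [Finset.card_insert_of_notMem hp] at hc
    have hm : MeasurableSet
        {X : Fin n → E | AffineIndependent ℝ fun i : (insert p s : Finset (Fin n)) => X i} :=
      (isOpen_setOfPred_affineIndependent.preimage (show Continuous
        fun (X : Fin n → E) (i : (insert p s : Finset (Fin n))) => X i by fun_prop)).measurableSet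
    have hu := measurePreserving_update μ p
    rw [← hu.map_eq, ae_map_iff hu.measurable.aemeasurable hm]
    refine (Measure.ae_prod_iff_ae_ae (hu.measurable hm)).2 ?_
    filter_upwards [ih (by omega)] with U hU
    have h0 := hμ (affineSpan ℝ (Set.range fun i : s => U i)) (by
      rw [Ne, hU.affineSpan_eq_top_iff_card_eq_finrank_add_one, Fintype.card_coe]
      omega)
    filter_upwards [measure_eq_zero_iff_ae_notMem.1 h0] with x hx
    have hs : ∀ y : (insert p s : Finset (Fin n)), y ≠ ⟨p, Finset.mem_insert_self p s⟩ →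
        (y : Fin n) ≠ p ∧ (y : Fin n) ∈ s := fun y hy =>
      ⟨fun h => hy (Subtype.ext h), (Finset.mem_insert.1 y.2).resolve_left fun h => hy (Subtype.ext h)⟩
    refine AffineIndependent.affineIndependent_of_notMem_span
      (i := ⟨p, Finset.mem_insert_self p s⟩) ?_ fun h => hx ?_
    · refine (congrArg (AffineIndependent ℝ) (funext fun y => ?_)).mp
        (hU.comp_embedding (⟨fun y : {y : (insert p s : Finset (Fin n)) //
          y ≠ ⟨p, Finset.mem_insert_self p s⟩} => ⟨y.1, (hs y.1 y.2).2⟩,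
          fun y y' e => Subtype.ext (Subtype.ext (congrArg (fun z : s => (z : Fin n)) e))⟩))
      exact (Function.update_of_ne (hs y.1 y.2).1 _ _).symm
    · rw [Function.update_self] at h
      refine affineSpan_mono ℝ ?_ h
      rintro _ ⟨y, hy, rfl⟩
      exact ⟨⟨y, (hs y hy).2⟩, (Function.update_of_ne (hs y hy).1 _ _).symm⟩

theorem facets_ae_eq (μ : Measure E) [IsProbabilityMeasure μ]
    (hμ : ∀ s : AffineSubspace ℝ E, s ≠ ⊤ → μ s = 0) (h1 : 1 ≤ Module.finrank ℝ E) {n : ℕ}
    (hn : Module.finrank ℝ E + 1 ≤ n) :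
    (fun X : Fin n → E => facets X) =ᵐ[iid (Fin n) μ]
      fun X => (cnt (Module.finrank ℝ E) X Finset.univ : ℝ) := by
  filter_upwards [gp_ae μ hμ n] with X hX
  rw [facets, gp_facets h1 hX]

theorem cnt_ae_two (μ : Measure E) [IsProbabilityMeasure μ]
    (hμ : ∀ s : AffineSubspace ℝ E, s ≠ ⊤ → μ s = 0) (h1 : Module.finrank ℝ E = 1) {n : ℕ}
    (hn : 2 ≤ n) : ∀ᵐ X ∂(iid (Fin n) μ), cnt 1 X Finset.univ = 2 := by
  filter_upwards [gp_ae μ hμ n] with X hX
  refine gp_two h1 hn fun i j e => ?_
  have h := (hX {i, j} (by rw [h1]; exact Finset.card_le_two)).injective (a₁ := ⟨i, by simp⟩)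
    (a₂ := ⟨j, by simp⟩) e
  exact congrArg Subtype.val h

end Pool.Agent.Lib.MP_258d0c_pr
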