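import Pool.Agent.Lib.MP_258d0c_pr.Core

open MeasureTheory ProbabilityTheory
open scoped ENNReal Classical InnerProductSpace

namespace Pool.Agent.Lib.MP_258d0c_pr

variable {m : ℕ}

/-- A series of products is at most the product of the one-dimensional series. -/
private theorem sums_tsum_pi_le {ι : Type} [Fintype ι] (f : ι → ℕ → ℝ≥0∞) :
    ∑' j : ι → ℕ, ∏ i, f i (j i) ≤ ∏ i, ∑' n, f i n := by
  rw [ENNReal.tsum_eq_iSup_sum]
  refine iSup_le fun s => ?_
  have hsub : s ⊆ Fintype.piFinset fun i => s.image fun j => j i := by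
    intro j hj
    rw [Fintype.mem_piFinset]
    intro i
    exact Finset.mem_image_of_mem _ hj
  calc ∑ j ∈ s, ∏ i, f i (j i)
      ≤ ∑ j ∈ Fintype.piFinset (fun i => s.image fun j => j i), ∏ i, f i (j i) :=
        Finset.sum_le_sum_of_subset hsub
    _ = ∏ i, ∑ n ∈ s.image (fun j => j i), f i n := (Finset.prod_univ_sum _ _).symm
    _ ≤ ∏ i, ∑' n, f i n := Finset.prod_le_prod' fun i _ => ENNReal.sum_le_tsum _

/-- Telescoping bound for a series. -/
private theorem sums_tele (f G : ℕ → ℝ) (B : ℝ) (hf : ∀ n, 0 ≤ f n)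
    (h : ∀ n, f n ≤ G (n + 1) - G n) (hB : ∀ n, G n - G 0 ≤ B) :
    ∑' n, ENNReal.ofReal (f n) ≤ ENNReal.ofReal B := by
  rw [ENNReal.tsum_eq_iSup_nat]
  refine iSup_le fun N => ?_
  rw [← ENNReal.ofReal_sum_of_nonneg fun n _ => hf n]
  refine ENNReal.ofReal_le_ofReal ?_
  calc ∑ n ∈ Finset.range N, f n ≤ ∑ n ∈ Finset.range N, (G (n + 1) - G n) :=
        Finset.sum_le_sum fun n _ => h n
    _ = G N - G 0 := Finset.sum_range_sub G N
    _ ≤ B := hB N

private theorem sums_frac_sub {z r : ℝ} (hz : 0 ≤ z) (hr : 0 ≤ r) :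
    z / (1 + z) - r * z / (1 + r * z) = (1 - r) * z / ((1 + z) * (1 + r * z)) := by
  have h1 : (1 + z) ≠ 0 := by positivity
  have h2 : (1 + r * z) ≠ 0 := by positivity
  field_simp
  ring

private theorem sums_half_pow_succ (n : ℕ) (e : ℝ) :
    ((1 / 2 : ℝ) ^ (n + 1)) ^ e = (1 / 2 : ℝ) ^ e * ((1 / 2 : ℝ) ^ n) ^ e := by
  rw [pow_succ, Real.mul_rpow (by positivity) (by positivity), mul_comm]

private theorem sums_half_lt {e : ℝ} (he : 0 < e) : (1 / 2 : ℝ) ^ e < 1 :=
  Real.rpow_lt_one (by norm_num) (by norm_num) he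

/-- one-dimensional form of `weight_sum` -/
private theorem sums_weight_one {η : ℝ} (hη : 0 < η) :
    ∃ C : ℝ, 0 < C ∧ ∀ h : ℝ, 0 < h →
      ∑' n : ℕ, ENNReal.ofReal (if h ≤ 16 * (1 / 2 : ℝ) ^ n then (h / (1 / 2 : ℝ) ^ n) ^ η else 0)
        ≤ ENNReal.ofReal C := by
  set r : ℝ := (1 / 2 : ℝ) ^ η with hr
  have hr0 : 0 < r := by positivity
  have hr1 : r < 1 := sums_half_lt hη
  set M : ℝ := (32 : ℝ) ^ η with hM
  have hM0 : 0 < M := by positivity
  set K : ℝ := (1 + M) * (1 + M) / (1 - r) with hK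
  have hK0 : 0 < K := div_pos (by positivity) (by linarith)
  refine ⟨K, hK0, fun h hh => ?_⟩
  set z : ℕ → ℝ := fun n => (h / (1 / 2 : ℝ) ^ n) ^ η with hz
  have hz0 : ∀ n, 0 < z n := fun n => by simp only [hz]; positivity
  have hzs : ∀ n, z n = r * z (n + 1) := by
    intro n
    simp only [hz, hr]
    rw [← Real.mul_rpow (by positivity) (by positivity)]
    congr 1
    field_simp
    ring
  refine sums_tele _ (fun n => K * (z n / (1 + z n))) K (fun n => ?_) (fun n => ?_) (fun n => ?_)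
  · split_ifs
    · exact (hz0 n).le
    · exact le_rfl
  · have hd : z (n + 1) / (1 + z (n + 1)) - z n / (1 + z n) =
        (1 - r) * z (n + 1) / ((1 + z (n + 1)) * (1 + r * z (n + 1))) := by
      rw [hzs n]
      exact sums_frac_sub (hz0 _).le hr0.le
    rw [← mul_sub, hd]
    have hz1 := hz0 (n + 1)
    have h1r : 0 < 1 - r := by linarith
    split_ifs with hc
    · have hle : z (n + 1) ≤ M := by
        simp only [hz, hM]
        refine Real.rpow_le_rpow (by positivity) ?_ hη.le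
        rw [div_le_iff₀ (by positivity), pow_succ]
        linarith
      have hle2 : r * z (n + 1) ≤ z (n + 1) := by nlinarith
      change z n ≤ _
      rw [hzs n]
      have hden : (1 + z (n + 1)) * (1 + r * z (n + 1)) ≤ (1 + M) * (1 + M) :=
        mul_le_mul (by linarith) (by linarith) (by positivity) (by positivity)
      calc r * z (n + 1) ≤ z (n + 1) := hle2
        _ = K * ((1 - r) * z (n + 1) / ((1 + M) * (1 + M))) := by
          rw [hK]; field_simp
        _ ≤ _ := by
          refine mul_le_mul_of_nonneg_left ?_ hK0.le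
          exact div_le_div_of_nonneg_left (by positivity) (by positivity) hden
    · positivity
  · have h1 : z n / (1 + z n) ≤ 1 := by
      rw [div_le_one (by have := hz0 n; positivity)]; linarith
    have h2 : 0 ≤ z 0 / (1 + z 0) := by have := hz0 0; positivity
    nlinarith

theorem weight_sum (η : Fin m → ℝ) (hη : ∀ i, 0 < η i) :
    ∃ C : ℝ, 0 < C ∧ ∀ h : Fin m → ℝ, (∀ i, 0 < h i) →
      ∑' j : Fin m → ℕ, (if ∀ i, h i ≤ 16 * sc j i then
        ENNReal.ofReal (∏ i, (h i / sc j i) ^ η i) else 0) ≤ ENNReal.ofReal C := by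
  choose C hC0 hC using fun i => sums_weight_one (hη i)
  refine ⟨∏ i, C i, Finset.prod_pos fun i _ => hC0 i, fun h hh => ?_⟩
  set f : Fin m → ℕ → ℝ≥0∞ := fun i n => ENNReal.ofReal
    (if h i ≤ 16 * (1 / 2 : ℝ) ^ n then (h i / (1 / 2 : ℝ) ^ n) ^ η i else 0) with hf
  calc _ ≤ ∑' j : Fin m → ℕ, ∏ i, f i (j i) := by
        refine ENNReal.tsum_le_tsum fun j => ?_
        split_ifs with hc
        · rw [ENNReal.ofReal_prod_of_nonneg fun i _ => by
            have := hh i
            unfold sc; positivity]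
          refine le_of_eq (Finset.prod_congr rfl fun i _ => ?_)
          simp only [hf]
          rw [if_pos (by simpa only [sc] using hc i)]
          rfl
        · exact zero_le
    _ ≤ ∏ i, ∑' n, f i n := sums_tsum_pi_le f
    _ ≤ ∏ i, ENNReal.ofReal (C i) := Finset.prod_le_prod' fun i _ => hC i (h i) (hh i)
    _ = ENNReal.ofReal (∏ i, C i) :=
        (ENNReal.ofReal_prod_of_nonneg fun i _ => (hC0 i).le).symm

/-- `(1 + y^u)^2 exp(-c y)` is bounded -/
private theorem sums_exp_bound {u c : ℝ} (hu : 0 < u) (hc : 0 < c) :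
    ∃ K : ℝ, 0 < K ∧ ∀ y : ℝ, 0 < y → (1 + y ^ u) * (1 + y ^ u) * Real.exp (-(c * y)) ≤ K := by
  obtain ⟨N, hN⟩ := exists_nat_ge (2 * u)
  refine ⟨4 + 4 * (N.factorial / c ^ N), by positivity, fun y hy => ?_⟩
  have he1 : Real.exp (-(c * y)) ≤ 1 := Real.exp_le_one_iff.mpr (by nlinarith [mul_pos hc hy])
  have he0 : 0 < Real.exp (-(c * y)) := Real.exp_pos _
  have hyu : 0 < y ^ u := by positivity
  have hF : 0 ≤ (N.factorial : ℝ) / c ^ N := by positivity
  rcases le_total y 1 with h1 | h1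
  · have : y ^ u ≤ 1 := Real.rpow_le_one hy.le h1 hu.le
    have h4 : (1 + y ^ u) * (1 + y ^ u) ≤ 4 := by nlinarith
    nlinarith
  · have h2 : 1 ≤ y ^ u := Real.one_le_rpow h1 hu.le
    have h3 : y ^ u * y ^ u ≤ y ^ N := by
      rw [← Real.rpow_add hy, ← Real.rpow_natCast]
      exact Real.rpow_le_rpow_of_exponent_le h1 (by linarith)
    have h4 : (1 + y ^ u) * (1 + y ^ u) ≤ 4 * y ^ N := by nlinarith
    have h5 : (c * y) ^ N / N.factorial ≤ Real.exp (c * y) :=
      Real.pow_div_factorial_le_exp _ (by positivity) N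
    have h6 : y ^ N * Real.exp (-(c * y)) ≤ N.factorial / c ^ N := by
      rw [Real.exp_neg, ← div_eq_mul_inv, div_le_div_iff₀ (Real.exp_pos _) (by positivity)]
      rw [div_le_iff₀ (by positivity), mul_pow] at h5
      linarith
    nlinarith

/-- the sum over the distinguished scale -/
private theorem sums_first {u c g : ℝ} (hu : 0 < u) (hc : 0 < c) (hg : 0 < g) :
    ∃ C : ℝ, 0 < C ∧ ∀ y : ℝ, 0 < y →
      ∑' n : ℕ, ENNReal.ofReal ((y * ((1 / 2 : ℝ) ^ n) ^ g) ^ u *
        Real.exp (-(c * (y * ((1 / 2 : ℝ) ^ n) ^ g)))) ≤ ENNReal.ofReal (C * (min 1 y) ^ u) := by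
  obtain ⟨K, hK0, hK⟩ := sums_exp_bound hu hc
  set r : ℝ := ((1 / 2 : ℝ) ^ g) ^ u with hr
  have hr0 : 0 < r := by positivity
  have hr1 : r < 1 := Real.rpow_lt_one (by positivity) (sums_half_lt hg) hu
  have h1r : 0 < 1 - r := by linarith
  refine ⟨K / (1 - r), by positivity, fun y hy => ?_⟩
  set w : ℕ → ℝ := fun n => y * ((1 / 2 : ℝ) ^ n) ^ g with hw
  have hw0 : ∀ n, 0 < w n := fun n => by simp only [hw]; positivity
  set z : ℕ → ℝ := fun n => w n ^ u with hz
  have hz0 : ∀ n, 0 < z n := fun n => by simp only [hz]; have := hw0 n; positivity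
  have hzs : ∀ n, z (n + 1) = r * z n := by
    intro n
    simp only [hz, hr, hw]
    rw [← Real.mul_rpow (by positivity) (by positivity), sums_half_pow_succ]
    congr 1
    ring
  refine sums_tele (fun n => z n * Real.exp (-(c * w n)))
    (fun n => -(K / (1 - r) * (z n / (1 + z n)))) _ (fun n => ?_) (fun n => ?_) (fun n => ?_)
  · have := hz0 n; positivity
  · have hd : z n / (1 + z n) - z (n + 1) / (1 + z (n + 1)) =
        (1 - r) * z n / ((1 + z n) * (1 + r * z n)) := by
      rw [hzs n]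
      exact sums_frac_sub (hz0 _).le hr0.le
    have hzn := hz0 n
    have e1 : -(K / (1 - r) * (z (n + 1) / (1 + z (n + 1)))) - -(K / (1 - r) * (z n / (1 + z n))) =
        K * z n / ((1 + z n) * (1 + r * z n)) := by
      rw [neg_sub_neg, ← mul_sub, hd]
      field_simp
    rw [e1, le_div_iff₀ (by positivity)]
    have hKn := hK (w n) (hw0 n)
    have he0 : 0 < Real.exp (-(c * w n)) := Real.exp_pos _
    have hden : (1 + z n) * (1 + r * z n) ≤ (1 + z n) * (1 + z n) :=
      mul_le_mul_of_nonneg_left (by nlinarith) (by positivity)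
    calc z n * Real.exp (-(c * w n)) * ((1 + z n) * (1 + r * z n))
        ≤ z n * Real.exp (-(c * w n)) * ((1 + z n) * (1 + z n)) :=
          mul_le_mul_of_nonneg_left hden (by positivity)
      _ = ((1 + z n) * (1 + z n) * Real.exp (-(c * w n))) * z n := by ring
      _ ≤ K * z n := mul_le_mul_of_nonneg_right hKn hzn.le
  · have h2 : 0 ≤ K / (1 - r) * (z n / (1 + z n)) := by have := hz0 n; positivity
    have hz00 : z 0 = y ^ u := by simp [hz, hw]
    have h3 : z 0 / (1 + z 0) ≤ (min 1 y) ^ u := by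
      have hzz := hz0 0
      rcases le_total 1 y with h1 | h1
      · rw [min_eq_left h1, Real.one_rpow, div_le_one (by positivity)]
        linarith
      · rw [min_eq_right h1, ← hz00]
        exact div_le_self hzz.le (by linarith)
    have h4 := mul_le_mul_of_nonneg_left h3 (show 0 ≤ K / (1 - r) by positivity)
    linarith

/-- the logarithmic sum -/
private theorem sums_log {η g : ℝ} (hη : 0 < η) (hg : 0 < g) :
    ∃ C : ℝ, 0 < C ∧ ∀ x : ℝ, 2 ≤ x →
      ∑' n : ℕ, ENNReal.ofReal ((min 1 (x * ((1 / 2 : ℝ) ^ n) ^ g)) ^ η) ≤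
        ENNReal.ofReal (C * Real.log x) := by
  set r : ℝ := ((1 / 2 : ℝ) ^ g) ^ η with hr
  have hr0 : 0 < r := by positivity
  have hr1 : r < 1 := Real.rpow_lt_one (by positivity) (sums_half_lt hg) hη
  have h1r : 0 < 1 - r := by linarith
  refine ⟨2 / (1 - r) * (1 + η), by positivity, fun x hx => ?_⟩
  have hx0 : 0 < x := by linarith
  set w : ℕ → ℝ := fun n => x * ((1 / 2 : ℝ) ^ n) ^ g with hw
  have hw0 : ∀ n, 0 < w n := fun n => by simp only [hw]; positivity
  set z : ℕ → ℝ := fun n => w n ^ η with hz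
  have hz0 : ∀ n, 0 < z n := fun n => by simp only [hz]; have := hw0 n; positivity
  have hzs : ∀ n, z (n + 1) = r * z n := by
    intro n
    simp only [hz, hr, hw]
    rw [← Real.mul_rpow (by positivity) (by positivity), sums_half_pow_succ]
    congr 1
    ring
  refine sums_tele (fun n => (min 1 (w n)) ^ η)
    (fun n => -(2 / (1 - r) * Real.log (1 + z n))) _ (fun n => ?_) (fun n => ?_) (fun n => ?_)
  · exact Real.rpow_nonneg (le_min zero_le_one (hw0 n).le) _
  · have hzn := hz0 n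
    have h1 : (min 1 (w n)) ^ η ≤ 2 * (z n / (1 + z n)) := by
      rcases le_total 1 (w n) with h1 | h1
      · have : 1 ≤ z n := Real.one_le_rpow h1 hη.le
        rw [min_eq_left h1, Real.one_rpow, ← mul_div_assoc, le_div_iff₀ (by positivity)]
        linarith
      · have : z n ≤ 1 := Real.rpow_le_one (hw0 n).le h1 hη.le
        rw [min_eq_right h1]
        change z n ≤ _
        rw [← mul_div_assoc, le_div_iff₀ (by positivity)]
        nlinarith
    have h2 : Real.log (1 + r * z n) - Real.log (1 + z n) ≤ -((1 - r) * (z n / (1 + z n))) := by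
      rw [← Real.log_div (by positivity) (by positivity)]
      refine (Real.log_le_sub_one_of_pos (by positivity)).trans (le_of_eq ?_)
      field_simp
      ring
    rw [neg_sub_neg, ← mul_sub, hzs n]
    calc (min 1 (w n)) ^ η ≤ 2 * (z n / (1 + z n)) := h1
      _ = 2 / (1 - r) * ((1 - r) * (z n / (1 + z n))) := by field_simp
      _ ≤ _ := mul_le_mul_of_nonneg_left (by linarith) (by positivity)
  · have h2 : 0 ≤ 2 / (1 - r) * Real.log (1 + z n) := by
      have := hz0 n
      exact mul_nonneg (by positivity) (Real.log_nonneg (by linarith))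
    have hz00 : z 0 = x ^ η := by simp [hz, hw]
    have h1 : 1 ≤ x ^ η := Real.one_le_rpow (by linarith) hη.le
    have h3 : Real.log (1 + z 0) ≤ (1 + η) * Real.log x := by
      calc Real.log (1 + z 0) ≤ Real.log (x * x ^ η) := by
            rw [hz00]
            exact Real.log_le_log (by positivity) (by nlinarith)
        _ = (1 + η) * Real.log x := by
            rw [Real.log_mul hx0.ne' (by positivity), Real.log_rpow hx0]
            ring
    have h4 := mul_le_mul_of_nonneg_left h3 (show 0 ≤ 2 / (1 - r) by positivity)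
    linarith

/-- the geometric sum -/
private theorem sums_geo {δ : ℝ} (hδ : 0 < δ) :
    ∃ C : ℝ, 0 < C ∧ ∑' n : ℕ, ENNReal.ofReal (((1 / 2 : ℝ) ^ n) ^ δ) ≤ ENNReal.ofReal C := by
  set r : ℝ := (1 / 2 : ℝ) ^ δ with hr
  have hr0 : 0 < r := by positivity
  have hr1 : r < 1 := sums_half_lt hδ
  have h1r : 0 < 1 - r := by linarith
  refine ⟨1 / (1 - r), by positivity, ?_⟩
  refine sums_tele _ (fun n => -(1 / (1 - r) * ((1 / 2 : ℝ) ^ n) ^ δ)) _
    (fun n => by positivity) (fun n => ?_) (fun n => ?_)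
  · rw [sums_half_pow_succ, ← hr]
    refine le_of_eq ?_
    field_simp
    ring
  · have h2 : 0 ≤ 1 / (1 - r) * ((1 / 2 : ℝ) ^ n) ^ δ := by positivity
    simp only [pow_zero, Real.one_rpow, mul_one]
    linarith

/-- the sum over one of the other scales -/
private theorem sums_other {η g δ : ℝ} (hη : 0 < η) (hg : 0 < g) (hδ : 0 ≤ δ) :
    ∃ C : ℝ, 0 < C ∧ ∀ x : ℝ, 2 ≤ x →
      ∑' n : ℕ, ENNReal.ofReal (((1 / 2 : ℝ) ^ n) ^ δ * (min 1 (x * ((1 / 2 : ℝ) ^ n) ^ g)) ^ η) ≤
        ENNReal.ofReal (C * if δ = 0 then Real.log x else 1) := by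
  rcases hδ.eq_or_lt with h0 | h0
  · subst h0
    obtain ⟨C, hC0, hC⟩ := sums_log hη hg
    refine ⟨C, hC0, fun x hx => ?_⟩
    simpa only [Real.rpow_zero, one_mul, if_true] using hC x hx
  · obtain ⟨C, hC0, hC⟩ := sums_geo h0
    refine ⟨C, hC0, fun x hx => ?_⟩
    rw [if_neg h0.ne', mul_one]
    refine le_trans (ENNReal.tsum_le_tsum fun n => ENNReal.ofReal_le_ofReal ?_) hC
    refine mul_le_of_le_one_right (by positivity) ?_
    have hx0 : 0 < x := by linarith
    exact Real.rpow_le_one (le_min zero_le_one (by positivity)) (min_le_left _ _) hη.le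

private theorem sums_min_le {k : ℕ} {u x : ℝ} (hu : 0 < u) (hx : 0 < x) (t : Fin k → ℝ)
    (ht0 : ∀ i, 0 < t i) (ht1 : ∀ i, t i ≤ 1) :
    (min 1 (x * ∏ i, t i)) ^ u ≤ ∏ i, (min 1 (x * t i)) ^ (u / (k + 1)) := by
  have hP : 0 < ∏ i, t i := Finset.prod_pos fun i _ => ht0 i
  set b : ℝ := min 1 (x * ∏ i, t i) with hb
  have hb0 : 0 < b := lt_min one_pos (mul_pos hx hP)
  have hb1 : b ≤ 1 := min_le_left _ _
  have hη : 0 < u / (k + 1) := by positivity
  calc b ^ u ≤ b ^ ((u / (k + 1)) * k) := by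
        refine Real.rpow_le_rpow_of_exponent_ge hb0 hb1 ?_
        rw [div_mul_eq_mul_div, div_le_iff₀ (by positivity)]
        nlinarith
    _ = ∏ _i : Fin k, b ^ (u / (k + 1)) := by
        rw [Finset.prod_const, Finset.card_univ, Fintype.card_fin, Real.rpow_mul_natCast hb0.le]
    _ ≤ _ := by
        refine Finset.prod_le_prod (fun i _ => by positivity) fun i _ => ?_
        refine Real.rpow_le_rpow hb0.le (min_le_min le_rfl ?_) hη.le
        refine mul_le_mul_of_nonneg_left ?_ hx.le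
        rw [← Finset.mul_prod_erase Finset.univ t (Finset.mem_univ i)]
        exact mul_le_of_le_one_right (ht0 i).le
          (Finset.prod_le_one (fun l _ => (ht0 l).le) fun l _ => ht1 l)

private theorem sums_term (α γ : Fin m → ℝ) {κ lam c x : ℝ} (hx : 0 < x) (j : Fin m → ℕ) :
    (∏ i, sc j i ^ α i) * (x * tt γ j) ^ (-lam) * Real.exp (-(c * x * tt γ j)) =
      x ^ (-κ) * (∏ i, sc j i ^ (α i - κ * γ i)) *
        ((x * tt γ j) ^ (κ - lam) * Real.exp (-(c * (x * tt γ j)))) := by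
  have hs : ∀ i, 0 < sc j i := fun i => by unfold sc; positivity
  have ht : 0 < tt γ j := Finset.prod_pos fun i _ => Real.rpow_pos_of_pos (hs i) _
  have h1 : ∏ i, sc j i ^ α i = (∏ i, sc j i ^ (α i - κ * γ i)) * tt γ j ^ κ := by
    unfold tt
    rw [← Real.finsetProd_rpow _ _ (fun i _ => (Real.rpow_pos_of_pos (hs i) _).le),
      ← Finset.prod_mul_distrib]
    refine Finset.prod_congr rfl fun i _ => ?_
    rw [← Real.rpow_mul (hs i).le, ← Real.rpow_add (hs i)]
    congr 1
    ring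
  have h2 : (x * tt γ j) ^ (κ - lam) = x ^ κ * tt γ j ^ κ * (x * tt γ j) ^ (-lam) := by
    rw [sub_eq_add_neg, Real.rpow_add (mul_pos hx ht), Real.mul_rpow hx.le ht.le]
  have h3 : x ^ (-κ) * x ^ κ = 1 := by
    rw [← Real.rpow_add hx]; simp
  rw [h1, h2, mul_assoc c]
  calc _ = (x ^ (-κ) * x ^ κ) * ((∏ i, sc j i ^ (α i - κ * γ i)) * tt γ j ^ κ *
        (x * tt γ j) ^ (-lam) * Real.exp (-(c * (x * tt γ j)))) := by rw [h3, one_mul]
    _ = _ := by ring

theorem main_sum (α γ : Fin m → ℝ) (hγ : ∀ i, 0 < γ i) {κ lam c : ℝ}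
    (hκ : ∀ i, κ * γ i ≤ α i) (hex : ∃ i, κ * γ i = α i) (hlam : lam < κ) (hc : 0 < c) :
    ∃ C : ℝ, 0 < C ∧ ∀ x : ℝ, 2 ≤ x →
      ∑' j : Fin m → ℕ, ENNReal.ofReal ((∏ i, sc j i ^ α i) * (x * tt γ j) ^ (-lam) *
          Real.exp (-(c * x * tt γ j))) ≤
        ENNReal.ofReal (C * x ^ (-κ) *
          Real.log x ^ ((Finset.univ.filter fun i => κ * γ i = α i).card - 1)) := by
  obtain ⟨i0, hi0⟩ := hex
  obtain ⟨k, rfl⟩ : ∃ k, m = k + 1 := ⟨m - 1, by have := i0.pos; omega⟩
  have hu : 0 < κ - lam := by linarith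
  have hη : 0 < (κ - lam) / (k + 1) := by positivity
  obtain ⟨C0, hC00, hC0⟩ := sums_first hu hc (hγ i0)
  choose C hCp hC using fun i : Fin k =>
    sums_other (δ := α (i0.succAbove i) - κ * γ (i0.succAbove i)) hη (hγ (i0.succAbove i))
      (by linarith [hκ (i0.succAbove i)])
  refine ⟨C0 * ∏ i, C i, mul_pos hC00 (Finset.prod_pos fun i _ => hCp i), fun x hx => ?_⟩
  have hx0 : 0 < x := by linarith
  have hL : 0 ≤ Real.log x := Real.log_nonneg (by linarith)
  set f : Fin k → ℕ → ℝ≥0∞ := fun i n => ENNReal.ofReal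
    (((1 / 2 : ℝ) ^ n) ^ (α (i0.succAbove i) - κ * γ (i0.succAbove i)) *
      (min 1 (x * ((1 / 2 : ℝ) ^ n) ^ γ (i0.succAbove i))) ^ ((κ - lam) / (k + 1))) with hf
  have hcard : (Finset.univ.filter fun i => κ * γ i = α i).card - 1 =
      (Finset.univ.filter fun i : Fin k =>
        α (i0.succAbove i) - κ * γ (i0.succAbove i) = 0).card := by
    rw [Finset.card_filter, Finset.card_filter, Fin.sum_univ_succAbove _ i0, if_pos hi0,
      Nat.add_sub_cancel_left]
    refine Finset.sum_congr rfl fun i _ => ?_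
    refine if_congr ?_ rfl rfl
    constructor <;> intro h <;> linarith
  rw [← (Fin.insertNthEquiv (fun _ : Fin (k + 1) => ℕ) i0).tsum_eq, ENNReal.tsum_prod',
    ENNReal.tsum_comm]
  have inner : ∀ j : Fin k → ℕ, ∑' n : ℕ, ENNReal.ofReal
      ((∏ i, sc (Fin.insertNthEquiv (fun _ : Fin (k + 1) => ℕ) i0 (n, j)) i ^ α i) *
        (x * tt γ (Fin.insertNthEquiv (fun _ : Fin (k + 1) => ℕ) i0 (n, j))) ^ (-lam) *
        Real.exp (-(c * x * tt γ (Fin.insertNthEquiv (fun _ : Fin (k + 1) => ℕ) i0 (n, j))))) ≤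
      ENNReal.ofReal (C0 * x ^ (-κ)) * ∏ i, f i (j i) := by
    intro j
    set y : ℝ := x * ∏ i, ((1 / 2 : ℝ) ^ j i) ^ γ (i0.succAbove i) with hy
    have hy0 : 0 < y := mul_pos hx0 (Finset.prod_pos fun i _ => by positivity)
    set A : ℝ := ∏ i, ((1 / 2 : ℝ) ^ j i) ^ (α (i0.succAbove i) - κ * γ (i0.succAbove i)) with hA
    have hA0 : 0 ≤ A := Finset.prod_nonneg fun i _ => by positivity
    have e1 : ∀ n : ℕ, x * tt γ (Fin.insertNthEquiv (fun _ : Fin (k + 1) => ℕ) i0 (n, j)) =
        y * ((1 / 2 : ℝ) ^ n) ^ γ i0 := by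
      intro n
      unfold tt sc
      rw [Fin.prod_univ_succAbove _ i0]
      simp only [Fin.insertNthEquiv_apply, Fin.insertNth_apply_same,
        Fin.insertNth_apply_succAbove, hy]
      ring
    have e2 : ∀ n : ℕ, ∏ i, sc (Fin.insertNthEquiv (fun _ : Fin (k + 1) => ℕ) i0 (n, j)) i ^
        (α i - κ * γ i) = A := by
      intro n
      unfold sc
      rw [Fin.prod_univ_succAbove _ i0]
      simp only [Fin.insertNthEquiv_apply, Fin.insertNth_apply_same,
        Fin.insertNth_apply_succAbove, hA]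
      rw [hi0, sub_self, Real.rpow_zero, one_mul]
    have hxA : 0 ≤ x ^ (-κ) * A := by positivity
    calc _ = ∑' n : ℕ, ENNReal.ofReal (x ^ (-κ) * A) * ENNReal.ofReal
          ((y * ((1 / 2 : ℝ) ^ n) ^ γ i0) ^ (κ - lam) *
            Real.exp (-(c * (y * ((1 / 2 : ℝ) ^ n) ^ γ i0)))) := by
          refine tsum_congr fun n => ?_
          rw [sums_term α γ (κ := κ) hx0, e1, e2, ← ENNReal.ofReal_mul hxA]
      _ ≤ ENNReal.ofReal (x ^ (-κ) * A) * ENNReal.ofReal (C0 * (min 1 y) ^ (κ - lam)) := by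
          rw [ENNReal.tsum_mul_left]
          exact mul_le_mul_right (hC0 y hy0) _
      _ ≤ _ := by
          simp only [hf]
          rw [← ENNReal.ofReal_prod_of_nonneg fun i _ => mul_nonneg (by positivity)
              (Real.rpow_nonneg (le_min zero_le_one (by positivity)) _),
            ← ENNReal.ofReal_mul hxA, ← ENNReal.ofReal_mul (by positivity)]
          refine ENNReal.ofReal_le_ofReal ?_
          rw [Finset.prod_mul_distrib, ← hA]
          have h1 := sums_min_le hu hx0 (fun i => ((1 / 2 : ℝ) ^ j i) ^ γ (i0.succAbove i))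
            (fun i => by positivity)
            (fun i => Real.rpow_le_one (by positivity) (pow_le_one₀ (by norm_num) (by norm_num))
              (hγ _).le)
          have h2 := mul_le_mul_of_nonneg_left h1 (show 0 ≤ C0 * x ^ (-κ) * A by positivity)
          calc _ = C0 * x ^ (-κ) * A * (min 1 y) ^ (κ - lam) := by ring
            _ ≤ _ := h2
            _ = _ := by ring
  calc _ ≤ ∑' j : Fin k → ℕ, ENNReal.ofReal (C0 * x ^ (-κ)) * ∏ i, f i (j i) :=
        ENNReal.tsum_le_tsum inner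
    _ ≤ ENNReal.ofReal (C0 * x ^ (-κ)) * ∏ i, ENNReal.ofReal
          (C i * if α (i0.succAbove i) - κ * γ (i0.succAbove i) = 0 then Real.log x else 1) := by
        rw [ENNReal.tsum_mul_left]
        refine mul_le_mul_right ((sums_tsum_pi_le f).trans ?_) _
        exact Finset.prod_le_prod' fun i _ => hC i x hx
    _ = _ := by
        rw [← ENNReal.ofReal_prod_of_nonneg fun i _ => mul_nonneg (hCp i).le
            (by split_ifs; exacts [hL, zero_le_one]),
          ← ENNReal.ofReal_mul (by positivity), hcard, Finset.prod_mul_distrib,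
          Finset.prod_ite, Finset.prod_const, Finset.prod_const_one, mul_one]
        congr 1
        ring

/-- a weighted power-mean inequality for series -/
theorem tsum_pow_le {J : Type} (a ω : J → ℝ≥0∞) (hω : ∀ j, a j ≠ 0 → ω j ≠ 0)
    (hω' : ∀ j, ω j ≠ ⊤) {q : ℕ} (hq : 1 ≤ q) :
    (∑' j, a j) ^ q ≤ (∑' j, ω j) ^ q * ∑' j, (a j / ω j) ^ q := by
  set R : ℝ≥0∞ := ∑' j, (a j / ω j) ^ q with hR
  have hq0 : q ≠ 0 := by omega
  have hS : (R ^ ((q : ℝ)⁻¹)) ^ q = R := ENNReal.rpow_inv_natCast_pow hq0 R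
  have h1 : ∀ j, a j ≤ ω j * R ^ ((q : ℝ)⁻¹) := by
    intro j
    by_cases ha : a j = 0
    · rw [ha]; exact zero_le
    · have h2 : (a j / ω j) ^ q ≤ (R ^ ((q : ℝ)⁻¹)) ^ q := by
        rw [hS]; exact ENNReal.le_tsum (f := fun j => (a j / ω j) ^ q) j
      have h3 : a j / ω j ≤ R ^ ((q : ℝ)⁻¹) := (ENNReal.pow_le_pow_left_iff hq0).mp h2
      calc a j = ω j * (a j / ω j) := (ENNReal.mul_div_cancel (hω j ha) (hω' j)).symm
        _ ≤ _ := mul_le_mul_right h3 _
  calc (∑' j, a j) ^ q ≤ ((∑' j, ω j) * R ^ ((q : ℝ)⁻¹)) ^ q := by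
        refine pow_le_pow_left' ?_ q
        rw [← ENNReal.tsum_mul_right]
        exact ENNReal.tsum_le_tsum h1
    _ = _ := by rw [mul_pow, hS]

end Pool.Agent.Lib.MP_258d0c_pr
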