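import Pool.Agent.Lib.MP_258d0c_pr.BlockUp
import Pool.Agent.Lib.MP_258d0c_pr.Cap
import Pool.Agent.Lib.MP_258d0c_pr.Sums

open MeasureTheory ProbabilityTheory
open scoped ENNReal Classical InnerProductSpace

namespace Pool.Agent.Lib.MP_258d0c_pr

variable {m : ℕ} {d : Fin m → ℕ} {β : Fin m → ℝ}

theorem ints_cont_hh (i : Fin m) : Continuous fun x : Amb d => hh x i := by
  unfold hh; fun_prop

theorem ints_cont_rho (i : Fin m) : Continuous fun q : Amb d × Amb d => rho q.1 q.2 i := by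
  unfold rho; fun_prop

theorem ints_near (j : Fin m → ℕ) : MeasurableSet {q : Amb d × Amb d | Near q.1 q.2 j} := by
  simp only [Near, Set.ofPred_forall]
  exact MeasurableSet.iInter fun i =>
    (isClosed_le (ints_cont_rho i) continuous_const).measurableSet

theorem ints_near' (z : Amb d) (j : Fin m → ℕ) : MeasurableSet {x : Amb d | Near z x j} :=
  measurable_prodMk_left (ints_near j)

theorem ints_adm (j : Fin m → ℕ) : MeasurableSet {x : Amb d | Adm x j} := by
  simp only [Adm, Set.ofPred_forall]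
  exact MeasurableSet.iInter fun i => (isClosed_le (ints_cont_hh i) continuous_const).measurableSet

theorem measurable_Kfun (γ : Fin m → ℝ) (c C : ℝ) (n : ℕ) :
    Measurable (Function.uncurry (Kfun (d := d) γ c C n)) :=
  Measurable.const_mul (Measurable.tsum fun j =>
    Measurable.ite (ints_near j) measurable_const measurable_const) _

theorem measurable_wfun (γ : Fin m → ℝ) (lam C : ℝ) (n : ℕ) :
    Measurable (wfun (d := d) γ lam C n) := by
  have := fun i => (ints_cont_hh (d := d) i).measurable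
  unfold wfun tau
  fun_prop

/-- the singular weight -/
noncomputable def intsH (a : Fin m → ℝ) (x : Amb d) : ℝ≥0∞ := ∏ i, ENNReal.ofReal (hh x i ^ (-a i))

theorem ints_measH (a : Fin m → ℝ) : Measurable (intsH (d := d) a) := by
  have := fun i => (ints_cont_hh (d := d) i).measurable
  unfold intsH
  fun_prop

/-- one term of the weight -/
noncomputable def intsT (γ : Fin m → ℝ) (lam : ℝ) (n : ℕ) (x : Amb d) : ℝ≥0∞ :=
  ENNReal.ofReal ((n : ℝ) ^ (-lam)) * intsH (fun i => lam * γ i) x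

theorem ints_measT (γ : Fin m → ℝ) (lam : ℝ) (n : ℕ) : Measurable (intsT (d := d) γ lam n) :=
  (ints_measH _).const_mul _

theorem ints_w (γ : Fin m → ℝ) (lam C : ℝ) (n : ℕ) {x : Amb d} (hx : x ∈ obody d) :
    wfun γ lam C n x = ENNReal.ofReal C * (intsT γ 0 n x + intsT γ lam n x) := by
  have hp := hh_pos hx
  rw [wfun]
  congr 2
  · simp [intsT, intsH]
  · rw [intsT, intsH, tau, Real.mul_rpow (Nat.cast_nonneg _)
      (Finset.prod_nonneg fun i _ => (Real.rpow_pos_of_pos (hp i) _).le),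
      ENNReal.ofReal_mul (by positivity),
      ← Real.finsetProd_rpow _ _ (fun i _ => (Real.rpow_pos_of_pos (hp i) _).le),
      ENNReal.ofReal_prod_of_nonneg
        (fun i _ => Real.rpow_nonneg (Real.rpow_pos_of_pos (hp i) _).le _)]
    congr 1
    refine Finset.prod_congr rfl fun i _ => ?_
    rw [← Real.rpow_mul (hp i).le]
    congr 2; ring

theorem ints_ae (hd : ∀ i, 1 ≤ d i) (hβ : ∀ i, 0 ≤ β i) :
    ∀ᵐ x ∂(blockBeta d β), x ∈ obody d := blockBeta_obody hd hβ

theorem ints_lam (hm : 1 ≤ m) (hd : ∀ i, 1 ≤ d i) (hβ : ∀ i, 0 ≤ β i) {lam : ℝ}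
    (hlam : lam < kap d β) (i : Fin m) : lam * gam d β i < alp β i :=
  (mul_lt_mul_of_pos_right hlam (by linarith [one_le_gam hd hβ i])).trans_le
    (kap_mul_le hm hd hβ i)

theorem ints_lam0 (hd : ∀ i, 1 ≤ d i) (hβ : ∀ i, 0 ≤ β i) {lam : ℝ}
    (hlam0 : 0 ≤ lam) (i : Fin m) : 0 ≤ lam * gam d β i :=
  mul_nonneg hlam0 (by linarith [one_le_gam hd hβ i])

theorem ints_T_le (hm : 1 ≤ m) (hd : ∀ i, 1 ≤ d i) (hβ : ∀ i, 0 ≤ β i) {lam : ℝ}
    (hlam0 : 0 ≤ lam) (hlam : lam < kap d β) : ∃ A : ℝ, 0 < A ∧ ∀ n : ℕ, 1 ≤ n →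
      ∫⁻ x, intsT (gam d β) lam n x ∂(blockBeta d β) ≤ ENNReal.ofReal A := by
  obtain ⟨C, hC, h⟩ := adm_upper hd hβ _ (ints_lam0 hd hβ hlam0) (ints_lam hm hd hβ hlam)
  refine ⟨C, hC, fun n hn => ?_⟩
  have h1 := h (fun _ => 1) fun _ => one_pos
  have h2 : {y : Amb d | ∀ i, hh y i ≤ 1} = Set.univ :=
    Set.eq_univ_of_forall fun y i => by unfold hh; linarith [sq_nonneg ‖y i‖]
  simp only [h2, Measure.restrict_univ, Real.one_rpow, Finset.prod_const_one, mul_one] at h1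
  unfold intsT
  rw [lintegral_const_mul _ (ints_measH _)]
  have h3 : ENNReal.ofReal ((n : ℝ) ^ (-lam)) ≤ 1 := ENNReal.ofReal_le_one.2
    (Real.rpow_le_one_of_one_le_of_nonpos (by exact_mod_cast hn) (by linarith))
  exact (mul_le_mul' h3 h1).trans_eq (one_mul _)

theorem int_zero (hm : 1 ≤ m) (hd : ∀ i, 1 ≤ d i) (hβ : ∀ i, 0 ≤ β i) {lam : ℝ}
    (hlam0 : 0 ≤ lam) (hlam : lam < kap d β) (Cw : ℝ) :
    ∃ A : ℝ, 1 ≤ A ∧ ∀ n : ℕ, 1 ≤ n →
      ∫⁻ x, wfun (gam d β) lam Cw n x ∂(blockBeta d β) ≤ ENNReal.ofReal A := by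
  obtain ⟨A, hA, h⟩ := ints_T_le hm hd hβ le_rfl (kap_pos hm hd hβ)
  obtain ⟨A', hA', h'⟩ := ints_T_le hm hd hβ hlam0 hlam
  refine ⟨max 1 (|Cw| * (A + A')), le_max_left _ _, fun n hn => ?_⟩
  rw [lintegral_congr_ae ((ints_ae hd hβ).mono fun x hx => ints_w _ _ _ _ hx),
    lintegral_const_mul' _ _ ENNReal.ofReal_ne_top,
    lintegral_add_left (ints_measT _ _ _)]
  refine (mul_le_mul' (ENNReal.ofReal_le_ofReal (le_abs_self Cw))
    (add_le_add (h n hn) (h' n hn))).trans ?_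
  rw [← ENNReal.ofReal_add hA.le hA'.le, ← ENNReal.ofReal_mul (abs_nonneg _)]
  exact ENNReal.ofReal_le_ofReal (le_max_right _ _)

/-- the basic series -/
noncomputable def intsS (γ a : Fin m → ℝ) (lam c : ℝ) (n : ℕ) (z : Amb d) : ℝ≥0∞ :=
  ∑' j : Fin m → ℕ, if Adm z j then ENNReal.ofReal ((∏ i, sc j i ^ a i) * (n * tt γ j) ^ (-lam) *
    Real.exp (-(c * n * tt γ j))) * intsH a z else 0

theorem ints_measS (γ a : Fin m → ℝ) (lam c : ℝ) (n : ℕ) :
    Measurable (intsS (d := d) γ a lam c n) :=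
  Measurable.tsum fun j =>
    Measurable.ite (ints_adm j) ((ints_measH _).const_mul _) measurable_const

theorem ints_main (hm : 1 ≤ m) (hd : ∀ i, 1 ≤ d i) (hβ : ∀ i, 0 ≤ β i) {a : Fin m → ℝ}
    (ha0 : ∀ i, 0 ≤ a i) (ha : ∀ i, a i < alp β i) {lam c : ℝ} (hlam : lam < kap d β)
    (hc : 0 < c) : ∃ B : ℝ, 0 < B ∧ ∀ n : ℕ, 2 ≤ n →
      (n : ℝ≥0∞) * ∫⁻ z, intsS (gam d β) a lam c n z ∂(blockBeta d β) ≤
        ENNReal.ofReal (B * order d β n) := by
  obtain ⟨C, hC, h⟩ := adm_upper hd hβ a ha0 ha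
  obtain ⟨C', hC', h'⟩ := main_sum (alp β) (gam d β) (fun i => by linarith [one_le_gam hd hβ i])
    (kap_mul_le hm hd hβ) (exists_kap_eq hm hd hβ) hlam hc
  have hP : 0 < ∏ i, (16 : ℝ) ^ (alp β i - a i) := Finset.prod_pos fun i _ => by positivity
  refine ⟨C * (∏ i, (16 : ℝ) ^ (alp β i - a i)) * C', by positivity, fun n hn => ?_⟩
  have hn0 : (0 : ℝ) < n := by positivity
  have key : ∀ j : Fin m → ℕ, ∫⁻ z, (if Adm z j then ENNReal.ofReal ((∏ i, sc j i ^ a i) *
      (n * tt (gam d β) j) ^ (-lam) * Real.exp (-(c * n * tt (gam d β) j))) * intsH a z else 0)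
      ∂(blockBeta d β) ≤ ENNReal.ofReal (C * ∏ i, (16 : ℝ) ^ (alp β i - a i)) *
        ENNReal.ofReal ((∏ i, sc j i ^ alp β i) * (n * tt (gam d β) j) ^ (-lam) *
          Real.exp (-(c * n * tt (gam d β) j))) := by
    intro j
    have hs := sc_pos j
    have ht := tt_pos (gam d β) j
    have h1 := h (fun i => 16 * sc j i) fun i => by have := hs i; positivity
    have h2 : 0 < ∏ i, sc j i ^ a i := Finset.prod_pos fun i _ => Real.rpow_pos_of_pos (hs i) _
    refine ((lintegral_indicator (ints_adm j) fun z => _ * intsH a z).trans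
      (lintegral_const_mul _ (ints_measH a))).trans_le ((mul_le_mul' le_rfl h1).trans_eq ?_)
    rw [← ENNReal.ofReal_mul (by positivity), ← ENNReal.ofReal_mul (by positivity)]
    congr 1
    have h3 : (∏ i, sc j i ^ a i) * ∏ i, (16 * sc j i) ^ (alp β i - a i) =
        (∏ i, (16 : ℝ) ^ (alp β i - a i)) * ∏ i, sc j i ^ alp β i := by
      rw [← Finset.prod_mul_distrib, ← Finset.prod_mul_distrib]
      refine Finset.prod_congr rfl fun i _ => ?_
      rw [Real.mul_rpow (by norm_num) (hs i).le, mul_left_comm, ← Real.rpow_add (hs i)]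
      congr 2; ring
    linear_combination (C * (n * tt (gam d β) j) ^ (-lam) *
      Real.exp (-(c * n * tt (gam d β) j))) * h3
  unfold intsS
  rw [lintegral_tsum fun j => (Measurable.ite (ints_adm j) ((ints_measH _).const_mul _)
    measurable_const).aemeasurable]
  refine (mul_le_mul' le_rfl ((ENNReal.tsum_le_tsum key).trans (ENNReal.tsum_mul_left.trans_le
    (mul_le_mul' le_rfl (h' n (by exact_mod_cast hn)))))).trans_eq ?_
  rw [← ENNReal.ofReal_natCast, ← ENNReal.ofReal_mul (by positivity),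
    ← ENNReal.ofReal_mul hn0.le, order_eq hm hd hβ, kMult_eq hm hd hβ, sub_eq_add_neg 1,
    Real.rpow_add hn0, Real.rpow_one]
  congr 1; ring

theorem ints_coef (γ : Fin m → ℝ) (lam : ℝ) {n : ℕ} (j : Fin m → ℕ) :
    (∏ i, sc j i ^ (lam * γ i)) * (n * tt γ j) ^ (-lam) = (n : ℝ) ^ (-lam) := by
  have hs := sc_pos j
  have ht := tt_pos γ j
  have h1 : ∏ i, sc j i ^ (lam * γ i) = tt γ j ^ lam := by
    rw [tt, ← Real.finsetProd_rpow _ _ (fun i _ => (Real.rpow_pos_of_pos (hs i) _).le)]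
    exact Finset.prod_congr rfl fun i _ => by rw [← Real.rpow_mul (hs i).le, mul_comm]
  rw [h1, Real.mul_rpow (Nat.cast_nonneg _) ht.le, mul_left_comm, ← Real.rpow_add ht]
  simp

/-- the kernel without its constant -/
noncomputable def intsK (γ : Fin m → ℝ) (c : ℝ) (n : ℕ) (x y : Amb d) : ℝ≥0∞ :=
  ∑' j : Fin m → ℕ, if Near x y j then ENNReal.ofReal (Real.exp (-(c * n * tt γ j))) else 0

theorem ints_measK (γ : Fin m → ℝ) (c : ℝ) (n : ℕ) (z : Amb d) : Measurable (intsK γ c n z) :=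
  Measurable.tsum fun j =>
    Measurable.ite (ints_near' z j) measurable_const measurable_const

theorem ints_Kw (γ : Fin m → ℝ) (lam c CK Cw : ℝ) (n : ℕ) (z : Amb d) {x : Amb d}
    (hx : x ∈ obody d) : Kfun γ c CK n z x * wfun γ lam Cw n x ≤ ENNReal.ofReal (|CK| * |Cw|) *
      (intsK γ c n z x * intsT γ 0 n x + intsK γ c n z x * intsT γ lam n x) := by
  rw [ints_w _ _ _ _ hx, ENNReal.ofReal_mul (abs_nonneg _), ← mul_add, mul_mul_mul_comm]
  exact mul_le_mul' (mul_le_mul' (ENNReal.ofReal_le_ofReal (le_abs_self _)) le_rfl)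
    (mul_le_mul' (ENNReal.ofReal_le_ofReal (le_abs_self _)) le_rfl)

theorem ints_diag (γ : Fin m → ℝ) (lam c : ℝ) (n : ℕ) {z : Amb d} (hz : z ∈ obody d) :
    intsK γ c n z z * intsT γ lam n z ≤ intsS γ (fun i => lam * γ i) lam c n z := by
  rw [intsK, intsS, ← ENNReal.tsum_mul_right]
  refine ENNReal.tsum_le_tsum fun j => ?_
  split_ifs with h1 h2
  · rw [ints_coef, intsT, ← mul_assoc, ← ENNReal.ofReal_mul (Real.exp_pos _).le, mul_comm (Real.exp _)]
  · exact absurd (h1.adm (obody_subset hz)) h2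
  · simp
  · simp

theorem int_one (hm : 1 ≤ m) (hd : ∀ i, 1 ≤ d i) (hβ : ∀ i, 0 ≤ β i) {lam c : ℝ}
    (hlam0 : 0 ≤ lam) (hlam : lam < kap d β) (hc : 0 < c) (CK Cw : ℝ) :
    ∃ B : ℝ, 0 < B ∧ ∀ n : ℕ, 2 ≤ n →
      (n : ℝ≥0∞) * ∫⁻ z, Kfun (gam d β) c CK n z z * wfun (gam d β) lam Cw n z ∂(blockBeta d β) ≤
        ENNReal.ofReal (B * order d β n) := by
  have hk := kap_pos hm hd hβ
  obtain ⟨B, hB, h⟩ := ints_main hm hd hβ (ints_lam0 hd hβ le_rfl) (ints_lam hm hd hβ hk) hk hc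
  obtain ⟨B', hB', h'⟩ := ints_main hm hd hβ (ints_lam0 hd hβ hlam0) (ints_lam hm hd hβ hlam) hlam hc
  refine ⟨(|CK| * |Cw| + 1) * (B + B'), by positivity, fun n hn => ?_⟩
  have ho := order_pos d β hn
  refine (mul_le_mul' le_rfl (lintegral_mono_ae ((ints_ae hd hβ).mono fun z hz =>
    (ints_Kw _ lam c CK Cw n z hz).trans (mul_le_mul' le_rfl
      (add_le_add (ints_diag _ _ _ _ hz) (ints_diag _ _ _ _ hz)))))).trans ?_
  rw [lintegral_const_mul' _ _ ENNReal.ofReal_ne_top,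
    lintegral_add_left (ints_measS _ _ _ _ _), mul_left_comm, mul_add]
  refine (mul_le_mul' le_rfl (add_le_add (h n hn) (h' n hn))).trans ?_
  rw [← ENNReal.ofReal_add (by positivity) (by positivity), ← ENNReal.ofReal_mul (by positivity)]
  exact ENNReal.ofReal_le_ofReal (by nlinarith [mul_pos (add_pos hB hB') ho])

theorem ints_exp {c u y : ℝ} (hc : 0 < c) (hu0 : 0 ≤ u) (hu : u ≤ 1) (hy : 0 < y) :
    y ^ u * Real.exp (-(c * y)) ≤ (1 + 2 / c) * Real.exp (-(c / 2 * y)) := by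
  have h1 : y ^ u ≤ 1 + y := by
    rcases le_total y 1 with h | h
    · linarith [Real.rpow_le_one hy.le h hu0]
    · have := Real.rpow_le_rpow_of_exponent_le h hu
      rw [Real.rpow_one] at this; linarith
  have h2 : 1 + y ≤ (1 + 2 / c) * Real.exp (c / 2 * y) := by
    have h3 := Real.add_one_le_exp (c / 2 * y)
    have h4 : (1 + 2 / c) * (c / 2 * y + 1) = c / 2 * y + 1 + y + 2 / c := by field_simp; ring
    have h5 : 0 < 2 / c := by positivity
    have h6 : 0 < c / 2 * y := by positivity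
    nlinarith
  have h3 : Real.exp (-(c / 2 * y)) = Real.exp (c / 2 * y) * Real.exp (-(c * y)) := by
    rw [← Real.exp_add]; congr 1; ring
  rw [h3, ← mul_assoc]
  exact mul_le_mul_of_nonneg_right (h1.trans h2) (Real.exp_pos _).le

theorem ints_inner (hm : 1 ≤ m) (hd : ∀ i, 1 ≤ d i) (hβ : ∀ i, 0 ≤ β i) {lam c : ℝ}
    (hlam0 : 0 ≤ lam) (hlam : lam < kap d β) (hc : 0 < c) :
    ∃ C : ℝ, 0 < C ∧ ∀ n : ℕ, 2 ≤ n → ∀ z ∈ obody d,
      (n : ℝ≥0∞) * ∫⁻ x, intsK (gam d β) c n z x * intsT (gam d β) lam n x ∂(blockBeta d β) ≤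
        ENNReal.ofReal C * intsS (gam d β) 0 0 (c / 2) n z := by
  obtain ⟨C, hC, h⟩ := near_upper hd hβ _ (ints_lam0 hd hβ hlam0) (ints_lam hm hd hβ hlam)
  have hP : 0 < ∏ i, (8 : ℝ) ^ (gam d β i - lam * gam d β i) :=
    Finset.prod_pos fun i _ => by positivity
  have hk : kap d β ≤ 1 := by
    have := one_le_kMax hm hd hβ
    rw [kap, div_le_one (by linarith)]; linarith
  refine ⟨C * (∏ i, (8 : ℝ) ^ (gam d β i - lam * gam d β i)) * (1 + 2 / c), by positivity,
    fun n hn z hz => ?_⟩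
  have hn0 : (0 : ℝ) < n := by positivity
  simp only [intsK, ← ENNReal.tsum_mul_right]
  rw [lintegral_tsum fun j => ((Measurable.ite (ints_near' z j) measurable_const
    measurable_const).fun_mul (ints_measT _ _ _)).aemeasurable, intsS, ← ENNReal.tsum_mul_left,
    ← ENNReal.tsum_mul_left]
  refine ENNReal.tsum_le_tsum fun j => ?_
  split_ifs with hj
  · have hs := sc_pos j
    have ht := tt_pos (gam d β) j
    have h1 := h z (obody_subset hz) (fun i => 8 * sc j i) fun i => by have := hs i; positivity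
    simp only [ite_mul, zero_mul, intsT, ← mul_assoc]
    refine (mul_le_mul' le_rfl (((lintegral_indicator (ints_near' z j) fun x => _ * intsH _ x).trans
      (lintegral_const_mul _ (ints_measH _))).trans_le (mul_le_mul' le_rfl h1))).trans ?_
    have h2 : intsH 0 z = 1 := by simp [intsH]
    rw [h2, mul_one, ← ENNReal.ofReal_natCast, ← ENNReal.ofReal_mul (by positivity),
      ← ENNReal.ofReal_mul (by positivity), ← ENNReal.ofReal_mul (by positivity),
      ← ENNReal.ofReal_mul (by positivity)]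
    refine ENNReal.ofReal_le_ofReal ?_
    have h3 : ∏ i, (8 * sc j i) ^ (gam d β i - lam * gam d β i) =
        (∏ i, (8 : ℝ) ^ (gam d β i - lam * gam d β i)) * tt (gam d β) j ^ (1 - lam) := by
      rw [tt, ← Real.finsetProd_rpow _ _ (fun i _ => (Real.rpow_pos_of_pos (hs i) _).le),
        ← Finset.prod_mul_distrib]
      refine Finset.prod_congr rfl fun i _ => ?_
      rw [Real.mul_rpow (by norm_num) (hs i).le, ← Real.rpow_mul (hs i).le]
      congr 2; ring
    have h4 := ints_exp hc (u := 1 - lam) (by linarith) (by linarith) (mul_pos hn0 ht)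
    rw [Real.mul_rpow hn0.le ht.le, sub_eq_add_neg 1 lam, Real.rpow_add hn0, Real.rpow_one,
      ← mul_assoc c, ← mul_assoc (c / 2), ← sub_eq_add_neg] at h4
    rw [h3]
    simp only [Pi.zero_apply, Real.rpow_zero, Finset.prod_const_one, neg_zero, mul_one, one_mul]
    nlinarith [mul_le_mul_of_nonneg_left h4 (mul_pos hC hP).le]
  · rw [lintegral_congr_ae (g := fun _ => 0) ((ints_ae hd hβ).mono fun x hx => by
      simp only [if_neg fun h : Near z x j => hj (h.adm (obody_subset hx)), zero_mul])]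
    simp

theorem ints_sq (γ : Fin m → ℝ) (c : ℝ) : ∃ C : ℝ, 0 < C ∧ ∀ n : ℕ, ∀ z ∈ obody d,
    intsS γ 0 0 (c / 2) n z ^ 2 ≤ ENNReal.ofReal C * intsS γ (fun _ => 1 / 2) 0 c n z := by
  obtain ⟨C, hC, h⟩ := weight_sum (m := m) (fun _ => 1 / 4) fun _ => by norm_num
  refine ⟨C ^ 2, by positivity, fun n z hz => ?_⟩
  have hp := hh_pos hz
  have hw : ∀ j : Fin m → ℕ, 0 < ∏ i, (hh z i / sc j i) ^ (1 / 4 : ℝ) := fun j =>
    Finset.prod_pos fun i _ => Real.rpow_pos_of_pos (div_pos (hp i) (sc_pos j i)) _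
  refine (tsum_pow_le _ (fun j => if Adm z j then
    ENNReal.ofReal (∏ i, (hh z i / sc j i) ^ (1 / 4 : ℝ)) else 0) (fun j hj => ?_) (fun j => ?_)
    one_le_two).trans (mul_le_mul' ?_ (ENNReal.tsum_le_tsum fun j => ?_))
  · split_ifs at hj ⊢
    · exact (ENNReal.ofReal_pos.2 (hw j)).ne'
    · exact hj
  · split_ifs
    · exact ENNReal.ofReal_ne_top
    · exact ENNReal.zero_ne_top
  · rw [ENNReal.ofReal_pow hC.le]
    exact pow_le_pow_left' (by convert h (hh z) hp <;> rfl) 2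
  · split_ifs
    · have hs := sc_pos j
      have h2 : intsH 0 z = 1 := by simp [intsH]
      rw [h2, mul_one, ← ENNReal.ofReal_div_of_pos (hw j), ← ENNReal.ofReal_pow
        (div_nonneg (by simp [Real.exp_nonneg]) (hw j).le), intsH,
        ← ENNReal.ofReal_prod_of_nonneg (fun i _ => Real.rpow_nonneg (hp i).le _),
        ← ENNReal.ofReal_mul (mul_nonneg (mul_nonneg
          (Finset.prod_nonneg fun i _ => Real.rpow_nonneg (hs i).le _) (by simp)) (Real.exp_nonneg _))]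
      refine ENNReal.ofReal_le_ofReal (le_of_eq ?_)
      have h3 : (∏ i, sc j i ^ (1 / 2 : ℝ)) * (∏ i, hh z i ^ (-(1 / 2 : ℝ))) *
          (∏ i, (hh z i / sc j i) ^ (1 / 4 : ℝ)) ^ 2 = 1 := by
        rw [← Finset.prod_pow, ← Finset.prod_mul_distrib, ← Finset.prod_mul_distrib]
        refine Finset.prod_eq_one fun i _ => ?_
        rw [← Real.rpow_natCast, ← Real.rpow_mul (div_pos (hp i) (hs i)).le,
          Real.div_rpow (hp i).le (hs i).le, Real.rpow_neg (hp i).le,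
          show (1 / 4 : ℝ) * (2 : ℕ) = 1 / 2 by norm_num]
        have := Real.rpow_pos_of_pos (hp i) (1 / 2)
        have := Real.rpow_pos_of_pos (hs i) (1 / 2)
        field_simp
      have h4 : Real.exp (-(c / 2 * n * tt γ j)) ^ 2 = Real.exp (-(c * n * tt γ j)) := by
        rw [← Real.exp_nat_mul]; congr 1; push_cast; ring
      simp only [Pi.zero_apply, Real.rpow_zero, Finset.prod_const_one, neg_zero, mul_one, one_mul]
      rw [div_pow, h4, div_eq_iff (pow_pos (hw j) 2).ne']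
      linear_combination (-Real.exp (-(c * n * tt γ j))) * h3
    · simp

theorem int_two_three (hm : 1 ≤ m) (hd : ∀ i, 1 ≤ d i) (hβ : ∀ i, 0 ≤ β i) {lam c : ℝ}
    (hlam0 : 0 ≤ lam) (hlam : lam < kap d β) (hc : 0 < c) (CK Cw : ℝ) :
    ∃ B : ℝ, 0 < B ∧ ∀ n : ℕ, 2 ≤ n →
      (n : ℝ≥0∞) ^ 2 * ∫⁻ z, ∫⁻ x, Kfun (gam d β) c CK n z x * wfun (gam d β) lam Cw n x
          ∂(blockBeta d β) ∂(blockBeta d β) ≤ ENNReal.ofReal (B * order d β n) ∧
      (n : ℝ≥0∞) ^ 3 * ∫⁻ z, (∫⁻ x, Kfun (gam d β) c CK n z x * wfun (gam d β) lam Cw n x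
          ∂(blockBeta d β)) ^ 2 ∂(blockBeta d β) ≤ ENNReal.ofReal (B * order d β n) := by
  have hk := kap_pos hm hd hβ
  obtain ⟨C, hC, h⟩ := ints_inner hm hd hβ le_rfl hk hc
  obtain ⟨C', hC', h'⟩ := ints_inner hm hd hβ hlam0 hlam hc
  obtain ⟨Q, hQ, hq⟩ := ints_sq (d := d) (gam d β) c
  have ha : ∀ i, 1 ≤ alp β i := fun i => by unfold alp; linarith [hβ i]
  obtain ⟨B, hB, h1⟩ := ints_main hm hd hβ (a := 0) (fun _ => le_rfl)
    (fun i => zero_lt_one.trans_le (ha i)) hk (half_pos hc)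
  obtain ⟨B', hB', h2⟩ := ints_main hm hd hβ (a := fun _ => 1 / 2) (fun _ => by norm_num)
    (fun i => by linarith [ha i]) hk hc
  obtain ⟨E, hE⟩ : ∃ E, E = |CK| * |Cw| * (C + C') := ⟨_, rfl⟩
  have hE0 : 0 ≤ E := by rw [hE]; positivity
  have key : ∀ n : ℕ, 2 ≤ n → ∀ z ∈ obody d, (n : ℝ≥0∞) * ∫⁻ x, Kfun (gam d β) c CK n z x *
      wfun (gam d β) lam Cw n x ∂(blockBeta d β) ≤
        ENNReal.ofReal E * intsS (gam d β) 0 0 (c / 2) n z := by
    intro n hn z hz
    refine (mul_le_mul' le_rfl (lintegral_mono_ae ((ints_ae hd hβ).mono fun x hx =>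
      ints_Kw _ lam c CK Cw n z hx))).trans ?_
    have m1 := (ints_measK (gam d β) c n z).fun_mul (ints_measT (gam d β) 0 n)
    rw [lintegral_const_mul' _ _ ENNReal.ofReal_ne_top, lintegral_add_left m1, mul_left_comm,
      mul_add]
    refine (mul_le_mul' le_rfl (add_le_add (h n hn z hz) (h' n hn z hz))).trans_eq ?_
    rw [← add_mul, ← ENNReal.ofReal_add hC.le hC'.le, ← mul_assoc,
      ← ENNReal.ofReal_mul (by positivity), hE]
  refine ⟨E * B + E ^ 2 * Q * B' + 1, by positivity, fun n hn => ⟨?_, ?_⟩⟩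
  · have ho := order_pos d β hn
    rw [sq, mul_assoc, ← lintegral_const_mul' _ _ (ENNReal.natCast_ne_top n)]
    refine (mul_le_mul' le_rfl (lintegral_mono_ae ((ints_ae hd hβ).mono (key n hn)))).trans ?_
    rw [lintegral_const_mul _ (ints_measS _ _ _ _ _), mul_left_comm]
    refine (mul_le_mul' le_rfl (h1 n hn)).trans ?_
    rw [← ENNReal.ofReal_mul hE0]
    refine ENNReal.ofReal_le_ofReal ?_
    have : 0 ≤ E ^ 2 * Q * B' * order d β n := by positivity
    nlinarith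
  · have ho := order_pos d β hn
    rw [pow_succ', mul_assoc,
      ← lintegral_const_mul' _ _ (ENNReal.pow_ne_top (ENNReal.natCast_ne_top n))]
    refine (mul_le_mul' le_rfl (lintegral_mono_ae
      (g := fun z => ENNReal.ofReal (E ^ 2 * Q) * intsS (gam d β) (fun _ => 1 / 2) 0 c n z)
      ((ints_ae hd hβ).mono fun z hz => ?_))).trans ?_
    · rw [← mul_pow, ENNReal.ofReal_mul (by positivity), mul_assoc, ENNReal.ofReal_pow hE0]
      refine (pow_le_pow_left' (key n hn z hz) 2).trans ?_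
      rw [mul_pow]
      exact mul_le_mul' le_rfl (hq n z hz)
    · rw [lintegral_const_mul _ (ints_measS _ _ _ _ _), mul_left_comm]
      refine (mul_le_mul' le_rfl (h2 n hn)).trans ?_
      rw [← ENNReal.ofReal_mul (by positivity)]
      refine ENNReal.ofReal_le_ofReal ?_
      have : 0 ≤ E * B * order d β n := by positivity
      nlinarith

end Pool.Agent.Lib.MP_258d0c_pr
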