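import Pool.Agent.Lib.MP_258d0c_pr.Core

open MeasureTheory ProbabilityTheory
open scoped ENNReal Classical InnerProductSpace

namespace Pool.Agent.Lib.MP_258d0c_pr

open Filter Topology

/-- standard normal density -/
noncomputable def stnP (w : ℝ) : ℝ := gaussianPDFReal 0 1 w

/-- standard normal distribution function -/
noncomputable def stnF (w : ℝ) : ℝ := (gaussianReal 0 1).real (Set.Iic w)

theorem stnP_eq (w : ℝ) : stnP w = (√(2 * Real.pi))⁻¹ * Real.exp (-w ^ 2 / 2) := by
  simp [stnP, gaussianPDFReal]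

theorem stnP_pos (w : ℝ) : 0 < stnP w := gaussianPDFReal_pos 0 1 w one_ne_zero

theorem stnP_neg (w : ℝ) : stnP (-w) = stnP w := by
  rw [stnP_eq, stnP_eq, neg_sq]

theorem stnP_deriv (w : ℝ) : HasDerivAt stnP (-w * stnP w) w := by
  have h : stnP = fun w => (√(2 * Real.pi))⁻¹ * Real.exp (-w ^ 2 / 2) := funext stnP_eq
  have h1 : HasDerivAt (fun w : ℝ => -w ^ 2 / 2) (-w) w := by
    have := ((hasDerivAt_pow 2 w).neg).div_const 2
    refine this.congr_deriv ?_
    simp
    ring
  have h2 := (h1.exp).const_mul (√(2 * Real.pi))⁻¹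
  rw [stnP_eq, h]
  refine h2.congr_deriv ?_
  ring

theorem stnP_cont : Continuous stnP :=
  continuous_iff_continuousAt.2 fun w => (stnP_deriv w).continuousAt

theorem stnP_int : Integrable stnP := integrable_gaussianPDFReal 0 1

theorem stnF_eq (w : ℝ) : stnF w = ∫ x in Set.Iic w, stnP x := by
  rw [stnF, measureReal_def, gaussianReal_apply_eq_integral 0 one_ne_zero,
    ENNReal.toReal_ofReal (integral_nonneg fun x => gaussianPDFReal_nonneg 0 1 x)]
  rfl

theorem stnF_deriv (w : ℝ) : HasDerivAt stnF (stnP w) w := by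
  have h : stnF = fun w => stnF 0 + ∫ x in (0 : ℝ)..w, stnP x := by
    funext w
    rw [← intervalIntegral.integral_Iic_sub_Iic stnP_int.integrableOn stnP_int.integrableOn,
      ← stnF_eq, ← stnF_eq]
    ring
  rw [h]
  exact ((stnP_cont.integral_hasStrictDerivAt 0 w).hasDerivAt).const_add _

theorem stnF_neg (w : ℝ) : stnF (-w) = 1 - stnF w := by
  have h1 := integral_comp_neg_Ioi w stnP
  have h2 := intervalIntegral.integral_Iic_add_Ioi (b := w) stnP_int.integrableOn
    stnP_int.integrableOn
  have h3 : ∫ x, stnP x = 1 := integral_gaussianPDFReal_eq_one 0 one_ne_zero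
  simp only [stnP_neg] at h1
  rw [stnF_eq, stnF_eq, ← h1]
  linarith

theorem stnF_nonneg (w : ℝ) : 0 ≤ stnF w := measureReal_nonneg

theorem stnF_le (w : ℝ) : stnF w ≤ 1 := by
  have := stnF_nonneg (-w)
  rw [stnF_neg] at this
  linarith

theorem stnF_lim : Tendsto stnF atBot (𝓝 0) := by
  have h : stnF = cdf (gaussianReal 0 1) := funext fun w => (cdf_eq_real _ w).symm
  rw [h]
  exact tendsto_cdf_atBot _

theorem stnP_lim : Tendsto stnP atBot (𝓝 0) := by
  have h : stnP = fun w => (√(2 * Real.pi))⁻¹ * Real.exp (-w ^ 2 / 2) := funext stnP_eq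
  have h1 : Tendsto (fun w : ℝ => -w ^ 2 / 2) atBot atBot := by
    refine tendsto_atBot_mono' atBot ?_ tendsto_id
    filter_upwards [eventually_le_atBot (-2 : ℝ)] with w hw
    simp only [id]
    nlinarith
  have h2 := (Real.tendsto_exp_atBot.comp h1).const_mul (√(2 * Real.pi))⁻¹
  rw [h]
  simpa using h2

theorem stn_lower (w : ℝ) : 0 ≤ (1 + w ^ 2) * stnF w + w * stnP w := by
  have hpos : ∀ w : ℝ, 0 < 1 + w ^ 2 := fun w => by positivity
  have hd : ∀ w : ℝ, HasDerivAt (fun w => stnF w + w * stnP w / (1 + w ^ 2))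
      (2 * stnP w / (1 + w ^ 2) ^ 2) w := by
    intro w
    have h1 := (hasDerivAt_id' w).mul (stnP_deriv w)
    have h2 := (hasDerivAt_pow 2 w).const_add 1
    have h3 := (stnF_deriv w).add (h1.div h2 (hpos w).ne')
    refine h3.congr_deriv ?_
    have := (hpos w).ne'
    simp only [Pi.mul_apply, Nat.cast_ofNat, Nat.add_one_sub_one, pow_one]
    field_simp
    ring
  have hm : Monotone fun w => stnF w + w * stnP w / (1 + w ^ 2) := by
    refine monotone_of_deriv_nonneg (fun w => (hd w).differentiableAt) fun w => ?_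
    rw [(hd w).deriv]
    have := stnP_pos w
    positivity
  have hl : Tendsto (fun w => stnF w + w * stnP w / (1 + w ^ 2)) atBot (𝓝 0) := by
    have h2 : Tendsto (fun w => w * stnP w / (1 + w ^ 2)) atBot (𝓝 0) := by
      refine squeeze_zero_norm (fun w => ?_) stnP_lim
      rw [Real.norm_eq_abs, abs_div, abs_mul, abs_of_pos (stnP_pos w), abs_of_pos (hpos w),
        div_le_iff₀ (hpos w), mul_comm]
      refine mul_le_mul_of_nonneg_left ?_ (stnP_pos w).le
      nlinarith [sq_nonneg (|w| - 1), sq_abs w, abs_nonneg w]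
    simpa using stnF_lim.add h2
  have h := hm.le_of_tendsto hl w
  have h' := mul_nonneg (hpos w).le h
  have e : (1 + w ^ 2) * (stnF w + w * stnP w / (1 + w ^ 2)) =
      (1 + w ^ 2) * stnF w + w * stnP w := by
    have := (hpos w).ne'
    field_simp
  rwa [e] at h'

theorem stn_mills (w : ℝ) : 0 ≤ w * stnF w + stnP w := by
  rcases le_or_gt 0 w with hw | hw
  · have := stnF_nonneg w
    have := stnP_pos w
    positivity
  have hd : ∀ v : ℝ, v < 0 → HasDerivAt (fun v => stnF v + stnP v / v)
      (-(stnP v / v ^ 2)) v := by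
    intro v hv
    have h3 := (stnF_deriv v).add ((stnP_deriv v).div (hasDerivAt_id' v) hv.ne)
    refine h3.congr_deriv ?_
    have := hv.ne
    field_simp
    ring
  have hm : AntitoneOn (fun v => stnF v + stnP v / v) (Set.Iio 0) := by
    have hi : ∀ v : ℝ, v ∈ interior (Set.Iio (0 : ℝ)) → v < 0 := fun v hv =>
      Set.mem_Iio.1 (interior_subset hv)
    refine antitoneOn_of_deriv_nonpos (convex_Iio 0)
      (fun v hv => (hd v hv).continuousAt.continuousWithinAt)
      (fun v hv => (hd v (hi v hv)).differentiableAt.differentiableWithinAt)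
      fun v hv => ?_
    rw [(hd v (hi v hv)).deriv, neg_nonpos]
    have := stnP_pos v
    positivity
  have hl : Tendsto (fun v => stnF v + stnP v / v) atBot (𝓝 0) := by
    have h2 := stnP_lim.mul tendsto_inv_atBot_zero
    simpa [div_eq_mul_inv] using stnF_lim.add h2
  have h : stnF w + stnP w / w ≤ 0 := by
    refine ge_of_tendsto hl ?_
    filter_upwards [eventually_le_atBot w] with v hv
    exact hm (lt_of_le_of_lt hv hw) hw hv
  have h' := mul_nonneg_of_nonpos_of_nonpos hw.le h
  have e : w * (stnF w + stnP w / w) = w * stnF w + stnP w := by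
    have := hw.ne
    field_simp
  rwa [e] at h'

/-- Mills ratio -/
noncomputable def stnM (w : ℝ) : ℝ := stnF w / stnP w

theorem stnM_deriv (w : ℝ) : HasDerivAt stnM (w * stnM w + 1) w := by
  have h := (stnF_deriv w).div (stnP_deriv w) (stnP_pos w).ne'
  refine h.congr_deriv ?_
  have := (stnP_pos w).ne'
  rw [stnM]
  field_simp
  ring

theorem stnM_cont : Continuous stnM :=
  continuous_iff_continuousAt.2 fun w => (stnM_deriv w).continuousAt

theorem stnN_mono : Monotone fun w => w * stnM w := by
  have hd : ∀ w : ℝ, HasDerivAt (fun w => w * stnM w)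
      (((1 + w ^ 2) * stnF w + w * stnP w) / stnP w) w := by
    intro w
    have h := (hasDerivAt_id' w).mul (stnM_deriv w)
    refine h.congr_deriv ?_
    have := (stnP_pos w).ne'
    rw [stnM]
    field_simp
    ring
  refine monotone_of_deriv_nonneg (fun w => (hd w).differentiableAt) fun w => ?_
  rw [(hd w).deriv]
  exact div_nonneg (stn_lower w) (stnP_pos w).le

theorem stnN_ge (w : ℝ) : -1 ≤ w * stnM w := by
  have h := stn_mills w
  have hp := stnP_pos w
  rw [stnM, ← mul_div_assoc, le_div_iff₀ hp]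
  linarith

/-- solution of the Stein equation -/
noncomputable def stnS (a w : ℝ) : ℝ := (stnF (min w a) - stnF a * stnF w) / stnP w

theorem stnS_le {a w : ℝ} (h : w ≤ a) : stnS a w = (1 - stnF a) * stnM w := by
  rw [stnS, min_eq_left h, stnM]
  ring

theorem stnS_ge {a w : ℝ} (h : a ≤ w) : stnS a w = stnF a * stnM (-w) := by
  rw [stnS, min_eq_right h, stnM, stnF_neg, stnP_neg]
  ring

theorem stnS_cont (a : ℝ) : Continuous (stnS a) := by
  have hF : Continuous stnF := continuous_iff_continuousAt.2 fun w => (stnF_deriv w).continuousAt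
  exact ((hF.comp (continuous_id.min continuous_const)).sub (continuous_const.mul hF)).div
    stnP_cont fun w => (stnP_pos w).ne'

theorem stnS_mono (a : ℝ) : Monotone fun w => w * stnS a w := by
  have h1 : ∀ u v, u ≤ v → v ≤ a → u * stnS a u ≤ v * stnS a v := by
    intro u v huv hv
    rw [stnS_le (huv.trans hv), stnS_le hv]
    have := mul_le_mul_of_nonneg_left (stnN_mono huv) (sub_nonneg.2 (stnF_le a))
    linarith
  have h2 : ∀ u v, u ≤ v → a ≤ u → u * stnS a u ≤ v * stnS a v := by
    intro u v huv hu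
    rw [stnS_ge hu, stnS_ge (hu.trans huv)]
    have := mul_le_mul_of_nonneg_left (stnN_mono (neg_le_neg huv)) (stnF_nonneg a)
    linarith
  intro u v huv
  rcases le_total v a with hv | hv
  · exact h1 u v huv hv
  rcases le_total a u with hu | hu
  · exact h2 u v huv hu
  exact (h1 u a hu le_rfl).trans (h2 a v hv le_rfl)

theorem stnS_abs (a w : ℝ) : |w * stnS a w| ≤ 1 := by
  have ha := stnF_nonneg a
  have hb := stnF_le a
  rw [abs_le]
  constructor
  · refine le_trans ?_ (stnS_mono a (min_le_left w a))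
    simp only
    rw [stnS_le (min_le_right w a)]
    have := mul_le_mul_of_nonneg_left (stnN_ge (min w a)) (sub_nonneg.2 hb)
    linarith
  · refine le_trans (stnS_mono a (le_max_left w a)) ?_
    simp only
    rw [stnS_ge (le_max_right w a)]
    have := mul_le_mul_of_nonneg_left (stnN_ge (-max w a)) ha
    linarith

theorem stnS_deriv (a w : ℝ) :
    HasDerivAt (fun w => stnS a w - min w a) (w * stnS a w - stnF a) w := by
  refine hasDerivAt_of_hasDerivAt_of_ne' (g := fun w => w * stnS a w - stnF a) (x := a)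
    (fun y hy => ?_) ((stnS_cont a).sub (continuous_id.min continuous_const)).continuousAt
    ((continuous_id.mul (stnS_cont a)).sub continuous_const).continuousAt w
  rcases lt_or_gt_of_ne hy with h | h
  · have h1 := ((stnM_deriv y).const_mul (1 - stnF a)).sub (hasDerivAt_id' y)
    have h2 : (fun w => stnS a w - min w a) =ᶠ[𝓝 y] fun w => (1 - stnF a) * stnM w - w := by
      filter_upwards [Iio_mem_nhds h] with u hu
      rw [stnS_le (le_of_lt hu), min_eq_left (le_of_lt hu)]
    refine (h1.congr_of_eventuallyEq h2).congr_deriv ?_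
    rw [stnS_le h.le]
    ring
  · have h0 : HasDerivAt (fun w => stnM (-w)) ((-y * stnM (-y) + 1) * (-1)) y :=
      (stnM_deriv (-y)).comp y (hasDerivAt_neg y)
    have h1 := (h0.const_mul (stnF a)).sub_const a
    have h2 : (fun w => stnS a w - min w a) =ᶠ[𝓝 y] fun w => stnF a * stnM (-w) - a := by
      filter_upwards [Ioi_mem_nhds h] with u hu
      rw [stnS_ge (le_of_lt hu), min_eq_right (le_of_lt hu)]
    refine (h1.congr_of_eventuallyEq h2).congr_deriv ?_
    rw [stnS_ge h.le]
    ring

theorem stn_taylor {F g : ℝ → ℝ} (hF : ∀ w, HasDerivAt F (g w) w) (hg : Monotone g) (w w' : ℝ) :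
    |F w - F w' - g w * (w - w')| ≤ (w - w') * (g w - g w') := by
  have hc : Continuous F := continuous_iff_continuousAt.2 fun w => (hF w).continuousAt
  rcases lt_trichotomy w w' with h | h | h
  · obtain ⟨c, hc1, hc2⟩ := exists_hasDerivAt_eq_slope F g h hc.continuousOn fun x _ => hF x
    have hp : 0 < w' - w := sub_pos.2 h
    rw [eq_div_iff hp.ne'] at hc2
    have h1 := mul_le_mul_of_nonneg_left (hg hc1.1.le) hp.le
    have h2 := mul_le_mul_of_nonneg_left (hg hc1.2.le) hp.le
    rw [abs_le]
    constructor <;> linarith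
  · simp [h]
  · obtain ⟨c, hc1, hc2⟩ := exists_hasDerivAt_eq_slope F g h hc.continuousOn fun x _ => hF x
    have hp : 0 < w - w' := sub_pos.2 h
    rw [eq_div_iff hp.ne'] at hc2
    have h1 := mul_le_mul_of_nonneg_left (hg hc1.1.le) hp.le
    have h2 := mul_le_mul_of_nonneg_left (hg hc1.2.le) hp.le
    rw [abs_le]
    constructor <;> linarith

theorem stn_min (a w w' : ℝ) :
    |min w a - min w' a - (if w ≤ a then 1 else 0) * (w - w')| ≤
      (w - w') * ((if w' ≤ a then 1 else 0) - (if w ≤ a then 1 else 0)) := by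
  by_cases h : w ≤ a <;> by_cases h' : w' ≤ a
  · simp [h, h']
  · rw [if_pos h, if_neg h', min_eq_left h, min_eq_right (not_le.1 h').le, abs_le]
    constructor <;> linarith
  · rw [if_neg h, if_pos h', min_eq_left h', min_eq_right (not_le.1 h).le, abs_le]
    constructor <;> linarith
  · rw [if_neg h, if_neg h', min_eq_right (not_le.1 h').le, min_eq_right (not_le.1 h).le]
    simp

theorem stein_solution (a : ℝ) : ∃ f f' φ : ℝ → ℝ, Continuous f ∧ Measurable f' ∧ Measurable φ ∧
    (∀ w, |f' w| ≤ 2) ∧ (∀ w, |φ w| ≤ 2) ∧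
    (∀ w, f' w - w * f w = (if w ≤ a then 1 else 0) - (gaussianReal 0 1).real (Set.Iic a)) ∧
    ∀ w w', |f w - f w' - f' w * (w - w')| ≤ (w - w') * (φ w - φ w') := by
  have hm : Measurable fun w => w * stnS a w := (continuous_id.mul (stnS_cont a)).measurable
  have hi : Measurable fun w : ℝ => if w ≤ a then (1 : ℝ) else 0 :=
    Measurable.ite measurableSet_Iic measurable_const measurable_const
  have ha := stnF_nonneg a
  have hb := stnF_le a
  refine ⟨stnS a, fun w => w * stnS a w + (if w ≤ a then 1 else 0) - stnF a,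
    fun w => w * stnS a w - (if w ≤ a then 1 else 0), stnS_cont a,
    (hm.add hi).sub measurable_const, hm.sub hi, fun w => ?_, fun w => ?_, fun w => ?_,
    fun w w' => ?_⟩
  · have h := abs_le.1 (stnS_abs a w)
    rw [abs_le]
    beta_reduce
    split_ifs <;> constructor <;> linarith
  · have h := abs_le.1 (stnS_abs a w)
    rw [abs_le]
    beta_reduce
    split_ifs <;> constructor <;> linarith
  · simp only [stnF]
    ring
  · have h1 := stn_taylor (stnS_deriv a) (fun u v h => sub_le_sub_right (stnS_mono a h) _) w w'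
    have h2 := stn_min a w w'
    rw [abs_le] at h1 h2 ⊢
    constructor <;> linarith [h1.1, h1.2, h2.1, h2.2]

end Pool.Agent.Lib.MP_258d0c_pr
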