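import Pool.Agent.Lib.MP_258d0c_pr.Cov
import Pool.Agent.Lib.MP_258d0c_pr.Stein

open MeasureTheory ProbabilityTheory
open scoped ENNReal Classical InnerProductSpace

namespace Pool.Agent.Lib.MP_258d0c_pr

variable {E : Type} [MeasurableSpace E]

theorem kolm_abs_le_sqrt_var {Ω : Type} [MeasurableSpace Ω] (P : Measure Ω)
    [IsProbabilityMeasure P] {Y : Ω → ℝ} (hY : CovBM Y) :
    ∫ x, |Y x - ∫ y, Y y ∂P| ∂P ≤ √(Var[Y; P]) := by
  have hZ : CovBM fun x => |Y x - ∫ y, Y y ∂P| := (hY.sub (CovBM.const _)).abs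
  have h1 := variance_nonneg (fun x => |Y x - ∫ y, Y y ∂P|) P
  rw [variance_eq_sub (hZ.memLp P)] at h1
  refine Real.le_sqrt_of_sq_le ?_
  rw [variance_eq_integral hY.1.aemeasurable]
  have h2 : ∫ x, ((fun x => |Y x - ∫ y, Y y ∂P|) ^ 2) x ∂P = ∫ x, (Y x - ∫ y, Y y ∂P) ^ 2 ∂P :=
    integral_congr_ae (ae_of_all _ fun x => by simp)
  linarith

theorem kolm_mul_le {Ω : Type} [MeasurableSpace Ω] (P : Measure Ω)
    [IsProbabilityMeasure P] {Y h : Ω → ℝ} (hY : CovBM Y) (hb : ∀ x, |h x| ≤ 2) :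
    |∫ x, h x * (Y x - ∫ y, Y y ∂P) ∂P| ≤ 2 * √(Var[Y; P]) := by
  have hZ : CovBM fun x => |Y x - ∫ y, Y y ∂P| := (hY.sub (CovBM.const _)).abs
  calc |∫ x, h x * (Y x - ∫ y, Y y ∂P) ∂P| ≤ ∫ x, 2 * |Y x - ∫ y, Y y ∂P| ∂P := by
        rw [← Real.norm_eq_abs]
        refine norm_integral_le_of_norm_le ((hZ.integrable P).const_mul 2)
          (ae_of_all _ fun x => ?_)
        rw [Real.norm_eq_abs, abs_mul]
        exact mul_le_mul_of_nonneg_right (hb x) (abs_nonneg _)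
    _ ≤ 2 * √(Var[Y; P]) := by
        rw [integral_const_mul]
        exact mul_le_mul_of_nonneg_left (kolm_abs_le_sqrt_var P hY) (by norm_num)

theorem kolm_bm_cont {Ω : Type} [MeasurableSpace Ω] {W : Ω → ℝ} (hW : CovBM W) {f : ℝ → ℝ}
    (hf : Continuous f) : CovBM fun x => f (W x) := by
  obtain ⟨hm, C, hC⟩ := hW
  obtain ⟨K, hK⟩ := (isCompact_Icc (a := -C) (b := C)).exists_bound_of_continuousOn
    hf.continuousOn
  exact ⟨hf.measurable.comp hm, K, fun x => hK _ (abs_le.1 (hC x))⟩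

/-- odd functionals have mean zero under the swap -/
theorem kolm_swap (μ : Measure E) [IsProbabilityMeasure μ] {n : ℕ} (g h : (Fin n → E) → ℝ)
    (j : Fin n) :
    ∫ U, h (mix {j} U) * (dA g j U * |dB g j U|) ∂(iid (Fin n ⊕ Fin n) μ) =
      -∫ U, h (mix ∅ U) * (dA g j U * |dB g j U|) ∂(iid (Fin n ⊕ Fin n) μ) := by
  have s := integral_swap μ j fun a b c d => h a * ((g a - g b) * |g c - g d|)
  simp only [dA, dB]
  rw [s, ← integral_neg]
  refine integral_congr_ae (ae_of_all _ fun U => ?_)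
  simp only
  rw [abs_sub_comm (g (mix (Finset.Iic j) U))]
  ring

theorem kolmogorov_le (μ : Measure E) [IsProbabilityMeasure μ] {n : ℕ} (g : (Fin n → E) → ℝ)
    (hg : Measurable g) (M : ℝ) (hb : ∀ X, |g X| ≤ M) (hσ : 0 < Var[g; iid (Fin n) μ]) (t : ℝ) :
    |(iid (Fin n) μ).real
        {X | (g X - ∫ Y, g Y ∂(iid (Fin n) μ)) / √(Var[g; iid (Fin n) μ]) ≤ t} -
      (gaussianReal 0 1).real (Set.Iic t)| ≤
    (√(Var[sumT (fun a b => a * b) g; iid (Fin n ⊕ Fin n) μ]) +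
      2 * √(Var[sumT (fun a b => a * |b|) g; iid (Fin n ⊕ Fin n) μ])) /
        Var[g; iid (Fin n) μ] := by
  obtain ⟨f, f', φ, hfc, hf'm, hφm, hf'b, hφb, hst, htay⟩ := stein_solution t
  have hG : CovBM g := ⟨hg, M, hb⟩
  have hvar := cov_var_eq μ hG
  set v : ℝ := Var[g; iid (Fin n) μ] with hv
  set m : ℝ := ∫ Y, g Y ∂(iid (Fin n) μ) with hm
  set s : ℝ := √v with hs
  have hs0 : 0 < s := Real.sqrt_pos.2 hσ
  have hss : s * s = v := Real.mul_self_sqrt hσ.le
  set Φ : ℝ := (gaussianReal 0 1).real (Set.Iic t) with hΦ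
  let W : (Fin n → E) → ℝ := fun X => (g X - m) / s
  have hW : CovBM W := (hG.sub (CovBM.const m)).div s
  have hfW : CovBM fun X => f (W X) := kolm_bm_cont hW hfc
  have hf'W : CovBM fun X => f' (W X) := ⟨hf'm.comp hW.1, 2, fun X => hf'b _⟩
  have hφW : CovBM fun X => φ (W X) := ⟨hφm.comp hW.1, 2, fun X => hφb _⟩
  let T : (Fin n ⊕ Fin n → E) → ℝ := sumT (fun a b => a * b) g
  let T' : (Fin n ⊕ Fin n → E) → ℝ := sumT (fun a b => a * |b|) g
  have hAB : ∀ j, CovBM fun U => dA g j U * dB g j U := fun j => (hG.dA j).mul (hG.dB j)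
  have hAB' : ∀ j, CovBM fun U => dA g j U * |dB g j U| := fun j => (hG.dA j).mul (hG.dB j).abs
  have hT : CovBM T := CovBM.sum Finset.univ hAB
  have hT' : CovBM T' := CovBM.sum Finset.univ hAB'
  have hET : ∫ U, T U ∂(iid (Fin n ⊕ Fin n) μ) = 2 * v := by
    rw [hvar, ← integral_finsetSum _ fun j _ => (hAB j).integrable _, ← mul_assoc]
    norm_num
    rfl
  have hET' : ∫ U, T' U ∂(iid (Fin n ⊕ Fin n) μ) = 0 := by
    have : ∫ U, T' U ∂(iid (Fin n ⊕ Fin n) μ) =
        ∑ j, ∫ U, dA g j U * |dB g j U| ∂(iid (Fin n ⊕ Fin n) μ) :=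
      integral_finsetSum _ fun j _ => (hAB' j).integrable _
    rw [this]
    refine Finset.sum_eq_zero fun j _ => ?_
    have := kolm_swap μ g (fun _ => 1) j
    simp only [one_mul] at this
    linarith
  -- step 1: the Stein equation
  have h1 : (iid (Fin n) μ).real {X | (g X - m) / s ≤ t} - Φ =
      ∫ X, f' (W X) ∂(iid (Fin n) μ) - ∫ X, W X * f (W X) ∂(iid (Fin n) μ) := by
    have hS : MeasurableSet {X | W X ≤ t} := measurableSet_le hW.1 measurable_const
    rw [← integral_sub (hf'W.integrable _) ((hW.mul hfW).integrable _)]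
    have : ∀ X, f' (W X) - W X * f (W X) =
        Set.indicator {X | W X ≤ t} (fun _ => (1 : ℝ)) X - Φ := by
      intro X
      rw [hst]
      by_cases hX : W X ≤ t
      · simp [hX]
      · simp [hX]
    simp only [this]
    rw [integral_sub ((integrable_const _).indicator hS) (integrable_const _),
      integral_indicator hS]
    simp [W]
  -- step 2: the covariance identity
  have h2 : ∫ X, W X * f (W X) ∂(iid (Fin n) μ) =
      (1 / (2 * s)) * ∑ j, ∫ U, dA (fun X => f (W X)) j U * dB g j U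
        ∂(iid (Fin n ⊕ Fin n) μ) := by
    have hc := cov_identity' μ hfW hG
    have : ∫ X, W X * f (W X) ∂(iid (Fin n) μ) =
        (1 / s) * (∫ X, f (W X) * g X ∂(iid (Fin n) μ) -
          (∫ X, f (W X) ∂(iid (Fin n) μ)) * m) := by
      rw [← integral_mul_const, ← integral_sub ((hfW.mul hG).integrable _)
        ((hfW.mul (CovBM.const m)).integrable _), ← integral_const_mul]
      refine integral_congr_ae (ae_of_all _ fun X => ?_)
      simp only [W]
      ring
    rw [this, hc]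
    ring
  -- step 3: Taylor expansion
  let r : Fin n → (Fin n ⊕ Fin n → E) → ℝ := fun j U =>
    dA (fun X => f (W X)) j U * dB g j U - f' (W (mix ∅ U)) * (dA g j U * dB g j U) / s
  have hr : ∀ j, CovBM (r j) := fun j =>
    ((hfW.dA j).mul (hG.dB j)).sub (((hf'W.mix ∅).mul (hAB j)).div s)
  have hrb : ∀ j U, |r j U| ≤ (φ (W (mix ∅ U)) * (dA g j U * |dB g j U|) -
      φ (W (mix {j} U)) * (dA g j U * |dB g j U|)) / s := by
    intro j U
    have hw : W (mix ∅ U) - W (mix {j} U) = dA g j U / s := by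
      simp only [W, dA]
      ring
    have ht := htay (W (mix ∅ U)) (W (mix {j} U))
    rw [hw] at ht
    have e : r j U = (f (W (mix ∅ U)) - f (W (mix {j} U)) -
        f' (W (mix ∅ U)) * (dA g j U / s)) * dB g j U := by
      simp only [r]
      rw [show dA (fun X => f (W X)) j U = f (W (mix ∅ U)) - f (W (mix {j} U)) from rfl]
      ring
    rw [e, abs_mul]
    refine (mul_le_mul_of_nonneg_right ht (abs_nonneg _)).trans (le_of_eq ?_)
    ring
  have h3 : ∑ j, ∫ U, dA (fun X => f (W X)) j U * dB g j U ∂(iid (Fin n ⊕ Fin n) μ) =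
      (∫ U, f' (W (mix ∅ U)) * T U ∂(iid (Fin n ⊕ Fin n) μ)) / s +
        ∑ j, ∫ U, r j U ∂(iid (Fin n ⊕ Fin n) μ) := by
    have a1 : ∫ U, f' (W (mix ∅ U)) * T U ∂(iid (Fin n ⊕ Fin n) μ) =
        ∑ j, ∫ U, f' (W (mix ∅ U)) * (dA g j U * dB g j U) ∂(iid (Fin n ⊕ Fin n) μ) := by
      rw [← integral_finsetSum _ fun j _ => ((hf'W.mix ∅).mul (hAB j)).integrable _]
      refine integral_congr_ae (ae_of_all _ fun U => ?_)
      simp only [T, sumT, Finset.mul_sum]
    rw [a1, Finset.sum_div, ← Finset.sum_add_distrib]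
    refine Finset.sum_congr rfl fun j _ => ?_
    rw [← integral_div, ← integral_add ((((hf'W.mix ∅).mul (hAB j)).div s).integrable _)
      ((hr j).integrable _)]
    refine integral_congr_ae (ae_of_all _ fun U => ?_)
    simp only [r]
    ring
  have h4 : |∑ j, ∫ U, r j U ∂(iid (Fin n ⊕ Fin n) μ)| ≤
      2 * (2 * √(Var[T'; iid (Fin n ⊕ Fin n) μ])) / s := by
    have b1 : ∀ j, |∫ U, r j U ∂(iid (Fin n ⊕ Fin n) μ)| ≤
        2 * (∫ U, φ (W (mix ∅ U)) * (dA g j U * |dB g j U|) ∂(iid (Fin n ⊕ Fin n) μ)) / s := by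
      intro j
      have i1 := ((hφW.mix ∅).mul (hAB' j)).integrable (iid (Fin n ⊕ Fin n) μ)
      have i2 := ((hφW.mix {j}).mul (hAB' j)).integrable (iid (Fin n ⊕ Fin n) μ)
      rw [← Real.norm_eq_abs]
      refine (norm_integral_le_of_norm_le ((i1.sub i2).div_const s)
        (ae_of_all _ fun U => hrb j U)).trans (le_of_eq ?_)
      rw [integral_div]
      congr 1
      simp only [Pi.sub_apply]
      rw [integral_sub i1 i2, kolm_swap μ g (fun X => φ (W X)) j]
      ring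
    refine (Finset.abs_sum_le_sum_abs _ _).trans ((Finset.sum_le_sum fun j _ => b1 j).trans ?_)
    rw [← Finset.sum_div, ← Finset.mul_sum,
      ← integral_finsetSum _ fun j _ => ((hφW.mix ∅).mul (hAB' j)).integrable _]
    have b2 := kolm_mul_le (iid (Fin n ⊕ Fin n) μ) (h := fun U => φ (W (mix ∅ U))) hT'
      fun U => hφb _
    rw [hET'] at b2
    have b3 : ∫ U, ∑ j, φ (W (mix ∅ U)) * (dA g j U * |dB g j U|) ∂(iid (Fin n ⊕ Fin n) μ) =
        ∫ U, φ (W (mix ∅ U)) * (T' U - 0) ∂(iid (Fin n ⊕ Fin n) μ) := by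
      refine integral_congr_ae (ae_of_all _ fun U => ?_)
      simp only [T', sumT, Finset.mul_sum, sub_zero]
    rw [b3]
    gcongr
    exact (le_abs_self _).trans b2
  have h5 : |∫ U, f' (W (mix ∅ U)) * T U ∂(iid (Fin n ⊕ Fin n) μ) -
      2 * v * ∫ X, f' (W X) ∂(iid (Fin n) μ)| ≤ 2 * √(Var[T; iid (Fin n ⊕ Fin n) μ]) := by
    have b2 := kolm_mul_le (iid (Fin n ⊕ Fin n) μ) (h := fun U => f' (W (mix ∅ U))) hT
      fun U => hf'b _
    rw [hET] at b2
    refine le_trans (le_of_eq ?_) b2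
    congr 1
    rw [← cov_integral_comp (measurePreserving_mix μ ∅) hf'W.1, ← integral_const_mul,
      ← integral_sub (((hf'W.mix ∅).mul hT).integrable _)
        (((CovBM.const (2 * v)).mul (hf'W.mix ∅)).integrable _)]
    refine integral_congr_ae (ae_of_all _ fun U => ?_)
    ring
  rw [h1, h2, h3]
  change _ ≤ (√(Var[T; iid (Fin n ⊕ Fin n) μ]) + 2 * √(Var[T'; iid (Fin n ⊕ Fin n) μ])) / v
  generalize √(Var[T; iid (Fin n ⊕ Fin n) μ]) = a at h5 ⊢
  generalize √(Var[T'; iid (Fin n ⊕ Fin n) μ]) = b at h4 ⊢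
  generalize ∫ U, f' (W (mix ∅ U)) * T U ∂(iid (Fin n ⊕ Fin n) μ) = A at h5 ⊢
  generalize ∑ j, ∫ U, r j U ∂(iid (Fin n ⊕ Fin n) μ) = R at h4 ⊢
  generalize ∫ X, f' (W X) ∂(iid (Fin n) μ) = B at h5 ⊢
  have e : B - 1 / (2 * s) * (A / s + R) = -(A - 2 * v * B + s * R) / (2 * v) := by
    rw [← hss]
    field_simp
    ring
  have h4' : |s * R| ≤ 4 * b := by
    rw [abs_mul, abs_of_pos hs0]
    have := mul_le_mul_of_nonneg_left h4 hs0.le
    rw [mul_div_cancel₀ _ hs0.ne'] at this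
    linarith
  have h6 := abs_add_le (A - 2 * v * B) (s * R)
  rw [e, abs_div, abs_neg, abs_of_pos (by positivity : 0 < 2 * v), div_le_div_iff₀ (by positivity) hσ]
  nlinarith

end Pool.Agent.Lib.MP_258d0c_pr
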