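import Pool.Agent.Lib.MP_258d0c_pr.Core

open MeasureTheory ProbabilityTheory
open scoped ENNReal Classical InnerProductSpace

namespace Pool.Agent.Lib.MP_258d0c_pr

open Metric Filter Topology

variable {V : Type} [NormedAddCommGroup V] [NormedSpace ℝ V]

theorem Good.mono {D : ℕ} {y : Fin (D + 1) → V} {x0 x1 : V} {F F' : Set V} (h : Good y x0 x1 F)
    (hF : F' ⊆ F) : Good y x0 x1 F' := by
  refine ⟨h.inside, fun l c hl h1 h2 v hv => h.kill l c hl h1 h2 v (hv.imp_left (hF ·)),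
    fun k hk => ?_⟩
  obtain ⟨l, c, h1, h2, h3, h4⟩ := h.born k hk
  exact ⟨l, c, h1, h2, h3, fun v hv => h4 v (hv.imp_left (hF ·))⟩

theorem Good.map {D : ℕ} {y : Fin (D + 1) → V} {x0 x1 : V} {F : Set V} (h : Good y x0 x1 F)
    (L : V ≃L[ℝ] V) (c0 : V) :
    Good (fun k => c0 + L (y k)) (c0 + L x0) (c0 + L x1) ((fun u => c0 + L u) '' F) := by
  have hne : ∀ l : V →L[ℝ] ℝ, l ≠ 0 → l.comp (L : V →L[ℝ] V) ≠ 0 := fun l hl h0 => hl (by
    ext v
    simpa using congrArg (fun f : V →L[ℝ] ℝ => f (L.symm v)) h0)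
  have hv' : ∀ v, v ∈ (fun u => c0 + L u) '' F ∨ v = c0 + L (y 0) →
      ∃ u, (u ∈ F ∨ u = y 0) ∧ v = c0 + L u := by
    rintro v (⟨u, hu, rfl⟩ | rfl)
    · exact ⟨u, Or.inl hu, rfl⟩
    · exact ⟨_, Or.inr rfl, rfl⟩
  refine ⟨fun l c hl h1 => ?_, fun l c hl h1 h2 v hv => ?_, fun k hk => ?_⟩
  · have := h.inside _ (c - l c0) (hne l hl) fun k => by
      have := h1 k
      rw [map_add] at this
      simpa using le_sub_iff_add_le'.2 this
    rw [map_add]
    exact lt_sub_iff_add_lt'.1 this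
  · obtain ⟨u, hu, rfl⟩ := hv' v hv
    rw [map_add] at h2 ⊢
    refine lt_sub_iff_add_lt'.1 (h.kill _ (c - l c0) (hne l hl) (fun k hk => ?_)
      (sub_le_iff_le_add'.2 h2) u hu)
    have := h1 k hk
    rw [map_add] at this
    exact le_sub_iff_add_le'.2 this
  · obtain ⟨l, c, h1, h2, h3, h4⟩ := h.born k hk
    have e : ∀ u, l.comp (L.symm : V →L[ℝ] V) (c0 + L u) = l (L.symm c0) + l u := fun u => by simp
    refine ⟨l.comp (L.symm : V →L[ℝ] V), l (L.symm c0) + c, by rw [e, h1],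
      fun k' a b => by rw [e, h2 k' a b], by rw [e]; linarith, fun v hv => ?_⟩
    obtain ⟨u, hu, rfl⟩ := hv' v hv
    rw [e]
    linarith [h4 u hu]

/-- linear combinations of a family -/
noncomputable def locL {D : ℕ} (w : Fin D → V) : (Fin D → ℝ) →L[ℝ] V :=
  ∑ k, ContinuousLinearMap.smulRightL ℝ (Fin D → ℝ) V (ContinuousLinearMap.proj k) (w k)

theorem loc_apply {D : ℕ} (w : Fin D → V) (μ : Fin D → ℝ) : locL w μ = ∑ k, μ k • w k := by
  simp [locL]

theorem loc_cont {D : ℕ} : Continuous (locL : (Fin D → V) → _) := by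
  unfold locL
  fun_prop

theorem loc_expand {D : ℕ} {u : Fin D → V} {x : V} (h : (locL fun k => u k - x).IsInvertible)
    (l : V →L[ℝ] ℝ) (c : ℝ) (v : V) :
    l v - c = (1 - ∑ k, (locL fun k => u k - x).inverse (v - x) k) * (l x - c) +
      ∑ k, (locL fun k => u k - x).inverse (v - x) k * (l (u k) - c) := by
  have h1 := congrArg l (h.self_apply_inverse (v - x))
  generalize (locL fun k => u k - x).inverse (v - x) = μ at *
  rw [loc_apply, map_sum, map_sub] at h1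
  simp only [map_smul, map_sub, smul_eq_mul] at h1
  have h2 : ∑ k, μ k * (l (u k) - c) = ∑ k, μ k * (l (u k) - l x) + (∑ k, μ k) * (l x - c) := by
    rw [Finset.sum_mul, ← Finset.sum_add_distrib]
    exact Finset.sum_congr rfl fun k _ => by ring
  rw [h2, h1]
  ring

theorem loc_lt {D : ℕ} {u : Fin D → V} {x : V} (h : (locL fun k => u k - x).IsInvertible)
    {l : V →L[ℝ] ℝ} (hl : l ≠ 0) {c : ℝ} (hu : ∀ k, l (u k) ≤ c) {v : V}
    (hp : ∀ k, 0 < (locL fun k => u k - x).inverse (v - x) k)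
    (hs : (1 < ∑ k, (locL fun k => u k - x).inverse (v - x) k ∧ c ≤ l x) ∨
      (∑ k, (locL fun k => u k - x).inverse (v - x) k < 1 ∧ l x ≤ c)) : l v < c := by
  have h1 := loc_expand h l c v
  generalize (locL fun k => u k - x).inverse (v - x) = μ at *
  have h2 : ∀ k ∈ Finset.univ, μ k * (l (u k) - c) ≤ 0 := fun k _ =>
    mul_nonpos_of_nonneg_of_nonpos (hp k).le (sub_nonpos.2 (hu k))
  have h3 := Finset.sum_nonpos h2
  have h4 : (1 - ∑ k, μ k) * (l x - c) ≤ 0 := by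
    rcases hs with ⟨a, b⟩ | ⟨a, b⟩ <;> nlinarith
  by_contra hc
  have h5 : ∑ k, μ k * (l (u k) - c) = 0 := by linarith
  have h6 : l x - c = 0 := (mul_eq_zero.1 (show (1 - ∑ k, μ k) * (l x - c) = 0 by
    linarith)).resolve_left (by rcases hs with ⟨a, b⟩ | ⟨a, b⟩ <;> linarith [a.ne, a] )
  apply hl
  ext z
  obtain ⟨ν, rfl⟩ := h.surjective z
  rw [loc_apply, map_sum]
  refine Finset.sum_eq_zero fun k hk => ?_
  have h7 := (mul_eq_zero.1 ((Finset.sum_eq_zero_iff_of_nonpos h2).1 h5 k hk)).resolve_left (hp k).ne'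
  rw [map_smul, map_sub, show l (u k) - l x = 0 by linarith, smul_zero]

theorem loc_good {D : ℕ} {y : Fin (D + 1) → V} {x0 x1 : V} {F : Set V}
    (hA : (locL fun k : Fin D => y k.succ - x1).IsInvertible)
    (hB : (locL fun k : Fin D => y k.succ - y 0).IsInvertible)
    (h1 : ∀ v, v ∈ F ∨ v = y 0 →
      (∀ k, 0 < (locL fun k : Fin D => y k.succ - x1).inverse (v - x1) k) ∧
        1 < ∑ k, (locL fun k : Fin D => y k.succ - x1).inverse (v - x1) k)
    (h2 : ∀ k, 0 < (locL fun k : Fin D => y k.succ - y 0).inverse (x0 - y 0) k)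
    (h3 : ∑ k, (locL fun k : Fin D => y k.succ - y 0).inverse (x0 - y 0) k < 1) :
    Good y x0 x1 F := by
  refine ⟨fun l c hl h => loc_lt hB hl (fun k => h _) h2 (Or.inr ⟨h3, h 0⟩),
    fun l c hl h hc v hv => loc_lt hA hl (fun k => h _ k.succ_ne_zero) (h1 v hv).1
      (Or.inl ⟨(h1 v hv).2, hc⟩), fun k hk => ?_⟩
  obtain ⟨k, rfl⟩ := Fin.exists_succ_eq.2 hk
  set A := locL fun k : Fin D => y k.succ - x1 with hAdef
  have e : ∀ j : Fin D, A.inverse (y j.succ - x1) = Pi.single j 1 := fun j => by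
    rw [hA.inverse_apply_eq, hAdef, loc_apply]
    simp [Pi.single_apply]
  have e2 : ∀ v, -A.inverse v k = -A.inverse x1 k - A.inverse (v - x1) k := fun v => by
    rw [map_sub, Pi.sub_apply]; ring
  refine ⟨-(ContinuousLinearMap.proj k).comp A.inverse, -A.inverse x1 k, rfl,
    fun k' a b => ?_, ?_, fun v hv => ?_⟩
  · obtain ⟨k', rfl⟩ := Fin.exists_succ_eq.2 a
    have : k ≠ k' := fun h => b (by rw [h])
    change -A.inverse _ k = _
    rw [e2, e, Pi.single_eq_of_ne this, sub_zero]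
  · change -A.inverse _ k < _
    rw [e2, e, Pi.single_eq_same]
    linarith
  · change -A.inverse _ k < _
    rw [e2]
    linarith [(h1 v hv).1 k]

theorem loc_basis [FiniteDimensional ℝ V] {D : ℕ} (hD : Module.finrank ℝ V = D)
    (T : V →L[ℝ] ℝ) (hT : T ≠ 0) : 0 < D ∧ ∃ b : Module.Basis (Fin D) ℝ V, ∀ k, T (b k) = 1 := by
  let b0 := Module.finBasisOfFinrankEq ℝ V hD
  obtain ⟨i, hi⟩ : ∃ i, T (b0 i) ≠ 0 := by
    by_contra! h
    exact hT (ContinuousLinearMap.coe_injective (b0.ext fun i => by simpa using h i))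
  let σ : V →ₗ[ℝ] ℝ := b0.sumCoords
  let S : V →ₗ[ℝ] V := LinearMap.id + (σ - (T : V →ₗ[ℝ] ℝ)).smulRight ((T (b0 i))⁻¹ • b0 i)
  have hS : ∀ x, S x = x + (σ x - T x) • (T (b0 i))⁻¹ • b0 i := fun x => rfl
  have h1 : ∀ x, T (S x) = σ x := fun x => by
    rw [hS, map_add, map_smul, map_smul, smul_eq_mul, smul_eq_mul, inv_mul_cancel₀ hi]
    ring
  have h2 : Function.Injective S := by
    rw [injective_iff_map_eq_zero]
    intro x hx
    have h3 : σ x = 0 := by rw [← h1, hx, map_zero]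
    have h4 := congrArg σ (hS x)
    rw [hx, map_zero, map_add, map_smul, map_smul, h3, show σ (b0 i) = 1 by simp [σ]] at h4
    have h5 : T x = 0 := by simpa [hi] using h4
    simpa [hS, h3, h5] using hx
  exact ⟨i.pos, b0.map (LinearEquiv.ofInjectiveEndo S h2), fun k => by
    simp [h1, σ]⟩

theorem loc_base [FiniteDimensional ℝ V] {D : ℕ} (hD : 0 < D) (b : Module.Basis (Fin D) ℝ V)
    {T : V →L[ℝ] ℝ} (hb : ∀ k, T (b k) = 1) {ρ ε : ℝ} (hρ : ρ ≠ 0) (hε : ε ≠ 0) {τ : V}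
    (hτ : τ = (D : ℝ)⁻¹ • ∑ k, b k) {w : Fin D → V} (hw : ∀ k, w k = ρ • (b k - τ) + ε • τ) :
    (locL w).IsInvertible ∧ ∀ v, (∀ k, (locL w).inverse v k =
      b.repr v k / ρ + (ρ - ε) * T v / (ε * ρ * D)) ∧ ∑ k, (locL w).inverse v k = T v / ε := by
  have hD' : (D : ℝ) ≠ 0 := by positivity
  have hs : ∀ v, ∑ k, b.repr v k = T v := fun v => by
    conv_rhs => rw [← b.sum_repr v, map_sum]
    simp [hb]
  have hs2 : ∀ v, ∑ k, (b.repr v k / ρ + (ρ - ε) * T v / (ε * ρ * D)) = T v / ε := fun v => by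
    rw [Finset.sum_add_distrib, ← Finset.sum_div, hs, Finset.sum_const, Finset.card_fin,
      nsmul_eq_mul]
    field_simp
    ring
  have h1 : ∀ v, locL w (fun k => b.repr v k / ρ + (ρ - ε) * T v / (ε * ρ * D)) = v := fun v => by
    have e : ∀ k, w k = ρ • b k + (ε - ρ) • τ := fun k => by rw [hw]; module
    rw [loc_apply]
    simp only [e, smul_add]
    rw [Finset.sum_add_distrib, ← Finset.sum_smul, hs2, hτ, smul_smul, smul_smul, Finset.smul_sum,
      ← Finset.sum_add_distrib]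
    conv_rhs => rw [← b.sum_repr v]
    refine Finset.sum_congr rfl fun k _ => ?_
    rw [smul_smul, ← add_smul]
    congr 1
    field_simp
    ring
  have hsurj : Function.Surjective ((locL w : (Fin D → ℝ) →L[ℝ] V) : (Fin D → ℝ) →ₗ[ℝ] V) :=
    fun v => ⟨_, h1 v⟩
  have hinj := (LinearMap.injective_iff_surjective_of_finrank_eq_finrank
    (by simp [Module.finrank_eq_card_basis b])).2 hsurj
  have hI : (locL w).IsInvertible :=
    ⟨(LinearEquiv.ofBijective _ ⟨hinj, hsurj⟩).toContinuousLinearEquiv, by ext; rfl⟩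
  refine ⟨hI, fun v => ?_⟩
  rw [hI.inverse_apply_eq.2 (h1 v).symm]
  exact ⟨fun _ => rfl, hs2 v⟩

theorem loc_near [FiniteDimensional ℝ V] {D : ℕ} {X : Type} [TopologicalSpace X]
    {w : X → Fin D → V} (hw : Continuous w) {x : X} (h : (locL (w x)).IsInvertible) :
    (∀ᶠ x' in 𝓝 x, (locL (w x')).IsInvertible) ∧
      ContinuousAt (fun x' => (locL (w x')).inverse) x := by
  have h1 := (loc_cont.comp hw).continuousAt (x := x)
  exact ⟨h1.eventually (ContinuousLinearEquiv.isOpen.mem_nhds h),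
    ContinuousAt.comp (f := fun x' => locL (w x'))
      (h.contDiffAt_map_inverse (n := 0)).continuousAt h1⟩

theorem loc_disj {x y : V} (h : x ≠ y) : ∀ᶠ δ in 𝓝[>] (0 : ℝ), Disjoint (ball x δ) (ball y δ) := by
  filter_upwards [Ioo_mem_nhdsGT (half_pos (dist_pos.2 h))] with δ hδ
  exact ball_disjoint_ball (by linarith [hδ.2])

theorem loc_sub {x o : V} {r : ℝ} (h : ‖x - o‖ < r) : ∀ᶠ δ in 𝓝[>] (0 : ℝ), ball x δ ⊆ ball o r := by
  filter_upwards [Ioo_mem_nhdsGT (sub_pos.2 h)] with δ hδ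
  exact ball_subset_ball' (by rw [dist_eq_norm]; linarith [hδ.2])

theorem loc_open [FiniteDimensional ℝ V] {D : ℕ} {p : Fin (D + 1) → V} {q0 q1 o : V} {K : Set V}
    (hK : IsCompact K) {η : ℝ}
    (hA : (locL fun k : Fin D => p k.succ - q1).IsInvertible)
    (hB : (locL fun k : Fin D => p k.succ - p 0).IsInvertible)
    (h0 : ∀ k, 0 < (locL fun k : Fin D => p k.succ - q1).inverse (o - q1) k)
    (h1 : (∀ k, 0 < (locL fun k : Fin D => p k.succ - q1).inverse (p 0 - q1) k) ∧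
        1 < ∑ k, (locL fun k : Fin D => p k.succ - q1).inverse (p 0 - q1) k)
    (hz : ∀ z ∈ K, (∀ k, 0 < (locL fun k : Fin D => p k.succ - q1).inverse z k) ∧
        1 < ∑ k, (locL fun k : Fin D => p k.succ - q1).inverse (η • z + (o - q1)) k)
    (h2 : ∀ k, 0 < (locL fun k : Fin D => p k.succ - p 0).inverse (q0 - p 0) k)
    (h3 : ∑ k, (locL fun k : Fin D => p k.succ - p 0).inverse (q0 - p 0) k < 1) :
    ∀ᶠ P in 𝓝 (p, q0, q1), Good P.1 P.2.1 P.2.2 {v | ∃ t, η ≤ t ∧ 0 ≤ t ∧ ∃ z ∈ K, v = o + t • z} := by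
  obtain ⟨a1, a2⟩ := loc_near (X := (Fin (D + 1) → V) × V × V)
    (w := fun P k => P.1 k.succ - P.2.2) (by fun_prop) (x := (p, q0, q1)) hA
  obtain ⟨b1, b2⟩ := loc_near (X := (Fin (D + 1) → V) × V × V)
    (w := fun P k => P.1 k.succ - P.1 0) (by fun_prop) (x := (p, q0, q1)) hB
  have a3 : ∀ z : V, ContinuousAt (fun Q : ((Fin (D + 1) → V) × V × V) × V =>
      (locL fun k : Fin D => Q.1.1 k.succ - Q.1.2.2).inverse) ((p, q0, q1), z) := fun z =>
    a2.comp_of_eq continuousAt_fst rfl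
  have c0 := eventually_all.2 fun k => continuousAt_const.eventually_lt
    ((continuous_apply k).continuousAt.comp (a2.clm_apply
      (show Continuous fun P : (Fin (D + 1) → V) × V × V => o - P.2.2 by fun_prop).continuousAt))
    (h0 k)
  have d1 := a2.clm_apply
    (show Continuous fun P : (Fin (D + 1) → V) × V × V => P.1 0 - P.2.2 by fun_prop).continuousAt
  have d2 := b2.clm_apply
    (show Continuous fun P : (Fin (D + 1) → V) × V × V => P.2.1 - P.1 0 by fun_prop).continuousAt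
  have hsum : Continuous fun μ : Fin D → ℝ => ∑ k, μ k := by fun_prop
  have c1 := eventually_all.2 fun k => continuousAt_const.eventually_lt
    ((continuous_apply k).continuousAt.comp d1) (h1.1 k)
  have c2 := continuousAt_const.eventually_lt (hsum.continuousAt.comp d1) h1.2
  have c3 := eventually_all.2 fun k => continuousAt_const.eventually_lt
    ((continuous_apply k).continuousAt.comp d2) (h2 k)
  have c4 := (hsum.continuousAt.comp d2).eventually_lt continuousAt_const h3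
  have c5 := hK.eventually_forall_of_forall_eventually (x₀ := (p, q0, q1))
    (P := fun P z => (∀ k, 0 < (locL fun k : Fin D => P.1 k.succ - P.2.2).inverse z k) ∧
      1 < ∑ k, (locL fun k : Fin D => P.1 k.succ - P.2.2).inverse (η • z + (o - P.2.2)) k)
    fun z hzK => (eventually_all.2 fun k => continuousAt_const.eventually_lt
      ((continuous_apply k).continuousAt.comp ((a3 z).clm_apply continuousAt_snd))
        ((hz z hzK).1 k)).and (continuousAt_const.eventually_lt (hsum.continuousAt.comp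
      ((a3 z).clm_apply (show Continuous fun Q : ((Fin (D + 1) → V) × V × V) × V =>
        η • Q.2 + (o - Q.1.2.2) by fun_prop).continuousAt)) (hz z hzK).2)
  filter_upwards [a1, b1, c0, c1, c2, c3, c4, c5] with P a1 b1 c0 c1 c2 c3 c4 c5
  refine loc_good a1 b1 ?_ c3 c4
  rintro v (⟨t, ht, ht0, z, hzK, rfl⟩ | rfl)
  · obtain ⟨e1, e2⟩ := c5 z hzK
    simp only [Function.comp] at c0
    rw [show o + t • z - P.2.2 = t • z + (o - P.2.2) by abel]
    simp only [map_add, map_smul, Pi.add_apply, Pi.smul_apply, smul_eq_mul] at e2 ⊢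
    exact ⟨fun k => add_pos_of_nonneg_of_pos (mul_nonneg ht0 (e1 k).le) (c0 k),
      e2.trans_le (Finset.sum_le_sum fun k _ =>
        add_le_add_left (mul_le_mul_of_nonneg_right ht (e1 k).le) _)⟩
  · exact ⟨c1, c2⟩

theorem exists_good_config [FiniteDimensional ℝ V] {D : ℕ} (hD : Module.finrank ℝ V = D)
    (T : V →L[ℝ] ℝ) (hT : T ≠ 0) (o : V) {r M η : ℝ} (hr : 0 < r) (hM : 0 < M) (hη : 0 < η) :
    ∃ δ : ℝ, 0 < δ ∧ ∃ (p : Fin (D + 1) → V) (q0 q1 : V),
      (∀ k, ball (p k) δ ⊆ ball o r) ∧ ball q0 δ ⊆ ball o r ∧ ball q1 δ ⊆ ball o r ∧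
      (∀ k k', k ≠ k' → Disjoint (ball (p k) δ) (ball (p k') δ)) ∧
      (∀ k, Disjoint (ball q0 δ) (ball (p k) δ)) ∧ (∀ k, Disjoint (ball q1 δ) (ball (p k) δ)) ∧
      Disjoint (ball q0 δ) (ball q1 δ) ∧
      ∀ (y : Fin (D + 1) → V) (x0 x1 : V), (∀ k, y k ∈ ball (p k) δ) → x0 ∈ ball q0 δ →
        x1 ∈ ball q1 δ → Good y x0 x1 {v | η ≤ T (v - o) ∧ ‖v - o‖ ≤ M * T (v - o)} := by
  obtain ⟨hD0, b, hb⟩ := loc_basis hD T hT
  have hD' : (0 : ℝ) < D := by positivity
  obtain ⟨τ, hτ⟩ : ∃ τ : V, τ = (D : ℝ)⁻¹ • ∑ k, b k := ⟨_, rfl⟩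
  have hTτ : T τ = 1 := by simp [hτ, hb, hD'.ne']
  have hrτ : ∀ k, b.repr τ k = (D : ℝ)⁻¹ := fun k => by
    simp [hτ, Finsupp.single_apply]
  haveI := FiniteDimensional.proper_real V
  have hK : IsCompact (closedBall (0 : V) M ∩ {z | T z = 1}) :=
    (isCompact_closedBall _ _).inter_right (isClosed_eq T.continuous continuous_const)
  obtain ⟨C, hC⟩ := hK.exists_bound_of_continuousOn
    (f := fun z => b.equivFunL z) b.equivFunL.continuous.continuousOn
  obtain ⟨C', hC'⟩ := (Set.finite_range fun k => ‖b k - τ‖).bddAbove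
  obtain ⟨ρ, hρ, hρ1, hρ2⟩ : ∃ ρ : ℝ, 0 < ρ ∧ ρ * C' < r ∧ ρ * ‖τ‖ < r := by
    have h1 : ∀ c : ℝ, ∀ᶠ ρ in 𝓝[>] (0 : ℝ), ρ * c < r := fun c => nhdsWithin_le_nhds
      ((continuous_mul_const c).continuousAt.eventually_lt continuousAt_const (by simpa using hr))
    exact (eventually_mem_nhdsWithin.and ((h1 C').and (h1 ‖τ‖))).exists
  obtain ⟨ε, hε, hε1, hε2⟩ : ∃ ε : ℝ, 0 < ε ∧ ε * 1 < ρ ∧ ε * (1 + D * C) < ρ := by
    have h1 : ∀ c : ℝ, ∀ᶠ ε in 𝓝[>] (0 : ℝ), ε * c < ρ := fun c => nhdsWithin_le_nhds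
      ((continuous_mul_const c).continuousAt.eventually_lt continuousAt_const (by simpa using hρ))
    exact (eventually_mem_nhdsWithin.and ((h1 1).and (h1 _))).exists
  obtain ⟨p, hp0, hp⟩ : ∃ p : Fin (D + 1) → V, p 0 = o + ρ • τ ∧
      ∀ k : Fin D, p k.succ = o + ρ • (b k - τ) :=
    ⟨Fin.cons (o + ρ • τ) fun k => o + ρ • (b k - τ), rfl, fun _ => rfl⟩
  obtain ⟨hA, hA'⟩ := loc_base hD0 b hb hρ.ne' hε.ne' hτ
    (w := fun k => p k.succ - (o + -ε • τ)) fun k => by rw [hp]; module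
  obtain ⟨hB, hB'⟩ := loc_base hD0 b hb hρ.ne' (neg_ne_zero.2 hρ.ne') hτ
    (w := fun k => p k.succ - p 0) fun k => by rw [hp, hp0]; module
  have e1 : o - (o + -ε • τ) = ε • τ := by module
  have e2 : p 0 - (o + -ε • τ) = (ρ + ε) • τ := by rw [hp0]; module
  have e3 : o + (ρ / 2) • τ - p 0 = (-ρ / 2) • τ := by rw [hp0]; module
  have key := loc_open (o := o) (q0 := o + (ρ / 2) • τ) (η := η) hK hA hB (fun k => ?_)
    ⟨fun k => ?_, ?_⟩ (fun z hz => ⟨fun k => ?_, ?_⟩) (fun k => ?_) ?_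
  · obtain ⟨δ0, hδ0, hG⟩ := Metric.eventually_nhds_iff.1 key
    have hn : ∀ a : ℝ, |a| ≤ ρ → ‖o + a • τ - o‖ < r := fun a ha => by
      rw [add_sub_cancel_left, norm_smul]
      exact (mul_le_mul_of_nonneg_right ha (norm_nonneg _)).trans_lt hρ2
    have hne : ∀ {x y : V}, T x ≠ T y → x ≠ y := fun h h' => h (by rw [h'])
    have t0 : T (p 0) = T o + ρ := by simp [hp0, hTτ]
    have t1 : ∀ k : Fin D, T (p k.succ) = T o := fun k => by simp [hp, hTτ, hb]
    have t2 : ∀ a : ℝ, T (o + a • τ) = T o + a := fun a => by simp [hTτ]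
    have f1 : ∀ k, ‖p k - o‖ < r := by
      refine Fin.cases (hp0 ▸ hn ρ (abs_of_pos hρ).le) fun k => ?_
      rw [hp, add_sub_cancel_left, norm_smul, Real.norm_of_nonneg hρ.le]
      exact (mul_le_mul_of_nonneg_left (hC' ⟨k, rfl⟩) hρ.le).trans_lt hρ1
    have f2 : Function.Injective p := by
      intro k k' h
      induction k using Fin.cases <;> induction k' using Fin.cases
      · rfl
      · exact absurd h (hne (by rw [t0, t1]; linarith))
      · exact absurd h (hne (by rw [t0, t1]; linarith))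
      · rw [hp, hp, add_right_inj, smul_right_inj hρ.ne', sub_left_inj] at h
        rw [b.injective h]
    have f3 : ∀ a : ℝ, a ≠ 0 → a ≠ ρ → ∀ k, o + a • τ ≠ p k := fun a h1 h2 =>
      Fin.cases (hne (by rw [t0, t2]; simpa using h2)) fun k => hne (by rw [t1, t2]; simpa using h1)
    have g1 := eventually_all.2 fun k => loc_sub (f1 k)
    have g2 := loc_sub (hn (ρ / 2) (by rw [abs_of_pos] <;> linarith))
    have g3 := loc_sub (hn (-ε) (by rw [abs_neg, abs_of_pos] <;> linarith))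
    have g4 := eventually_all.2 fun k => eventually_all.2 fun k' => eventually_all.2
      fun h : k ≠ k' => loc_disj (f2.ne h)
    have g5 := eventually_all.2 fun k => loc_disj (f3 (ρ / 2) (by linarith) (by linarith) k)
    have g6 := eventually_all.2 fun k => loc_disj (f3 (-ε) (by linarith) (by linarith) k)
    have g7 := loc_disj (hne (show T (o + (ρ / 2) • τ) ≠ T (o + -ε • τ) by
      rw [t2, t2]; linarith))
    obtain ⟨δ, hδ, g1, g2, g3, g4, g5, g6, g7⟩ := (Filter.Eventually.and (Ioo_mem_nhdsGT hδ0)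
      (g1.and (g2.and (g3.and (g4.and (g5.and (g6.and g7))))))).exists
    refine ⟨δ, hδ.1, p, _, _, g1, g2, g3, g4, g5, g6, g7, fun y x0 x1 hy h0 h1 => ?_⟩
    refine (hG (y := (y, x0, x1)) ?_).mono fun v hv => ?_
    · rw [Prod.dist_eq, Prod.dist_eq, max_lt_iff, max_lt_iff, dist_pi_lt_iff hδ0]
      exact ⟨fun k => (hy k).trans hδ.2, h0.trans hδ.2, h1.trans hδ.2⟩
    · have ht : 0 < T (v - o) := hη.trans_le hv.1
      refine ⟨T (v - o), hv.1, ht.le, (T (v - o))⁻¹ • (v - o), ⟨?_, ?_⟩, ?_⟩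
      · rw [mem_closedBall_zero_iff, norm_smul, norm_inv, Real.norm_of_nonneg ht.le,
          inv_mul_le_iff₀' ht]
        exact hv.2
      · change T _ = 1
        rw [map_smul, smul_eq_mul, inv_mul_cancel₀ ht.ne']
      · rw [smul_inv_smul₀ ht.ne', add_sub_cancel]
  · rw [(hA' _).1, e1, map_smul, map_smul, Finsupp.smul_apply, hrτ, hTτ, smul_eq_mul, smul_eq_mul]
    have : 0 < ρ - ε := by linarith
    positivity
  · rw [(hA' _).1, e2, map_smul, map_smul, Finsupp.smul_apply, hrτ, hTτ, smul_eq_mul, smul_eq_mul]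
    have : 0 < ρ - ε := by linarith
    positivity
  · rw [(hA' _).2, e2, map_smul, hTτ, smul_eq_mul, mul_one, one_lt_div hε]
    linarith
  · have h1 : |b.repr z k| ≤ C := (norm_le_pi_norm (b.equivFunL z) k).trans (hC z hz)
    have h2 := mul_le_mul_of_nonneg_left (abs_le.1 h1).1 (mul_pos hε hD').le
    rw [(hA' _).1, show T z = 1 from hz.2, show b.repr z k / ρ + (ρ - ε) * 1 / (ε * ρ * D) =
      (ε * D * b.repr z k + (ρ - ε)) / (ε * ρ * D) by field_simp]
    exact div_pos (by linarith) (by positivity)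
  · rw [(hA' _).2, e1, map_add, map_smul, map_smul, show T z = 1 from hz.2, hTτ, smul_eq_mul,
      smul_eq_mul, one_lt_div hε]
    linarith
  · rw [(hB' _).1, e3, map_smul, map_smul, Finsupp.smul_apply, hrτ, hTτ, smul_eq_mul, smul_eq_mul,
      show -ρ / 2 * (D : ℝ)⁻¹ / ρ + (ρ - -ρ) * (-ρ / 2 * 1) / (-ρ * ρ * D) = 1 / (2 * D) by
        field_simp; ring]
    positivity
  · rw [(hB' _).2, e3, map_smul, hTτ, smul_eq_mul, div_lt_iff_of_neg (neg_neg_of_pos hρ)]
    linarith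

end Pool.Agent.Lib.MP_258d0c_pr
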