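import Pool.Agent.Lib.MP_258d0c_pr.Core

open MeasureTheory ProbabilityTheory
open scoped ENNReal Classical InnerProductSpace

namespace Pool.Agent.Lib.MP_258d0c_pr

/-- bounded measurable real functions -/
structure LowBM {α : Type} [MeasurableSpace α] (F : α → ℝ) : Prop where
  meas : Measurable F
  bdd : ∃ C, ∀ x, |F x| ≤ C

section BM

variable {α β : Type} [MeasurableSpace α] [MeasurableSpace β]

theorem LowBM.integrable {F : α → ℝ} (h : LowBM F) (ν : Measure α) [IsFiniteMeasure ν] :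
    Integrable F ν := by
  obtain ⟨C, hC⟩ := h.bdd
  exact Integrable.of_bound h.meas.aestronglyMeasurable C (Filter.Eventually.of_forall hC)

theorem LowBM.const (c : ℝ) : LowBM (fun _ : α => c) :=
  ⟨measurable_const, |c|, fun _ => le_rfl⟩

theorem LowBM.mul {F G : α → ℝ} (hF : LowBM F) (hG : LowBM G) : LowBM (fun x => F x * G x) := by
  obtain ⟨C, hC⟩ := hF.bdd
  obtain ⟨D, hD⟩ := hG.bdd
  refine ⟨hF.meas.mul hG.meas, C * D, fun x => ?_⟩
  rw [abs_mul]
  exact mul_le_mul (hC x) (hD x) (abs_nonneg _) ((abs_nonneg _).trans (hC x))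

theorem LowBM.add {F G : α → ℝ} (hF : LowBM F) (hG : LowBM G) : LowBM (fun x => F x + G x) := by
  obtain ⟨C, hC⟩ := hF.bdd
  obtain ⟨D, hD⟩ := hG.bdd
  exact ⟨hF.meas.add hG.meas, C + D, fun x => (abs_add_le _ _).trans (add_le_add (hC x) (hD x))⟩

theorem LowBM.sub {F G : α → ℝ} (hF : LowBM F) (hG : LowBM G) : LowBM (fun x => F x - G x) := by
  obtain ⟨C, hC⟩ := hF.bdd
  obtain ⟨D, hD⟩ := hG.bdd
  exact ⟨hF.meas.sub hG.meas, C + D, fun x => (abs_sub _ _).trans (add_le_add (hC x) (hD x))⟩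

theorem LowBM.sum {ι : Type} (s : Finset ι) {F : ι → α → ℝ} (hF : ∀ i, LowBM (F i)) :
    LowBM (fun x => ∑ i ∈ s, F i x) := by
  induction s using Finset.induction_on with
  | empty => simpa using LowBM.const (α := α) 0
  | insert i s hi ih =>
    simp only [Finset.sum_insert hi]
    exact (hF i).add ih

theorem LowBM.comp {F : α → ℝ} (hF : LowBM F) {f : β → α} (hf : Measurable f) :
    LowBM (fun x => F (f x)) := by
  obtain ⟨C, hC⟩ := hF.bdd
  exact ⟨hF.meas.comp hf, C, fun x => hC _⟩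

/-- real indicator -/
noncomputable def lowInd {γ : Type} (s : Set γ) (x : γ) : ℝ := if x ∈ s then 1 else 0

theorem lowInd_of_mem {γ : Type} {s : Set γ} {x : γ} (h : x ∈ s) : lowInd s x = 1 := if_pos h

theorem lowInd_of_notMem {γ : Type} {s : Set γ} {x : γ} (h : x ∉ s) : lowInd s x = 0 := if_neg h

theorem lowInd_congr {γ δ : Type} {s : Set γ} {t : Set δ} {x : γ} {y : δ} (h : x ∈ s ↔ y ∈ t) :
    lowInd s x = lowInd t y := by
  unfold lowInd
  by_cases hx : x ∈ s
  · rw [if_pos hx, if_pos (h.1 hx)]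
  · rw [if_neg hx, if_neg (fun hy => hx (h.2 hy))]

theorem LowBM.ind {s : Set α} (hs : MeasurableSet s) : LowBM (lowInd s) := by
  refine ⟨Measurable.ite hs measurable_const measurable_const, 1, fun x => ?_⟩
  unfold lowInd
  split_ifs <;> simp

theorem low_integral_ind (ν : Measure α) {s : Set α} (hs : MeasurableSet s) :
    ∫ x, lowInd s x ∂ν = ν.real s := by
  rw [← integral_indicator_one hs]
  refine integral_congr_ae (Filter.Eventually.of_forall fun x => ?_)
  simp [lowInd, Set.indicator_apply]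

end BM

section Xi

variable {E : Type} [MeasurableSpace E]

/-- the centred test function of one coordinate -/
noncomputable def lowXi (μ : Measure E) (D0 D1 : Set E) (x : E) : ℝ :=
  lowInd D1 x * (μ.real D1)⁻¹ - lowInd D0 x * (μ.real D0)⁻¹

theorem lowXi_bm (μ : Measure E) {D0 D1 : Set E} (h0 : MeasurableSet D0) (h1 : MeasurableSet D1) :
    LowBM (lowXi μ D0 D1) :=
  ((LowBM.ind h1).mul (LowBM.const _)).sub ((LowBM.ind h0).mul (LowBM.const _))

theorem lowXi_zero (μ : Measure E) {D0 D1 : Set E} {x : E} (h0 : x ∉ D0) (h1 : x ∉ D1) :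
    lowXi μ D0 D1 x = 0 := by
  simp [lowXi, lowInd_of_notMem h0, lowInd_of_notMem h1]

theorem lowXi_integral (μ : Measure E) [IsProbabilityMeasure μ] {D0 D1 : Set E}
    (h0 : MeasurableSet D0) (h1 : MeasurableSet D1) (p0 : 0 < μ.real D0) (p1 : 0 < μ.real D1) :
    ∫ x, lowXi μ D0 D1 x ∂μ = 0 := by
  unfold lowXi
  rw [integral_sub (((LowBM.ind h1).mul (LowBM.const _)).integrable μ)
    (((LowBM.ind h0).mul (LowBM.const _)).integrable μ), integral_mul_const, integral_mul_const,
    low_integral_ind μ h0, low_integral_ind μ h1, mul_inv_cancel₀ p0.ne', mul_inv_cancel₀ p1.ne',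
    sub_self]

theorem lowXi_sq (μ : Measure E) [IsProbabilityMeasure μ] {D0 D1 : Set E}
    (h0 : MeasurableSet D0) (h1 : MeasurableSet D1) (hd : Disjoint D0 D1) {α : ℝ} (hα : 0 < α)
    (p0 : α ≤ μ.real D0) (p1 : α ≤ μ.real D1) :
    ∫ x, lowXi μ D0 D1 x * lowXi μ D0 D1 x ∂μ ≤ 2 / α := by
  have q0 : 0 < μ.real D0 := hα.trans_le p0
  have q1 : 0 < μ.real D1 := hα.trans_le p1
  have e : ∀ x, lowXi μ D0 D1 x * lowXi μ D0 D1 x =
      lowInd D1 x * ((μ.real D1)⁻¹ * (μ.real D1)⁻¹) +
        lowInd D0 x * ((μ.real D0)⁻¹ * (μ.real D0)⁻¹) := by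
    intro x
    unfold lowXi
    by_cases hx0 : x ∈ D0
    · have hx1 : x ∉ D1 := fun h => Set.disjoint_left.1 hd hx0 h
      rw [lowInd_of_mem hx0, lowInd_of_notMem hx1]; ring
    · by_cases hx1 : x ∈ D1
      · rw [lowInd_of_mem hx1, lowInd_of_notMem hx0]; ring
      · rw [lowInd_of_notMem hx1, lowInd_of_notMem hx0]; ring
  simp only [e]
  rw [integral_add (((LowBM.ind h1).mul (LowBM.const _)).integrable μ)
    (((LowBM.ind h0).mul (LowBM.const _)).integrable μ), integral_mul_const, integral_mul_const,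
    low_integral_ind μ h0, low_integral_ind μ h1, ← mul_assoc, ← mul_assoc,
    mul_inv_cancel₀ q0.ne', mul_inv_cancel₀ q1.ne', one_mul, one_mul]
  have a0 : (μ.real D0)⁻¹ ≤ α⁻¹ := inv_anti₀ hα p0
  have a1 : (μ.real D1)⁻¹ ≤ α⁻¹ := inv_anti₀ hα p1
  rw [div_eq_mul_inv]
  linarith

theorem low_nonempty (μ : Measure E) {D : Set E} (p : 0 < μ.real D) : D.Nonempty := by
  rcases D.eq_empty_or_nonempty with h | h
  · subst h; simp at p
  · exact h

theorem lowXi_gain (μ : Measure E) [IsProbabilityMeasure μ] {D0 D1 : Set E}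
    (h0 : MeasurableSet D0) (h1 : MeasurableSet D1) (hd : Disjoint D0 D1)
    (p0 : 0 < μ.real D0) (p1 : 0 < μ.real D1) {φ : E → ℝ} (hφ : LowBM φ)
    (hg : ∀ x0 ∈ D0, ∀ x1 ∈ D1, φ x0 + 1 ≤ φ x1) :
    1 ≤ ∫ x, φ x * lowXi μ D0 D1 x ∂μ := by
  obtain ⟨C, hC⟩ := hφ.bdd
  have hne : (φ '' D0).Nonempty := (low_nonempty μ p0).image φ
  have hbd : BddAbove (φ '' D0) := ⟨C, by
    rintro _ ⟨x, -, rfl⟩
    exact (le_abs_self _).trans (hC x)⟩
  set s := sSup (φ '' D0) with hs
  have hs0 : ∀ x ∈ D0, φ x ≤ s := fun x hx => le_csSup hbd ⟨x, hx, rfl⟩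
  have hs1 : ∀ x ∈ D1, s + 1 ≤ φ x := by
    intro x hx
    have : s ≤ φ x - 1 := csSup_le hne (by
      rintro _ ⟨y, hy, rfl⟩
      have := hg y hy x hx
      linarith)
    linarith
  have i0 : 0 < (μ.real D0)⁻¹ := inv_pos.2 p0
  have i1 : 0 < (μ.real D1)⁻¹ := inv_pos.2 p1
  have hx := lowXi_bm μ h0 h1
  have key : ∀ x, s * lowXi μ D0 D1 x + lowInd D1 x * (μ.real D1)⁻¹ ≤ φ x * lowXi μ D0 D1 x := by
    intro x
    unfold lowXi
    by_cases hx0 : x ∈ D0
    · have hx1 : x ∉ D1 := fun h => Set.disjoint_left.1 hd hx0 h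
      rw [lowInd_of_mem hx0, lowInd_of_notMem hx1]
      have := mul_le_mul_of_nonneg_right (hs0 x hx0) i0.le
      linarith
    · by_cases hx1 : x ∈ D1
      · rw [lowInd_of_mem hx1, lowInd_of_notMem hx0]
        have := mul_le_mul_of_nonneg_right (hs1 x hx1) i1.le
        linarith
      · rw [lowInd_of_notMem hx1, lowInd_of_notMem hx0]
        simp
  have b1 := (LowBM.const (α := E) s).mul hx
  have b2 := (LowBM.ind h1).mul (LowBM.const (μ.real D1)⁻¹)
  have := integral_mono ((b1.add b2).integrable μ) ((hφ.mul hx).integrable μ) key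
  rw [integral_add (b1.integrable μ) (b2.integrable μ), integral_const_mul, integral_mul_const,
    lowXi_integral μ h0 h1 p0 p1, low_integral_ind μ h1, mul_inv_cancel₀ p1.ne'] at this
  simpa using this

theorem lowXi_orth (μ : Measure E) [IsProbabilityMeasure μ] {D0 D1 : Set E}
    (h0 : MeasurableSet D0) (h1 : MeasurableSet D1)
    (p0 : 0 < μ.real D0) (p1 : 0 < μ.real D1) {ψ : E → ℝ}
    (hψ : ∀ x y, (x ∈ D0 ∨ x ∈ D1) → (y ∈ D0 ∨ y ∈ D1) → ψ x = ψ y) :
    ∫ x, ψ x * lowXi μ D0 D1 x ∂μ = 0 := by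
  obtain ⟨y, hy⟩ := low_nonempty μ p0
  have e : ∀ x, ψ x * lowXi μ D0 D1 x = ψ y * lowXi μ D0 D1 x := by
    intro x
    by_cases hx : x ∈ D0 ∨ x ∈ D1
    · rw [hψ x y hx (Or.inl hy)]
    · push Not at hx
      rw [lowXi_zero μ hx.1 hx.2, mul_zero, mul_zero]
  simp only [e]
  rw [integral_const_mul, lowXi_integral μ h0 h1 p0 p1, mul_zero]

/-- conditioning on one coordinate, real version -/
theorem low_condition {n : ℕ} (μ : Measure E) [IsProbabilityMeasure μ] (i : Fin n)
    {F : (Fin n → E) → ℝ} (hF : LowBM F) :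
    ∫ X, F X ∂(iid (Fin n) μ) =
      ∫ X, ∫ x, F (Function.update X i x) ∂μ ∂(iid (Fin n) μ) := by
  have hp := measurePreserving_update μ i
  have h1 : ∫ X, F X ∂(iid (Fin n) μ) =
      ∫ q : (Fin n → E) × E, F (Function.update q.1 i q.2) ∂((iid (Fin n) μ).prod μ) := by
    conv_lhs => rw [← hp.map_eq]
    exact integral_map hp.measurable.aemeasurable hF.meas.aestronglyMeasurable
  rw [h1, integral_prod _ ((hF.comp hp.measurable).integrable _)]

end Xi

section Event

variable {E : Type} {n q : ℕ}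

/-- the box of samples with guards at the indices `σ k` and no other point except `i` in `R` -/
def lowBox (R : Set E) (G : Fin q → Set E) (i : Fin n) (σ : Fin q ↪ Fin n) : Set (Fin n → E) :=
  {X | (∀ k, X (σ k) ∈ G k) ∧ ∀ i', i' ≠ i → (∀ k, i' ≠ σ k) → X i' ∉ R}

/-- the good event for the pair (index `i`, region) -/
def lowEv (R : Set E) (G : Fin q → Set E) (i : Fin n) : Set (Fin n → E) :=
  {X | ∃ σ : Fin q ↪ Fin n, (∀ k, σ k ≠ i) ∧ X ∈ lowBox R G i σ}

theorem lowEv_update_imp {R : Set E} {G : Fin q → Set E} {i : Fin n} {X : Fin n → E}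
    (h : X ∈ lowEv R G i) (x : E) : Function.update X i x ∈ lowEv R G i := by
  obtain ⟨σ, hσ, h1, h2⟩ := h
  refine ⟨σ, hσ, fun k => ?_, fun i' hi hk => ?_⟩
  · rw [Function.update_of_ne (hσ k)]; exact h1 k
  · rw [Function.update_of_ne hi]; exact h2 i' hi hk

theorem lowEv_update {R : Set E} {G : Fin q → Set E} {i : Fin n} (X : Fin n → E) (x : E) :
    Function.update X i x ∈ lowEv R G i ↔ X ∈ lowEv R G i := by
  refine ⟨fun h => ?_, fun h => lowEv_update_imp h x⟩
  have := lowEv_update_imp h (X i)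
  rwa [Function.update_idem, Function.update_eq_self] at this

theorem lowEv_update_same {R : Set E} {G : Fin q → Set E} {i i' : Fin n} (hi : i ≠ i')
    (X : Fin n → E) {x : E} (hx : x ∈ R) (hG : ∀ k, x ∉ G k) :
    Function.update X i x ∉ lowEv R G i' := by
  rintro ⟨σ, -, h1, h2⟩
  by_cases h : ∃ k, i = σ k
  · obtain ⟨k, hk⟩ := h
    have := h1 k
    rw [← hk, Function.update_self] at this
    exact hG k this
  · push Not at h
    have := h2 i hi h
    rw [Function.update_self] at this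
    exact this hx

theorem lowEv_update_far {R : Set E} {G : Fin q → Set E} (hG : ∀ k, G k ⊆ R) {i i' : Fin n}
    (X : Fin n → E) {x y : E} (hx : x ∉ R) (hy : y ∉ R)
    (h : Function.update X i x ∈ lowEv R G i') : Function.update X i y ∈ lowEv R G i' := by
  obtain ⟨σ, hσ, h1, h2⟩ := h
  have hk : ∀ k, σ k ≠ i := by
    intro k hk
    have := h1 k
    rw [hk, Function.update_self] at this
    exact hx (hG k this)
  refine ⟨σ, hσ, fun k => ?_, fun i'' hi hk' => ?_⟩
  · have := h1 k
    rw [Function.update_of_ne (hk k)] at this ⊢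
    exact this
  · by_cases h : i'' = i
    · rw [h, Function.update_self]; exact hy
    · have := h2 i'' hi hk'
      rw [Function.update_of_ne h] at this ⊢
      exact this

theorem lowBox_disjoint {R : Set E} {G : Fin q → Set E} (hG : ∀ k, G k ⊆ R)
    (hd : ∀ k k', k ≠ k' → Disjoint (G k) (G k')) {i : Fin n} {σ τ : Fin q ↪ Fin n}
    (hσ : ∀ k, σ k ≠ i) (hne : σ ≠ τ) : Disjoint (lowBox R G i σ) (lowBox R G i τ) := by
  rw [Set.disjoint_left]
  rintro X ⟨h1, -⟩ ⟨h3, h4⟩
  apply hne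
  ext1 k
  by_contra hk
  by_cases h : ∃ k', σ k = τ k'
  · obtain ⟨k', hk'⟩ := h
    have hkk : k ≠ k' := fun e => hk (by rw [hk', e])
    have a1 := h1 k
    have a2 := h3 k'
    rw [← hk'] at a2
    exact Set.disjoint_left.1 (hd k k' hkk) a1 a2
  · push Not at h
    exact h4 (σ k) (hσ k) h (hG k (h1 k))

/-- one side of the box -/
def lowSide (R : Set E) (G : Fin q → Set E) (i : Fin n) (σ : Fin q ↪ Fin n) (i' : Fin n) :
    Set E :=
  {x | (∀ k, σ k = i' → x ∈ G k) ∧ (i' ≠ i → (∀ k, i' ≠ σ k) → x ∉ R)}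

theorem lowBox_eq (R : Set E) (G : Fin q → Set E) (i : Fin n) (σ : Fin q ↪ Fin n) :
    lowBox R G i σ = Set.univ.pi (lowSide R G i σ) := by
  ext X
  simp only [lowBox, lowSide, Set.mem_ofPred_eq, Set.mem_pi, Set.mem_univ, forall_true_left]
  constructor
  · rintro ⟨h1, h2⟩ i'
    refine ⟨fun k hk => ?_, h2 i'⟩
    rw [← hk]; exact h1 k
  · intro h
    exact ⟨fun k => (h (σ k)).1 k rfl, fun i' => (h i').2⟩

variable [MeasurableSpace E]

theorem lowSide_meas {R : Set E} {G : Fin q → Set E} (hR : MeasurableSet R)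
    (hG : ∀ k, MeasurableSet (G k)) (i : Fin n) (σ : Fin q ↪ Fin n) (i' : Fin n) :
    MeasurableSet (lowSide R G i σ i') := by
  have : lowSide R G i σ i' = (⋂ k, ⋂ (_ : σ k = i'), G k) ∩
      ⋂ (_ : i' ≠ i), ⋂ (_ : ∀ k, i' ≠ σ k), Rᶜ := by
    ext x
    simp [lowSide]
  rw [this]
  exact (MeasurableSet.iInter fun k => MeasurableSet.iInter fun _ => hG k).inter
    (MeasurableSet.iInter fun _ => MeasurableSet.iInter fun _ => hR.compl)

theorem lowBox_meas {R : Set E} {G : Fin q → Set E} (hR : MeasurableSet R)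
    (hG : ∀ k, MeasurableSet (G k)) (i : Fin n) (σ : Fin q ↪ Fin n) :
    MeasurableSet (lowBox R G i σ) := by
  rw [lowBox_eq]
  exact MeasurableSet.univ_pi (lowSide_meas hR hG i σ)

theorem lowEv_meas {R : Set E} {G : Fin q → Set E} (hR : MeasurableSet R)
    (hG : ∀ k, MeasurableSet (G k)) (i : Fin n) : MeasurableSet (lowEv R G i) := by
  have : lowEv R G i = ⋃ σ : Fin q ↪ Fin n, ⋃ (_ : ∀ k, σ k ≠ i), lowBox R G i σ := by
    ext X
    simp [lowEv]
  rw [this]
  exact MeasurableSet.iUnion fun σ => MeasurableSet.iUnion fun _ => lowBox_meas hR hG i σ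

theorem lowBox_prob (μ : Measure E) [IsProbabilityMeasure μ] {R : Set E} {G : Fin q → Set E}
    (hR : MeasurableSet R) {u v : ℝ} (hu : 0 ≤ u) (hv : 0 ≤ v) (hv1 : v ≤ 1)
    (hGu : ∀ k, u ≤ μ.real (G k)) (hRv : μ.real R ≤ 1 - v) (i : Fin n) (σ : Fin q ↪ Fin n) :
    u ^ q * v ^ n ≤ (iid (Fin n) μ).real (lowBox R G i σ) := by
  rw [lowBox_eq, measureReal_def, Measure.pi_pi, ENNReal.toReal_prod]
  have h1 : ∀ i', (if i' ∈ Finset.univ.map σ then u else 1) * v ≤
      (μ (lowSide R G i σ i')).toReal := by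
    intro i'
    rw [← measureReal_def]
    split_ifs with h
    · obtain ⟨k, -, hk⟩ := Finset.mem_map.1 h
      have : G k ⊆ lowSide R G i σ i' := by
        intro x hx
        refine ⟨fun k' hk' => ?_, fun _ h' => absurd hk.symm (h' k)⟩
        have : k' = k := σ.injective (hk'.trans hk.symm)
        rw [this]; exact hx
      calc u * v ≤ u * 1 := mul_le_mul_of_nonneg_left hv1 hu
        _ = u := mul_one u
        _ ≤ μ.real (G k) := hGu k
        _ ≤ _ := measureReal_mono this
    · have : Rᶜ ⊆ lowSide R G i σ i' := by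
        intro x hx
        exact ⟨fun k hk => absurd (Finset.mem_map.2 ⟨k, Finset.mem_univ k, hk⟩) h,
          fun _ _ => hx⟩
      have h2 : μ.real Rᶜ = 1 - μ.real R := by
        rw [measureReal_compl hR]; simp
      calc 1 * v ≤ μ.real Rᶜ := by rw [h2]; linarith
        _ ≤ _ := measureReal_mono this
  refine le_trans (le_of_eq ?_) (Finset.prod_le_prod (fun i' _ => ?_) fun i' _ => h1 i')
  · rw [Finset.prod_mul_distrib, Finset.prod_ite_mem, Finset.univ_inter, Finset.prod_const,
      Finset.prod_const]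
    simp
  · split_ifs
    · exact mul_nonneg hu hv
    · rw [one_mul]; exact hv

theorem lowEv_prob (μ : Measure E) [IsProbabilityMeasure μ] {R : Set E} {G : Fin q → Set E}
    (hR : MeasurableSet R) (hG : ∀ k, MeasurableSet (G k)) (hs : ∀ k, G k ⊆ R)
    (hd : ∀ k k', k ≠ k' → Disjoint (G k) (G k'))
    {u v : ℝ} (hu : 0 ≤ u) (hv : 0 ≤ v) (hv1 : v ≤ 1)
    (hGu : ∀ k, u ≤ μ.real (G k)) (hRv : μ.real R ≤ 1 - v) (i : Fin n) :
    ((n - q : ℕ) : ℝ) ^ q * (u ^ q * v ^ n) ≤ (iid (Fin n) μ).real (lowEv R G i) := by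
  let T := Fin q ↪ {i' : Fin n // i' ≠ i}
  let f : T → (Fin q ↪ Fin n) := fun τ => τ.trans (Function.Embedding.subtype _)
  have hf : ∀ τ k, f τ k ≠ i := fun τ k => (τ k).2
  have hinj : Function.Injective f := by
    intro τ τ' h
    ext1 k
    exact Subtype.ext (congrArg (fun s : Fin q ↪ Fin n => s k) h)
  have hsub : (⋃ τ ∈ (Finset.univ : Finset T), lowBox R G i (f τ)) ⊆ lowEv R G i := by
    intro X hX
    simp only [Set.mem_iUnion] at hX
    obtain ⟨τ, -, hτ⟩ := hX
    exact ⟨f τ, hf τ, hτ⟩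
  refine le_trans ?_ (measureReal_mono hsub)
  rw [measureReal_biUnion_finset
    (fun τ _ τ' _ hne => lowBox_disjoint hs hd (hf τ) fun e => hne (hinj e))
    (fun τ _ => lowBox_meas hR hG i (f τ))]
  have hc : ((n - q : ℕ) : ℝ) ^ q ≤ (Finset.univ : Finset T).card := by
    rw [Finset.card_univ, Fintype.card_embedding_eq, Fintype.card_fin]
    have h1 : Fintype.card {i' : Fin n // i' ≠ i} = n - 1 := by simp
    rw [h1]
    have h2 := Nat.pow_sub_le_descFactorial (n - 1) q
    have h3 : n - 1 + 1 = n := Nat.sub_add_cancel (Nat.one_le_of_lt i.pos)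
    rw [h3] at h2
    exact_mod_cast h2
  calc ((n - q : ℕ) : ℝ) ^ q * (u ^ q * v ^ n)
      ≤ (Finset.univ : Finset T).card * (u ^ q * v ^ n) :=
        mul_le_mul_of_nonneg_right hc (by positivity)
    _ = ∑ _τ : T, u ^ q * v ^ n := by rw [Finset.sum_const, nsmul_eq_mul]
    _ ≤ _ := Finset.sum_le_sum fun τ _ => lowBox_prob μ hR hu hv hv1 hGu hRv i (f τ)

end Event

section Main

variable {E : Type} [MeasurableSpace E] {n q : ℕ} {J : Type}

/-- one term of the test function -/
noncomputable def lowTerm (μ : Measure E) (D0 D1 R : J → Set E) (G : J → Fin q → Set E)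
    (p : Fin n × J) (X : Fin n → E) : ℝ :=
  lowInd (lowEv (R p.2) (G p.2) p.1) X * lowXi μ (D0 p.2) (D1 p.2) (X p.1)

variable {μ : Measure E} [IsProbabilityMeasure μ] {a b : ℝ} {D0 D1 R : J → Set E}
  {G : J → Fin q → Set E} {g : (Fin n → E) → ℝ} {M : ℝ}

theorem LowerData.low_big0 (h : LowerData μ n a b D0 D1 R G g M) (j : J) :
    a / n ≤ μ.real (D0 j) :=
  (ENNReal.ofReal_le_iff_le_toReal (measure_ne_top μ _)).1 (h.big0 j)

theorem LowerData.low_big1 (h : LowerData μ n a b D0 D1 R G g M) (j : J) :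
    a / n ≤ μ.real (D1 j) :=
  (ENNReal.ofReal_le_iff_le_toReal (measure_ne_top μ _)).1 (h.big1 j)

theorem LowerData.low_bigG (h : LowerData μ n a b D0 D1 R G g M) (j : J) (k : Fin q) :
    a / n ≤ μ.real (G j k) :=
  (ENNReal.ofReal_le_iff_le_toReal (measure_ne_top μ _)).1 (h.bigG j k)

omit [IsProbabilityMeasure μ] in
theorem LowerData.low_bm (h : LowerData μ n a b D0 D1 R G g M) : LowBM g :=
  ⟨h.measg, M, h.bddg⟩

omit [IsProbabilityMeasure μ] in
theorem LowerData.low_ind_bm (h : LowerData μ n a b D0 D1 R G g M) (p : Fin n × J) :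
    LowBM (lowInd (lowEv (R p.2) (G p.2) p.1)) :=
  LowBM.ind (lowEv_meas (h.measR _) (h.measG _) _)

theorem LowerData.low_term_bm (h : LowerData μ n a b D0 D1 R G g M) (p : Fin n × J) :
    LowBM (lowTerm μ D0 D1 R G p) :=
  (h.low_ind_bm p).mul ((lowXi_bm μ (h.meas0 _) (h.meas1 _)).comp (measurable_pi_apply p.1))

omit [IsProbabilityMeasure μ] in
theorem lowTerm_update (p : Fin n × J) (X : Fin n → E) (x : E) :
    lowTerm μ D0 D1 R G p (Function.update X p.1 x) =
      lowInd (lowEv (R p.2) (G p.2) p.1) X * lowXi μ (D0 p.2) (D1 p.2) x := by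
  unfold lowTerm
  rw [lowInd_congr (lowEv_update X x), Function.update_self]

theorem LowerData.low_mean (h : LowerData μ n a b D0 D1 R G g M) (hα : 0 < a / n)
    (p : Fin n × J) : ∫ X, lowTerm μ D0 D1 R G p X ∂(iid (Fin n) μ) = 0 := by
  rw [low_condition μ p.1 (h.low_term_bm p)]
  simp only [lowTerm_update, integral_const_mul]
  rw [lowXi_integral μ (h.meas0 _) (h.meas1 _) (hα.trans_le (h.low_big0 _))
    (hα.trans_le (h.low_big1 _))]
  simp

theorem LowerData.low_corr (h : LowerData μ n a b D0 D1 R G g M) (hα : 0 < a / n)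
    (p : Fin n × J) : (iid (Fin n) μ).real (lowEv (R p.2) (G p.2) p.1) ≤
      ∫ X, g X * lowTerm μ D0 D1 R G p X ∂(iid (Fin n) μ) := by
  have hb := h.low_bm.mul (h.low_term_bm p)
  rw [low_condition μ p.1 hb, ← low_integral_ind _ (lowEv_meas (h.measR _) (h.measG _) _)]
  refine integral_mono ((h.low_ind_bm p).integrable _) ?_ fun X => ?_
  · exact ((hb.comp (measurePreserving_update μ p.1).measurable).integrable
      ((iid (Fin n) μ).prod μ)).integral_prod_left
  · simp only [lowTerm_update]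
    by_cases hX : X ∈ lowEv (R p.2) (G p.2) p.1
    · rw [lowInd_of_mem hX]
      simp only [one_mul]
      obtain ⟨σ, hσ, h1, h2⟩ := hX
      exact lowXi_gain μ (h.meas0 _) (h.meas1 _) (h.disj01 _) (hα.trans_le (h.low_big0 _))
        (hα.trans_le (h.low_big1 _)) (h.low_bm.comp (measurable_update X))
        (h.gain p.2 p.1 σ X hσ h1 h2)
    · rw [lowInd_of_notMem hX]
      simp

theorem LowerData.low_diag (h : LowerData μ n a b D0 D1 R G g M) (hα : 0 < a / n)
    (p : Fin n × J) :
    ∫ X, lowTerm μ D0 D1 R G p X * lowTerm μ D0 D1 R G p X ∂(iid (Fin n) μ) ≤ 2 / (a / n) := by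
  have hb := (h.low_term_bm p).mul (h.low_term_bm p)
  have hx := lowXi_bm μ (h.meas0 p.2) (h.meas1 p.2)
  have hxx := (hx.mul hx).comp (measurable_pi_apply (X := fun _ : Fin n => E) p.1)
  calc ∫ X, lowTerm μ D0 D1 R G p X * lowTerm μ D0 D1 R G p X ∂(iid (Fin n) μ)
      ≤ ∫ X, lowXi μ (D0 p.2) (D1 p.2) (X p.1) * lowXi μ (D0 p.2) (D1 p.2) (X p.1)
          ∂(iid (Fin n) μ) := by
        refine integral_mono (hb.integrable _) (hxx.integrable _) fun X => ?_
        unfold lowTerm
        by_cases hX : X ∈ lowEv (R p.2) (G p.2) p.1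
        · simp only [lowInd_of_mem hX, one_mul, le_refl]
        · simp only [lowInd_of_notMem hX, zero_mul]
          exact mul_self_nonneg _
    _ = ∫ x, lowXi μ (D0 p.2) (D1 p.2) x * lowXi μ (D0 p.2) (D1 p.2) x ∂μ := by
        rw [low_condition μ p.1 hxx]
        simp
    _ ≤ _ := lowXi_sq μ (h.meas0 _) (h.meas1 _) (h.disj01 _) hα (h.low_big0 _) (h.low_big1 _)

theorem LowerData.low_off (h : LowerData μ n a b D0 D1 R G g M) (hα : 0 < a / n)
    {p p' : Fin n × J} (hne : p ≠ p') :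
    ∫ X, lowTerm μ D0 D1 R G p X * lowTerm μ D0 D1 R G p' X ∂(iid (Fin n) μ) = 0 := by
  obtain ⟨i, j⟩ := p
  obtain ⟨i', j'⟩ := p'
  by_cases hi : i = i'
  · subst hi
    have hj : j ≠ j' := fun e => hne (by rw [e])
    have e : ∀ X, lowTerm μ D0 D1 R G (i, j) X * lowTerm μ D0 D1 R G (i, j') X = 0 := by
      intro X
      unfold lowTerm
      by_cases hx : X i ∈ R j
      · rw [lowXi_zero μ (D0 := D0 j') (D1 := D1 j')
          (fun h' => Set.disjoint_left.1 (h.far0 j j' hj) h' hx)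
          (fun h' => Set.disjoint_left.1 (h.far1 j j' hj) h' hx)]
        simp
      · rw [lowXi_zero μ (D0 := D0 j) (D1 := D1 j) (fun h' => hx (h.sub0 j h'))
          (fun h' => hx (h.sub1 j h'))]
        simp
    simp [e]
  · rw [low_condition μ i ((h.low_term_bm (i, j)).mul (h.low_term_bm (i', j')))]
    have e : ∀ X, ∫ x, lowTerm μ D0 D1 R G (i, j) (Function.update X i x) *
        lowTerm μ D0 D1 R G (i', j') (Function.update X i x) ∂μ = 0 := by
      intro X
      have e1 : ∀ x, lowTerm μ D0 D1 R G (i, j) (Function.update X i x) *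
          lowTerm μ D0 D1 R G (i', j') (Function.update X i x) =
          (lowInd (lowEv (R j) (G j) i) X * lowXi μ (D0 j') (D1 j') (X i') *
            lowInd (lowEv (R j') (G j') i') (Function.update X i x)) *
            lowXi μ (D0 j) (D1 j) x := by
        intro x
        rw [lowTerm_update (i, j) X x]
        unfold lowTerm
        simp only [Function.update_of_ne (Ne.symm hi)]
        ring
      simp only [e1]
      refine lowXi_orth μ (h.meas0 _) (h.meas1 _) (hα.trans_le (h.low_big0 _))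
        (hα.trans_le (h.low_big1 _)) fun x y hx hy => ?_
      congr 1
      by_cases hj : j = j'
      · subst hj
        have k : ∀ z, (z ∈ D0 j ∨ z ∈ D1 j) → Function.update X i z ∉ lowEv (R j) (G j) i' := by
          intro z hz
          rcases hz with hz | hz
          · exact lowEv_update_same hi X (h.sub0 j hz)
              fun k => Set.disjoint_left.1 (h.disj0G j k) hz
          · exact lowEv_update_same hi X (h.sub1 j hz)
              fun k => Set.disjoint_left.1 (h.disj1G j k) hz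
        rw [lowInd_of_notMem (k x hx), lowInd_of_notMem (k y hy)]
      · have k : ∀ z, (z ∈ D0 j ∨ z ∈ D1 j) → z ∉ R j' := by
          intro z hz
          rcases hz with hz | hz
          · exact Set.disjoint_left.1 (h.far0 j' j (Ne.symm hj)) hz
          · exact Set.disjoint_left.1 (h.far1 j' j (Ne.symm hj)) hz
        exact lowInd_congr ⟨lowEv_update_far (h.subG j') X (k x hx) (k y hy),
          lowEv_update_far (h.subG j') X (k y hy) (k x hx)⟩
    simp [e]

theorem LowerData.low_main [Fintype J] (h : LowerData μ n a b D0 D1 R G g M) (ha : 0 < a)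
    (hn : 0 < n) {p0 : ℝ} (hp0 : 0 ≤ p0)
    (hp : ∀ i j, p0 ≤ (iid (Fin n) μ).real (lowEv (R j) (G j) i)) :
    a * p0 ^ 2 / 2 * Fintype.card J ≤ Var[g; iid (Fin n) μ] := by
  have hn' : (0 : ℝ) < n := by exact_mod_cast hn
  have hα : 0 < a / n := div_pos ha hn'
  set P := iid (Fin n) μ with hP
  set H : (Fin n → E) → ℝ := fun X => ∑ p : Fin n × J, lowTerm μ D0 D1 R G p X with hH
  have bH : LowBM H := LowBM.sum _ h.low_term_bm
  have bg := h.low_bm
  have e0 : ∫ X, H X ∂P = 0 := by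
    rw [hH, integral_finsetSum _ fun p _ => (h.low_term_bm p).integrable P]
    exact Finset.sum_eq_zero fun p _ => h.low_mean hα p
  have e1 : n * Fintype.card J * p0 ≤ ∫ X, g X * H X ∂P := by
    simp only [hH, Finset.mul_sum]
    rw [integral_finsetSum _ fun p _ => (bg.mul (h.low_term_bm p)).integrable P]
    calc (n : ℝ) * Fintype.card J * p0 = ∑ _p : Fin n × J, p0 := by
          rw [Finset.sum_const, nsmul_eq_mul, Finset.card_univ, Fintype.card_prod,
            Fintype.card_fin, Nat.cast_mul]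
      _ ≤ _ := Finset.sum_le_sum fun p _ => (hp p.1 p.2).trans (h.low_corr hα p)
  have e2 : ∫ X, H X * H X ∂P ≤ n * Fintype.card J * (2 / (a / n)) := by
    simp only [hH, Finset.sum_mul_sum]
    rw [integral_finsetSum _ fun p _ =>
      (LowBM.sum _ fun p' => (h.low_term_bm p).mul (h.low_term_bm p')).integrable P]
    calc _ ≤ ∑ _p : Fin n × J, 2 / (a / n) := by
          refine Finset.sum_le_sum fun p _ => ?_
          rw [integral_finsetSum _ fun p' _ =>
            ((h.low_term_bm p).mul (h.low_term_bm p')).integrable P,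
            Finset.sum_eq_single p (fun p' _ hne => h.low_off hα (Ne.symm hne))
              (fun hp => absurd (Finset.mem_univ p) hp)]
          exact h.low_diag hα p
      _ = _ := by
          rw [Finset.sum_const, nsmul_eq_mul, Finset.card_univ, Fintype.card_prod,
            Fintype.card_fin, Nat.cast_mul]
  rw [variance_eq_integral h.measg.aemeasurable]
  set m := ∫ X, g X ∂P with hm
  set t := a * p0 / (2 * n) with ht
  have ht0 : 0 ≤ t := by positivity
  have b1 := (LowBM.const (α := Fin n → E) (2 * t)).mul (bg.mul bH)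
  have b2 := (LowBM.const (α := Fin n → E) (2 * t * m)).mul bH
  have b3 := (LowBM.const (α := Fin n → E) (t ^ 2)).mul (bH.mul bH)
  have b4 := (bg.sub (LowBM.const m)).mul (bg.sub (LowBM.const m))
  have key : ∫ X, (2 * t * (g X * H X) - 2 * t * m * H X - t ^ 2 * (H X * H X)) ∂P ≤
      ∫ X, (g X - m) ^ 2 ∂P := by
    refine integral_mono (((b1.sub b2).sub b3).integrable P) ?_ fun X => ?_
    · simpa only [sq] using b4.integrable P
    · have := sq_nonneg (g X - m - t * H X)
      simp only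
      nlinarith
  rw [integral_sub ((b1.sub b2).integrable P) (b3.integrable P),
    integral_sub (b1.integrable P) (b2.integrable P), integral_const_mul, integral_const_mul,
    integral_const_mul, e0] at key
  have k1 := mul_le_mul_of_nonneg_left e1 (show 0 ≤ 2 * t by positivity)
  have k2 := mul_le_mul_of_nonneg_left e2 (sq_nonneg t)
  have k3 : 2 * t * (n * Fintype.card J * p0) - t ^ 2 * (n * Fintype.card J * (2 / (a / n))) =
      a * p0 ^ 2 / 2 * Fintype.card J := by
    rw [ht]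
    field_simp
    ring
  linarith

end Main

theorem var_lower (q : ℕ) {a b : ℝ} (ha : 0 < a) (hb : 0 < b) :
    ∃ c : ℝ, 0 < c ∧ ∃ n0 : ℕ, ∀ n, n0 ≤ n → ∀ (E : Type) [MeasurableSpace E] (μ : Measure E)
      [IsProbabilityMeasure μ] (J : Type) [Fintype J] (D0 D1 R : J → Set E)
      (G : J → Fin q → Set E) (g : (Fin n → E) → ℝ) (M : ℝ),
      LowerData μ n a b D0 D1 R G g M → c * Fintype.card J ≤ Var[g; iid (Fin n) μ] := by
  have he : Real.exp (-b) / 2 < Real.exp (-b) := half_lt_self (Real.exp_pos _)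
  obtain ⟨n1, hn1⟩ := Filter.eventually_atTop.1
    ((Real.tendsto_one_add_div_pow_exp (-b)).eventually_const_le he)
  obtain ⟨n2, hn2⟩ := exists_nat_ge b
  set p0 : ℝ := (a / 2) ^ q * (Real.exp (-b) / 2) with hp0
  have hp : 0 < p0 := by positivity
  refine ⟨a * p0 ^ 2 / 2, by positivity, n1 + n2 + 2 * q + 1, fun n hn E _ μ _ J _ D0 D1 R G g M h =>
    h.low_main ha (by omega) hp.le fun i j => ?_⟩
  have hn0 : (0 : ℝ) < n := by exact_mod_cast (show 0 < n by omega)
  have hbn : b ≤ n := hn2.trans (by exact_mod_cast (show n2 ≤ n by omega))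
  have hv : 0 ≤ 1 + -b / n := by
    have : b / n ≤ 1 := (div_le_one hn0).2 hbn
    rw [neg_div]; linarith
  have hb0 : 0 ≤ b / n := by positivity
  have hv1 : 1 + -b / n ≤ 1 := by rw [neg_div]; linarith
  have hR : μ.real (R j) ≤ 1 - (1 + -b / n) := by
    have := ENNReal.toReal_le_of_le_ofReal hb0 (h.smallR j)
    rw [neg_div, measureReal_def]; linarith
  refine le_trans ?_ (lowEv_prob μ (h.measR j) (h.measG j) (h.subG j) (h.disjG j)
    (u := a / n) (by positivity) hv hv1 (h.low_bigG j) hR i)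
  have h1 : (n : ℝ) / 2 ≤ ((n - q : ℕ) : ℝ) := by
    rw [Nat.cast_sub (by omega)]
    have : (2 * q : ℝ) ≤ n := by exact_mod_cast (show 2 * q ≤ n by omega)
    linarith
  have h2 : (a / 2) ^ q ≤ ((n - q : ℕ) : ℝ) ^ q * (a / n) ^ q := by
    rw [← mul_pow]
    refine pow_le_pow_left₀ (by positivity) ?_ q
    calc a / 2 = n / 2 * (a / n) := by field_simp
      _ ≤ _ := mul_le_mul_of_nonneg_right h1 (by positivity)
  rw [← mul_assoc]
  exact mul_le_mul h2 (hn1 n (by omega)) (by positivity) (by positivity)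

end Pool.Agent.Lib.MP_258d0c_pr
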