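import Pool.Agent.Lib.MP_258d0c_pr.Core

open MeasureTheory ProbabilityTheory
open scoped ENNReal Classical InnerProductSpace

namespace Pool.Agent.Lib.MP_258d0c_pr

theorem meas_proj {T L : Type} [TopologicalSpace T] [TopologicalSpace L] {K : Set L}
    (hK : IsCompact K) {C : T → L → Prop} (hC : IsClosed {q : T × L | C q.1 q.2}) :
    IsClosed {t | ∃ l ∈ K, C t l} := by
  have : CompactSpace K := isCompact_iff_compactSpace.1 hK
  have h := isClosedMap_fst_of_compactSpace _ (hC.preimage
    (show Continuous fun q : T × K => (q.1, (q.2 : L)) by fun_prop))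
  convert h using 1
  ext t
  simp

variable {E : Type} [NormedAddCommGroup E] [NormedSpace ℝ E] [FiniteDimensional ℝ E]
  [MeasurableSpace E] [BorelSpace E] {ι : Type} [Fintype ι]

theorem measurableSet_Vis (S : Finset ι) :
    MeasurableSet {q : (ι → E) × E × E | Vis q.1 S q.2.1 q.2.2} := by
  have := FiniteDimensional.proper_real E
  have := FiniteDimensional.proper_real (E →L[ℝ] ℝ)
  have h := meas_proj (isCompact_sphere (0 : E →L[ℝ] ℝ) 1)
    (C := fun (q : (ι → E) × E × E) l => ∀ j ∈ S, l (q.1 j) ≤ l q.2.1 ∧ l (q.1 j) ≤ l q.2.2) (by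
      simp only [Set.ofPred_forall, Set.ofPred_and]
      exact isClosed_iInter fun j => isClosed_iInter fun _ =>
        (isClosed_le (by fun_prop) (by fun_prop)).inter (isClosed_le (by fun_prop) (by fun_prop)))
  convert h.measurableSet using 1
  ext q
  constructor
  · rintro ⟨l, hl, h⟩
    have hn : 0 < ‖l‖⁻¹ := inv_pos.2 (norm_pos_iff.2 hl)
    refine ⟨‖l‖⁻¹ • l, by simp [norm_smul, hl], fun j hj => ?_⟩
    simp only [smul_apply, smul_eq_mul]
    exact ⟨mul_le_mul_of_nonneg_left (h j hj).1 hn.le, mul_le_mul_of_nonneg_left (h j hj).2 hn.le⟩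
  · rintro ⟨l, hl, h⟩
    exact ⟨l, ne_zero_of_mem_unit_sphere ⟨l, hl⟩, h⟩

theorem measurable_vis (S : Finset ι) : Measurable fun q : (ι → E) × E => vis q.1 S q.2 := by
  simp only [vis, Finset.card_filter]
  refine Finset.measurable_sum _ fun j _ => Measurable.ite ?_ measurable_const measurable_const
  exact (show Measurable fun q : (ι → E) × E => (q.1, q.2, q.1 j) by fun_prop) (measurableSet_Vis S)

theorem meas_Fac (S I : Finset ι) : MeasurableSet {U : ι → E | Fac U S I} := by
  have := FiniteDimensional.proper_real E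
  have := FiniteDimensional.proper_real (E →L[ℝ] ℝ)
  rcases I.eq_empty_or_nonempty with rfl | ⟨i0, h0⟩
  · convert MeasurableSet.univ
    exact Set.eq_univ_of_forall fun U => ⟨0, 1, by simp, by simp⟩
  have h := fun k : ℕ => meas_proj (isCompact_closedBall (0 : E →L[ℝ] ℝ) k)
    (C := fun (U : ι → E) l => (∀ i ∈ I, l (U i) = l (U i0)) ∧
      ∀ j ∈ S, j ∉ I → l (U j) + 1 ≤ l (U i0)) (by
      simp only [Set.ofPred_forall, Set.ofPred_and]
      exact (isClosed_iInter fun j => isClosed_iInter fun _ =>
        isClosed_eq (by fun_prop) (by fun_prop)).inter (isClosed_iInter fun j =>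
          isClosed_iInter fun _ => isClosed_iInter fun _ => isClosed_le (by fun_prop) (by fun_prop)))
  convert MeasurableSet.iUnion fun k => (h k).measurableSet using 1
  ext U
  simp only [Set.mem_iUnion, Set.mem_ofPred_eq]
  constructor
  · rintro ⟨l, c, h1, h2⟩
    have h3 : ∀ᶠ t : ℝ in Filter.atTop, ∀ j ∈ S, j ∉ I → 1 ≤ t * (c - l (U j)) :=
      (Filter.eventually_all_finset S).2 fun j hj => by
        by_cases hI : j ∈ I
        · exact Filter.Eventually.of_forall fun _ h => absurd hI h
        · exact ((Filter.tendsto_id.atTop_mul_const (sub_pos.2 (h2 j hj hI))).eventually_ge_atTop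
            1).mono fun _ h _ => h
    obtain ⟨t, ht⟩ := h3.exists
    obtain ⟨k, hk⟩ := exists_nat_ge ‖t • l‖
    refine ⟨k, t • l, by simpa using hk, fun i hi => ?_, fun j hj hI => ?_⟩
    · simp only [smul_apply, h1 i hi, h1 i0 h0]
    · simp only [smul_apply, h1 i0 h0, smul_eq_mul]
      linarith [ht j hj hI]
  · rintro ⟨k, l, -, h1, h2⟩
    exact ⟨l, _, h1, fun j hj hI => by linarith [h2 j hj hI]⟩

theorem measurable_cnt (D : ℕ) (S : Finset ι) : Measurable fun U : ι → E => cnt D U S := by
  simp only [cnt, Finset.card_filter]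
  exact Finset.measurable_sum _ fun I _ =>
    Measurable.ite (meas_Fac S I) measurable_const measurable_const

end Pool.Agent.Lib.MP_258d0c_pr
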