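import Pool.Agent.Lib.MP_258d0c_pr.Cap

open MeasureTheory ProbabilityTheory
open scoped ENNReal Classical InnerProductSpace

namespace Pool.Agent.Lib.MP_258d0c_pr

/-- the point of the unit sphere above `w` -/
private noncomputable def pack_lift {k : ℕ} (w : Fin k → ℝ) : EuclideanSpace ℝ (Fin (k + 1)) :=
  WithLp.toLp 2 (Fin.cons (√(1 - ∑ i, w i ^ 2)) w)

private theorem pack_lift_norm {k : ℕ} {w : Fin k → ℝ} (hw : ∑ i, w i ^ 2 ≤ 1) :
    ‖pack_lift w‖ = 1 := by
  have h : ‖pack_lift w‖ ^ 2 = 1 := by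
    rw [EuclideanSpace.real_norm_sq_eq, Fin.sum_univ_succ]
    simp only [pack_lift, Fin.cons_zero, Fin.cons_succ]
    rw [Real.sq_sqrt (by linarith)]
    ring
  exact (pow_eq_one_iff_of_nonneg (norm_nonneg _) two_ne_zero).1 h

private theorem pack_lift_sub {k : ℕ} (w w' : Fin k → ℝ) (i : Fin k) :
    (w i - w' i) ^ 2 ≤ ‖pack_lift w - pack_lift w'‖ ^ 2 := by
  rw [EuclideanSpace.real_norm_sq_eq]
  have h := Finset.single_le_sum (f := fun j => (pack_lift w - pack_lift w') j ^ 2)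
    (fun j _ => sq_nonneg _) (Finset.mem_univ i.succ)
  simpa [pack_lift] using h

theorem sphere_pack {k : ℕ} (hk : 1 ≤ k) {K : ℝ} (hK : 0 < K) :
    ∃ c : ℝ, 0 < c ∧ ∀ s : ℝ, 0 < s → s ≤ 1 → ∃ Θ : Finset (EuclideanSpace ℝ (Fin k)),
      (∀ e ∈ Θ, ‖e‖ = 1) ∧ (∀ e ∈ Θ, ∀ e' ∈ Θ, e ≠ e' → K * s < ‖e - e'‖ ^ 2) ∧
        c * s ^ (-(((k : ℝ) - 1) / 2)) ≤ Θ.card := by
  obtain ⟨k, rfl⟩ : ∃ k', k = k' + 1 := ⟨k - 1, by omega⟩
  have hk0 : (0 : ℝ) < (k : ℝ) + 1 := by positivity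
  have hK1 : 0 < √(K + 1) := Real.sqrt_pos.2 (by linarith)
  refine ⟨(1 / (((k : ℝ) + 1) * √(K + 1))) ^ k, by positivity, fun s hs _ => ?_⟩
  have hs1 : 0 < √s := Real.sqrt_pos.2 hs
  set a : ℝ := √(K + 1) * √s with ha
  have ha0 : 0 < a := by positivity
  have ha2 : a ^ 2 = (K + 1) * s := by
    rw [ha, mul_pow, Real.sq_sqrt (by linarith), Real.sq_sqrt hs.le]
  set N : ℕ := ⌊1 / (((k : ℝ) + 1) * a)⌋₊ + 1 with hN
  let φ : (Fin k → Fin N) → EuclideanSpace ℝ (Fin (k + 1)) :=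
    fun f => pack_lift fun i => a * (f i : ℕ)
  have hsep : ∀ f f', f ≠ f' → K * s < ‖φ f - φ f'‖ ^ 2 := by
    intro f f' hne
    obtain ⟨i, hi⟩ := Function.ne_iff.1 hne
    refine lt_of_lt_of_le ?_ (pack_lift_sub _ _ i)
    have h1 : ((f i : ℕ) : ℤ) - ((f' i : ℕ) : ℤ) ≠ 0 := by
      rw [sub_ne_zero]
      exact_mod_cast Fin.val_ne_of_ne hi
    have h2 : (1 : ℤ) ≤ (((f i : ℕ) : ℤ) - ((f' i : ℕ) : ℤ)) ^ 2 := by
      have := sq_pos_of_ne_zero h1
      omega
    have h3 : (1 : ℝ) ≤ (((f i : ℕ) : ℝ) - ((f' i : ℕ) : ℝ)) ^ 2 := by exact_mod_cast h2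
    rw [← mul_sub, mul_pow, ha2]
    nlinarith [mul_pos hK hs]
  have hinj : Function.Injective φ := by
    intro f f' h
    by_contra hne
    have := hsep f f' hne
    rw [h, sub_self, norm_zero] at this
    nlinarith [mul_pos hK hs]
  refine ⟨Finset.univ.image φ, fun e he => ?_, fun e he e' he' hne => ?_, ?_⟩
  · obtain ⟨f, -, rfl⟩ := Finset.mem_image.1 he
    refine pack_lift_norm ?_
    have h1 : ∀ i, (a * (f i : ℕ)) ^ 2 ≤ 1 / ((k : ℝ) + 1) := by
      intro i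
      have h2 : ((f i : ℕ) : ℝ) ≤ 1 / (((k : ℝ) + 1) * a) :=
        (Nat.le_floor_iff (by positivity)).1 (Nat.lt_succ_iff.1 (f i).2)
      have h3 : a * (f i : ℕ) ≤ 1 / ((k : ℝ) + 1) := by
        rw [le_div_iff₀ (by positivity)] at h2
        rw [le_div_iff₀ hk0]
        linarith
      have h4 : 1 / ((k : ℝ) + 1) ≤ 1 := by
        rw [div_le_one hk0]
        have : (0 : ℝ) ≤ k := Nat.cast_nonneg k
        linarith
      have h5 : 0 ≤ a * (f i : ℕ) := by positivity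
      nlinarith
    refine (Finset.sum_le_sum fun i _ => h1 i).trans ?_
    rw [Finset.sum_const, Finset.card_univ, Fintype.card_fin, nsmul_eq_mul, mul_one_div,
      div_le_one hk0]
    linarith
  · obtain ⟨f, -, rfl⟩ := Finset.mem_image.1 he
    obtain ⟨f', -, rfl⟩ := Finset.mem_image.1 he'
    exact hsep f f' fun h => hne (by rw [h])
  · rw [Finset.card_image_of_injective _ hinj, Finset.card_univ, Fintype.card_fun,
      Fintype.card_fin, Fintype.card_fin]
    have h1 : s ^ (-((((k + 1 : ℕ) : ℝ) - 1) / 2)) = (1 / √s) ^ k := by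
      rw [Real.sqrt_eq_rpow, one_div, ← Real.rpow_neg hs.le, ← Real.rpow_natCast,
        ← Real.rpow_mul hs.le]
      congr 1
      push_cast
      ring
    rw [h1, ← mul_pow, Nat.cast_pow]
    refine pow_le_pow_left₀ (by positivity) ?_ k
    have h2 : 1 / (((k : ℝ) + 1) * √(K + 1)) * (1 / √s) = 1 / (((k : ℝ) + 1) * a) := by
      rw [ha]
      field_simp
    rw [h2, hN]
    push_cast
    exact (Nat.lt_floor_add_one _).le

variable {m : ℕ} {d : Fin m → ℕ} {β : Fin m → ℝ}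

/-- logarithmic scales: a separated family of points of the simplex `∑ γ i * t i = x` supported
on `I` -/
private theorem pack_scales {γ : Fin m → ℝ} (hγ : ∀ i, 1 ≤ γ i) {I : Finset (Fin m)} {i0 : Fin m}
    (hi0 : i0 ∈ I) {η : ℝ} (hη : 0 < η) :
    ∃ c : ℝ, 0 < c ∧ ∀ x : ℝ, 0 ≤ x → ∃ T : Finset (Fin m → ℝ),
      (∀ t ∈ T, (∀ i, 0 ≤ t i) ∧ (∀ i, i ∉ I → t i = 0) ∧ ∑ i, γ i * t i = x) ∧
      (∀ t ∈ T, ∀ t' ∈ T, t ≠ t' → ∃ i, t' i + η ≤ t i) ∧
      c * x ^ (I.card - 1) ≤ T.card := by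
  have hγ0 : ∀ i, 0 < γ i := fun i => lt_of_lt_of_le one_pos (hγ i)
  set Γ : ℝ := ∑ i, γ i with hΓ
  have hΓ0 : 0 < Γ := Finset.sum_pos (fun i _ => hγ0 i) ⟨i0, Finset.mem_univ _⟩
  set lam : ℝ := γ i0 * η with hlam
  have hlam0 : 0 < lam := mul_pos (hγ0 i0) hη
  have hlam1 : η ≤ lam := le_mul_of_one_le_left hη.le (hγ i0)
  refine ⟨(1 / (lam * Γ)) ^ (I.card - 1), by positivity, fun x hx => ?_⟩
  set L : ℕ := ⌊x / (lam * Γ)⌋₊ + 1 with hL
  let A : Finset (Fin m → ℕ) :=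
    Fintype.piFinset fun i => if i ∈ I.erase i0 then Finset.range L else {0}
  have hA0 : ∀ a ∈ A, ∀ i, i ∉ I.erase i0 → a i = 0 := by
    intro a ha i hi
    have := Fintype.mem_piFinset.1 ha i
    rwa [if_neg hi, Finset.mem_singleton] at this
  have hA1 : ∀ a ∈ A, ∀ i, (a i : ℝ) ≤ x / (lam * Γ) := by
    intro a ha i
    by_cases hi : i ∈ I.erase i0
    · have := Fintype.mem_piFinset.1 ha i
      rw [if_pos hi, Finset.mem_range, hL, Nat.lt_succ_iff] at this
      exact (Nat.le_floor_iff (by positivity)).1 this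
    · rw [hA0 a ha i hi, Nat.cast_zero]
      positivity
  let σ : (Fin m → ℕ) → ℝ := fun a => ∑ i, γ i * (lam * a i)
  let φ : (Fin m → ℕ) → Fin m → ℝ :=
    fun a => Function.update (fun i => lam * a i) i0 ((x - σ a) / γ i0)
  have hφ0 : ∀ a, φ a i0 = (x - σ a) / γ i0 := fun a => Function.update_self ..
  have hφ1 : ∀ a i, i ≠ i0 → φ a i = lam * a i := fun a i hi => Function.update_of_ne hi ..
  have hsep : ∀ a ∈ A, ∀ a' ∈ A, a ≠ a' → ∃ i, φ a' i + η ≤ φ a i := by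
    intro a ha a' ha' hne
    have h0 : a i0 = 0 := hA0 a ha i0 (by simp)
    have h0' : a' i0 = 0 := hA0 a' ha' i0 (by simp)
    by_cases hlt : ∃ i, a' i < a i
    · obtain ⟨i, hi⟩ := hlt
      have hi0' : i ≠ i0 := by
        rintro rfl
        omega
      refine ⟨i, ?_⟩
      rw [hφ1 _ _ hi0', hφ1 _ _ hi0']
      have h1 : (a' i : ℝ) + 1 ≤ a i := by exact_mod_cast hi
      nlinarith
    · push Not at hlt
      obtain ⟨i, hi⟩ := Function.ne_iff.1 hne
      have h1 : (a i : ℝ) + 1 ≤ a' i := by exact_mod_cast lt_of_le_of_ne (hlt i) hi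
      have h2 : lam ≤ σ a' - σ a := by
        rw [← Finset.sum_sub_distrib]
        refine le_trans ?_ (Finset.single_le_sum
          (f := fun i => γ i * (lam * a' i) - γ i * (lam * a i)) (fun j _ => ?_)
          (Finset.mem_univ i))
        · have h3 : lam ≤ lam * (a' i - a i) := le_mul_of_one_le_right hlam0.le (by linarith)
          have h4 : lam * (a' i - a i) ≤ γ i * (lam * (a' i - a i)) :=
            le_mul_of_one_le_left (by linarith) (hγ i)
          linarith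
        · have h3 : (a j : ℝ) ≤ a' j := by exact_mod_cast hlt j
          rw [← mul_sub, ← mul_sub]
          exact mul_nonneg (hγ0 j).le (mul_nonneg hlam0.le (by linarith))
      refine ⟨i0, ?_⟩
      rw [hφ0, hφ0, div_add' _ _ _ (hγ0 i0).ne']
      exact div_le_div_of_nonneg_right (by linarith) (hγ0 i0).le
  have hinj : Set.InjOn φ A := by
    intro a ha a' ha' h
    by_contra hne
    obtain ⟨i, hi⟩ := hsep a ha a' ha' hne
    rw [h] at hi
    linarith
  refine ⟨A.image φ, fun t ht => ?_, fun t ht t' ht' hne => ?_, ?_⟩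
  · obtain ⟨a, ha, rfl⟩ := Finset.mem_image.1 ht
    have h0 : a i0 = 0 := hA0 a ha i0 (by simp)
    refine ⟨fun i => ?_, fun i hi => ?_, ?_⟩
    · by_cases hi : i = i0
      · rw [hi, hφ0]
        refine div_nonneg (sub_nonneg.2 ?_) (hγ0 i0).le
        calc σ a ≤ ∑ i, γ i * (lam * (x / (lam * Γ))) := Finset.sum_le_sum fun i _ =>
              mul_le_mul_of_nonneg_left (mul_le_mul_of_nonneg_left (hA1 a ha i) hlam0.le)
                (hγ0 i).le
          _ = x := by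
            rw [← Finset.sum_mul, ← hΓ]
            field_simp
      · rw [hφ1 _ _ hi]
        positivity
    · have hi' : i ≠ i0 := fun h => hi (h ▸ hi0)
      rw [hφ1 _ _ hi', hA0 a ha i fun h => hi (Finset.mem_of_mem_erase h)]
      simp
    · have h1 : σ a = ∑ i ∈ Finset.univ.erase i0, γ i * φ a i := by
        rw [show σ a = ∑ i, γ i * (lam * a i) from rfl,
          ← Finset.add_sum_erase _ _ (Finset.mem_univ i0), h0]
        simp only [Nat.cast_zero, mul_zero, zero_add]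
        exact Finset.sum_congr rfl fun i hi => by rw [hφ1 _ _ (Finset.ne_of_mem_erase hi)]
      rw [← Finset.add_sum_erase _ _ (Finset.mem_univ i0), ← h1, hφ0,
        mul_div_cancel₀ _ (hγ0 i0).ne']
      ring
  · obtain ⟨a, ha, rfl⟩ := Finset.mem_image.1 ht
    obtain ⟨a', ha', rfl⟩ := Finset.mem_image.1 ht'
    exact hsep a ha a' ha' fun h => hne (by rw [h])
  · have h1 : A.card = L ^ (I.card - 1) := by
      rw [Fintype.card_piFinset, ← Finset.card_erase_of_mem hi0]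
      simp only [apply_ite Finset.card, Finset.card_range, Finset.card_singleton]
      rw [Finset.prod_ite_mem, Finset.univ_inter, Finset.prod_const]
    rw [Finset.card_image_of_injOn hinj, h1, ← mul_pow, Nat.cast_pow]
    refine pow_le_pow_left₀ (by positivity) ?_ _
    rw [one_div_mul_eq_div, hL]
    push_cast
    exact (Nat.lt_floor_add_one _).le

theorem packing (hm : 1 ≤ m) (hd : ∀ i, 1 ≤ d i) (hβ : ∀ i, 0 ≤ β i) {K : ℝ} (hK : 1 ≤ K) :
    ∃ c : ℝ, 0 < c ∧ ∃ n0 : ℕ, ∀ n : ℕ, n0 ≤ n → ∃ J : Finset (Amb d × (Fin m → ℝ)),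
      (∀ p ∈ J, (∀ i, ‖p.1 i‖ = 1) ∧ (∀ i, 0 < p.2 i ∧ p.2 i ≤ 1) ∧
        ∏ i, p.2 i ^ gam d β i = 1 / (n : ℝ)) ∧
      (∀ p ∈ J, ∀ p' ∈ J, p ≠ p' →
        ∃ i, 4 * K * p.2 i < p'.2 i ∨ 36 * K * p.2 i < ‖p.1 i - p'.1 i‖ ^ 2) ∧
      c * order d β n ≤ J.card := by
  obtain ⟨i0, hi0⟩ := exists_kap_eq hm hd hβ
  set I : Finset (Fin m) := Finset.univ.filter fun i => kap d β * gam d β i = alp β i with hI
  have hη : 0 < Real.log (4 * K + 1) := Real.log_pos (by linarith)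
  obtain ⟨c0, hc0, hT⟩ := pack_scales (one_le_gam hd hβ) (I := I) (i0 := i0) (by simp [hI, hi0]) hη
  choose c hc Θ hΘ using fun i => sphere_pack (hd i) (K := 36 * K) (by linarith)
  refine ⟨c0 * ∏ i, c i, mul_pos hc0 (Finset.prod_pos fun i _ => hc i), 1, fun n hn => ?_⟩
  have hn0 : (0 : ℝ) < n := by exact_mod_cast hn
  obtain ⟨T, hT1, hT2, hT3⟩ := hT (Real.log n) (Real.log_natCast_nonneg n)
  have hle : ∀ t : T, ∀ i, Real.exp (-t.1 i) ≤ 1 := fun t i =>
    Real.exp_le_one_iff.2 (neg_nonpos.2 ((hT1 t.1 t.2).1 i))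
  let D : T → Finset (Amb d) := fun t =>
    Fintype.piFinset fun i => Θ i (Real.exp (-t.1 i)) (Real.exp_pos _) (hle t i)
  let ψ : (Σ _ : T, Amb d) → Amb d × (Fin m → ℝ) := fun q => (q.2, fun i => Real.exp (-q.1.1 i))
  have hψ : Function.Injective ψ := by
    rintro ⟨t, e⟩ ⟨t', e'⟩ h
    obtain ⟨h1, h2⟩ := Prod.ext_iff.1 h
    have h3 : t = t' := Subtype.ext (funext fun i =>
      neg_injective (Real.exp_injective (congrFun h2 i)))
    subst h3
    have h4 : e = e' := h1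
    rw [h4]
  refine ⟨(Finset.univ.sigma D).image ψ, fun p hp => ?_, fun p hp p' hp' hne => ?_, ?_⟩
  · obtain ⟨⟨t, e⟩, hq, rfl⟩ := Finset.mem_image.1 hp
    have he := Fintype.mem_piFinset.1 (Finset.mem_sigma.1 hq).2
    refine ⟨fun i => (hΘ i _ _ _).1 _ (he i), fun i => ⟨Real.exp_pos _, hle t i⟩, ?_⟩
    simp only [ψ, ← Real.exp_mul, ← Real.exp_sum]
    rw [one_div, ← Real.exp_log hn0, ← Real.exp_neg, ← (hT1 t.1 t.2).2.2, ← Finset.sum_neg_distrib]
    congr 1
    exact Finset.sum_congr rfl fun i _ => by ring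
  · obtain ⟨⟨t, e⟩, hq, rfl⟩ := Finset.mem_image.1 hp
    obtain ⟨⟨t', e'⟩, hq', rfl⟩ := Finset.mem_image.1 hp'
    have he := Fintype.mem_piFinset.1 (Finset.mem_sigma.1 hq).2
    have he' := Fintype.mem_piFinset.1 (Finset.mem_sigma.1 hq').2
    by_cases htt : t = t'
    · subst htt
      have h1 : e ≠ e' := fun h => hne (by rw [h])
      obtain ⟨i, hi⟩ := Function.ne_iff.1 h1
      exact ⟨i, Or.inr ((hΘ i _ _ _).2.1 _ (he i) _ (he' i) hi)⟩
    · obtain ⟨i, hi⟩ := hT2 t.1 t.2 t'.1 t'.2 fun h => htt (Subtype.ext h)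
      refine ⟨i, Or.inl ?_⟩
      have h1 : Real.exp (Real.log (4 * K + 1) + -t.1 i) ≤ Real.exp (-t'.1 i) :=
        Real.exp_le_exp.2 (by linarith)
      rw [Real.exp_add, Real.exp_log (by linarith)] at h1
      have h2 := Real.exp_pos (-t.1 i)
      show 4 * K * Real.exp (-t.1 i) < Real.exp (-t'.1 i)
      linarith
  · have h1 : ∀ t : T, (∏ i, c i) * (n : ℝ) ^ (1 - kap d β) ≤ (D t).card := by
      intro t
      obtain ⟨-, h3, h4⟩ := hT1 t.1 t.2
      have h2 : (n : ℝ) ^ (1 - kap d β) =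
          ∏ i, Real.exp (-t.1 i) ^ (-(((d i : ℝ) - 1) / 2)) := by
        simp only [← Real.exp_mul, ← Real.exp_sum]
        rw [Real.rpow_def_of_pos hn0, ← h4, Finset.sum_mul]
        congr 1
        refine Finset.sum_congr rfl fun i _ => ?_
        by_cases hi : i ∈ I
        · have h5 : kap d β * gam d β i = alp β i := (Finset.mem_filter.1 hi).2
          have h6 : ((d i : ℝ) - 1) / 2 = gam d β i - alp β i := by
            unfold gam alp
            ring
          rw [h6, ← h5]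
          ring
        · simp [h3 i hi]
      rw [h2, ← Finset.prod_mul_distrib, Fintype.card_piFinset, Nat.cast_prod]
      exact Finset.prod_le_prod (fun i _ => mul_nonneg (hc i).le (by positivity))
        fun i _ => (hΘ i _ _ _).2.2
    rw [Finset.card_image_of_injective _ hψ, Finset.card_sigma, Nat.cast_sum, order_eq hm hd hβ,
      kMult_eq hm hd hβ]
    refine le_trans ?_ (Finset.sum_le_sum fun t _ => h1 t)
    rw [Finset.sum_const, Finset.card_univ, Fintype.card_coe, nsmul_eq_mul]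
    have h5 : 0 ≤ (∏ i, c i) * (n : ℝ) ^ (1 - kap d β) :=
      mul_nonneg (Finset.prod_nonneg fun i _ => (hc i).le) (by positivity)
    calc c0 * (∏ i, c i) * ((n : ℝ) ^ (1 - kap d β) * Real.log n ^ (I.card - 1))
        = c0 * Real.log n ^ (I.card - 1) * ((∏ i, c i) * (n : ℝ) ^ (1 - kap d β)) := by ring
      _ ≤ _ := mul_le_mul_of_nonneg_right hT3 h5

end Pool.Agent.Lib.MP_258d0c_pr
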