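import Pool.Agent.Lib.MP_258d0c_pr.Comb
import Pool.Agent.Lib.MP_258d0c_pr.Meas
import Pool.Agent.Lib.MP_258d0c_pr.Lower
import Pool.Agent.Lib.MP_258d0c_pr.Local
import Pool.Agent.Lib.MP_258d0c_pr.BlockLow
import Pool.Agent.Lib.MP_258d0c_pr.BlockUp
import Pool.Agent.Lib.MP_258d0c_pr.Pack

open MeasureTheory ProbabilityTheory
open scoped ENNReal Classical InnerProductSpace

namespace Pool.Agent.Lib.MP_258d0c_pr

section OneBlock

variable {k : ℕ}

theorem lg_rho (z : Fin k) {e : EuclideanSpace ℝ (Fin k)} (he : ‖e‖ = 1) {s : ℝ}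
    {u w : EuclideanSpace ℝ (Fin k)} (h1 : ⟪e, w⟫_ℝ = -(s * u z)) :
    1 - ⟪e, e + w⟫_ℝ = s * u z := by
  rw [inner_add_right, real_inner_self_eq_norm_sq, he, h1]
  ring

theorem lg_h (z : Fin k) {e : EuclideanSpace ℝ (Fin k)} (he : ‖e‖ = 1) {s : ℝ}
    {u w : EuclideanSpace ℝ (Fin k)} (h1 : ⟪e, w⟫_ℝ = -(s * u z))
    (h2 : ‖w‖ ^ 2 = s ^ 2 * u z ^ 2 + s * (‖u‖ ^ 2 - u z ^ 2)) :
    1 - ‖e + w‖ ^ 2 = s * (2 * u z - s * u z ^ 2 - (‖u‖ ^ 2 - u z ^ 2)) := by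
  rw [norm_add_sq_real, he, h1, h2]
  ring

theorem lg_ball (z : Fin k) {u : EuclideanSpace ℝ (Fin k)}
    (hu : u ∈ Metric.ball (EuclideanSpace.single z (1 : ℝ)) (1 / 10)) :
    9 / 10 ≤ u z ∧ u z ≤ 11 / 10 ∧ ‖u‖ ^ 2 - u z ^ 2 ≤ 1 / 100 := by
  rw [mem_ball_iff_norm] at hu
  have h1 : ‖(u - EuclideanSpace.single z (1 : ℝ)) z‖ ≤ ‖u - EuclideanSpace.single z (1 : ℝ)‖ :=
    PiLp.norm_apply_le _ z
  have h2 : (u - EuclideanSpace.single z (1 : ℝ)) z = u z - 1 := by simp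
  rw [h2, Real.norm_eq_abs] at h1
  have h3 := abs_le.1 (h1.trans hu.le)
  have h4 : ‖u - EuclideanSpace.single z (1 : ℝ)‖ ^ 2 = ‖u‖ ^ 2 - 2 * u z + 1 := by
    rw [norm_sub_sq_real, EuclideanSpace.inner_single_right]
    simp
  have h5 : ‖u - EuclideanSpace.single z (1 : ℝ)‖ ^ 2 ≤ 1 / 100 := by
    have := norm_nonneg (u - EuclideanSpace.single z (1 : ℝ))
    nlinarith
  refine ⟨by linarith [h3.1], by linarith [h3.2], ?_⟩
  nlinarith [sq_nonneg (u z - 1)]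

end OneBlock

variable {m : ℕ} {d : Fin m → ℕ} {β : Fin m → ℝ}

/-- base point of the local model -/
noncomputable def lgO (hd : ∀ i, 1 ≤ d i) : Amb d :=
  fun i => EuclideanSpace.single (⟨0, hd i⟩ : Fin (d i)) (1 : ℝ)

/-- height functional of the local model -/
noncomputable def lgT (hd : ∀ i, 1 ≤ d i) : Amb d →L[ℝ] ℝ :=
  ∑ i, (EuclideanSpace.proj (⟨0, hd i⟩ : Fin (d i))).comp
    (ContinuousLinearMap.proj (R := ℝ) (φ := fun i => EuclideanSpace ℝ (Fin (d i))) i)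

theorem lgT_apply (hd : ∀ i, 1 ≤ d i) (u : Amb d) : lgT hd u = ∑ i, u i ⟨0, hd i⟩ := by
  simp [lgT]

theorem lgT_o (hd : ∀ i, 1 ≤ d i) : lgT hd (lgO hd) = m := by
  simp [lgT_apply, lgO]

theorem lgT_ne (hm : 1 ≤ m) (hd : ∀ i, 1 ≤ d i) : lgT hd ≠ 0 := by
  intro h
  have := lgT_o hd
  rw [h] at this
  have h2 : (1 : ℝ) ≤ m := by exact_mod_cast hm
  simp only [zero_apply] at this
  linarith

/-- the properties of a chart at direction `e` and scale `s` -/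
structure LgChart (hd : ∀ i, 1 ≤ d i) (e : Amb d) (s : Fin m → ℝ) (L : Amb d ≃L[ℝ] Amb d) :
    Prop where
  unit : ∀ i, ‖e i‖ = 1
  pos : ∀ i, 0 < s i
  le : ∀ i, s i ≤ 1
  inn : ∀ u i, ⟪e i, L u i⟫_ℝ = -(s i * u i ⟨0, hd i⟩)
  nrm : ∀ u i, ‖L u i‖ ^ 2 =
    s i ^ 2 * u i ⟨0, hd i⟩ ^ 2 + s i * (‖u i‖ ^ 2 - u i ⟨0, hd i⟩ ^ 2)

namespace LgChart

variable {hd : ∀ i, 1 ≤ d i} {e : Amb d} {s : Fin m → ℝ} {L : Amb d ≃L[ℝ] Amb d}

theorem e_mem (h : LgChart hd e s L) : e ∈ body d := fun i => (h.unit i).le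

theorem rho_eq (h : LgChart hd e s L) (u : Amb d) (i : Fin m) :
    rho e (e + L u) i = s i * u i ⟨0, hd i⟩ :=
  lg_rho _ (h.unit i) (h.inn u i)

theorem hh_eq (h : LgChart hd e s L) (u : Amb d) (i : Fin m) :
    hh (e + L u) i = s i * (2 * u i ⟨0, hd i⟩ - s i * u i ⟨0, hd i⟩ ^ 2 -
      (‖u i‖ ^ 2 - u i ⟨0, hd i⟩ ^ 2)) :=
  lg_h _ (h.unit i) (h.inn u i) (h.nrm u i)

theorem near (h : LgChart hd e s L) {u : Amb d} (hu : u ∈ Metric.ball (lgO hd) (1 / 10))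
    (i : Fin m) : rho e (e + L u) i ≤ 2 * s i ∧ s i / 2 ≤ hh (e + L u) i := by
  have hi : u i ∈ Metric.ball (lgO hd i) (1 / 10) := by
    rw [Metric.mem_ball] at hu ⊢
    exact (dist_le_pi_dist u (lgO hd) i).trans_lt hu
  obtain ⟨h1, h2, h3⟩ := lg_ball _ hi
  have hs := h.pos i
  have hs1 := h.le i
  rw [h.rho_eq, h.hh_eq]
  constructor
  · nlinarith
  · have h4 : s i * u i ⟨0, hd i⟩ ^ 2 ≤ 121 / 100 := by
      have : u i ⟨0, hd i⟩ ^ 2 ≤ 121 / 100 := by nlinarith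
      nlinarith [sq_nonneg (u i ⟨0, hd i⟩)]
    have h5 : 1 / 2 ≤ 2 * u i ⟨0, hd i⟩ - s i * u i ⟨0, hd i⟩ ^ 2 -
      (‖u i‖ ^ 2 - u i ⟨0, hd i⟩ ^ 2) := by linarith
    nlinarith

theorem mem_body (h : LgChart hd e s L) {u : Amb d} (hu : u ∈ Metric.ball (lgO hd) (1 / 10)) :
    e + L u ∈ body d := by
  intro i
  have h1 := (h.near hu i).2
  have hs := h.pos i
  unfold hh at h1
  have h2 : ‖(e + L u) i‖ ^ 2 ≤ 1 := by linarith
  have h3 := norm_nonneg ((e + L u) i)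
  nlinarith

theorem far (hm : 1 ≤ m) (h : LgChart hd e s L) {x : Amb d} (hx : x ∈ body d)
    (hR : ¬ ∀ i, rho e x i ≤ 2 * m * s i) :
    x ∈ (fun u => e + L u) '' {v | 1 ≤ lgT hd (v - lgO hd) ∧
      ‖v - lgO hd‖ ≤ 4 * lgT hd (v - lgO hd)} := by
  obtain ⟨u, rfl⟩ : ∃ u, x = e + L u := ⟨L.symm (x - e), by simp⟩
  refine ⟨u, ?_, rfl⟩
  have h0 : ∀ i, 0 ≤ u i ⟨0, hd i⟩ := fun i => by
    have h1 := rho_nonneg h.e_mem hx i
    rw [h.rho_eq] at h1
    exact nonneg_of_mul_nonneg_right h1 (h.pos i)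
  have hn : ∀ i, ‖u i‖ ≤ u i ⟨0, hd i⟩ + 1 := fun i => by
    have h1 : 0 ≤ hh (e + L u) i := by
      unfold hh
      have := hx i
      have h3 := norm_nonneg ((e + L u) i)
      nlinarith
    rw [h.hh_eq] at h1
    have h2 := le_of_mul_le_mul_left (a := s i) (b := 0) (by simpa using h1) (h.pos i)
    have h3 : 0 ≤ s i * u i ⟨0, hd i⟩ ^ 2 := mul_nonneg (h.pos i).le (sq_nonneg _)
    have h4 : ‖u i‖ ^ 2 ≤ (u i ⟨0, hd i⟩ + 1) ^ 2 := by nlinarith
    exact (pow_le_pow_iff_left₀ (norm_nonneg _) (by linarith [h0 i]) two_ne_zero).1 h4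
  have hle : ∀ i, u i ⟨0, hd i⟩ ≤ lgT hd u := fun i => by
    rw [lgT_apply]
    exact Finset.single_le_sum (f := fun i => u i ⟨0, hd i⟩) (fun i _ => h0 i) (Finset.mem_univ i)
  push Not at hR
  obtain ⟨i0, hi0⟩ := hR
  rw [h.rho_eq] at hi0
  have hbig : 2 * (m : ℝ) < u i0 ⟨0, hd i0⟩ := by
    have := h.pos i0
    nlinarith
  have hm' : (1 : ℝ) ≤ m := by exact_mod_cast hm
  have hT : lgT hd (u - lgO hd) = lgT hd u - m := by rw [map_sub, lgT_o]
  have hT2 := hle i0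
  refine ⟨by rw [hT]; linarith, ?_⟩
  rw [hT]
  refine (pi_norm_le_iff_of_nonneg (by linarith)).2 fun i => ?_
  have h1 : ‖(u - lgO hd) i‖ ≤ ‖u i‖ + ‖lgO hd i‖ := norm_sub_le _ _
  have h2 : ‖lgO hd i‖ = 1 := by simp [lgO]
  linarith [hn i, hle i]

end LgChart

theorem lg_sep {hd : ∀ i, 1 ≤ d i} {e e' : Amb d} {s s' : Fin m → ℝ}
    {L L' : Amb d ≃L[ℝ] Amb d} (h : LgChart hd e s L) (h' : LgChart hd e' s' L') {K : ℝ}
    (hsep : ∃ i, 4 * K * s i < s' i ∨ 36 * K * s i < ‖e i - e' i‖ ^ 2) {u : Amb d}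
    (hu : u ∈ Metric.ball (lgO hd) (1 / 10)) :
    e' + L' u ∉ {x | ∀ i, rho e x i ≤ K * s i} ∪ (body d)ᶜ := by
  have hb := h'.mem_body hu
  rintro (hx | hx)
  · obtain ⟨i, hi⟩ := hsep
    have h1 := hx i
    obtain ⟨h2, h3⟩ := h'.near hu i
    have h4 := hh_le_rho (e' + L' u) h.e_mem i
    rw [rho_comm] at h4
    have h5 : s' i ≤ 4 * K * s i := by linarith
    have h6 := norm_sub_sq_le h.e_mem h'.e_mem i
    have h7 := rho_triangle h.e_mem h'.e_mem hb i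
    rw [rho_comm (e' + L' u) e'] at h7
    rcases hi with hi | hi <;> linarith
  · exact hx hb

theorem lg_charts (hd : ∀ i, 1 ≤ d i) (hβ : ∀ i, 0 ≤ β i) {δ : ℝ} (hδ : 0 < δ) :
    ∃ a : ℝ, 0 < a ∧ ∀ (e : Amb d) (s : Fin m → ℝ), (∀ i, ‖e i‖ = 1) →
      (∀ i, 0 < s i ∧ s i ≤ 1) → ∃ L : Amb d ≃L[ℝ] Amb d, LgChart hd e s L ∧
        ∀ p, Metric.ball p δ ⊆ Metric.ball (lgO hd) (1 / 10) →
          ENNReal.ofReal (a * ∏ i, s i ^ gam d β i) ≤
            blockBeta d β ((fun u => e + L u) '' Metric.ball p δ) := by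
  choose c hc hL using fun i => chart (k := d i) (hd i) (hβ i) hδ
  refine ⟨∏ i, c i, Finset.prod_pos fun i _ => hc i, fun e s he hs => ?_⟩
  choose L h1 h2 h3 using fun i => hL i (e i) (he i) (s i) (hs i).1 (hs i).2
  refine ⟨ContinuousLinearEquiv.piCongrRight L,
    ⟨he, fun i => (hs i).1, fun i => (hs i).2, fun u i => h1 i (u i), fun u i => h2 i (u i)⟩,
    fun p hp => ?_⟩
  have hset : (fun u => e + ContinuousLinearEquiv.piCongrRight L u) '' Metric.ball p δ =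
      Set.univ.pi fun i => (fun u => e i + L i u) '' Metric.ball (p i) δ := by
    rw [ball_pi _ hδ, ← Set.piMap_image_univ_pi]
    rfl
  have hpi : ∀ i, Metric.ball (p i) δ ⊆ Metric.ball (lgO hd i) (1 / 10) := fun i y hy => by
    have hy' : Function.update p i y ∈ Metric.ball p δ := by
      rw [ball_pi _ hδ]
      intro i' _
      by_cases hi : i' = i
      · subst hi; simpa using hy
      · simp [Function.update_of_ne hi, hδ]
    have h4 := hp hy'
    rw [Metric.mem_ball] at h4 ⊢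
    have h5 := (dist_le_pi_dist _ (lgO hd) i).trans_lt h4
    simpa using h5
  have := fun i => oneBlock_prob (d i) (hβ i)
  rw [hset, blockBeta_eq_pi d hβ, Measure.pi_pi, ← Finset.prod_mul_distrib,
    ENNReal.ofReal_prod_of_nonneg
      fun i _ => mul_nonneg (hc i).le (Real.rpow_nonneg (hs i).1.le _)]
  exact Finset.prod_le_prod' fun i _ => h3 i (p i) (hpi i)

theorem lg_small (hd : ∀ i, 1 ≤ d i) (hβ : ∀ i, 0 ≤ β i) {K : ℝ} (hK : 0 < K) :
    ∃ b : ℝ, 0 < b ∧ ∀ e ∈ body d, ∀ s : Fin m → ℝ, (∀ i, 0 < s i) →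
      blockBeta d β ({x | ∀ i, rho e x i ≤ K * s i} ∪ (body d)ᶜ) ≤
        ENNReal.ofReal (b * ∏ i, s i ^ gam d β i) := by
  obtain ⟨C, hC, h⟩ := near_upper hd hβ (fun _ => 0) (fun _ => le_rfl)
    (fun i => by unfold alp; linarith [hβ i])
  refine ⟨C * ∏ i, K ^ gam d β i,
    mul_pos hC (Finset.prod_pos fun i _ => Real.rpow_pos_of_pos hK _), fun e he s hs => ?_⟩
  have h1 := h e he (fun i => K * s i) fun i => mul_pos hK (hs i)
  simp only [neg_zero, Real.rpow_zero, ENNReal.ofReal_one, Finset.prod_const_one, sub_zero,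
    setLIntegral_one] at h1
  have h2 : blockBeta d β (body d)ᶜ = 0 :=
    measure_mono_null (Set.compl_subset_compl.2 obody_subset) (blockBeta_obody hd hβ)
  refine (measure_union_le _ _).trans ?_
  rw [h2, add_zero]
  refine h1.trans (le_of_eq ?_)
  congr 1
  rw [mul_assoc, ← Finset.prod_mul_distrib]
  congr 1
  exact Finset.prod_congr rfl fun i _ => Real.mul_rpow hK.le (hs i).le

theorem lg_measR (e : Amb d) (t : Fin m → ℝ) :
    MeasurableSet ({x | ∀ i, rho e x i ≤ t i} ∪ (body d)ᶜ) := by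
  refine MeasurableSet.union ?_ (measurableSet_body d).compl
  refine IsClosed.measurableSet ?_
  rw [Set.ofPred_forall]
  refine isClosed_iInter fun i => isClosed_le ?_ continuous_const
  unfold rho
  fun_prop

theorem lg_open (e : Amb d) (L : Amb d ≃L[ℝ] Amb d) (p : Amb d) (δ : ℝ) :
    MeasurableSet ((fun u => e + L u) '' Metric.ball p δ) := by
  have : IsOpenMap fun u => e + L u := (isOpenMap_add_left e).comp L.toHomeomorph.isOpenMap
  exact (this _ Metric.isOpen_ball).measurableSet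

theorem lg_disj (e : Amb d) (L : Amb d ≃L[ℝ] Amb d) {A B : Set (Amb d)} (h : Disjoint A B) :
    Disjoint ((fun u => e + L u) '' A) ((fun u => e + L u) '' B) :=
  (Set.disjoint_image_iff ((add_right_injective e).comp L.injective)).2 h

theorem var_cnt_ge (hm : 1 ≤ m) (hd : ∀ i, 1 ≤ d i) (hβ : ∀ i, 0 ≤ β i) (h2 : 2 ≤ ∑ i, d i) :
    ∃ c : ℝ, 0 < c ∧ ∃ n0 : ℕ, ∀ n : ℕ, n0 ≤ n → c * order d β n ≤
      Var[fun X : Fin n → Amb d => (cnt (∑ i, d i) X Finset.univ : ℝ);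
        iid (Fin n) (blockBeta d β)] := by
  have hm' : (1 : ℝ) ≤ m := by exact_mod_cast hm
  obtain ⟨δ, hδ, p, q0, q1, hp, hq0, hq1, dG, d0G, d1G, d01, hGood⟩ :=
    exists_good_config (finrank_amb d) (lgT hd) (lgT_ne hm hd) (lgO hd)
      (r := 1 / 10) (M := 4) (η := 1) (by norm_num) (by norm_num) (by norm_num)
  obtain ⟨a, ha, hch⟩ := lg_charts hd hβ hδ
  obtain ⟨b, hb, hsm⟩ := lg_small hd hβ (K := 2 * m) (by linarith)
  obtain ⟨c1, hc1, n1, hvar⟩ := var_lower (∑ i, d i + 1) ha hb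
  obtain ⟨c2, hc2, n2, hpack⟩ := packing hm hd hβ (K := 2 * m) (by linarith)
  refine ⟨c1 * c2, mul_pos hc1 hc2, max n1 n2, fun n hn => ?_⟩
  obtain ⟨J, hJ, hsep, hcard⟩ := hpack n (le_trans (le_max_right _ _) hn)
  choose L hL hbig using fun j : J => hch j.1.1 j.1.2 (hJ j.1 j.2).1 (hJ j.1 j.2).2.1
  have := blockBeta_prob d hβ
  have hbig' : ∀ (j : J) (w : Amb d), Metric.ball w δ ⊆ Metric.ball (lgO hd) (1 / 10) →
      ENNReal.ofReal (a / n) ≤ blockBeta d β ((fun u => j.1.1 + L j u) '' Metric.ball w δ) := by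
    intro j w hw
    have := hbig j w hw
    rwa [(hJ j.1 j.2).2.2, mul_one_div] at this
  have hsub : ∀ (j : J) (w : Amb d), Metric.ball w δ ⊆ Metric.ball (lgO hd) (1 / 10) →
      (fun u => j.1.1 + L j u) '' Metric.ball w δ ⊆
        {x | ∀ i, rho j.1.1 x i ≤ 2 * m * j.1.2 i} ∪ (body d)ᶜ := by
    rintro j w hw _ ⟨u, hu, rfl⟩
    refine Or.inl fun i => ((hL j).near (hw hu) i).1.trans ?_
    have := (hL j).pos i
    nlinarith
  have hfar : ∀ (j j' : J), j ≠ j' → ∀ w : Amb d,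
      Metric.ball w δ ⊆ Metric.ball (lgO hd) (1 / 10) →
      Disjoint ((fun u => j'.1.1 + L j' u) '' Metric.ball w δ)
        ({x | ∀ i, rho j.1.1 x i ≤ 2 * m * j.1.2 i} ∪ (body d)ᶜ) := by
    intro j j' hjj w hw
    rw [Set.disjoint_left]
    rintro _ ⟨u, hu, rfl⟩
    exact lg_sep (hL j) (hL j') (hsep j.1 j.2 j'.1 j'.2 fun h => hjj (Subtype.ext h)) (hw hu)
  have key : LowerData (blockBeta d β) n a b
      (fun j : J => (fun u => j.1.1 + L j u) '' Metric.ball q0 δ)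
      (fun j : J => (fun u => j.1.1 + L j u) '' Metric.ball q1 δ)
      (fun j : J => {x | ∀ i, rho j.1.1 x i ≤ 2 * m * j.1.2 i} ∪ (body d)ᶜ)
      (fun (j : J) k => (fun u => j.1.1 + L j u) '' Metric.ball (p k) δ)
      (fun X : Fin n → Amb d => (cnt (∑ i, d i) X Finset.univ : ℝ)) (2 ^ n) :=
    { meas0 := fun j => lg_open _ _ _ _
      meas1 := fun j => lg_open _ _ _ _
      measR := fun j => lg_measR _ _
      measG := fun j k => lg_open _ _ _ _
      big0 := fun j => hbig' j _ hq0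
      big1 := fun j => hbig' j _ hq1
      bigG := fun j k => hbig' j _ (hp k)
      smallR := fun j => by
        have := hsm j.1.1 (hL j).e_mem j.1.2 (hL j).pos
        rwa [(hJ j.1 j.2).2.2, mul_one_div] at this
      sub0 := fun j => hsub j _ hq0
      sub1 := fun j => hsub j _ hq1
      subG := fun j k => hsub j _ (hp k)
      disjG := fun j k k' hk => lg_disj _ _ (dG k k' hk)
      disj01 := fun j => lg_disj _ _ d01
      disj0G := fun j k => lg_disj _ _ (d0G k)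
      disj1G := fun j k => lg_disj _ _ (d1G k)
      far0 := fun j j' hjj => hfar j j' hjj _ hq0
      far1 := fun j j' hjj => hfar j j' hjj _ hq1
      measg := (measurable_from_top (f := fun k : ℕ => (k : ℝ))).comp (measurable_cnt _ _)
      bddg := fun X => by
        rw [abs_of_nonneg (Nat.cast_nonneg _)]
        have := cnt_le (∑ i, d i) X Finset.univ
        rw [Finset.card_univ, Fintype.card_fin] at this
        exact_mod_cast this
      gain := by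
        intro j i σ X hσ hX hout x0 hx0 x1 hx1
        obtain ⟨u0, hu0, rfl⟩ := hx0
        obtain ⟨u1, hu1, rfl⟩ := hx1
        choose y hy hyX using hX
        have hG := (hGood y u0 u1 hy hu0 hu1).map (L j) j.1.1
        have hfun : (fun k => j.1.1 + L j (y k)) = fun k => X (σ k) := funext hyX
        rw [hfun] at hG
        have := gain h2 X (S := Finset.univ.erase i) (i := i) (by simp) σ
          (fun k => by simp [hσ k]) hG (fun i' hi' hne => by
            have h3 := hout i' (Finset.ne_of_mem_erase hi') hne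
            simp only [Set.mem_union, not_or, Set.mem_compl_iff, not_not, Set.mem_ofPred_eq] at h3
            exact (hL j).far hm h3.2 h3.1)
        rw [Finset.insert_erase (Finset.mem_univ i)] at this
        exact_mod_cast this }
  have h3 := hvar n (le_trans (le_max_left _ _) hn) (Amb d) (blockBeta d β) J _ _ _ _ _ _ key
  rw [Fintype.card_coe] at h3
  calc c1 * c2 * order d β n = c1 * (c2 * order d β n) := by ring
    _ ≤ c1 * J.card := mul_le_mul_of_nonneg_left hcard hc1.le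
    _ ≤ _ := h3

end Pool.Agent.Lib.MP_258d0c_pr
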