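import Pool.Agent.Lib.MP_258d0c_pr.Emp
import Pool.Agent.Lib.MP_258d0c_pr.Sums

open MeasureTheory ProbabilityTheory
open scoped ENNReal Classical InnerProductSpace

namespace Pool.Agent.Lib.MP_258d0c_pr

variable {m : ℕ} {d : Fin m → ℕ} {β : Fin m → ℝ}

theorem tail_tsum_pow {J : Type} (b : J → ℝ≥0∞) (q : ℕ) :
    ∑' j, b j ^ (q + 1) ≤ (∑' j, b j) ^ (q + 1) := by
  calc ∑' j, b j ^ (q + 1) ≤ ∑' j, (∑' j, b j) ^ q * b j := by
        refine ENNReal.tsum_le_tsum fun j => ?_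
        rw [pow_succ]
        gcongr
        exact ENNReal.le_tsum j
    _ = (∑' j, b j) ^ (q + 1) := by rw [ENNReal.tsum_mul_left, pow_succ]

theorem tail_card {c t : ℝ} (hc : 0 < c) (ht : 0 < t) {n s : ℕ} (h : n ≤ 2 * s) :
    Real.exp (-(c * s * t)) ≤ Real.exp (-(c / 2 * n * t)) := by
  have h' : (n : ℝ) ≤ 2 * s := by exact_mod_cast h
  have : c * t * n ≤ c * t * (2 * s) := by gcongr
  exact Real.exp_le_exp.2 (by nlinarith)

theorem tail_vis (hm : 1 ≤ m) (hd : ∀ i, 1 ≤ d i) (hβ : ∀ i, 0 ≤ β i) :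
    ∃ c C : ℝ, 0 < c ∧ 0 < C ∧ ∀ (n : ℕ) (ι : Type) [Fintype ι] (S : Finset ι),
      n ≤ 2 * S.card → ∀ x ∈ obody d, ∀ y ∈ obody d,
        iid ι (blockBeta d β) {U | Vis U S x y} ≤ Kfun (gam d β) c C n x y ^ 4 := by
  obtain ⟨c, C, θ, hc, hC, hθ, H⟩ := emp_tail hm hd hβ
  refine ⟨c / 8, max C 1, by positivity, by positivity, fun n ι _ S hn x hx y hy => ?_⟩
  choose EE hE1 hE2 hE3 using H ι S x (obody_subset hx)
  have hsub : {U | Vis U S x y} ⊆ ⋃ j, if Near x y j then EE j else ∅ := by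
    intro U hU
    obtain ⟨j, h1, h2⟩ := vis_cap hd hx (obody_subset hy) hU
    exact Set.mem_iUnion.2 ⟨j, by rw [if_pos h1]; exact hE2 j U h2⟩
  have hone : (1 : ℝ≥0∞) ≤ ENNReal.ofReal (max C 1) :=
    ENNReal.one_le_ofReal.2 (le_max_right _ _)
  have hC4 : ENNReal.ofReal C ≤ ENNReal.ofReal (max C 1) ^ 4 :=
    (ENNReal.ofReal_le_ofReal (le_max_left _ _)).trans (le_self_pow₀ hone (by norm_num))
  refine (measure_mono hsub).trans ((measure_iUnion_le _).trans ?_)
  unfold Kfun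
  rw [mul_pow]
  refine le_trans ?_ (mul_le_mul' hC4 (tail_tsum_pow _ 3))
  rw [← ENNReal.tsum_mul_left]
  refine ENNReal.tsum_le_tsum fun j => ?_
  by_cases h : Near x y j
  · simp only [if_pos h]
    calc iid ι (blockBeta d β) (EE j) = ∫⁻ _ in EE j, 1 ∂(iid ι (blockBeta d β)) := by simp
      _ ≤ ∫⁻ U in EE j, ENNReal.ofReal (Real.exp (θ * nearNum U S x j))
            ∂(iid ι (blockBeta d β)) :=
          lintegral_mono fun U => ENNReal.one_le_ofReal.2 (Real.one_le_exp (by positivity))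
      _ ≤ _ := hE3 j
      _ ≤ ENNReal.ofReal (C * Real.exp (-(c / 2 * n * tt (gam d β) j))) :=
          ENNReal.ofReal_le_ofReal
            (mul_le_mul_of_nonneg_left (tail_card hc (tt_pos _ _) hn) hC.le)
      _ = _ := by
          rw [ENNReal.ofReal_mul hC.le, ← ENNReal.ofReal_pow (Real.exp_pos _).le,
            ← Real.exp_nat_mul]
          congr 3
          push_cast
          ring
  · simp [if_neg h]

theorem tail_exp_le {c lam : ℝ} (hc : 0 < c) (hlam : 0 < lam) :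
    ∃ C : ℝ, 0 < C ∧ ∀ y : ℝ, 0 < y → Real.exp (-(c * y)) ≤ C * y ^ (-lam) := by
  refine ⟨1 + (⌈lam⌉₊).factorial / c ^ ⌈lam⌉₊, by positivity, fun y hy => ?_⟩
  have hp : 0 < y ^ lam := Real.rpow_pos_of_pos hy _
  have he := Real.exp_pos (c * y)
  have hK : (0 : ℝ) ≤ (⌈lam⌉₊).factorial / c ^ ⌈lam⌉₊ := by positivity
  have h1 : 1 ≤ Real.exp (c * y) := Real.one_le_exp (by positivity)
  rw [Real.rpow_neg hy.le, Real.exp_neg, ← div_eq_mul_inv, le_div_iff₀ hp, inv_mul_le_iff₀ he]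
  rcases le_total y 1 with h | h
  · have : y ^ lam ≤ 1 := Real.rpow_le_one hy.le h hlam.le
    nlinarith
  · have h2 : y ^ lam ≤ y ^ ⌈lam⌉₊ := by
      rw [← Real.rpow_natCast]
      exact Real.rpow_le_rpow_of_exponent_le h (Nat.le_ceil _)
    have h3 := Real.pow_div_factorial_le_exp (c * y) (by positivity) ⌈lam⌉₊
    have hf : (0 : ℝ) < (⌈lam⌉₊).factorial := by exact_mod_cast Nat.factorial_pos _
    rw [div_le_iff₀ hf, mul_pow] at h3
    have h4 : y ^ ⌈lam⌉₊ ≤ Real.exp (c * y) * ((⌈lam⌉₊).factorial / c ^ ⌈lam⌉₊) := by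
      rw [← mul_div_assoc, le_div_iff₀ (by positivity)]
      linarith
    nlinarith

theorem tail_pow_le {θ : ℝ} (hθ : 0 < θ) (Q N : ℕ) :
    (N : ℝ≥0∞) ^ Q ≤ ENNReal.ofReal (Q.factorial / θ ^ Q) * ENNReal.ofReal (Real.exp (θ * N)) := by
  rw [← ENNReal.ofReal_mul (by positivity), ← ENNReal.ofReal_natCast,
    ← ENNReal.ofReal_pow (by positivity)]
  refine ENNReal.ofReal_le_ofReal ?_
  have h3 := Real.pow_div_factorial_le_exp (θ * N) (by positivity) Q
  have hf : (0 : ℝ) < Q.factorial := by exact_mod_cast Nat.factorial_pos _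
  rw [div_le_iff₀ hf, mul_pow] at h3
  rw [div_mul_eq_mul_div, le_div_iff₀ (by positivity)]
  linarith

theorem tail_add_pow (v w : ℝ≥0∞) (Q : ℕ) : (v + w) ^ Q ≤ 2 ^ Q * (w ^ Q + v ^ Q) := by
  rcases le_total v w with h | h
  · calc (v + w) ^ Q ≤ (2 * w) ^ Q := by rw [two_mul]; gcongr
      _ ≤ _ := by rw [mul_pow]; gcongr; exact le_self_add
  · calc (v + w) ^ Q ≤ (2 * v) ^ Q := by rw [two_mul]; gcongr
      _ ≤ _ := by rw [mul_pow]; gcongr; exact le_add_self

/-- The visible points are covered by the near points of the empty scales. -/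
theorem tail_vis_le (hd : ∀ i, 1 ≤ d i) {ι : Type} {U : ι → Amb d} {S : Finset ι} {x : Amb d}
    (hx : x ∈ obody d) (hU : ∀ k, U k ∈ body d) {EE : (Fin m → ℕ) → Set (ι → Amb d)}
    (hE : ∀ j U, Emp U S x j → U ∈ EE j) :
    (vis U S x : ℝ≥0∞) ≤
      ∑' j, if Adm x j ∧ U ∈ EE j then (nearNum U S x j : ℝ≥0∞) else 0 := by
  have h1 : ∀ j, (if Adm x j ∧ U ∈ EE j then (nearNum U S x j : ℝ≥0∞) else 0) =
      ∑ k ∈ S, if (Adm x j ∧ U ∈ EE j) ∧ (U k ∈ body d ∧ Near x (U k) j) then 1 else 0 := by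
    intro j
    by_cases h : Adm x j ∧ U ∈ EE j
    · simp only [h, and_self, true_and, if_true, nearNum, Finset.card_filter]
      push_cast
      rfl
    · simp [h]
  simp only [h1]
  rw [Summable.tsum_finsetSum fun _ _ => ENNReal.summable]
  unfold vis
  rw [Finset.card_filter]
  push_cast
  refine Finset.sum_le_sum fun k _ => ?_
  split_ifs with h
  · obtain ⟨j, h2, h3⟩ := vis_cap hd hx (hU k) h
    refine le_trans ?_ (ENNReal.le_tsum j)
    rw [if_pos ⟨⟨h2.adm (hU k), hE j U h3⟩, hU k, h2⟩]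
  · exact zero_le

theorem tail_alg {γ : Fin m → ℝ} {lam : ℝ} {Q : ℕ} (hQ : Q ≠ 0) {n : ℝ} (hn : 0 < n) {x : Amb d}
    (hx : x ∈ obody d) (j : Fin m → ℕ) :
    (n * tt γ j) ^ (-lam) = (∏ i, (hh x i / sc j i) ^ (lam / (2 * Q))) ^ Q *
      ((n * tau γ x) ^ (-lam) * ∏ i, (hh x i / sc j i) ^ (lam * γ i - lam / 2)) := by
  have hQ' : (Q : ℝ) ≠ 0 := by exact_mod_cast hQ
  have hh0 := hh_pos hx
  have hs0 := sc_pos j
  have htau : 0 < tau γ x := Finset.prod_pos fun i _ => Real.rpow_pos_of_pos (hh0 i) _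
  rw [Real.mul_rpow hn.le (tt_pos γ j).le, Real.mul_rpow hn.le htau.le, mul_left_comm, mul_assoc]
  congr 1
  unfold tt tau
  rw [← Real.finsetProd_rpow _ _ fun i _ => (Real.rpow_pos_of_pos (hs0 i) _).le,
    ← Real.finsetProd_rpow _ _ fun i _ => (Real.rpow_pos_of_pos (hh0 i) _).le,
    ← Finset.prod_pow, ← Finset.prod_mul_distrib, ← Finset.prod_mul_distrib]
  refine Finset.prod_congr rfl fun i _ => ?_
  have hr : 0 < hh x i / sc j i := div_pos (hh0 i) (hs0 i)
  rw [← Real.rpow_natCast, ← Real.rpow_mul hr.le, ← Real.rpow_add hr,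
    ← Real.rpow_mul (hh0 i).le, ← Real.rpow_mul (hs0 i).le]
  have e1 : lam / (2 * Q) * Q + (lam * γ i - lam / 2) = γ i * lam := by field_simp; ring
  rw [e1, Real.div_rpow (hh0 i).le (hs0 i).le, mul_neg, Real.rpow_neg (hh0 i).le,
    Real.rpow_neg (hs0 i).le]
  have := (Real.rpow_pos_of_pos (hh0 i) (γ i * lam)).ne'
  field_simp

theorem tail_mom (hm : 1 ≤ m) (hd : ∀ i, 1 ≤ d i) (hβ : ∀ i, 0 ≤ β i) (q : ℕ) {lam : ℝ}
    (hlam : 0 < lam) :
    ∃ C : ℝ, 1 ≤ C ∧ ∀ (n : ℕ), 1 ≤ n → ∀ (ι : Type) [Fintype ι] (S : Finset ι),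
      n ≤ 2 * S.card → ∀ x ∈ obody d,
        ∫⁻ U, ((vis U S x : ℝ≥0∞) + 3) ^ q ∂(iid ι (blockBeta d β)) ≤
          wfun (gam d β) lam C n x := by
  obtain ⟨c, C0, θ, hc, hC0, hθ, H⟩ := emp_tail hm hd hβ
  obtain ⟨Q, hQ, hqQ⟩ : ∃ Q : ℕ, 1 ≤ Q ∧ q ≤ Q := ⟨q + 1, by omega, by omega⟩
  have hQ0 : (0 : ℝ) < Q := by exact_mod_cast hQ
  obtain ⟨C1, hC1, H1⟩ := weight_sum (fun _ : Fin m => lam / (2 * Q)) fun _ => by positivity
  obtain ⟨C2, hC2, H2⟩ := tail_exp_le (half_pos hc) hlam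
  obtain ⟨C3, hC3, H3⟩ := weight_sum (fun i => lam * gam d β i - lam / 2) fun i => by
    have := one_le_gam hd hβ i
    nlinarith
  set F : ℝ := Q.factorial / θ ^ Q with hF
  have hF0 : 0 < F := by have := Nat.factorial_pos Q; positivity
  set K : ℝ := C1 ^ Q * (F * C0 * C2 * C3) with hK
  have hK0 : 0 < K := by positivity
  refine ⟨2 ^ Q * (3 ^ Q + K), ?_, fun n hn ι _ S hS x hx => ?_⟩
  · have h2 : (1 : ℝ) ≤ 2 ^ Q := one_le_pow₀ (by norm_num)
    have h3 : (1 : ℝ) ≤ 3 ^ Q := one_le_pow₀ (by norm_num)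
    nlinarith
  have := blockBeta_prob d hβ
  choose EE hE1 hE2 hE3 using H ι S x (obody_subset hx)
  have hn0 : (0 : ℝ) < n := by exact_mod_cast hn
  have hr : ∀ j i, 0 < hh x i / sc j i := fun j i => div_pos (hh_pos hx i) (sc_pos j i)
  have htau : 0 < tau (gam d β) x :=
    Finset.prod_pos fun i _ => Real.rpow_pos_of_pos (hh_pos hx i) _
  set T : ℝ := (n * tau (gam d β) x) ^ (-lam) with hT
  have hT0 : 0 < T := Real.rpow_pos_of_pos (by positivity) _
  set a : (Fin m → ℕ) → (ι → Amb d) → ℝ≥0∞ := fun j U =>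
    if Adm x j ∧ U ∈ EE j then (nearNum U S x j : ℝ≥0∞) else 0 with ha
  set w : (Fin m → ℕ) → ℝ := fun j => ∏ i, (hh x i / sc j i) ^ (lam / (2 * Q)) with hw
  have hw0 : ∀ j, 0 < w j := fun j => Finset.prod_pos fun i _ => Real.rpow_pos_of_pos (hr j i) _
  set ω : (Fin m → ℕ) → ℝ≥0∞ := fun j => if Adm x j then ENNReal.ofReal (w j) else 0 with hω
  have hωsum : ∑' j, ω j ≤ ENNReal.ofReal C1 := by
    refine le_trans (ENNReal.tsum_le_tsum fun j => ?_) (H1 (hh x) (hh_pos hx))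
    by_cases hA : Adm x j
    · have hA' : ∀ i, hh x i ≤ 16 * sc j i := hA
      simp only [hω, if_pos hA, if_pos hA', hw, le_refl]
    · simp [hω, hA]
  have hae : ∀ᵐ U ∂(iid ι (blockBeta d β)), ∀ k, U k ∈ body d := by
    refine ae_all_iff.2 fun k => ?_
    have h1 : ∀ᵐ y ∂(blockBeta d β), y ∈ body d :=
      Filter.mem_of_superset (mem_ae_iff.2 (blockBeta_obody hd hβ)) obody_subset
    exact (measurePreserving_eval (fun _ : ι => blockBeta d β) k).quasiMeasurePreserving.ae h1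
  have hpt : ∀ U : ι → Amb d, (∀ k, U k ∈ body d) → ((vis U S x : ℝ≥0∞) + 3) ^ q ≤
      2 ^ Q * (3 ^ Q + ENNReal.ofReal C1 ^ Q * ∑' j, (a j U / ω j) ^ Q) := by
    intro U hU
    have h13 : (1 : ℝ≥0∞) ≤ vis U S x + 3 := le_add_left (by norm_num)
    refine (pow_le_pow_right₀ h13 hqQ).trans ((tail_add_pow _ _ Q).trans ?_)
    gcongr
    refine (pow_le_pow_left' (tail_vis_le hd hx hU hE2) Q).trans ?_
    refine (tsum_pow_le (fun j => a j U) ω (fun j hj => ?_) (fun j => ?_) hQ).trans ?_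
    · have hA : Adm x j := by
        by_contra hA
        exact hj (by simp [ha, hA])
      simp only [hω, if_pos hA]
      exact (ENNReal.ofReal_pos.2 (hw0 j)).ne'
    · simp only [hω]
      split_ifs <;> simp
    · gcongr
  have hNm : ∀ j, Measurable fun U : ι → Amb d => (nearNum U S x j : ℝ≥0∞) := fun j =>
    (measurable_from_top (f := fun N : ℕ => (N : ℝ≥0∞))).comp (measurable_nearNum S x j)
  have ham : ∀ j, Measurable (a j) := fun j =>
    Measurable.ite ((MeasurableSet.const _).inter (hE1 j)) (hNm j) measurable_const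
  have hm2 : ∀ j, Measurable fun U => (a j U / ω j) ^ Q := fun j =>
    ((ham j).div_const _).pow_const _
  have hterm : ∀ j, ∫⁻ U, (a j U / ω j) ^ Q ∂(iid ι (blockBeta d β)) ≤
      ENNReal.ofReal (F * C0 * C2 * T) * if ∀ i, hh x i ≤ 16 * sc j i then
        ENNReal.ofReal (∏ i, (hh x i / sc j i) ^ (lam * gam d β i - lam / 2)) else 0 := by
    intro j
    by_cases hA : Adm x j
    · have hA' : ∀ i, hh x i ≤ 16 * sc j i := hA
      rw [if_pos hA']
      have hP : 0 ≤ ∏ i, (hh x i / sc j i) ^ (lam * gam d β i - lam / 2) :=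
        Finset.prod_nonneg fun i _ => (Real.rpow_pos_of_pos (hr j i) _).le
      have hwQ : 0 < w j ^ Q := pow_pos (hw0 j) Q
      calc ∫⁻ U, (a j U / ω j) ^ Q ∂(iid ι (blockBeta d β))
          ≤ ∫⁻ U, (EE j).indicator (fun U => ENNReal.ofReal (F / w j ^ Q) *
              ENNReal.ofReal (Real.exp (θ * nearNum U S x j))) U ∂(iid ι (blockBeta d β)) := by
            refine lintegral_mono fun U => ?_
            by_cases hU : U ∈ EE j
            · simp only [ha, hω, hA, hU, and_self, if_true, Set.indicator_of_mem hU]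
              rw [ENNReal.ofReal_div_of_pos hwQ, ENNReal.ofReal_pow (hw0 j).le, div_eq_mul_inv,
                div_eq_mul_inv, mul_pow, ← ENNReal.inv_pow, mul_right_comm]
              gcongr
              exact tail_pow_le hθ Q _
            · simp [ha, hU, zero_pow (show Q ≠ 0 by omega)]
        _ = ENNReal.ofReal (F / w j ^ Q) * ∫⁻ U in EE j,
              ENNReal.ofReal (Real.exp (θ * nearNum U S x j)) ∂(iid ι (blockBeta d β)) := by
            rw [lintegral_indicator (hE1 j), lintegral_const_mul' _ _ ENNReal.ofReal_ne_top]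
        _ ≤ ENNReal.ofReal (F / w j ^ Q) *
              ENNReal.ofReal (C0 * (C2 * (n * tt (gam d β) j) ^ (-lam))) := by
            gcongr
            refine (hE3 j).trans (ENNReal.ofReal_le_ofReal ?_)
            gcongr
            refine (tail_card hc (tt_pos _ _) hS).trans ?_
            rw [mul_assoc]
            exact H2 _ (mul_pos hn0 (tt_pos _ _))
        _ = _ := by
            rw [← ENNReal.ofReal_mul (by positivity), ← ENNReal.ofReal_mul (by positivity),
              tail_alg (Q := Q) (by omega) hn0 hx j]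
            congr 1
            change F / w j ^ Q * (C0 * (C2 * (w j ^ Q * (T * _)))) = _
            generalize ∏ i, (hh x i / sc j i) ^ (lam * gam d β i - lam / 2) = P
            field_simp
    · simp [ha, hA, zero_pow (show Q ≠ 0 by omega)]
  calc ∫⁻ U, ((vis U S x : ℝ≥0∞) + 3) ^ q ∂(iid ι (blockBeta d β))
      ≤ ∫⁻ U, 2 ^ Q * (3 ^ Q + ENNReal.ofReal C1 ^ Q * ∑' j, (a j U / ω j) ^ Q)
          ∂(iid ι (blockBeta d β)) := lintegral_mono_ae (hae.mono hpt)
    _ = 2 ^ Q * (3 ^ Q + ENNReal.ofReal C1 ^ Q *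
          ∑' j, ∫⁻ U, (a j U / ω j) ^ Q ∂(iid ι (blockBeta d β))) := by
        rw [lintegral_const_mul' _ _ (by simp), lintegral_add_left measurable_const,
          lintegral_const_mul' _ _ (by simp), lintegral_tsum fun j => (hm2 j).aemeasurable]
        simp
    _ ≤ 2 ^ Q * (3 ^ Q + ENNReal.ofReal C1 ^ Q *
          (ENNReal.ofReal (F * C0 * C2 * T) * ENNReal.ofReal C3)) := by
        gcongr
        refine (ENNReal.tsum_le_tsum hterm).trans ?_
        rw [ENNReal.tsum_mul_left]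
        gcongr
        exact H3 (hh x) (hh_pos hx)
    _ = ENNReal.ofReal (2 ^ Q * (3 ^ Q + K * T)) := by
        rw [← ENNReal.ofReal_mul (by positivity), ← ENNReal.ofReal_pow hC1.le,
          ← ENNReal.ofReal_mul (by positivity), ENNReal.ofReal_mul (p := 2 ^ Q) (by positivity),
          ENNReal.ofReal_add (by positivity) (by positivity),
          ENNReal.ofReal_pow (by norm_num), ENNReal.ofReal_pow (by norm_num)]
        congr 3
        · simp
        · simp
        · rw [hK]; ring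
    _ ≤ _ := by
        unfold wfun
        rw [← hT, ← ENNReal.ofReal_one, ← ENNReal.ofReal_add zero_le_one hT0.le,
          ← ENNReal.ofReal_mul (by positivity)]
        refine ENNReal.ofReal_le_ofReal ?_
        have h2 : (0 : ℝ) < 2 ^ Q := by positivity
        have h3 : (0 : ℝ) < 3 ^ Q := by positivity
        nlinarith [mul_pos h2 (mul_pos h3 hT0), mul_pos h2 hK0]

end Pool.Agent.Lib.MP_258d0c_pr
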