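import Pool.Agent.Lib.MP_258d0c_pr.VarT

open MeasureTheory ProbabilityTheory
open scoped ENNReal Classical InnerProductSpace

namespace Pool.Agent.Lib.MP_258d0c_pr

variable {E : Type} [NormedAddCommGroup E] [NormedSpace ℝ E] [FiniteDimensional ℝ E]
  [MeasurableSpace E] [BorelSpace E] {μ : Measure E} [IsProbabilityMeasure μ] {D n : ℕ}
  {Z : Set E} {K : E → E → ℝ≥0∞} {w : E → ℝ≥0∞} {A B : ℝ}

theorem vs_add_sq (a b : ℝ≥0∞) : (a + b) ^ 2 ≤ 4 * (a ^ 2 + b ^ 2) := by
  rcases le_total a b with h | h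
  · calc (a + b) ^ 2 ≤ (b + b) ^ 2 := by gcongr
      _ = 4 * b ^ 2 := by ring
      _ ≤ _ := by gcongr; exact le_add_self
  · calc (a + b) ^ 2 ≤ (a + a) ^ 2 := by gcongr
      _ = 4 * a ^ 2 := by ring
      _ ≤ _ := by gcongr; exact le_self_add

theorem vs_point {J : Type} (s : Finset J) (a : ℝ) (c : J → ℝ) :
    ENNReal.ofReal |a + ∑ j ∈ s, c j| ^ 2 ≤ 4 * (ENNReal.ofReal |a| ^ 2 +
      ∑ j ∈ s, ∑ k ∈ s, ENNReal.ofReal |c j| * ENNReal.ofReal |c k|) := by
  have h1 : ENNReal.ofReal |a + ∑ j ∈ s, c j| ≤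
      ENNReal.ofReal |a| + ∑ j ∈ s, ENNReal.ofReal |c j| := by
    rw [← ENNReal.ofReal_sum_of_nonneg fun _ _ => abs_nonneg _,
      ← ENNReal.ofReal_add (abs_nonneg _) (Finset.sum_nonneg fun _ _ => abs_nonneg _)]
    exact ENNReal.ofReal_le_ofReal ((abs_add_le _ _).trans
      (add_le_add le_rfl (Finset.abs_sum_le_sum_abs _ _)))
  refine (ENNReal.pow_le_pow_left h1).trans ((vs_add_sq _ _).trans (le_of_eq ?_))
  rw [sq (∑ j ∈ s, _), Finset.sum_mul_sum]

theorem measurable_psi {ψ : ℝ → ℝ → ℝ} (hψm : Measurable (Function.uncurry ψ)) (D : ℕ)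
    (j : Fin n) (S T : Finset (Fin n ⊕ Fin n)) :
    Measurable fun U : Fin n ⊕ Fin n → E => ψ (vtD D U j S) (vtD D U j T) :=
  hψm.comp ((measurable_vtD D j S).prodMk (measurable_vtD D j T))

theorem measurable_vtC {ψ : ℝ → ℝ → ℝ} (hψm : Measurable (Function.uncurry ψ)) (D : ℕ)
    (i : Fin n ⊕ Fin n) (j : Fin n) :
    Measurable fun U : Fin n ⊕ Fin n → E => vtC ψ D U i j :=
  (measurable_psi hψm D j _ _).sub (measurable_psi hψm D j _ _)

theorem Bounds.lint_all (h : Bounds μ D n Z K w A B) (hD : 1 ≤ D) (hn : D + 6 ≤ n)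
    {ψ : ℝ → ℝ → ℝ} (hψm : Measurable (Function.uncurry ψ)) (hψ0 : ∀ a b, |ψ a b| ≤ |a| * |b|)
    (hψ : ∀ a b a' b', |ψ a b - ψ a' b'| ≤ |a - a'| * |b| + |a'| * |b - b'|)
    (i : Fin n ⊕ Fin n) :
    (n : ℝ≥0∞) * ∫⁻ U, ENNReal.ofReal |ψ (vtD D U (vtPr i) (vtBase (vtPr i) false))
      (vtD D U (vtPr i) (vtBase (vtPr i) true)) +
        ∑ j ∈ Finset.univ.erase (vtPr i), vtC ψ D U i j| ^ 2 ∂(iid (Fin n ⊕ Fin n) μ) ≤
      ENNReal.ofReal (5000000 * A * B) := by
  set s := Finset.univ.erase (vtPr i) with hs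
  set I1 := ∫⁻ z, K z z * w z ∂μ
  set I2 := ∫⁻ z, ∫⁻ x, K z x * w x ∂μ ∂μ
  set I3 := ∫⁻ z, (∫⁻ x, K z x * w x ∂μ) ^ 2 ∂μ
  set a := ENNReal.ofReal A
  have hsn : (s.card : ℝ≥0∞) ≤ n := by exact_mod_cast (by simpa using s.card_le_univ)
  have hmC : ∀ j k, Measurable fun U : Fin n ⊕ Fin n → E =>
      ENNReal.ofReal |vtC ψ D U i j| * ENNReal.ofReal |vtC ψ D U i k| := fun j k =>
    (measurable_vtC hψm D i j).abs.ennreal_ofReal.mul (measurable_vtC hψm D i k).abs.ennreal_ofReal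
  have hrow : ∀ j ∈ s, ∑ k ∈ s, ∫⁻ U, ENNReal.ofReal |vtC ψ D U i j| *
      ENNReal.ofReal |vtC ψ D U i k| ∂(iid (Fin n ⊕ Fin n) μ) ≤
      65536 * (a * I2) + n * (1048576 * (a * I3)) := fun j hj => by
    have hj' : vtPr i ≠ j := (Finset.ne_of_mem_erase hj).symm
    rw [← Finset.add_sum_erase s _ hj]
    refine add_le_add (h.lint_sq hD hn hψ hj') ?_
    refine (Finset.sum_le_card_nsmul _ _ (1048576 * (a * I3)) fun k hk => h.lint_mul hD hn hψ hj'
      (Finset.ne_of_mem_erase (Finset.mem_of_mem_erase hk)).symm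
      (Finset.ne_of_mem_erase hk).symm).trans ?_
    rw [nsmul_eq_mul]
    gcongr
    exact_mod_cast (by simpa using (s.erase j).card_le_univ)
  have key : ∫⁻ U, ENNReal.ofReal |ψ (vtD D U (vtPr i) (vtBase (vtPr i) false))
      (vtD D U (vtPr i) (vtBase (vtPr i) true)) + ∑ j ∈ s, vtC ψ D U i j| ^ 2
        ∂(iid (Fin n ⊕ Fin n) μ) ≤
      4 * (1024 * I1 + n * (65536 * (a * I2) + n * (1048576 * (a * I3)))) := by
    refine (lintegral_mono fun U => vs_point s _ _).trans ?_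
    rw [lintegral_const_mul' _ _ (by norm_num), lintegral_add_right _
      (Finset.measurable_sum _ fun j _ => Finset.measurable_sum _ fun k _ => hmC j k),
      lintegral_finsetSum _ fun j _ => Finset.measurable_sum _ fun k _ => hmC j k]
    gcongr
    · exact h.lint_diag hD hn hψ0 _
    refine (Finset.sum_le_card_nsmul _ _ (65536 * (a * I2) + n * (1048576 * (a * I3)))
      fun j hj => ?_).trans ?_
    · rw [lintegral_finsetSum _ fun k _ => hmC j k]
      exact hrow j hj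
    · rw [nsmul_eq_mul]
      gcongr
  have ha : 1 ≤ a := h.one_le
  calc _ ≤ (n : ℝ≥0∞) * (4 * (1024 * I1 + n * (65536 * (a * I2) + n * (1048576 * (a * I3))))) := by
        gcongr
    _ = 4096 * (1 * (n * I1)) + 262144 * (a * (n ^ 2 * I2)) + 4194304 * (a * (n ^ 3 * I3)) := by
        ring
    _ ≤ 4096 * (a * ENNReal.ofReal B) + 262144 * (a * ENNReal.ofReal B) +
          4194304 * (a * ENNReal.ofReal B) := by
        gcongr
        exacts [h.int1, h.int2, h.int3]
    _ = 4460544 * (a * ENNReal.ofReal B) := by ring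
    _ ≤ 5000000 * (a * ENNReal.ofReal B) := by gcongr; norm_num
    _ = _ := by
        rw [mul_assoc, ENNReal.ofReal_mul (by norm_num),
          ENNReal.ofReal_mul (zero_le_one.trans h.one_le_A)]
        norm_num [a]

theorem var_sumT_le (h : Bounds μ D n Z K w A B) (hD : 1 ≤ D) (hn : D + 6 ≤ n)
    (ψ : ℝ → ℝ → ℝ) (hψm : Measurable (Function.uncurry ψ)) (hψ0 : ∀ a b, |ψ a b| ≤ |a| * |b|)
    (hψ : ∀ a b a' b', |ψ a b - ψ a' b'| ≤ |a - a'| * |b| + |a'| * |b - b'|) :
    Var[sumT ψ (fun X : Fin n → E => (cnt D X Finset.univ : ℝ)); iid (Fin n ⊕ Fin n) μ] ≤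
      10 ^ 9 * A * B := by
  have e : sumT ψ (fun X : Fin n → E => (cnt D X Finset.univ : ℝ)) = fun U =>
      ∑ j, ψ (vtD D U j (vtBase j false)) (vtD D U j (vtBase j true)) := by
    funext U
    simp only [sumT, dA_eq, dB_eq]
  have hbd : ∀ (s : Finset (Fin n)) (S T : Fin n → Finset (Fin n ⊕ Fin n))
      (U : Fin n ⊕ Fin n → E),
      |∑ j ∈ s, ψ (vtD D U j (S j)) (vtD D U j (T j))| ≤ n * (2 ^ (n + n) * 2 ^ (n + n)) :=
    fun s S T U => by
    refine (Finset.abs_sum_le_sum_abs _ _).trans ((Finset.sum_le_card_nsmul _ _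
      (2 ^ (n + n) * 2 ^ (n + n)) fun j _ => (hψ0 _ _).trans (mul_le_mul (abs_vtD_le _ _ _ _)
        (abs_vtD_le _ _ _ _) (abs_nonneg _) (by positivity))).trans ?_)
    rw [nsmul_eq_mul]
    gcongr
    simpa using s.card_le_univ
  rw [e]
  refine (efron_stein μ _ (fun i U => ∑ j ∈ Finset.univ.erase (vtPr i),
      ψ (vtD D U j ((vtBase j false).erase i)) (vtD D U j ((vtBase j true).erase i)))
    (Finset.measurable_sum _ fun j _ => measurable_psi hψm D j _ _)
    (fun i => Finset.measurable_sum _ fun j _ => measurable_psi hψm D j _ _) _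
    (hbd _ _ _) (fun i => hbd _ _ _) fun i U x => ?_).trans ?_
  · refine Finset.sum_congr rfl fun j hj => ?_
    have hj' : vtPr i ≠ j := (Finset.ne_of_mem_erase hj).symm
    have h1 : ∀ b s, cnt D (Function.update U i x) (insert (vtPt j s) ((vtBase j b).erase i)) =
        cnt D U (insert (vtPt j s) ((vtBase j b).erase i)) := fun b s =>
      cnt_congr D fun p hp => Function.update_of_ne (by
        rintro rfl
        rcases Finset.mem_insert.1 hp with h | h
        · exact hj' (by rw [h, vtPr_pt])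
        · exact Finset.notMem_erase _ _ h) _ _
    simp only [vtD, h1]
  have hn' : (0 : ℝ) < n := by exact_mod_cast (by omega : 0 < n)
  have hAB : 0 ≤ A * B := mul_nonneg (zero_le_one.trans h.one_le_A) h.nonneg_B
  have key : ∀ i : Fin n ⊕ Fin n, ∫ U,
      ((∑ j, ψ (vtD D U j (vtBase j false)) (vtD D U j (vtBase j true))) -
        ∑ j ∈ Finset.univ.erase (vtPr i),
          ψ (vtD D U j ((vtBase j false).erase i)) (vtD D U j ((vtBase j true).erase i))) ^ 2
      ∂(iid (Fin n ⊕ Fin n) μ) ≤ 5000000 * A * B / n := fun i => by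
    refine (integral_sq_le ((Finset.measurable_sum _ fun j _ => measurable_psi hψm D j _ _).sub
      (Finset.measurable_sum _ fun j _ => measurable_psi hψm D j _ _))
      ENNReal.ofReal_ne_top (le_trans (le_of_eq (lintegral_congr fun U => ?_))
        (vt_div (by omega) (h.lint_all hD hn hψm hψ0 hψ i)))).trans
      (le_of_eq (ENNReal.toReal_ofReal (div_nonneg (by nlinarith) hn'.le)))
    rw [Pi.sub_apply, ← Finset.add_sum_erase _ _ (Finset.mem_univ (vtPr i)), add_sub_assoc,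
      ← Finset.sum_sub_distrib]
    rfl
  refine (mul_le_mul_of_nonneg_left (Finset.sum_le_sum fun i _ => key i) two_pos.le).trans ?_
  rw [Finset.sum_const, Finset.card_univ, Fintype.card_sum, Fintype.card_fin, nsmul_eq_mul]
  have e2 : (2 : ℝ) * (((n + n : ℕ) : ℝ) * (5000000 * A * B / n)) = 20000000 * (A * B) := by
    push_cast
    field_simp
    ring
  rw [e2]
  nlinarith

end Pool.Agent.Lib.MP_258d0c_pr
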