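import Pool.Agent.Lib.MP_258d0c_pr.LowGeo
import Pool.Agent.Lib.MP_258d0c_pr.Ints
import Pool.Agent.Lib.MP_258d0c_pr.Tail
import Pool.Agent.Lib.MP_258d0c_pr.VarS
import Pool.Agent.Lib.MP_258d0c_pr.Kolm
import Pool.Agent.Lib.MP_258d0c_pr.GenPos

open MeasureTheory ProbabilityTheory
open scoped ENNReal Classical InnerProductSpace

namespace Pool.Agent.Lib.MP_258d0c_pr

variable {m : ℕ} {d : Fin m → ℕ} {β : Fin m → ℝ}

theorem exists_bounds (hm : 1 ≤ m) (hd : ∀ i, 1 ≤ d i) (hβ : ∀ i, 0 ≤ β i) (D : ℕ) :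
    ∃ A B : ℝ, 1 ≤ A ∧ 0 < B ∧ ∀ n : ℕ, 2 ≤ n → ∃ K w,
      Bounds (blockBeta d β) D n (obody d) K w A (B * order d β n) := by
  have hk := kap_pos hm hd hβ
  have hl0 : 0 < kap d β / 2 := by linarith
  have hl1 : kap d β / 2 < kap d β := by linarith
  obtain ⟨c, CK, hc, -, hK⟩ := tail_vis hm hd hβ
  obtain ⟨Cw, hCw, hw⟩ := tail_mom hm hd hβ (8 * D) hl0
  obtain ⟨A, hA, h0⟩ := int_zero hm hd hβ hl0.le hl1 Cw
  obtain ⟨B1, hB1, h1⟩ := int_one hm hd hβ hl0.le hl1 hc CK Cw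
  obtain ⟨B2, hB2, h2⟩ := int_two_three hm hd hβ hl0.le hl1 hc CK Cw
  refine ⟨A, B1 + B2, hA, by linarith, fun n hn => ⟨Kfun (gam d β) c CK n,
    wfun (gam d β) (kap d β / 2) Cw n, ?_⟩⟩
  have ho := order_pos d β hn
  have e1 : ENNReal.ofReal (B1 * order d β n) ≤ ENNReal.ofReal ((B1 + B2) * order d β n) :=
    ENNReal.ofReal_le_ofReal (by nlinarith)
  have e2 : ENNReal.ofReal (B2 * order d β n) ≤ ENNReal.ofReal ((B1 + B2) * order d β n) :=
    ENNReal.ofReal_le_ofReal (by nlinarith)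
  refine ⟨measurableSet_obody d, blockBeta_obody hd hβ, measurable_Kfun _ _ _ _,
    measurable_wfun _ _ _ _, fun x => ?_, hA, by positivity, hK n, hw n (by omega),
    h0 n (by omega), (h1 n hn).trans e1, (h2 n hn).1.trans e2, (h2 n hn).2.trans e2⟩
  unfold wfun
  calc (1 : ℝ≥0∞) = 1 * 1 := (mul_one _).symm
    _ ≤ _ := mul_le_mul' (ENNReal.one_le_ofReal.2 hCw) le_self_add

theorem one_le_sum (hm : 1 ≤ m) (hd : ∀ i, 1 ≤ d i) : 1 ≤ ∑ i, d i :=
  (hd ⟨0, hm⟩).trans (Finset.single_le_sum (fun i _ => Nat.zero_le (d i)) (Finset.mem_univ _))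

theorem facets_eq (hm : 1 ≤ m) (hd : ∀ i, 1 ≤ d i) (hβ : ∀ i, 0 ≤ β i) {n : ℕ}
    (hn : ∑ i, d i + 1 ≤ n) :
    (fun X : Fin n → Amb d => facets X) =ᵐ[sample d β n]
      fun X => (cnt (∑ i, d i) X Finset.univ : ℝ) := by
  have := blockBeta_prob d hβ
  have h := facets_ae_eq (blockBeta d β) (blockBeta_affine d β)
    (by rw [finrank_amb]; exact one_le_sum hm hd) (n := n) (by rw [finrank_amb]; exact hn)
  rw [finrank_amb] at h
  exact h

theorem measurable_cntR (D n : ℕ) :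
    Measurable fun X : Fin n → Amb d => (cnt D X Finset.univ : ℝ) :=
  (measurable_from_top (f := fun k : ℕ => (k : ℝ))).comp (measurable_cnt D Finset.univ)

theorem abs_cntR_le (D n : ℕ) (X : Fin n → Amb d) :
    |(cnt D X Finset.univ : ℝ)| ≤ 2 ^ n := by
  rw [abs_of_nonneg (Nat.cast_nonneg _)]
  have := cnt_le D X Finset.univ
  rw [Finset.card_univ, Fintype.card_fin] at this
  exact_mod_cast this

theorem memLp_facets (hm : 1 ≤ m) (hd : ∀ i, 1 ≤ d i) (hβ : ∀ i, 0 ≤ β i) {n : ℕ}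
    (hn : ∑ i, d i + 1 ≤ n) : MemLp (fun X : Fin n → Amb d => facets X) 2 (sample d β n) := by
  have := blockBeta_prob d hβ
  have : IsProbabilityMeasure (sample d β n) := by unfold sample; infer_instance
  refine (memLp_congr_ae (facets_eq hm hd hβ hn)).2 ?_
  exact MemLp.of_bound (measurable_cntR _ n).aestronglyMeasurable (2 ^ n)
    (Filter.Eventually.of_forall fun X => abs_cntR_le _ n X)

theorem var_facets_eq (hm : 1 ≤ m) (hd : ∀ i, 1 ≤ d i) (hβ : ∀ i, 0 ≤ β i) {n : ℕ}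
    (hn : ∑ i, d i + 1 ≤ n) :
    Var[fun X : Fin n → Amb d => facets X; sample d β n] =
      Var[fun X : Fin n → Amb d => (cnt (∑ i, d i) X Finset.univ : ℝ);
        iid (Fin n) (blockBeta d β)] :=
  variance_congr (facets_eq hm hd hβ hn)

theorem var_one (hm : 1 ≤ m) (hd : ∀ i, 1 ≤ d i) (hβ : ∀ i, 0 ≤ β i) (h1 : ∑ i, d i = 1) {n : ℕ}
    (hn : 2 ≤ n) : Var[fun X : Fin n → Amb d => facets X; sample d β n] = 0 := by
  have := blockBeta_prob d hβ
  rw [var_facets_eq hm hd hβ (by omega), h1]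
  have h := cnt_ae_two (blockBeta d β) (blockBeta_affine d β) (by rw [finrank_amb, h1]) hn
  have h2 : (fun X : Fin n → Amb d => (cnt 1 X Finset.univ : ℝ)) =ᵐ[iid (Fin n) (blockBeta d β)]
      fun _ => (2 : ℝ) := by
    filter_upwards [h] with X hX
    rw [hX]; norm_num
  rw [variance_congr h2]
  simp [variance, evariance]

theorem var_two_sided (hm : 1 ≤ m) (hd : ∀ i, 1 ≤ d i) (hβ : ∀ i, 0 ≤ β i) (h2 : 2 ≤ ∑ i, d i) :
    ∃ c C : ℝ, 0 < c ∧ ∃ n0 : ℕ, ∀ n : ℕ, n0 ≤ n →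
      c * order d β n ≤ Var[fun X : Fin n → Amb d => facets X; sample d β n] ∧
      Var[fun X : Fin n → Amb d => facets X; sample d β n] ≤ C * order d β n := by
  have := blockBeta_prob d hβ
  obtain ⟨c, hc, n0, hlow⟩ := var_cnt_ge hm hd hβ h2
  obtain ⟨A, B, -, -, hB⟩ := exists_bounds hm hd hβ (∑ i, d i)
  refine ⟨c, 2 * B, hc, max n0 (∑ i, d i + 6), fun n hn => ?_⟩
  have hn0 : n0 ≤ n := le_of_max_le_left hn
  have hn1 : ∑ i, d i + 6 ≤ n := le_of_max_le_right hn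
  rw [var_facets_eq hm hd hβ (by omega)]
  refine ⟨hlow n hn0, ?_⟩
  obtain ⟨K, w, hb⟩ := hB n (by omega)
  have := var_cnt_le hb (by omega) hn1
  linarith

theorem berry_esseen (hm : 1 ≤ m) (hd : ∀ i, 1 ≤ d i) (hβ : ∀ i, 0 ≤ β i) (h2 : 2 ≤ ∑ i, d i) :
    ∃ C : ℝ, ∃ n0 : ℕ, ∀ n : ℕ, n0 ≤ n →
      0 < Var[fun X : Fin n → Amb d => facets X; sample d β n] ∧ ∀ t : ℝ,
      |(sample d β n).real {X | (facets X - ∫ Y, facets Y ∂(sample d β n)) /
          √(Var[fun Y : Fin n → Amb d => facets Y; sample d β n]) ≤ t} -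
        (gaussianReal 0 1).real (Set.Iic t)| ≤ C / √(order d β n) := by
  have := blockBeta_prob d hβ
  obtain ⟨c, hc, n0, hlow⟩ := var_cnt_ge hm hd hβ h2
  obtain ⟨A, B, hA, hB0, hB⟩ := exists_bounds hm hd hβ (∑ i, d i)
  refine ⟨3 * √(10 ^ 9 * A * B) / c, max n0 (∑ i, d i + 6), fun n hn => ?_⟩
  have hn0 : n0 ≤ n := le_of_max_le_left hn
  have hn1 : ∑ i, d i + 6 ≤ n := le_of_max_le_right hn
  have ho := order_pos d β (n := n) (by omega)
  have hae := facets_eq hm hd hβ (n := n) (by omega)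
  have hv := hlow n hn0
  rw [var_facets_eq hm hd hβ (by omega), integral_congr_ae hae]
  set g : (Fin n → Amb d) → ℝ := fun X => (cnt (∑ i, d i) X Finset.univ : ℝ) with hg
  have hpos : 0 < Var[g; iid (Fin n) (blockBeta d β)] := lt_of_lt_of_le (by positivity) hv
  refine ⟨hpos, fun t => ?_⟩
  obtain ⟨K, w, hb⟩ := hB n (by omega)
  have hT1 := var_sumT_le hb (by omega) hn1 (fun a b => a * b) (by fun_prop)
    (fun a b => by rw [abs_mul]) (fun a b a' b' => by
      calc |a * b - a' * b'| = |(a - a') * b + a' * (b - b')| := by ring_nf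
        _ ≤ _ := by
          refine (abs_add_le _ _).trans ?_
          rw [abs_mul, abs_mul])
  have hT2 := var_sumT_le hb (by omega) hn1 (fun a b => a * |b|) (by fun_prop)
    (fun a b => by rw [abs_mul, abs_abs]) (fun a b a' b' => by
      calc |a * |b| - a' * (|b'|)| = |(a - a') * |b| + a' * (|b| - |b'|)| := by ring_nf
        _ ≤ _ := by
          refine (abs_add_le _ _).trans ?_
          rw [abs_mul, abs_mul, abs_abs]
          exact add_le_add le_rfl (mul_le_mul_of_nonneg_left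
            (abs_abs_sub_abs_le_abs_sub b b') (abs_nonneg _)))
  have hk := kolmogorov_le (blockBeta d β) g (measurable_cntR _ n) (2 ^ n) (abs_cntR_le _ n) hpos t
  have hset : (sample d β n).real {X | (facets X - ∫ Y, g Y ∂(sample d β n)) /
        √(Var[g; iid (Fin n) (blockBeta d β)]) ≤ t} =
      (iid (Fin n) (blockBeta d β)).real {X | (g X - ∫ Y, g Y ∂(iid (Fin n) (blockBeta d β))) /
        √(Var[g; iid (Fin n) (blockBeta d β)]) ≤ t} := by
    refine measureReal_congr ?_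
    filter_upwards [hae] with X hX
    change ((facets X - _) / _ ≤ t) = ((g X - _) / _ ≤ t)
    rw [hX]
    rfl
  rw [hset]
  refine hk.trans ?_
  have hs : √(10 ^ 9 * A * (B * order d β n)) = √(10 ^ 9 * A * B) * √(order d β n) := by
    rw [← Real.sqrt_mul (by positivity)]
    congr 1
    ring
  have h1 := Real.sqrt_le_sqrt hT1
  have h3 := Real.sqrt_le_sqrt hT2
  rw [hs] at h1 h3
  have hso : 0 < √(order d β n) := Real.sqrt_pos.2 ho
  have hsq : √(order d β n) * √(order d β n) = order d β n := Real.mul_self_sqrt ho.le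
  calc _ ≤ (3 * (√(10 ^ 9 * A * B) * √(order d β n))) / (c * order d β n) := by
        refine div_le_div₀ (by positivity) (by linarith) (by positivity) hv
    _ = _ := by
        field_simp
        rw [sq, hsq]

end Pool.Agent.Lib.MP_258d0c_pr
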