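import Pool.Agent.Lib.MP_258d0c_pr.VarTAux
import Pool.Agent.Lib.MP_258d0c_pr.Cov

open MeasureTheory ProbabilityTheory
open scoped ENNReal Classical InnerProductSpace

namespace Pool.Agent.Lib.MP_258d0c_pr

section Index

variable {n : ℕ}

/-- index set of a recombination -/
def vtEmb (A : Finset (Fin n)) : Fin n ↪ Fin n ⊕ Fin n where
  toFun i := if i ∈ A then Sum.inr i else Sum.inl i
  inj' i j h := by
    have := congrArg (Sum.elim id id) h
    dsimp only at this
    split_ifs at this <;> simpa using this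

/-- the pair an index belongs to -/
def vtPr (i : Fin n ⊕ Fin n) : Fin n := Sum.elim id id i

/-- the two copies of `j` -/
def vtPt (j : Fin n) (s : Bool) : Fin n ⊕ Fin n := if s then Sum.inr j else Sum.inl j

/-- the common part of the two recombinations -/
def vtBase (j : Fin n) (b : Bool) : Finset (Fin n ⊕ Fin n) :=
  (Finset.univ.erase j).map (vtEmb (if b then Finset.Iio j else ∅))

@[simp] theorem vtPr_pt (j : Fin n) (s : Bool) : vtPr (vtPt j s) = j := by
  cases s <;> rfl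

theorem vtPr_emb (A : Finset (Fin n)) (i : Fin n) : vtPr (vtEmb A i) = i := by
  change vtPr (if i ∈ A then Sum.inr i else Sum.inl i) = i
  split_ifs <;> rfl

theorem vtPr_ne_of_mem {j : Fin n} {b : Bool} {p : Fin n ⊕ Fin n} (hp : p ∈ vtBase j b) :
    vtPr p ≠ j := by
  obtain ⟨i, hi, rfl⟩ := Finset.mem_map.1 hp
  rw [vtPr_emb]
  exact Finset.ne_of_mem_erase hi

theorem vtPt_notMem (j : Fin n) (s b : Bool) : vtPt j s ∉ vtBase j b := fun h =>
  vtPr_ne_of_mem h (vtPr_pt j s)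

theorem card_vtBase (j : Fin n) (b : Bool) : (vtBase j b).card = n - 1 := by
  simp [vtBase]

theorem map_emb_eq {A : Finset (Fin n)} {j : Fin n} (hj : j ∉ A) :
    Finset.univ.map (vtEmb A) = insert (Sum.inl j) ((Finset.univ.erase j).map (vtEmb A)) ∧
    Finset.univ.map (vtEmb (insert j A)) =
      insert (Sum.inr j) ((Finset.univ.erase j).map (vtEmb A)) := by
  have h1 : vtEmb A j = Sum.inl j := if_neg hj
  have h2 : vtEmb (insert j A) j = Sum.inr j := if_pos (Finset.mem_insert_self _ _)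
  have h3 : (Finset.univ.erase j).map (vtEmb (insert j A)) =
      (Finset.univ.erase j).map (vtEmb A) := by
    rw [Finset.map_eq_image, Finset.map_eq_image]
    refine Finset.image_congr fun i hi => ?_
    have hij : i ≠ j := Finset.ne_of_mem_erase hi
    change (if i ∈ insert j A then Sum.inr i else Sum.inl i) =
      (if i ∈ A then Sum.inr i else Sum.inl i)
    simp [hij]
  constructor
  · rw [← h1, ← Finset.map_insert, Finset.insert_erase (Finset.mem_univ j)]
  · rw [← h2, ← h3, ← Finset.map_insert, Finset.insert_erase (Finset.mem_univ j)]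

end Index

section Point

variable {E : Type} [NormedAddCommGroup E] [NormedSpace ℝ E] {n : ℕ}

/-- difference of the two add-one costs -/
noncomputable def vtD (D : ℕ) (U : Fin n ⊕ Fin n → E) (j : Fin n) (T : Finset (Fin n ⊕ Fin n)) :
    ℝ :=
  (cnt D U (insert (vtPt j false) T) : ℝ) - cnt D U (insert (vtPt j true) T)

theorem cnt_mix (D : ℕ) (A : Finset (Fin n)) (U : Fin n ⊕ Fin n → E) :
    cnt D (mix A U) Finset.univ = cnt D U (Finset.univ.map (vtEmb A)) := by
  rw [← cnt_map]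
  congr 1
  funext i
  change (if i ∈ A then U (Sum.inr i) else U (Sum.inl i)) =
    U (if i ∈ A then Sum.inr i else Sum.inl i)
  split_ifs <;> rfl

theorem dA_eq (D : ℕ) (j : Fin n) (U : Fin n ⊕ Fin n → E) :
    dA (fun X : Fin n → E => (cnt D X Finset.univ : ℝ)) j U = vtD D U j (vtBase j false) := by
  obtain ⟨h1, h2⟩ := map_emb_eq (A := ∅) (j := j) (Finset.notMem_empty j)
  simp only [dA, cnt_mix, vtD]
  rw [h1, ← LawfulSingleton.insert_empty_eq, h2]
  rfl

theorem dB_eq (D : ℕ) (j : Fin n) (U : Fin n ⊕ Fin n → E) :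
    dB (fun X : Fin n → E => (cnt D X Finset.univ : ℝ)) j U = vtD D U j (vtBase j true) := by
  obtain ⟨h1, h2⟩ := map_emb_eq (A := Finset.Iio j) (j := j) (by simp)
  simp only [dB, cnt_mix, vtD]
  rw [h1, ← Finset.Iio_insert, h2]
  rfl

theorem abs_vtD_le (D : ℕ) (U : Fin n ⊕ Fin n → E) (j : Fin n) (T : Finset (Fin n ⊕ Fin n)) :
    |vtD D U j T| ≤ 2 ^ (n + n) := by
  have h : ∀ S : Finset (Fin n ⊕ Fin n), (cnt D U S : ℝ) ≤ 2 ^ (n + n) := fun S => by
    have h1 : cnt D U S ≤ 2 ^ (n + n) := (cnt_le D U S).trans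
      (Nat.pow_le_pow_right two_pos (by simpa using S.card_le_univ))
    exact_mod_cast h1
  have h1 := h (insert (vtPt j false) T)
  have h2 := h (insert (vtPt j true) T)
  have h3 : (0 : ℝ) ≤ cnt D U (insert (vtPt j false) T) := Nat.cast_nonneg _
  have h4 : (0 : ℝ) ≤ cnt D U (insert (vtPt j true) T) := Nat.cast_nonneg _
  rw [vtD, abs_le]
  constructor <;> linarith

variable {ι : Type} [DecidableEq ι]

/-- add-one cost against a slightly smaller index set -/
theorem ofReal_diff_le {D : ℕ} (hD : 1 ≤ D) (U : ι → E) {S0 S : Finset ι} (h0 : S0 ⊆ S)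
    (h2 : (S \ S0).card ≤ 2) (hS : D < S.card) {p : ι} (hp : p ∉ S) :
    ENNReal.ofReal |(cnt D U (insert p S) : ℝ) - cnt D U S| ≤
      Ind U S0 (U p) (U p) * Mx D U S0 (U p) := by
  by_cases hv : Vis U S (U p) (U p)
  · have h1 : vis U S (U p) + 1 ≤ vis U S0 (U p) + 3 := by
      have := vis_le_add U h0 (U p)
      omega
    rw [Ind, if_pos (hv.anti h0), one_mul, Mx]
    refine (ENNReal.ofReal_le_ofReal (first_diff hD U hS hp)).trans ?_
    rw [ENNReal.ofReal_pow (by positivity), ← Nat.cast_add_one, ENNReal.ofReal_natCast]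
    gcongr
    exact_mod_cast h1
  · rw [first_diff_zero hD U hS hp hv]
    simp

omit [DecidableEq ι] in
theorem Ind_le_one (U : ι → E) (S : Finset ι) (x y : E) : Ind U S x y ≤ 1 := by
  unfold Ind
  split_ifs <;> simp

theorem ofReal_vtD_le {D : ℕ} (hD : 1 ≤ D) (U : Fin n ⊕ Fin n → E) (j : Fin n)
    {S0 S : Finset (Fin n ⊕ Fin n)} (h0 : S0 ⊆ S) (h2 : (S \ S0).card ≤ 2) (hS : D < S.card)
    (hp : ∀ s, vtPt j s ∉ S) :
    ENNReal.ofReal |vtD D U j S| ≤
      ∑ s, Ind U S0 (U (vtPt j s)) (U (vtPt j s)) * Mx D U S0 (U (vtPt j s)) := by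
  have e : vtD D U j S = ((cnt D U (insert (vtPt j false) S) : ℝ) - cnt D U S) -
      ((cnt D U (insert (vtPt j true) S) : ℝ) - cnt D U S) := by rw [vtD]; ring
  rw [e, Fintype.sum_bool, add_comm]
  refine (ENNReal.ofReal_le_ofReal (abs_sub _ _)).trans (ENNReal.ofReal_add_le.trans ?_)
  exact add_le_add (ofReal_diff_le hD U h0 h2 hS (hp _)) (ofReal_diff_le hD U h0 h2 hS (hp _))

theorem vtD_erase {D : ℕ} (hD : 1 ≤ D) (U : Fin n ⊕ Fin n → E) (j : Fin n)
    {S : Finset (Fin n ⊕ Fin n)} {i : Fin n ⊕ Fin n} (hS : D < (S.erase i).card)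
    (hp : ∀ s, vtPt j s ∉ S) (hi : vtPr i ≠ j)
    (hv : ∀ s, ¬ Vis U (S.erase i) (U i) (U (vtPt j s))) :
    vtD D U j S = vtD D U j (S.erase i) := by
  by_cases hiS : i ∈ S
  · have h := fun s => second_diff hD U hS (p := vtPt j s) (q := i)
      (fun h => hp s (Finset.mem_of_mem_erase h)) (Finset.notMem_erase i S)
      (fun h => hi (by rw [← h, vtPr_pt])) (fun h => hv s h.symm)
    have h1 := h false
    have h2 := h true
    rw [Finset.insert_erase hiS] at h1 h2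
    rw [vtD, vtD]
    linarith
  · rw [Finset.erase_eq_of_notMem hiS]

/-- the interaction indicator -/
noncomputable def vtChi (U : Fin n ⊕ Fin n → E) (i : Fin n ⊕ Fin n) (j : Fin n)
    (u : Bool × Bool) : ℝ≥0∞ :=
  Ind U ((vtBase j u.1).erase i) (U i) (U (vtPt j u.2))

/-- the change of the `j`-th summand when index `i` is deleted -/
noncomputable def vtC (ψ : ℝ → ℝ → ℝ) (D : ℕ) (U : Fin n ⊕ Fin n → E) (i : Fin n ⊕ Fin n)
    (j : Fin n) : ℝ :=
  ψ (vtD D U j (vtBase j false)) (vtD D U j (vtBase j true)) -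
    ψ (vtD D U j ((vtBase j false).erase i)) (vtD D U j ((vtBase j true).erase i))

theorem card_sdiff_erase_erase (S : Finset ι) (i q : ι) :
    (S \ (S.erase i).erase q).card ≤ 2 := by
  refine le_trans (Finset.card_le_card (t := {i, q}) fun x hx => ?_) Finset.card_le_two
  simp only [Finset.mem_sdiff, Finset.mem_erase, Finset.mem_insert, Finset.mem_singleton] at hx ⊢
  tauto

theorem lt_card_erase {D : ℕ} (hn : D + 6 ≤ n) (i : Fin n ⊕ Fin n) (j : Fin n) (b : Bool) :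
    D < ((vtBase j b).erase i).card := by
  have h1 := Finset.pred_card_le_card_erase (s := vtBase j b) (a := i)
  rw [card_vtBase] at h1
  omega

theorem le_card_erase {D : ℕ} (hn : D + 6 ≤ n) (i q : Fin n ⊕ Fin n) (j : Fin n) (b : Bool) :
    n ≤ 2 * (((vtBase j b).erase i).erase q).card := by
  have h1 := Finset.pred_card_le_card_erase (s := vtBase j b) (a := i)
  have h2 := Finset.pred_card_le_card_erase (s := (vtBase j b).erase i) (a := q)
  rw [card_vtBase] at h1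
  omega

theorem ofReal_vtC_le_chi (ψ : ℝ → ℝ → ℝ) {D : ℕ} (hD : 1 ≤ D)
    (hn : D + 6 ≤ n) (U : Fin n ⊕ Fin n → E) {i : Fin n ⊕ Fin n} {j : Fin n} (hi : vtPr i ≠ j) :
    ENNReal.ofReal |vtC ψ D U i j| ≤ (∑ u, vtChi U i j u) * ENNReal.ofReal |vtC ψ D U i j| := by
  have hc := lt_card_erase hn i j
  by_cases hv : ∀ u : Bool × Bool, ¬ Vis U ((vtBase j u.1).erase i) (U i) (U (vtPt j u.2))
  · rw [vtC, ← vtD_erase hD U j (hc false) (fun s => vtPt_notMem j s _) hi fun s => hv (false, s),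
      ← vtD_erase hD U j (hc true) (fun s => vtPt_notMem j s _) hi fun s => hv (true, s)]
    simp
  push Not at hv
  obtain ⟨u, hu⟩ := hv
  refine le_mul_of_one_le_left zero_le ?_
  refine le_trans ?_ (Finset.single_le_sum (f := vtChi U i j) (fun _ _ => zero_le)
    (Finset.mem_univ u))
  rw [vtChi, Ind, if_pos hu]

/-- majorants with the indices `i` and `q` removed -/
noncomputable def vtM (D : ℕ) (U : Fin n ⊕ Fin n → E) (i q : Fin n ⊕ Fin n) (j : Fin n)
    (v : Bool × Bool) : ℝ≥0∞ :=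
  Mx D U (((vtBase j v.1).erase i).erase q) (U (vtPt j v.2))

theorem ofReal_vtC_le {ψ : ℝ → ℝ → ℝ}
    (hψ : ∀ a b a' b', |ψ a b - ψ a' b'| ≤ |a - a'| * |b| + |a'| * |b - b'|) {D : ℕ} (hD : 1 ≤ D)
    (hn : D + 6 ≤ n) (U : Fin n ⊕ Fin n → E) (i : Fin n ⊕ Fin n) (j : Fin n)
    (q : Fin n ⊕ Fin n) :
    ENNReal.ofReal |vtC ψ D U i j| ≤ 4 * (∑ v, vtM D U i q j v) ^ 2 := by
  have hc := lt_card_erase hn i j
  set H := ∑ v, vtM D U i q j v with hH
  have hb : ∀ (b : Bool) (S : Finset (Fin n ⊕ Fin n)), (vtBase j b).erase i ⊆ S →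
      S ⊆ vtBase j b → ENNReal.ofReal |vtD D U j S| ≤ H := fun b S hS1 hS2 => by
    refine (ofReal_vtD_le hD U j (S0 := ((vtBase j b).erase i).erase q)
      ((Finset.erase_subset _ _).trans hS1)
      ((Finset.card_le_card (Finset.sdiff_subset_sdiff hS2 le_rfl)).trans
        (card_sdiff_erase_erase _ i q))
      ((hc b).trans_le (Finset.card_le_card hS1))
      fun s h => vtPt_notMem j s b (hS2 h)).trans ?_
    rw [hH, Fintype.sum_prod_type]
    refine le_trans (Finset.sum_le_sum fun s _ => mul_le_of_le_one_left zero_le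
      (Ind_le_one _ _ _ _)) ?_
    exact Finset.single_le_sum (f := fun b : Bool => ∑ s : Bool, vtM D U i q j (b, s))
      (fun _ _ => zero_le) (Finset.mem_univ b)
  have a1 := hb false _ (Finset.erase_subset _ _) le_rfl
  have a2 := hb false _ le_rfl (Finset.erase_subset _ _)
  have a3 := hb true _ (Finset.erase_subset _ _) le_rfl
  have a4 := hb true _ le_rfl (Finset.erase_subset _ _)
  have hsub : ∀ x y : ℝ, ENNReal.ofReal |x| ≤ H → ENNReal.ofReal |y| ≤ H →
      ENNReal.ofReal |x - y| ≤ H + H := fun x y hx hy =>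
    (ENNReal.ofReal_le_ofReal (abs_sub _ _)).trans
      (ENNReal.ofReal_add_le.trans (add_le_add hx hy))
  refine (ENNReal.ofReal_le_ofReal (hψ _ _ _ _)).trans (ENNReal.ofReal_add_le.trans ?_)
  rw [ENNReal.ofReal_mul (abs_nonneg _), ENNReal.ofReal_mul (abs_nonneg _)]
  calc _ ≤ (H + H) * H + H * (H + H) :=
        add_le_add (mul_le_mul' (hsub _ _ a1 a2) a3) (mul_le_mul' a2 (hsub _ _ a3 a4))
    _ = _ := by ring

theorem sum_four_pow_le (f : Bool × Bool → ℝ≥0∞) (k : ℕ) :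
    (∑ v, f v) ^ (k + 1) ≤ 4 ^ (k + 1) * ∑ v, f v ^ (k + 1) := by
  simpa using vt_sum_pow_le Finset.univ f k

theorem vtC_sq_le {ψ : ℝ → ℝ → ℝ}
    (hψ : ∀ a b a' b', |ψ a b - ψ a' b'| ≤ |a - a'| * |b| + |a'| * |b - b'|) {D : ℕ} (hD : 1 ≤ D)
    (hn : D + 6 ≤ n) (U : Fin n ⊕ Fin n → E) {i : Fin n ⊕ Fin n} {j : Fin n} (hi : vtPr i ≠ j) :
    ENNReal.ofReal |vtC ψ D U i j| * ENNReal.ofReal |vtC ψ D U i j| ≤
      ∑ u, ∑ v, 4096 * (vtChi U i j u * vtM D U i i j v ^ 4) := by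
  have h1 := ofReal_vtC_le_chi ψ hD hn U hi
  have h2 := ofReal_vtC_le hψ hD hn U i j i
  have h3 := sum_four_pow_le (vtM D U i i j) 3
  calc _ ≤ ((∑ u, vtChi U i j u) * (4 * (∑ v, vtM D U i i j v) ^ 2)) *
        (4 * (∑ v, vtM D U i i j v) ^ 2) := mul_le_mul' (h1.trans (by gcongr)) h2
    _ = 16 * (∑ u, vtChi U i j u) * (∑ v, vtM D U i i j v) ^ (3 + 1) := by ring
    _ ≤ 16 * (∑ u, vtChi U i j u) * (4 ^ (3 + 1) * ∑ v, vtM D U i i j v ^ (3 + 1)) := by gcongr
    _ = 4096 * ((∑ u, vtChi U i j u) * ∑ v, vtM D U i i j v ^ 4) := by ring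
    _ = _ := by rw [Finset.sum_mul_sum, Finset.mul_sum]; simp only [Finset.mul_sum]

theorem vtC_mul_le {ψ : ℝ → ℝ → ℝ}
    (hψ : ∀ a b a' b', |ψ a b - ψ a' b'| ≤ |a - a'| * |b| + |a'| * |b - b'|) {D : ℕ} (hD : 1 ≤ D)
    (hn : D + 6 ≤ n) (U : Fin n ⊕ Fin n → E) {i : Fin n ⊕ Fin n} {j k : Fin n} (hj : vtPr i ≠ j)
    (hk : vtPr i ≠ k) :
    ENNReal.ofReal |vtC ψ D U i j| * ENNReal.ofReal |vtC ψ D U i k| ≤
      ∑ u, ∑ u', ∑ v, ∑ v', 4096 * (vtChi U i j u * vtChi U i k u' *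
        (vtM D U i (vtPt k u'.2) j v ^ 2 * vtM D U i (vtPt j u.2) k v' ^ 2)) := by
  refine (mul_le_mul' (ofReal_vtC_le_chi ψ hD hn U hj) (ofReal_vtC_le_chi ψ hD hn U hk)).trans ?_
  rw [mul_mul_mul_comm, Finset.sum_mul_sum, Finset.sum_mul]
  refine Finset.sum_le_sum fun u _ => ?_
  rw [Finset.sum_mul]
  refine Finset.sum_le_sum fun u' _ => ?_
  have h1 := (ofReal_vtC_le hψ hD hn U i j (vtPt k u'.2)).trans
    (mul_le_mul_right (sum_four_pow_le _ 1) 4)
  have h2 := (ofReal_vtC_le hψ hD hn U i k (vtPt j u.2)).trans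
    (mul_le_mul_right (sum_four_pow_le _ 1) 4)
  calc _ ≤ vtChi U i j u * vtChi U i k u' *
        (4 * (4 ^ (1 + 1) * ∑ v, vtM D U i (vtPt k u'.2) j v ^ (1 + 1)) *
          (4 * (4 ^ (1 + 1) * ∑ v, vtM D U i (vtPt j u.2) k v ^ (1 + 1)))) := by gcongr
    _ = 4096 * (vtChi U i j u * vtChi U i k u' * ((∑ v, vtM D U i (vtPt k u'.2) j v ^ 2) *
          ∑ v, vtM D U i (vtPt j u.2) k v ^ 2)) := by ring
    _ = _ := by rw [Finset.sum_mul_sum]; simp only [Finset.mul_sum]

theorem vtDiag_le {ψ : ℝ → ℝ → ℝ} (hψ0 : ∀ a b, |ψ a b| ≤ |a| * |b|) {D : ℕ} (hD : 1 ≤ D)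
    (hn : D + 6 ≤ n) (U : Fin n ⊕ Fin n → E) (j : Fin n) :
    ENNReal.ofReal |ψ (vtD D U j (vtBase j false)) (vtD D U j (vtBase j true))| ^ 2 ≤
      ∑ v : Bool × Bool, 256 * (Ind U (vtBase j v.1) (U (vtPt j v.2)) (U (vtPt j v.2)) *
        Mx D U (vtBase j v.1) (U (vtPt j v.2)) ^ 4) := by
  set f : Bool × Bool → ℝ≥0∞ := fun v => Ind U (vtBase j v.1) (U (vtPt j v.2)) (U (vtPt j v.2)) *
    Mx D U (vtBase j v.1) (U (vtPt j v.2)) with hf
  have hb : ∀ b, ENNReal.ofReal |vtD D U j (vtBase j b)| ≤ ∑ v, f v := fun b => by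
    refine (ofReal_vtD_le hD U j (S0 := vtBase j b) le_rfl (by simp)
      (by rw [card_vtBase]; omega) fun s => vtPt_notMem j s b).trans ?_
    rw [Fintype.sum_prod_type]
    exact Finset.single_le_sum (f := fun b : Bool => ∑ s : Bool, f (b, s))
      (fun _ _ => zero_le) (Finset.mem_univ b)
  have h1 : ENNReal.ofReal |ψ (vtD D U j (vtBase j false)) (vtD D U j (vtBase j true))| ≤
      (∑ v, f v) * ∑ v, f v := by
    refine (ENNReal.ofReal_le_ofReal (hψ0 _ _)).trans ?_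
    rw [ENNReal.ofReal_mul (abs_nonneg _)]
    exact mul_le_mul' (hb _) (hb _)
  calc _ ≤ ((∑ v, f v) * ∑ v, f v) ^ 2 := ENNReal.pow_le_pow_left h1
    _ = (∑ v, f v) ^ (3 + 1) := by ring
    _ ≤ _ := sum_four_pow_le f 3
    _ = _ := by
        rw [Finset.mul_sum]
        refine Finset.sum_congr rfl fun v _ => ?_
        rw [hf, mul_pow, Ind_pow]
        norm_num

end Point

section Main

variable {E : Type} [NormedAddCommGroup E] [NormedSpace ℝ E] [FiniteDimensional ℝ E]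
  [MeasurableSpace E] [BorelSpace E] {μ : Measure E} [IsProbabilityMeasure μ] {D n : ℕ}
  {Z : Set E} {K : E → E → ℝ≥0∞} {w : E → ℝ≥0∞} {A B : ℝ}

theorem vt_measurable_cnt {ι : Type} [Fintype ι] (D : ℕ) (S : Finset ι) :
    Measurable fun U : ι → E => (cnt D U S : ℝ) :=
  (measurable_from_top (f := fun k : ℕ => (k : ℝ))).comp (measurable_cnt D S)

theorem measurable_vtD (D : ℕ) (j : Fin n) (T : Finset (Fin n ⊕ Fin n)) :
    Measurable fun U : Fin n ⊕ Fin n → E => vtD D U j T :=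
  (vt_measurable_cnt D _).sub (vt_measurable_cnt D _)

theorem measurable_vtChi (i : Fin n ⊕ Fin n) (j : Fin n) (u : Bool × Bool) :
    Measurable fun U : Fin n ⊕ Fin n → E => vtChi U i j u :=
  measurable_Ind _ measurable_id (measurable_pi_apply _) (measurable_pi_apply _)

theorem measurable_vtM (D : ℕ) (i q : Fin n ⊕ Fin n) (j : Fin n) (v : Bool × Bool) :
    Measurable fun U : Fin n ⊕ Fin n → E => vtM D U i q j v :=
  measurable_Mx D _ measurable_id (measurable_pi_apply _)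

omit [NormedSpace ℝ E] [FiniteDimensional ℝ E] [BorelSpace E] [NormedAddCommGroup E]
  [IsProbabilityMeasure μ] in
theorem integral_sq_le {ι : Type} [Fintype ι] {f : (ι → E) → ℝ} (hf : Measurable f) {b : ℝ≥0∞}
    (hb : b ≠ ⊤) (h : ∫⁻ U, ENNReal.ofReal |f U| ^ 2 ∂(iid ι μ) ≤ b) :
    ∫ U, f U ^ 2 ∂(iid ι μ) ≤ b.toReal := by
  rw [integral_eq_lintegral_of_nonneg_ae (Filter.Eventually.of_forall fun U => sq_nonneg _)
    (hf.pow_const 2).aestronglyMeasurable]
  refine ENNReal.toReal_mono hb (le_trans (le_of_eq (lintegral_congr fun U => ?_)) h)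
  rw [← ENNReal.ofReal_pow (abs_nonneg _), sq_abs]

theorem vt_div {n : ℕ} (hn : 1 ≤ n) {x : ℝ≥0∞} {B : ℝ} (h : (n : ℝ≥0∞) * x ≤ ENNReal.ofReal B) :
    x ≤ ENNReal.ofReal (B / n) := by
  have hn' : (0 : ℝ) < n := by exact_mod_cast hn
  rw [ENNReal.ofReal_div_of_pos hn', ENNReal.ofReal_natCast,
    ENNReal.le_div_iff_mul_le (Or.inl (by simp; omega)) (Or.inl (by simp)), mul_comm]
  exact h

theorem var_cnt_le (h : Bounds μ D n Z K w A B) (hD : 1 ≤ D) (hn : D + 6 ≤ n) :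
    Var[fun X : Fin n → E => (cnt D X Finset.univ : ℝ); iid (Fin n) μ] ≤ 2 * B := by
  have hbd : ∀ (S : Finset (Fin n)) (U : Fin n → E), |(cnt D U S : ℝ)| ≤ 2 ^ n := fun S U => by
    rw [abs_of_nonneg (Nat.cast_nonneg _)]
    have h1 : cnt D U S ≤ 2 ^ n := (cnt_le D U S).trans
      (Nat.pow_le_pow_right two_pos (by simpa using S.card_le_univ))
    exact_mod_cast h1
  refine (efron_stein μ _ (fun i U => (cnt D U (Finset.univ.erase i) : ℝ))
    (vt_measurable_cnt D _) (fun i => vt_measurable_cnt D _) (2 ^ n) (hbd _) (fun i => hbd _)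
    fun i U x => ?_).trans ?_
  · rw [cnt_congr D (U' := U) fun j hj => Function.update_of_ne (Finset.ne_of_mem_erase hj) _ _]
  have hn' : (0 : ℝ) < n := by exact_mod_cast (by omega : 0 < n)
  have key : ∀ i : Fin n, ∫ U, ((cnt D U Finset.univ : ℝ) - cnt D U (Finset.univ.erase i)) ^ 2
      ∂(iid (Fin n) μ) ≤ B / n := fun i => by
    have hc : (Finset.univ.erase i).card = n - 1 := by simp
    refine (integral_sq_le ((vt_measurable_cnt D _).sub (vt_measurable_cnt D _))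
      ENNReal.ofReal_ne_top (le_trans ?_ (vt_div (by omega) h.int1))).trans
      (le_of_eq (ENNReal.toReal_ofReal (div_nonneg h.nonneg_B hn'.le)))
    refine le_trans (lintegral_mono fun U => ?_)
      (h.term1 (Finset.univ.erase i) (by omega) (Finset.notMem_erase i _))
    have h1 := ofReal_diff_le hD U (S0 := Finset.univ.erase i) le_rfl (by simp) (by omega)
      (Finset.notMem_erase i _)
    rw [Finset.insert_erase (Finset.mem_univ i)] at h1
    refine (ENNReal.pow_le_pow_left h1).trans ?_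
    rw [mul_pow, Ind_pow _ _ _ _ 1]
    gcongr
    · exact one_le_Mx _ _ _ _
    · norm_num
  refine mul_le_mul_of_nonneg_left ((Finset.sum_le_sum fun i _ => key i).trans ?_) two_pos.le
  rw [Finset.sum_const, Finset.card_univ, Fintype.card_fin, nsmul_eq_mul]
  exact le_of_eq (by field_simp)

theorem Bounds.lint_diag (h : Bounds μ D n Z K w A B) (hD : 1 ≤ D) (hn : D + 6 ≤ n)
    {ψ : ℝ → ℝ → ℝ} (hψ0 : ∀ a b, |ψ a b| ≤ |a| * |b|) (j : Fin n) :
    ∫⁻ U, ENNReal.ofReal |ψ (vtD D U j (vtBase j false)) (vtD D U j (vtBase j true))| ^ 2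
      ∂(iid (Fin n ⊕ Fin n) μ) ≤ 1024 * ∫⁻ z, K z z * w z ∂μ := by
  refine (lintegral_mono fun U => vtDiag_le hψ0 hD hn U j).trans ?_
  have hm : ∀ v : Bool × Bool, Measurable fun U : Fin n ⊕ Fin n → E =>
      256 * (Ind U (vtBase j v.1) (U (vtPt j v.2)) (U (vtPt j v.2)) *
        Mx D U (vtBase j v.1) (U (vtPt j v.2)) ^ 4) := fun v =>
    ((measurable_Ind _ measurable_id (measurable_pi_apply _)
      (measurable_pi_apply _)).mul ((measurable_Mx D _ measurable_id
        (measurable_pi_apply _)).pow_const 4)).const_mul _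
  rw [lintegral_finsetSum _ fun v _ => hm v]
  refine (Finset.sum_le_card_nsmul _ _ (256 * ∫⁻ z, K z z * w z ∂μ) fun v _ => ?_).trans ?_
  · rw [lintegral_const_mul' _ _ (by norm_num)]
    gcongr
    exact h.term1 _ (by rw [card_vtBase]; omega) (vtPt_notMem _ _ _)
  · simp only [Finset.card_univ, Fintype.card_prod, Fintype.card_bool, nsmul_eq_mul]
    rw [← mul_assoc]
    norm_num

theorem Bounds.lint_sq (h : Bounds μ D n Z K w A B) (hD : 1 ≤ D) (hn : D + 6 ≤ n)
    {ψ : ℝ → ℝ → ℝ} (hψ : ∀ a b a' b', |ψ a b - ψ a' b'| ≤ |a - a'| * |b| + |a'| * |b - b'|)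
    {i : Fin n ⊕ Fin n} {j : Fin n} (hi : vtPr i ≠ j) :
    ∫⁻ U, ENNReal.ofReal |vtC ψ D U i j| * ENNReal.ofReal |vtC ψ D U i j|
      ∂(iid (Fin n ⊕ Fin n) μ) ≤
      65536 * (ENNReal.ofReal A * ∫⁻ z, ∫⁻ x, K z x * w x ∂μ ∂μ) := by
  have hne : ∀ s, i ≠ vtPt j s := fun s h => hi (by rw [h, vtPr_pt])
  refine (lintegral_mono fun U => vtC_sq_le hψ hD hn U hi).trans ?_
  have hm : ∀ u v, Measurable fun U : Fin n ⊕ Fin n → E =>
      4096 * (vtChi U i j u * vtM D U i i j v ^ 4) := fun u v =>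
    ((measurable_vtChi i j u).mul ((measurable_vtM D i i j v).pow_const 4)).const_mul _
  rw [lintegral_finsetSum _ fun u _ => Finset.measurable_sum _ fun v _ => hm u v]
  refine (Finset.sum_le_card_nsmul _ _
    (4 * (4096 * (ENNReal.ofReal A * ∫⁻ z, ∫⁻ x, K z x * w x ∂μ ∂μ))) fun u _ => ?_).trans ?_
  · rw [lintegral_finsetSum _ fun v _ => hm u v]
    refine (Finset.sum_le_card_nsmul _ _
      (4096 * (ENNReal.ofReal A * ∫⁻ z, ∫⁻ x, K z x * w x ∂μ ∂μ)) fun v _ => ?_).trans ?_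
    · rw [lintegral_const_mul' _ _ (by norm_num)]
      gcongr
      refine h.term2 _ _ ?_ (le_card_erase hn i i j _) (hne _) (Finset.notMem_erase _ _)
        (Finset.notMem_erase _ _) ?_ ?_ ?_ (hne _)
      · simpa using le_card_erase hn i i j u.1
      all_goals simp [vtPt_notMem]
    · simp
  · simp only [Finset.card_univ, Fintype.card_prod, Fintype.card_bool, nsmul_eq_mul]
    exact le_of_eq (by push_cast; ring)

theorem Bounds.lint_mul (h : Bounds μ D n Z K w A B) (hD : 1 ≤ D) (hn : D + 6 ≤ n)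
    {ψ : ℝ → ℝ → ℝ} (hψ : ∀ a b a' b', |ψ a b - ψ a' b'| ≤ |a - a'| * |b| + |a'| * |b - b'|)
    {i : Fin n ⊕ Fin n} {j k : Fin n} (hj : vtPr i ≠ j) (hk : vtPr i ≠ k) (hjk : j ≠ k) :
    ∫⁻ U, ENNReal.ofReal |vtC ψ D U i j| * ENNReal.ofReal |vtC ψ D U i k|
      ∂(iid (Fin n ⊕ Fin n) μ) ≤
      1048576 * (ENNReal.ofReal A * ∫⁻ z, (∫⁻ x, K z x * w x ∂μ) ^ 2 ∂μ) := by
  have hnej : ∀ s, i ≠ vtPt j s := fun s h => hj (by rw [h, vtPr_pt])
  have hnek : ∀ s, i ≠ vtPt k s := fun s h => hk (by rw [h, vtPr_pt])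
  have hne : ∀ s s', vtPt j s ≠ vtPt k s' := fun s s' h =>
    hjk (by rw [← vtPr_pt j s, h, vtPr_pt])
  refine (lintegral_mono fun U => vtC_mul_le hψ hD hn U hj hk).trans ?_
  simp only [← Fintype.sum_prod_type']
  set I := ENNReal.ofReal A * ∫⁻ z, (∫⁻ x, K z x * w x ∂μ) ^ 2 ∂μ with hI
  have hm : ∀ r : (Bool × Bool) × (Bool × Bool) × (Bool × Bool) × (Bool × Bool),
      Measurable fun U : Fin n ⊕ Fin n → E => 4096 * (vtChi U i j r.1 * vtChi U i k r.2.1 *
        (vtM D U i (vtPt k r.2.1.2) j r.2.2.1 ^ 2 * vtM D U i (vtPt j r.1.2) k r.2.2.2 ^ 2)) :=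
    fun r => (((measurable_vtChi i j _).mul
      (measurable_vtChi i k _)).mul (((measurable_vtM D i _ j _).pow_const 2).mul
        ((measurable_vtM D i _ k _).pow_const 2))).const_mul _
  rw [lintegral_finsetSum _ fun r _ => hm r]
  refine (Finset.sum_le_card_nsmul _ _ (4096 * I) fun r _ => ?_).trans ?_
  · rw [lintegral_const_mul' _ _ (by norm_num)]
    gcongr
    obtain ⟨u, u', v, v'⟩ := r
    refine le_trans (lintegral_mono fun U => ?_)
      (h.term3 (((vtBase j u.1).erase i).erase (vtPt k u'.2))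
        (((vtBase k u'.1).erase i).erase (vtPt j u.2))
        (((vtBase j v.1).erase i).erase (vtPt k u'.2))
        (((vtBase k v'.1).erase i).erase (vtPt j u.2))
        (le_card_erase hn _ _ _ _) (le_card_erase hn _ _ _ _) (le_card_erase hn _ _ _ _)
        (le_card_erase hn _ _ _ _) (i := i) (p := vtPt j u.2) (q := vtPt k u'.2)
        (p' := vtPt j v.2) (q' := vtPt k v'.2) (hnej _) (hnek _) (hne _ _)
        (by simp [vtPt_notMem]) (by simp [vtPt_notMem]) (by simp [vtPt_notMem])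
        (by simp [vtPt_notMem]) (by simp [vtPt_notMem]) (by simp [vtPt_notMem])
        (hnej _) (hnek _) (hne _ _).symm (hne _ _))
    exact mul_le_mul' (mul_le_mul' (Ind_anti U (Finset.erase_subset _ _) _ _)
      (Ind_anti U (Finset.erase_subset _ _) _ _)) le_rfl
  · simp only [Finset.card_univ, Fintype.card_prod, Fintype.card_bool, nsmul_eq_mul]
    exact le_of_eq (by push_cast; ring)

end Main

end Pool.Agent.Lib.MP_258d0c_pr
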