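import Pool.Agent.Lib.MP_258d0c_pr.Comb
import Pool.Agent.Lib.MP_258d0c_pr.Meas

open MeasureTheory ProbabilityTheory
open scoped ENNReal Classical InnerProductSpace

namespace Pool.Agent.Lib.MP_258d0c_pr

section General

theorem vt_cs {Ω : Type} [MeasurableSpace Ω] (P : Measure Ω) {f g : Ω → ℝ≥0∞}
    (hf : Measurable f) (hg : Measurable g) :
    (∫⁻ a, f a * g a ∂P) ^ 2 ≤ (∫⁻ a, f a ^ 2 ∂P) * ∫⁻ a, g a ^ 2 ∂P := by
  have h := ENNReal.lintegral_mul_le_Lp_mul_Lq P Real.HolderConjugate.two_two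
    hf.aemeasurable hg.aemeasurable
  simp only [Pi.mul_apply, ENNReal.rpow_two] at h
  refine (ENNReal.pow_le_pow_left (n := 2) h).trans (le_of_eq ?_)
  rw [mul_pow, ← ENNReal.rpow_two, ← ENNReal.rpow_two, ← ENNReal.rpow_mul, ← ENNReal.rpow_mul]
  norm_num

theorem vt_cs4 {Ω : Type} [MeasurableSpace Ω] (P : Measure Ω) {f1 f2 f3 f4 : Ω → ℝ≥0∞}
    (h1 : Measurable f1) (h2 : Measurable f2) (h3 : Measurable f3) (h4 : Measurable f4) :
    (∫⁻ a, f1 a * f2 a * (f3 a * f4 a) ∂P) ^ 4 ≤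
      (∫⁻ a, f1 a ^ 4 ∂P) * (∫⁻ a, f2 a ^ 4 ∂P) * ((∫⁻ a, f3 a ^ 4 ∂P) * ∫⁻ a, f4 a ^ 4 ∂P) := by
  have a1 := vt_cs P (h1.mul h2) (h3.mul h4)
  have a2 := vt_cs P (h1.pow_const 2) (h2.pow_const 2)
  have a3 := vt_cs P (h3.pow_const 2) (h4.pow_const 2)
  simp only [Pi.mul_apply, ← pow_mul, mul_pow] at a1 a2 a3
  calc _ = ((∫⁻ a, f1 a * f2 a * (f3 a * f4 a) ∂P) ^ 2) ^ 2 := by rw [← pow_mul]
    _ ≤ ((∫⁻ a, f1 a ^ 2 * f2 a ^ 2 ∂P) * ∫⁻ a, f3 a ^ 2 * f4 a ^ 2 ∂P) ^ 2 :=
        ENNReal.pow_le_pow_left a1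
    _ ≤ _ := by
        rw [mul_pow]
        exact mul_le_mul' a2 a3

theorem vt_sum_pow_le {J : Type} (s : Finset J) (f : J → ℝ≥0∞) (k : ℕ) :
    (∑ j ∈ s, f j) ^ (k + 1) ≤ (s.card : ℝ≥0∞) ^ (k + 1) * ∑ j ∈ s, f j ^ (k + 1) := by
  rcases s.eq_empty_or_nonempty with rfl | hs
  · simp
  obtain ⟨j0, hj0, hmax⟩ := s.exists_max_image f hs
  calc (∑ j ∈ s, f j) ^ (k + 1) ≤ (s.card • f j0) ^ (k + 1) :=
        ENNReal.pow_le_pow_left (Finset.sum_le_card_nsmul s f _ hmax)
    _ = (s.card : ℝ≥0∞) ^ (k + 1) * f j0 ^ (k + 1) := by rw [nsmul_eq_mul, mul_pow]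
    _ ≤ _ := by
        gcongr
        exact Finset.single_le_sum (f := fun j => f j ^ (k + 1)) (fun _ _ => zero_le) hj0

variable {E : Type} [MeasurableSpace E] {ι : Type} [Fintype ι] [DecidableEq ι]

theorem vt_cond2 (μ : Measure E) [IsProbabilityMeasure μ] {i p : ι} (hip : i ≠ p)
    (Φ : (ι → E) → E → E → ℝ≥0∞)
    (hΦ : Measurable fun r : (ι → E) × E × E => Φ r.1 r.2.1 r.2.2)
    (hi : ∀ U v z x, Φ (Function.update U i v) z x = Φ U z x)
    (hp : ∀ U v z x, Φ (Function.update U p v) z x = Φ U z x) :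
    ∫⁻ U, Φ U (U i) (U p) ∂(iid ι μ) = ∫⁻ z, ∫⁻ x, ∫⁻ U, Φ U z x ∂(iid ι μ) ∂μ ∂μ := by
  rw [lintegral_condition μ i (fun U z => Φ U z (U p))
    (hΦ.comp (f := fun r : (ι → E) × E => (r.1, r.2, r.1 p)) (by fun_prop))
    (fun U x y => by rw [hi, Function.update_of_ne hip.symm])]
  refine lintegral_congr fun z => ?_
  exact lintegral_condition μ p (fun U x => Φ U z x)
    (hΦ.comp (f := fun r : (ι → E) × E => (r.1, z, r.2)) (by fun_prop))
    (fun U x y => hp U y z x)

theorem vt_cond3 (μ : Measure E) [IsProbabilityMeasure μ] {i p q : ι} (hip : i ≠ p) (hiq : i ≠ q)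
    (hpq : p ≠ q) (Φ : (ι → E) → E → E → E → ℝ≥0∞)
    (hΦ : Measurable fun r : (ι → E) × E × E × E => Φ r.1 r.2.1 r.2.2.1 r.2.2.2)
    (hi : ∀ U v z x y, Φ (Function.update U i v) z x y = Φ U z x y)
    (hp : ∀ U v z x y, Φ (Function.update U p v) z x y = Φ U z x y)
    (hq : ∀ U v z x y, Φ (Function.update U q v) z x y = Φ U z x y) :
    ∫⁻ U, Φ U (U i) (U p) (U q) ∂(iid ι μ) =
      ∫⁻ z, ∫⁻ x, ∫⁻ y, ∫⁻ U, Φ U z x y ∂(iid ι μ) ∂μ ∂μ ∂μ := by
  rw [lintegral_condition μ i (fun U z => Φ U z (U p) (U q))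
    (hΦ.comp (f := fun r : (ι → E) × E => (r.1, r.2, r.1 p, r.1 q)) (by fun_prop))
    (fun U x y => by rw [hi, Function.update_of_ne hip.symm, Function.update_of_ne hiq.symm])]
  refine lintegral_congr fun z => ?_
  exact vt_cond2 μ hpq (fun U x y => Φ U z x y)
    (hΦ.comp (f := fun r : (ι → E) × E × E => (r.1, z, r.2.1, r.2.2)) (by fun_prop))
    (fun U v x y => hp U v z x y) (fun U v x y => hq U v z x y)

end General

section Terms

variable {E : Type} [NormedAddCommGroup E] [NormedSpace ℝ E] {ι : Type}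

/-- indicator of visibility -/
noncomputable def Ind (U : ι → E) (S : Finset ι) (x y : E) : ℝ≥0∞ := if Vis U S x y then 1 else 0

/-- majorant of the add-one cost -/
noncomputable def Mx (D : ℕ) (U : ι → E) (S : Finset ι) (x : E) : ℝ≥0∞ :=
  ((vis U S x : ℝ≥0∞) + 3) ^ D

theorem Ind_pow (U : ι → E) (S : Finset ι) (x y : E) (k : ℕ) :
    Ind U S x y ^ (k + 1) = Ind U S x y := by
  unfold Ind
  split_ifs <;> simp

theorem Ind_anti (U : ι → E) {S S' : Finset ι} (h : S ⊆ S') (x y : E) :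
    Ind U S' x y ≤ Ind U S x y := by
  unfold Ind
  by_cases hv : Vis U S' x y
  · simp [hv, hv.anti h]
  · simp [hv]

theorem one_le_Mx (D : ℕ) (U : ι → E) (S : Finset ι) (x : E) : 1 ≤ Mx D U S x :=
  one_le_pow₀ (le_add_left (by norm_num))

theorem Ind_update [DecidableEq ι] (U : ι → E) {S : Finset ι} {p : ι} (hp : p ∉ S) (v x y : E) :
    Ind (Function.update U p v) S x y = Ind U S x y := by
  unfold Ind
  rw [Vis_congr (U' := U) fun j hj => Function.update_of_ne (by rintro rfl; exact hp hj) _ _]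

theorem Mx_update [DecidableEq ι] (D : ℕ) (U : ι → E) {S : Finset ι} {p : ι} (hp : p ∉ S)
    (v x : E) : Mx D (Function.update U p v) S x = Mx D U S x := by
  unfold Mx
  rw [vis_congr (U' := U) fun j hj => Function.update_of_ne (by rintro rfl; exact hp hj) _ _]

variable [FiniteDimensional ℝ E] [MeasurableSpace E] [BorelSpace E] [Fintype ι]

theorem measurable_Ind (S : Finset ι) {T : Type} [MeasurableSpace T] {u : T → ι → E}
    {x y : T → E} (hu : Measurable u) (hx : Measurable x) (hy : Measurable y) :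
    Measurable fun t => Ind (u t) S (x t) (y t) := by
  have h : Measurable fun q : (ι → E) × E × E => Ind q.1 S q.2.1 q.2.2 :=
    Measurable.ite (measurableSet_Vis S) measurable_const measurable_const
  exact h.comp (hu.prodMk (hx.prodMk hy))

theorem measurable_Mx (D : ℕ) (S : Finset ι) {T : Type} [MeasurableSpace T] {u : T → ι → E}
    {x : T → E} (hu : Measurable u) (hx : Measurable x) :
    Measurable fun t => Mx D (u t) S (x t) := by
  have h0 : Measurable fun t => vis (u t) S (x t) := (measurable_vis S).comp (hu.prodMk hx)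
  have h1 : Measurable fun k : ℕ => ((k : ℝ≥0∞) + 3) ^ D := measurable_from_top
  exact h1.comp h0

variable {μ : Measure E} [IsProbabilityMeasure μ] {D n : ℕ} {Z : Set E}
  {K : E → E → ℝ≥0∞} {w : E → ℝ≥0∞} {A B : ℝ}

omit [IsProbabilityMeasure μ] in
theorem lintegral_Ind (S : Finset ι) (x y : E) :
    ∫⁻ U, Ind U S x y ∂(iid ι μ) = iid ι μ {U | Vis U S x y} := by
  have hm : MeasurableSet {U : ι → E | Vis U S x y} :=
    (measurableSet_Vis S).preimage (f := fun U : ι → E => (U, x, y)) (by fun_prop)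
  rw [← lintegral_indicator_one hm]
  refine lintegral_congr fun U => ?_
  simp only [Ind, Set.indicator, Set.mem_ofPred_eq, Pi.one_apply]

omit [FiniteDimensional ℝ E] [BorelSpace E] [IsProbabilityMeasure μ] in
theorem Bounds.ae (h : Bounds μ D n Z K w A B) : ∀ᵐ x ∂μ, x ∈ Z := h.fullZ

omit [FiniteDimensional ℝ E] [BorelSpace E] [IsProbabilityMeasure μ] in
theorem Bounds.mom8 (h : Bounds μ D n Z K w A B) (S : Finset ι) (hS : n ≤ 2 * S.card) {x : E}
    (hx : x ∈ Z) : ∫⁻ U, Mx D U S x ^ 8 ∂(iid ι μ) ≤ w x := by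
  refine le_trans (le_of_eq (lintegral_congr fun U => ?_)) (h.mom ι S hS x hx)
  rw [Mx, ← pow_mul, mul_comm]

omit [FiniteDimensional ℝ E] [BorelSpace E] [IsProbabilityMeasure μ] in
theorem Bounds.one_le (h : Bounds μ D n Z K w A B) : 1 ≤ ENNReal.ofReal A :=
  ENNReal.one_le_ofReal.2 h.one_le_A

theorem Bounds.mom8' [DecidableEq ι] (h : Bounds μ D n Z K w A B) (S : Finset ι)
    (hS : n ≤ 2 * S.card) {p p' : ι} (hp' : p' ∉ S) {x : E} (hx : x ∈ Z) :
    ∫⁻ U, Mx D U S (if p' = p then x else U p') ^ 8 ∂(iid ι μ) ≤ ENNReal.ofReal A * w x := by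
  by_cases hpp : p' = p
  · simp only [hpp, if_true]
    exact (h.mom8 S hS hx).trans (le_mul_of_one_le_left zero_le h.one_le)
  · simp only [hpp, if_false]
    rw [lintegral_condition μ p' (fun U y => Mx D U S y ^ 8)
      ((measurable_Mx D S measurable_fst measurable_snd).pow_const 8)
      (fun U x y => by rw [Mx_update D U hp'])]
    refine le_trans (lintegral_mono_ae ?_)
      (h.int0.trans (le_mul_of_one_le_right zero_le (h.one_le_w x)))
    filter_upwards [h.ae] with y hy using h.mom8 S hS hy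

theorem Bounds.tail2 (h : Bounds μ D n Z K w A B) (S : Finset ι) (hS : n ≤ 2 * S.card) {x y : E}
    (hx : x ∈ Z) (hy : y ∈ Z) : ∫⁻ U, Ind U S x y ∂(iid ι μ) ≤ K x y ^ 2 := by
  rw [lintegral_Ind, ← ENNReal.pow_le_pow_left_iff two_ne_zero, ← pow_mul]
  refine le_trans ?_ (h.tail ι S hS x hx y hy)
  rw [sq]
  exact mul_le_of_le_one_left zero_le prob_le_one

/-- one conditioned point -/
theorem Bounds.term1 [DecidableEq ι] (h : Bounds μ D n Z K w A B) (S : Finset ι)
    (hS : n ≤ 2 * S.card) {p : ι} (hp : p ∉ S) :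
    ∫⁻ U, Ind U S (U p) (U p) * Mx D U S (U p) ^ 4 ∂(iid ι μ) ≤ ∫⁻ z, K z z * w z ∂μ := by
  rw [lintegral_condition μ p (fun U z => Ind U S z z * Mx D U S z ^ 4)
    ((measurable_Ind S measurable_fst measurable_snd measurable_snd).mul
      ((measurable_Mx D S measurable_fst measurable_snd).pow_const 4))
    (fun U x y => by rw [Mx_update D U hp, Ind_update U hp])]
  refine lintegral_mono_ae ?_
  filter_upwards [h.ae] with z hz
  rw [← ENNReal.pow_le_pow_left_iff two_ne_zero]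
  refine (vt_cs _ (measurable_Ind S measurable_id measurable_const measurable_const)
    ((measurable_Mx D S measurable_id measurable_const).pow_const 4)).trans ?_
  simp only [id, Ind_pow _ _ _ _ 1, ← pow_mul]
  rw [mul_pow]
  refine mul_le_mul' (h.tail2 S hS hz hz) ((h.mom8 S hS hz).trans ?_)
  rw [sq]
  exact le_mul_of_one_le_left zero_le (h.one_le_w z)

/-- two conditioned points -/
theorem Bounds.term2 [DecidableEq ι] (h : Bounds μ D n Z K w A B) (S1 S3 : Finset ι)
    (hS1 : n ≤ 2 * S1.card) (hS3 : n ≤ 2 * S3.card) {i p p' : ι} (hip : i ≠ p) (hi1 : i ∉ S1)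
    (hi3 : i ∉ S3) (hp1 : p ∉ S1) (hp3 : p ∉ S3) (hp' : p' ∉ S3) (hip' : i ≠ p') :
    ∫⁻ U, Ind U S1 (U i) (U p) * Mx D U S3 (U p') ^ 4 ∂(iid ι μ) ≤
      ENNReal.ofReal A * ∫⁻ z, ∫⁻ x, K z x * w x ∂μ ∂μ := by
  have hsel : ∀ {T : Type} [MeasurableSpace T] {u : T → ι → E} {x : T → E}, Measurable u →
      Measurable x → Measurable fun t => if p' = p then x t else u t p' := by
    intro T _ u x hu hx
    by_cases hpp : p' = p
    · simpa [hpp] using hx
    · simp only [hpp, if_false]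
      exact (measurable_pi_apply p').comp hu
  have e0 : ∀ U : ι → E, U p' = if p' = p then U p else U p' := fun U => by
    split_ifs with hpp
    · rw [hpp]
    · rfl
  have e1 := vt_cond2 μ hip
    (fun U z x => Ind U S1 z x * Mx D U S3 (if p' = p then x else U p') ^ 4)
    ((measurable_Ind S1 measurable_fst (by fun_prop) (by fun_prop)).mul
      ((measurable_Mx D S3 measurable_fst (hsel measurable_fst (by fun_prop))).pow_const 4))
    (fun U v z x => by
      rw [Mx_update D U hi3, Ind_update U hi1, Function.update_of_ne hip'.symm])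
    (fun U v z x => by
      rw [Mx_update D U hp3, Ind_update U hp1]
      by_cases hpp : p' = p
      · simp [hpp]
      · simp [hpp])
  simp only [← e0] at e1
  rw [e1, ← lintegral_const_mul' _ _ ENNReal.ofReal_ne_top]
  refine lintegral_mono_ae ?_
  filter_upwards [h.ae] with z hz
  rw [← lintegral_const_mul' _ _ ENNReal.ofReal_ne_top]
  refine lintegral_mono_ae ?_
  filter_upwards [h.ae] with x hx
  rw [← ENNReal.pow_le_pow_left_iff two_ne_zero]
  refine (vt_cs _ (measurable_Ind S1 measurable_id measurable_const measurable_const)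
    ((measurable_Mx D S3 measurable_id (hsel measurable_id measurable_const)).pow_const 4)).trans ?_
  simp only [id, Ind_pow _ _ _ _ 1, ← pow_mul]
  have h1 : 1 ≤ ENNReal.ofReal A * w x := one_le_mul h.one_le (h.one_le_w x)
  calc _ ≤ K z x ^ 2 * (ENNReal.ofReal A * w x) :=
        mul_le_mul' (h.tail2 S1 hS1 hz hx) (h.mom8' S3 hS3 hp' hx)
    _ ≤ K z x ^ 2 * (ENNReal.ofReal A * w x) ^ 2 := by
        gcongr
        rw [sq]
        exact le_mul_of_one_le_left zero_le h1
    _ = _ := by ring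

/-- three conditioned points -/
theorem Bounds.term3 [DecidableEq ι] (h : Bounds μ D n Z K w A B) (S1 S2 S3 S4 : Finset ι)
    (hS1 : n ≤ 2 * S1.card) (hS2 : n ≤ 2 * S2.card) (hS3 : n ≤ 2 * S3.card)
    (hS4 : n ≤ 2 * S4.card) {i p q p' q' : ι} (hip : i ≠ p) (hiq : i ≠ q) (hpq : p ≠ q)
    (h1 : i ∉ S1 ∧ p ∉ S1 ∧ q ∉ S1) (h2 : i ∉ S2 ∧ p ∉ S2 ∧ q ∉ S2)
    (h3 : i ∉ S3 ∧ p ∉ S3 ∧ q ∉ S3) (h4 : i ∉ S4 ∧ p ∉ S4 ∧ q ∉ S4) (hp' : p' ∉ S3)
    (hq' : q' ∉ S4) (hip' : i ≠ p') (hiq' : i ≠ q') (hqp' : q ≠ p') (hpq' : p ≠ q') :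
    ∫⁻ U, Ind U S1 (U i) (U p) * Ind U S2 (U i) (U q) *
        (Mx D U S3 (U p') ^ 2 * Mx D U S4 (U q') ^ 2) ∂(iid ι μ) ≤
      ENNReal.ofReal A * ∫⁻ z, (∫⁻ x, K z x * w x ∂μ) ^ 2 ∂μ := by
  have hsel : ∀ (p p' : ι) {T : Type} [MeasurableSpace T] {u : T → ι → E} {x : T → E},
      Measurable u → Measurable x → Measurable fun t => if p' = p then x t else u t p' := by
    intro p p' T _ u x hu hx
    by_cases hpp : p' = p
    · simpa [hpp] using hx
    · simp only [hpp, if_false]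
      exact (measurable_pi_apply p').comp hu
  have e0 : ∀ (p p' : ι) (U : ι → E), U p' = if p' = p then U p else U p' := fun p p' U => by
    split_ifs with hpp
    · rw [hpp]
    · rfl
  have e1 := vt_cond3 μ hip hiq hpq
    (fun U z x y => Ind U S1 z x * Ind U S2 z y *
      (Mx D U S3 (if p' = p then x else U p') ^ 2 * Mx D U S4 (if q' = q then y else U q') ^ 2))
    (((measurable_Ind S1 measurable_fst (by fun_prop) (by fun_prop)).mul
      (measurable_Ind S2 measurable_fst (by fun_prop) (by fun_prop))).mul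
      (((measurable_Mx D S3 measurable_fst
        (hsel _ _ measurable_fst (by fun_prop))).pow_const 2).mul
      ((measurable_Mx D S4 measurable_fst (hsel _ _ measurable_fst (by fun_prop))).pow_const 2)))
    (fun U v z x y => by
      rw [Mx_update D U h3.1, Mx_update D U h4.1, Ind_update U h1.1, Ind_update U h2.1,
        Function.update_of_ne hip'.symm, Function.update_of_ne hiq'.symm])
    (fun U v z x y => by
      rw [Mx_update D U h3.2.1, Mx_update D U h4.2.1, Ind_update U h1.2.1, Ind_update U h2.2.1,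
        Function.update_of_ne hpq'.symm]
      by_cases hpp : p' = p
      · simp [hpp]
      · simp [hpp])
    (fun U v z x y => by
      rw [Mx_update D U h3.2.2, Mx_update D U h4.2.2, Ind_update U h1.2.2, Ind_update U h2.2.2,
        Function.update_of_ne hqp'.symm]
      by_cases hqq : q' = q
      · simp [hqq]
      · simp [hqq])
  simp only [← e0] at e1
  rw [e1, ← lintegral_const_mul' _ _ ENNReal.ofReal_ne_top]
  refine lintegral_mono_ae ?_
  filter_upwards [h.ae] with z hz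
  have hm : Measurable fun x => K z x * w x :=
    (h.measK.comp (measurable_const.prodMk measurable_id)).mul h.measw
  rw [sq, ← lintegral_mul_const _ hm, ← lintegral_const_mul' _ _ ENNReal.ofReal_ne_top]
  refine lintegral_mono_ae ?_
  filter_upwards [h.ae] with x hx
  rw [← lintegral_const_mul _ hm, ← lintegral_const_mul' _ _ ENNReal.ofReal_ne_top]
  refine lintegral_mono_ae ?_
  filter_upwards [h.ae] with y hy
  rw [← ENNReal.pow_le_pow_left_iff four_ne_zero]
  refine (vt_cs4 _ (measurable_Ind S1 measurable_id measurable_const measurable_const)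
    (measurable_Ind S2 measurable_id measurable_const measurable_const)
    ((measurable_Mx D S3 measurable_id (hsel _ _ measurable_id measurable_const)).pow_const 2)
    ((measurable_Mx D S4 measurable_id
      (hsel _ _ measurable_id measurable_const)).pow_const 2)).trans ?_
  simp only [id, Ind_pow _ _ _ _ 3, ← pow_mul, lintegral_Ind]
  have hA := h.one_le
  have hx1 := h.one_le_w x
  have hy1 := h.one_le_w y
  calc _ ≤ K z x ^ 4 * K z y ^ 4 * ((ENNReal.ofReal A * w x) * (ENNReal.ofReal A * w y)) :=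
        mul_le_mul' (mul_le_mul' (h.tail ι S1 hS1 z hz x hx) (h.tail ι S2 hS2 z hz y hy))
          (mul_le_mul' (h.mom8' S3 hS3 hp' hx) (h.mom8' S4 hS4 hq' hy))
    _ = K z x ^ 4 * K z y ^ 4 * (ENNReal.ofReal A ^ 2 * (w x ^ 1 * w y ^ 1)) := by ring
    _ ≤ K z x ^ 4 * K z y ^ 4 * (ENNReal.ofReal A ^ 4 * (w x ^ 4 * w y ^ 4)) := by
        gcongr <;> norm_num
    _ = _ := by ring

end Terms

end Pool.Agent.Lib.MP_258d0c_pr
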